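import Pool.Agent.NC79.Block
import Pool.Agent.Duplex38.Hall
import Pool.Agent.Duplex38.Local

/-!
# Tables close to the addition table of a finite abelian group of large exponent
-/

namespace Pool.Agent.NC79

open Finset

section theta

variable {A : Type} [AddCommGroup A]

/-- elements as sums of representatives and elements of a subgroup -/
lemma theta_bij (K : AddSubgroup A) (σ : A ⧸ K → A) (hσ : Function.Bijective fun w => (σ w : A ⧸ K)) :
    Function.Bijective fun p : (A ⧸ K) × K => σ p.1 + (p.2 : A) := by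
  constructor
  · rintro ⟨w, k⟩ ⟨w', k'⟩ e
    simp only [] at e
    have h1 : (σ w : A ⧸ K) = (σ w' : A ⧸ K) := by
      rw [QuotientAddGroup.eq]
      have : -σ w + σ w' = (k : A) - k' := by
        have e2 : σ w = σ w' + (k' : A) - k := by rw [← e, add_sub_cancel_right]
        rw [e2]
        abel
      rw [this]
      exact K.sub_mem k.2 k'.2
    have h2 : w = w' := hσ.1 h1
    subst h2
    exact Prod.ext rfl (Subtype.ext (add_left_cancel e))
  · intro a
    obtain ⟨w, hw⟩ := hσ.2 (a : A ⧸ K)
    simp only [] at hw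
    rw [QuotientAddGroup.eq] at hw
    exact ⟨(w, ⟨-σ w + a, hw⟩), by simp⟩

end theta

section sums

variable {W : Type} [AddCommGroup W] [Fintype W]

/-- the sum of all elements lies in every subgroup of order two -/
lemma sum_mem (u : W) (hu : u ≠ 0) (hu2 : 2 • u = 0) : ∑ w : W, w = 0 ∨ ∑ w : W, w = u := by
  classical
  set H := AddSubgroup.zmultiples u with hH
  have hb := theta_bij H (fun w => Quotient.out w) (by
    have : (fun w : W ⧸ H => ((Quotient.out w : W) : W ⧸ H)) = id := funext fun w => QuotientAddGroup.out_eq' w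
    rw [this]
    exact Function.bijective_id)
  have h1 : ((∑ w : W, w : W) : W ⧸ H) = 0 := by
    rw [← (Equiv.ofBijective _ hb).sum_comp (fun w => w), Fintype.sum_prod_type]
    have hcard : Fintype.card H = 2 := by
      rw [← Nat.card_eq_fintype_card, Nat.card_zmultiples]
      exact addOrderOf_eq_prime hu2 hu
    have h2 : ∀ x : W ⧸ H, ((∑ y : H, (Equiv.ofBijective _ hb) (x, y) : W) : W ⧸ H) = 2 • x := fun x => by
      have h3 : ((∑ y : H, (Equiv.ofBijective _ hb) (x, y) : W) : W ⧸ H) = ∑ y : H, x := by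
        rw [← QuotientAddGroup.coe_mk', map_sum]
        refine sum_congr rfl fun y _ => ?_
        simp only [Equiv.ofBijective_apply, map_add, QuotientAddGroup.coe_mk', QuotientAddGroup.out_eq']
        have : ((y : W) : W ⧸ H) = 0 := (QuotientAddGroup.eq_zero_iff _).2 y.2
        rw [this, add_zero]
      rw [h3, sum_const, card_univ, hcard]
    rw [← QuotientAddGroup.coe_mk', map_sum]
    simp only [QuotientAddGroup.coe_mk', h2]
    rw [← smul_sum]
    exact Pool.Agent.Duplex38.two_nsmul_sum (Equiv.refl (W ⧸ H))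
  rw [QuotientAddGroup.eq_zero_iff, hH, AddSubgroup.mem_zmultiples_iff] at h1
  obtain ⟨k, hk⟩ := h1
  rw [← hk]
  rcases Int.even_or_odd' k with ⟨l, rfl | rfl⟩
  · left
    rw [mul_comm, mul_smul]
    have : (2 : ℤ) • u = 0 := by exact_mod_cast hu2
    rw [this, smul_zero]
  · right
    rw [add_smul, one_smul, mul_comm, mul_smul]
    have : (2 : ℤ) • u = 0 := by exact_mod_cast hu2
    rw [this, smul_zero, zero_add]

lemma sum_zero (u v : W) (hu : u ≠ 0) (hu2 : 2 • u = 0) (hv : v ≠ 0) (hv2 : 2 • v = 0) (huv : u ≠ v) :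
    ∑ w : W, w = 0 := by
  rcases sum_mem u hu hu2 with h1 | h1
  · exact h1
  · rcases sum_mem v hv hv2 with h2 | h2
    · exact h2
    · exact absurd (h1.symm.trans h2) huv

end sums

section main

variable {A : Type} [AddCommGroup A] [Finite A]

/-- an element of large order such that the sum of the elements of the quotient by its multiples is zero -/
lemma exists_element (he : 2 ≤ AddMonoid.exponent A) : ∃ g : A,
    (addOrderOf g = AddMonoid.exponent A ∨ 2 * addOrderOf g = AddMonoid.exponent A) ∧
    ∀ [Fintype (A ⧸ AddSubgroup.zmultiples g)], ∑ w : A ⧸ AddSubgroup.zmultiples g, w = 0 := by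
  classical
  obtain ⟨g, hg⟩ := AddMonoid.exists_addOrderOf_eq_exponent (G := A) AddMonoid.ExponentExists.of_finite
  set e := AddMonoid.exponent A with hedef
  set K := AddSubgroup.zmultiples g with hK
  by_cases hodd : Odd (Nat.card (A ⧸ K))
  · refine ⟨g, ?_, ?_⟩
    · exact Or.inl hg
    · intro _
      exact Pool.Agent.Duplex38.sum_odd (Equiv.refl (A ⧸ K)) hodd
  · rw [Nat.not_odd_iff_even] at hodd
    have _ : Fact (Nat.Prime 2) := ⟨Nat.prime_two⟩
    obtain ⟨x₀, hx₀⟩ := exists_prime_addOrderOf_dvd_card' (G := A ⧸ K) 2 hodd.two_dvd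
    obtain ⟨x, rfl⟩ := QuotientAddGroup.mk_surjective x₀
    have hxK : x ∉ K := fun hh => by
      rw [(QuotientAddGroup.eq_zero_iff x).2 hh, addOrderOf_zero] at hx₀
      omega
    have h2x : 2 • x ∈ K := by
      rw [← QuotientAddGroup.eq_zero_iff, QuotientAddGroup.mk_nsmul]
      rw [← hx₀]
      exact addOrderOf_nsmul_eq_zero _
    obtain ⟨m, hm⟩ := AddSubgroup.mem_zmultiples_iff.1 h2x
    have heven : 2 ∣ e := by
      have h3 : 2 ∣ Nat.card A := hodd.two_dvd.trans (AddSubgroup.card_quotient_dvd_card K)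
      obtain ⟨y, hy⟩ := exists_prime_addOrderOf_dvd_card' (G := A) 2 h3
      rw [← hy]
      exact AddMonoid.addOrder_dvd_exponent y
    obtain ⟨f, hf⟩ := heven
    have hf0 : 0 < f := by omega
    have hmeven : ∃ q : ℤ, m = 2 * q := by
      have h4 : (f * m : ℤ) • g = 0 := by
        rw [mul_smul, hm, ← natCast_zsmul, ← mul_smul]
        have h5 : ((f : ℤ) * ((2 : ℕ) : ℤ)) = ((e : ℕ) : ℤ) := by rw [hf]; push_cast; ring
        rw [h5, natCast_zsmul, hedef]
        exact AddMonoid.exponent_nsmul_eq_zero x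
      rw [← addOrderOf_dvd_iff_zsmul_eq_zero, hg, hf] at h4
      obtain ⟨q, hq⟩ := h4
      refine ⟨q, ?_⟩
      push_cast at hq
      have h6 : (f : ℤ) * (m - 2 * q) = 0 := by linear_combination hq
      rcases mul_eq_zero.1 h6 with h7 | h7
      · omega
      · omega
    obtain ⟨q, rfl⟩ := hmeven
    set x' : A := x - q • g with hx'
    have hx'2 : 2 • x' = 0 := by
      rw [hx', smul_sub, ← hm, ← natCast_zsmul, ← mul_smul]
      push_cast
      rw [sub_self]
    have hx'K : x' ∉ K := fun hh => hxK (by
      have : x = x' + q • g := by rw [hx', sub_add_cancel]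
      rw [this]
      exact K.add_mem hh (K.zsmul_mem (AddSubgroup.mem_zmultiples g) q))
    set K' := AddSubgroup.zmultiples (2 • g) with hK'
    have hle : K' ≤ K := by
      rw [hK', AddSubgroup.zmultiples_le]
      exact K.nsmul_mem (AddSubgroup.mem_zmultiples g) 2
    have hgK' : g ∉ K' := fun hh => by
      obtain ⟨n, hn⟩ := AddSubgroup.mem_zmultiples_iff.1 hh
      have h8 : (2 * n - 1 : ℤ) • g = 0 := by
        rw [sub_smul, one_smul, mul_comm, mul_smul]
        have h9 : (2 : ℤ) • g = 2 • g := by exact_mod_cast natCast_zsmul g 2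
        rw [h9, hn, sub_self]
      rw [← addOrderOf_dvd_iff_zsmul_eq_zero, hg, hf] at h8
      obtain ⟨r, hr⟩ := h8
      push_cast at hr
      have h10 : 2 * (n - f * r) = 1 := by linear_combination hr
      omega
    refine ⟨2 • g, ?_, ?_⟩
    · rw [addOrderOf_nsmul' g two_ne_zero, hg, hf]
      rw [Nat.gcd_mul_right_left, Nat.mul_div_cancel_left _ (by norm_num)]
      exact Or.inr rfl
    · intro _
      refine sum_zero (g : A ⧸ K') (x' : A ⧸ K') ?_ ?_ ?_ ?_ ?_
      · exact fun hh => hgK' ((QuotientAddGroup.eq_zero_iff _).1 hh)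
      · rw [← QuotientAddGroup.mk_nsmul, QuotientAddGroup.eq_zero_iff]
        exact AddSubgroup.mem_zmultiples _
      · exact fun hh => hx'K (hle ((QuotientAddGroup.eq_zero_iff _).1 hh))
      · rw [← QuotientAddGroup.mk_nsmul, hx'2]
        rfl
      · intro hh
        rw [QuotientAddGroup.eq] at hh
        refine hx'K ?_
        have : x' = g + (-g + x') := by abel
        rw [this]
        exact K.add_mem (AddSubgroup.mem_zmultiples g) (hle hh)

end main

end Pool.Agent.NC79
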