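import Pool.Agent.NC79.Six

/-!
# Exchanges through every cell of the base duplex of `ℤ/6j`
-/

namespace Pool.Agent.NC79

open Finset

variable {j : ℕ}

/-- `x` is the class of an integer between `a j / 12` and `b j / 12` -/
def In (j : ℕ) (x : ZMod (6 * j)) (a b : ℤ) : Prop :=
  ∃ z : ℤ, (z : ZMod (6 * j)) = x ∧ a * j ≤ 12 * z ∧ 12 * z ≤ b * j

def lo (m a b : ℤ) : ℤ := if 0 ≤ m then m * a else m * b

def hi (m a b : ℤ) : ℤ := if 0 ≤ m then m * b else m * a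

lemma In.smul {x : ZMod (6 * j)} {a b : ℤ} (h : In j x a b) (m : ℤ) : In j (m • x) (lo m a b) (hi m a b) := by
  obtain ⟨z, rfl, h1, h2⟩ := h
  refine ⟨m * z, by push_cast; rw [zsmul_eq_mul], ?_⟩
  unfold lo hi
  split_ifs with hm
  · constructor
    · nlinarith [mul_le_mul_of_nonneg_left h1 hm]
    · nlinarith [mul_le_mul_of_nonneg_left h2 hm]
  · have hm' : 0 ≤ -m := by omega
    constructor
    · nlinarith [mul_le_mul_of_nonneg_left h2 hm']
    · nlinarith [mul_le_mul_of_nonneg_left h1 hm']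

lemma In.add {x y : ZMod (6 * j)} {a b c d : ℤ} (h : In j x a b) (h' : In j y c d) :
    In j (x + y) (a + c) (b + d) := by
  obtain ⟨z, rfl, h1, h2⟩ := h
  obtain ⟨w, rfl, h3, h4⟩ := h'
  exact ⟨z + w, by push_cast; rfl, by linarith, by linarith⟩

lemma In.zero : In j (0 : ZMod (6 * j)) 0 0 := ⟨0, by simp, by simp, by simp⟩

/-- the slack caused by the offset -/
def sl (m : ℤ) : ℤ := if m = 0 then 0 else 1

lemma In.small (hj : 60 ≤ j) {m c : ℤ} (hm : |m| ≤ 1) (h0 : 0 ≤ c) (h2 : c ≤ 2) :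
    In j (m • ((1 + 2 * c : ℤ) : ZMod (6 * j))) (-sl m) (sl m) := by
  refine ⟨m * (1 + 2 * c), by push_cast; rw [zsmul_eq_mul], ?_⟩
  have hj' : (60 : ℤ) ≤ j := by exact_mod_cast hj
  rw [abs_le] at hm
  obtain ⟨h3, h4⟩ := hm
  unfold sl
  interval_cases m <;> simp <;> omega

/-- the lower end of the range of a row -/
def rowLo (P : Pat) (s t v : ℤ) (r : Fin 9) : ℤ :=
  lo (P.p r) s (s + 1) + lo (P.q r) t (t + 1) + (0 + -sl (P.cb r) + lo (P.cv r) v (v + 3))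

/-- the upper end of the range of a row -/
def rowHi (P : Pat) (s t v : ℤ) (r : Fin 9) : ℤ :=
  hi (P.p r) s (s + 1) + hi (P.q r) t (t + 1) + (0 + sl (P.cb r) + hi (P.cv r) v (v + 3))

/-- the offsets of the two families near the rows with `e = c` -/
def oc (j : ℕ) (c : ℤ) (b : Bool) : ZMod (6 * j) := if b then ((1 + 2 * c : ℤ) : ZMod (6 * j)) else 0

lemma row_in (hj : 60 ≤ j) (P : Pat) (hcb : ∀ r, |P.cb r| ≤ 1) {c : ℤ} (h0 : 0 ≤ c) (h2 : c ≤ 2)
    {s t w : ℤ} {v : ZMod (6 * j)} {x : ZMod (6 * j) × ZMod (6 * j)} (hs : In j x.1 s (s + 1))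
    (ht : In j x.2 t (t + 1)) (hv : In j v w (w + 3)) (r : Fin 9) :
    In j (P.row (oc j c) v x r) (rowLo P s t w r) (rowHi P s t w r) := by
  unfold Pat.row Pat.cst rowLo rowHi
  refine ((hs.smul _).add (ht.smul _)).add (In.add (In.add ?_ ?_) (hv.smul _))
  · simp only [oc]
    simpa using In.zero
  · simp only [oc, if_true]
    exact In.small hj (hcb r) h0 h2

/-- the interval from `L` to `H` lies in an arc where `e = c` -/
def arcAt (c L H m : ℤ) : Prop :=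
  (c = 0 ∧ -12 + 72 * m ≤ L ∧ H ≤ 11 + 72 * m) ∨ (c = 1 ∧ 12 + 72 * m ≤ L ∧ H ≤ 24 + 72 * m) ∨
    (c = 1 ∧ 49 + 72 * m ≤ L ∧ H ≤ 59 + 72 * m) ∨ (c = 2 ∧ 25 + 72 * m ≤ L ∧ H ≤ 48 + 72 * m)

instance (c L H m : ℤ) : Decidable (arcAt c L H m) := by
  unfold arcAt
  infer_instance

lemma ex_of_int (hj : 60 ≤ j) {x : ZMod (6 * j)} {z c : ℤ} (hz : (z : ZMod (6 * j)) = x)
    (h : (c = 0 ∧ -12 * (j : ℤ) ≤ 12 * z ∧ 12 * z ≤ 11 * j) ∨ (c = 1 ∧ 12 * (j : ℤ) ≤ 12 * z ∧ 12 * z ≤ 24 * j) ∨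
      (c = 1 ∧ 49 * (j : ℤ) ≤ 12 * z ∧ 12 * z ≤ 59 * j) ∨ (c = 2 ∧ 25 * (j : ℤ) ≤ 12 * z ∧ 12 * z ≤ 48 * j)) :
    ex j x.val = c := by
  have _ : NeZero (6 * j) := ⟨by omega⟩
  have hX := ZMod.val_lt x
  have e2 : ((x.val : ℤ) : ZMod (6 * j)) = x := by
    rw [Int.cast_natCast, ZMod.natCast_zmod_val]
  obtain ⟨q, hq⟩ := zeq' (hz.trans e2.symm)
  generalize x.val = X at *
  push_cast at hq
  have h5 : 6 * (j : ℤ) * q = 6 * (j * q) := by ring
  rw [h5] at hq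
  have hj' : (0 : ℤ) < j := by omega
  have h3 : q ≤ 1 := by
    by_contra hcon
    have : (j : ℤ) * 2 ≤ j * q := mul_le_mul_of_nonneg_left (by omega) hj'.le
    generalize (j : ℤ) * q = p at *
    omega
  have h4 : 0 ≤ q := by
    by_contra hcon
    have : (j : ℤ) * q ≤ j * (-1) := mul_le_mul_of_nonneg_left (by omega) hj'.le
    generalize (j : ℤ) * q = p at *
    omega
  have hs := ex_spec j X
  interval_cases q <;> omega

lemma ex_of_in (hj : 60 ≤ j) {x : ZMod (6 * j)} {c L H m : ℤ} (h : In j x L H) (ha : arcAt c L H m) :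
    ex j x.val = c := by
  obtain ⟨z, hz, h1, h2⟩ := h
  have hj' : (0 : ℤ) ≤ j := by omega
  refine ex_of_int hj (z := z - 6 * j * m) (by rw [← hz]; exact zeq m (by push_cast; ring)) ?_
  rcases ha with ⟨h3, h4, h5⟩ | ⟨h3, h4, h5⟩ | ⟨h3, h4, h5⟩ | ⟨h3, h4, h5⟩
  · exact Or.inl ⟨h3, by nlinarith [mul_le_mul_of_nonneg_right h4 hj'],
      by nlinarith [mul_le_mul_of_nonneg_right h5 hj']⟩
  · exact Or.inr (Or.inl ⟨h3, by nlinarith [mul_le_mul_of_nonneg_right h4 hj'],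
      by nlinarith [mul_le_mul_of_nonneg_right h5 hj']⟩)
  · exact Or.inr (Or.inr (Or.inl ⟨h3, by nlinarith [mul_le_mul_of_nonneg_right h4 hj'],
      by nlinarith [mul_le_mul_of_nonneg_right h5 hj']⟩))
  · exact Or.inr (Or.inr (Or.inr ⟨h3, by nlinarith [mul_le_mul_of_nonneg_right h4 hj'],
      by nlinarith [mul_le_mul_of_nonneg_right h5 hj']⟩))

/-- many elements between `s j / 12` and `(s + 1) j / 12` -/
lemma box (hj : 60 ≤ j) (s : ℤ) : ∃ X : Finset (ZMod (6 * j)), X.card = j / 12 ∧ ∀ x ∈ X, In j x s (s + 1) := by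
  classical
  set p : ℤ := s * j with hp
  refine ⟨(range (j / 12)).image fun a : ℕ => ((-((-p) / 12) + a : ℤ) : ZMod (6 * j)), ?_, ?_⟩
  · rw [card_image_of_injOn, card_range]
    intro a ha b hb e
    simp only [coe_range, Set.mem_Iio] at ha hb
    simp only [] at e
    obtain ⟨q, hq⟩ := zeq' e
    have h5 : ((6 * j : ℕ) : ℤ) * q = 6 * (j * q) := by push_cast; ring
    rw [h5] at hq
    have hj' : (0 : ℤ) < j := by omega
    have h3 : q ≤ 0 := by
      by_contra hcon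
      have : (j : ℤ) * 1 ≤ j * q := mul_le_mul_of_nonneg_left (by omega) hj'.le
      generalize (j : ℤ) * q = p at *
      omega
    have h4 : 0 ≤ q := by
      by_contra hcon
      have : (j : ℤ) * q ≤ j * (-1) := mul_le_mul_of_nonneg_left (by omega) hj'.le
      generalize (j : ℤ) * q = p at *
      omega
    have h6 : q = 0 := le_antisymm h3 h4
    subst h6
    omega
  · intro x hx
    obtain ⟨a, ha, rfl⟩ := mem_image.1 hx
    rw [mem_range] at ha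
    refine ⟨_, rfl, ?_, ?_⟩
    · rw [← hp]
      omega
    · rw [add_mul, ← hp, one_mul]
      omega

/-- the class of the cells of arcs -/
def cls : Fin 24 → ℤ := ![0, 0, 0, 0, 1, 1, 1, 1, 2, 2, 2, 2, 2, 2, 2, 2, 1, 1, 1, 1, 0, 0, 0, 0]

lemma cell_of (hj : 60 ≤ j) (v : ZMod (6 * j)) :
    ∃ i : Fin 24, cls i = ex j v.val ∧ In j v (3 * (i : ℕ)) (3 * (i : ℕ) + 3) := by
  have _ : NeZero (6 * j) := ⟨by omega⟩
  have hX := ZMod.val_lt v
  have e2 : ((v.val : ℤ) : ZMod (6 * j)) = v := by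
    rw [Int.cast_natCast, ZMod.natCast_zmod_val]
  have hs := ex_spec j v.val
  obtain ⟨i, hi, h1, h2⟩ : ∃ i : ℕ, i < 24 ∧ i * j ≤ 4 * v.val ∧ 4 * v.val ≤ (i + 1) * j ∧
      (v.val < j ∧ i < 4 ∨ (j ≤ v.val ∧ v.val < 2 * j + 1) ∧ 4 ≤ i ∧ i < 8 ∨
        (2 * j + 1 ≤ v.val ∧ v.val < 4 * j + 1) ∧ 8 ≤ i ∧ i < 16 ∨
        (4 * j + 1 ≤ v.val ∧ v.val < 5 * j) ∧ 16 ≤ i ∧ i < 20 ∨ 5 * j ≤ v.val ∧ 20 ≤ i) := by
    by_cases h3 : v.val = 2 * j
    · exact ⟨7, by norm_num, by omega, by omega, by omega⟩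
    by_cases h4 : v.val = 4 * j
    · exact ⟨15, by norm_num, by omega, by omega, by omega⟩
    have h5 : 0 < j := by omega
    refine ⟨4 * v.val / j, (Nat.div_lt_iff_lt_mul h5).2 (by omega), Nat.div_mul_le_self _ _,
      (Nat.lt_div_mul_add h5).le.trans (le_of_eq (by ring)), ?_⟩
    have hd : ∀ b, b * j ≤ 4 * v.val → b ≤ 4 * v.val / j := fun b hb => (Nat.le_div_iff_mul_le h5).2 hb
    have hu : ∀ b, 4 * v.val < b * j → 4 * v.val / j < b := fun b hb => (Nat.div_lt_iff_lt_mul h5).2 hb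
    rcases hs with h6 | h6 | h6 | h6 | h6
    · exact Or.inl ⟨h6.1, hu 4 (by omega)⟩
    · exact Or.inr (Or.inl ⟨h6.1, hd 4 (by omega), hu 8 (by omega)⟩)
    · exact Or.inr (Or.inr (Or.inl ⟨h6.1, hd 8 (by omega), hu 16 (by omega)⟩))
    · exact Or.inr (Or.inr (Or.inr (Or.inl ⟨h6.1, hd 16 (by omega), hu 20 (by omega)⟩)))
    · exact Or.inr (Or.inr (Or.inr (Or.inr ⟨h6.1, hd 20 (by omega)⟩)))
  refine ⟨⟨i, hi⟩, ?_, v.val, e2, ?_, ?_⟩
  · have h3 := h2.2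
    interval_cases i <;> simp only [cls] <;> first | (change (0 : ℤ) = _; omega) | (change (1 : ℤ) = _; omega) | (change (2 : ℤ) = _; omega)
  · have : ((i * j : ℕ) : ℤ) ≤ ((4 * v.val : ℕ) : ℤ) := by exact_mod_cast h1
    push_cast at this
    simp only []
    linarith
  · have : ((4 * v.val : ℕ) : ℤ) ≤ (((i + 1) * j : ℕ) : ℤ) := by exact_mod_cast h2.1
    push_cast at this
    simp only []
    linarith

end Pool.Agent.NC79
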