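import Pool.Agent.NC79.Cover

/-!
# Large finite abelian groups are robust
-/

namespace Pool.Agent.NC79

open Finset Pool.Agent.Duplex38

/-- the finite abelian group `A` is large in comparison with `t` -/
def Large (t : ℕ) (A : Type) [AddCommGroup A] : Prop :=
  400000000 * (t + 1) ≤ AddMonoid.exponent A ∨ (IsAddCyclic A ∧ 200000000 * (t + 1) ≤ Nat.card A) ∨
  9 * (t + 1) * AddMonoid.exponent A < Nat.card A ∨ 4000000000 * (t + 1) ^ 2 ≤ Nat.card A

section fibres

variable {A : Type} [AddCommGroup A] {P P' P'' : Type}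

/-- a fibre of `P × A → P × (A ⧸ H)` -/
def fibreEquiv (H : AddSubgroup A) (x : P × (A ⧸ H)) (σ : A) (hσ : (σ : A ⧸ H) = x.2) :
    {r : P × A // (r.1, (r.2 : A ⧸ H)) = x} ≃ H where
  toFun r := ⟨-σ + r.1.2, by
    rw [← QuotientAddGroup.eq, hσ]
    exact (Prod.ext_iff.1 r.2).2.symm⟩
  invFun k := ⟨(x.1, σ + k), Prod.ext rfl (by
    change ((σ + (k : A) : A) : A ⧸ H) = x.2
    rw [QuotientAddGroup.mk_add, hσ, (QuotientAddGroup.eq_zero_iff _).2 k.2, add_zero])⟩
  left_inv r := by
    refine Subtype.ext (Prod.ext ?_ ?_)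
    · exact (Prod.ext_iff.1 r.2).1.symm
    · change σ + (-σ + r.1.2) = r.1.2
      rw [add_neg_cancel_left]
  right_inv k := by
    refine Subtype.ext ?_
    change -σ + (σ + (k : A)) = k
    rw [neg_add_cancel_left]

/-- the projection of a product onto the product with a factor group -/
def prodEpi (Q : P → P' → P'') (H : AddSubgroup A) : Epi (prodTable Q A) (prodTable Q (A ⧸ H)) where
  row r := (r.1, (r.2 : A ⧸ H))
  col r := (r.1, (r.2 : A ⧸ H))
  sym r := (r.1, (r.2 : A ⧸ H))
  row_surj x := by
    obtain ⟨a, ha⟩ := QuotientAddGroup.mk_surjective x.2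
    exact ⟨(x.1, a), Prod.ext rfl ha⟩
  col_surj x := by
    obtain ⟨a, ha⟩ := QuotientAddGroup.mk_surjective x.2
    exact ⟨(x.1, a), Prod.ext rfl ha⟩
  sym_surj x := by
    obtain ⟨a, ha⟩ := QuotientAddGroup.mk_surjective x.2
    exact ⟨(x.1, a), Prod.ext rfl ha⟩
  map _ _ := rfl

lemma prod_block (Q : P → P' → P'') (H : AddSubgroup A) (x : P × (A ⧸ H)) (y : P' × (A ⧸ H)) :
    ∃ (α : {r // (prodEpi Q H).row r = x} ≃ H) (β : {c // (prodEpi Q H).col c = y} ≃ H)
      (γ : {s // (prodEpi Q H).sym s = prodTable Q (A ⧸ H) x y} ≃ H),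
      ∀ a b, γ ((prodEpi Q H).block rfl a b) = α a + β b := by
  refine ⟨fibreEquiv H x (Quotient.out x.2) (QuotientAddGroup.out_eq' x.2),
    fibreEquiv H y (Quotient.out y.2) (QuotientAddGroup.out_eq' y.2),
    fibreEquiv H (prodTable Q (A ⧸ H) x y) (Quotient.out x.2 + Quotient.out y.2) ?_, fun a b => Subtype.ext ?_⟩
  · rw [QuotientAddGroup.mk_add]
    change ((Quotient.out x.2 : A) : A ⧸ H) + ((Quotient.out y.2 : A) : A ⧸ H) = x.2 + y.2
    rw [QuotientAddGroup.out_eq', QuotientAddGroup.out_eq']
  · change -(Quotient.out x.2 + Quotient.out y.2) + (a.1.2 + b.1.2) =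
      (-(Quotient.out x.2) + a.1.2) + (-(Quotient.out y.2) + b.1.2)
    abel

end fibres

section base

variable {A : Type} [AddCommGroup A] [Finite A] {t : ℕ}

lemma robust_addCyclic [IsAddCyclic A] (h : 200000000 * (t + 1) ≤ Nat.card A) : Robust t (fun x y : A => x + y) := by
  set ι : ZMod (Nat.card A) ≃+ A := zmodAddCyclicAddEquiv (G := A) inferInstance with hι
  refine robust_of_isotopic (T' := fun x y : ZMod (Nat.card A) => x + y) ι.symm.toEquiv ι.symm.toEquiv ι.symm.toEquiv
    (fun x y => ?_) (robust_cyclic h)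
  exact map_add ι.symm x y

/-- products with an abelian group which has a large cyclic subgroup -/
lemma robust_prod_cyclic {P P' P'' : Type} [Finite P] [Finite P'] (Q : P → P' → P'') (H : AddSubgroup A)
    [IsAddCyclic H] (hH : 200000000 * (t + 1) ≤ Nat.card H) (hT : HasTransversal (prodTable Q (A ⧸ H))) :
    Robust t (prodTable Q A) := by
  obtain ⟨π, hπ⟩ := hT
  refine robust_of_blocks (prodEpi Q H) π hπ fun x => ?_
  obtain ⟨α, β, γ, h⟩ := prod_block Q H x (π x)
  exact robust_of_isotopic α β γ h (robust_addCyclic hH)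

lemma zeta_square (S : Type) [AddCommGroup S] : Zeta (S × S) := by
  refine ⟨{ toFun := fun p => (-p.2, p.1 - p.2), map_zero' := by simp, map_add' := fun p q => ?_ }, fun p => ?_⟩
  · refine Prod.ext ?_ ?_
    · change -(p.2 + q.2) = -p.2 + -q.2
      abel
    · change p.1 + q.1 - (p.2 + q.2) = p.1 - p.2 + (q.1 - q.2)
      abel
  · refine Prod.ext ?_ ?_
    · change -(p.1 - p.2) + -p.2 + p.1 = 0
      abel
    · change -p.2 - (p.1 - p.2) + (p.1 - p.2) + p.2 = 0
      abel

lemma zeta_congr {G G' : Type} [AddCommGroup G] [AddCommGroup G'] (e : G ≃+ G') (h : Zeta G) : Zeta G' := by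
  obtain ⟨z, hz⟩ := h
  refine ⟨(e.toAddMonoidHom.comp z).comp e.symm.toAddMonoidHom, fun x => ?_⟩
  have h1 := congrArg e (hz (e.symm x))
  rw [map_add, map_add, map_zero, e.apply_symm_apply] at h1
  change e (z (e.symm (e (z (e.symm x))))) + e (z (e.symm x)) + x = 0
  rw [e.symm_apply_apply]
  exact h1

/-- products with an abelian group which has a large subgroup with `ζ` -/
lemma robust_prod_zeta {P P' P'' : Type} [Finite P] [Finite P'] (Q : P → P' → P'') (H : AddSubgroup A)
    (hz : Zeta H) (hH : 9 * (t + 1) < Nat.card H) (hQ : Pair Q Q) : Robust t (prodTable Q A) := by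
  refine robust_of_squares (prodEpi Q H) (pair_prod hQ) fun x y => ?_
  obtain ⟨α, β, γ, h⟩ := prod_block Q H x y
  exact ⟨H, inferInstance, α, β, γ, inferInstance, hz, hH, h⟩

/-- products with an abelian group whose order is large in comparison with its exponent -/
lemma robust_prod_square {P P' P'' : Type} [Finite P] [Finite P'] (Q : P → P' → P'')
    (hA : 9 * (t + 1) * AddMonoid.exponent A < Nat.card A) (hQ : Pair Q Q) : Robust t (prodTable Q A) := by
  obtain ⟨S, iS, fS, f, hf, hcard⟩ := exists_square _ A rfl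
  set e : S × S ≃+ f.range := AddMonoidHom.ofInjective hf with he
  refine robust_prod_zeta Q f.range (zeta_congr e (zeta_square S)) ?_ hQ
  rw [← Nat.card_congr e.toEquiv, Nat.card_prod]
  have h1 : 0 < AddMonoid.exponent A := Nat.pos_of_ne_zero AddMonoid.exponent_ne_zero_of_finite
  have h2 := lt_of_lt_of_le hA hcard
  rw [mul_comm (9 * (t + 1)), pow_two] at h2
  exact Nat.lt_of_mul_lt_mul_left h2

/-- a large abelian group, in the sense of orders, has a large exponent or an order large compared with the exponent -/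
lemma exponent_or (h : 4000000000 * (t + 1) ^ 2 ≤ Nat.card A) :
    400000000 * (t + 1) ≤ AddMonoid.exponent A ∨ 9 * (t + 1) * AddMonoid.exponent A < Nat.card A := by
  by_contra hcon
  push Not at hcon
  obtain ⟨h1, h2⟩ := hcon
  have h3 : 9 * (t + 1) * AddMonoid.exponent A ≤ 9 * (t + 1) * (400000000 * (t + 1)) := by gcongr
  nlinarith

lemma trivial_transversal : HasTransversal (fun _ _ : Unit => ()) :=
  ⟨Equiv.refl _, fun _ _ _ => rfl, fun _ => ⟨(), rfl⟩⟩

/-- large abelian groups are robust -/
theorem robust_abelian (h : Large t A) : Robust t (fun x y : A => x + y) := by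
  have key : ∀ {t : ℕ}, Robust t (prodTable (fun _ _ : Unit => ()) A) → Robust t (fun x y : A => x + y) := fun h => by
    refine robust_of_isotopic (T' := prodTable (fun _ _ : Unit => ()) A) (Equiv.punitProd A).symm
      (Equiv.punitProd A).symm (Equiv.punitProd A).symm (fun x y => rfl) h
  have big : 400000000 * (t + 1) ≤ AddMonoid.exponent A → Robust t (fun x y : A => x + y) := fun h => by
    obtain ⟨g, hg, hsum⟩ := exists_element (A := A) (by omega)
    refine key (robust_prod_cyclic _ (AddSubgroup.zmultiples g) ?_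
      (transversal_of_transversal hsum _ trivial_transversal))
    rw [Nat.card_zmultiples]
    omega
  have square : 9 * (t + 1) * AddMonoid.exponent A < Nat.card A → Robust t (fun x y : A => x + y) := fun h =>
    key (robust_prod_square _ h (pair_of_transversals trivial_transversal trivial_transversal))
  rcases h with h | ⟨h, h'⟩ | h | h
  · exact big h
  · exact robust_addCyclic h'
  · exact square h
  · exact (exponent_or h).elim big square

end base

end Pool.Agent.NC79
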