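import Pool.Agent.NC79.PairFix
import Pool.Agent.NC79.Base

/-!
# Putting cells in the blocks over a duplex together
-/

namespace Pool.Agent.NC79

open Finset Pool.Agent.Duplex38

section assemble

variable {R C S R' C' S' G : Type} [Finite R] [Finite C] {L : R → C → S} {L' : R' → C' → S'} (h : Epi L L')
  {D : Set (R' × C')} (hD : IsDuplex L' D) [AddCommGroup G] [Finite G]
  (α : ∀ r' (_ : C'), {r // h.row r = r'} ≃ G) (β : ∀ c', {c // h.col c = c'} ≃ G)
  (γ : ∀ r' c', {s // h.sym s = L' r' c'} ≃ G)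
  (hγ : ∀ r' c' a b, γ r' c' (h.block rfl a b) = α r' c' a + β c' b) (Te : R' → C' → Set (G × G))

/-- the chosen cells -/
def cells (D : Set (R' × C')) : Set (R × C) :=
  {x | (h.row x.1, h.col x.2) ∈ D ∧
    (α (h.row x.1) (h.col x.2) ⟨x.1, rfl⟩, β (h.col x.2) ⟨x.2, rfl⟩) ∈ Te (h.row x.1) (h.col x.2)}

omit [Finite R] [Finite C] [AddCommGroup G] [Finite G] in
lemma mem_cells {r : R} {c : C} {r' : R'} {c' : C'} (hr : h.row r = r') (hc : h.col c = c') :
    (r, c) ∈ cells h α β Te D ↔ (r', c') ∈ D ∧ (α r' c' ⟨r, hr⟩, β c' ⟨c, hc⟩) ∈ Te r' c' := by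
  subst hr hc
  exact Iff.rfl

include hD hγ

/-- the chosen cells form a duplex -/
theorem assemble (hrow : ∀ r' c', (r', c') ∈ D → ∀ g, ∃! g', (g, g') ∈ Te r' c')
    (hcol : ∀ c' g', {q : R' × G | (q.1, c') ∈ D ∧ (q.2, g') ∈ Te q.1 c'}.ncard = 2)
    (hsym : ∀ s, {q : (R' × C') × (G × G) | q.1 ∈ D ∧ q.2 ∈ Te q.1.1 q.1.2 ∧
      ∃ hs : h.sym s = L' q.1.1 q.1.2, q.2.1 + q.2.2 = γ q.1.1 q.1.2 ⟨s, hs⟩}.ncard = 2) :
    IsDuplex L (cells h α β Te D) := by
  refine ⟨fun r => ?_, fun c => ?_, fun s => ?_⟩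
  · rw [← hD.1 (h.row r)]
    refine Set.ncard_congr (fun c _ => h.col c) (fun c hc => hc.1) (fun c₁ c₂ h₁ h₂ e => ?_) fun c' hc' => ?_
    · have m₁ := (mem_cells h α β Te (D := D) (rfl : h.row r = h.row r) e).1 h₁
      have m₂ := (mem_cells h α β Te (D := D) (rfl : h.row r = h.row r) (rfl : h.col c₂ = h.col c₂)).1 h₂
      obtain ⟨g', -, hg'⟩ := hrow _ _ m₁.1 (α (h.row r) (h.col c₂) ⟨r, rfl⟩)
      have e1 := (hg' _ m₁.2).trans (hg' _ m₂.2).symm
      exact congrArg Subtype.val ((β (h.col c₂)).injective e1)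
    · obtain ⟨g', hg', -⟩ := hrow _ _ hc' (α (h.row r) c' ⟨r, rfl⟩)
      refine ⟨((β c').symm g' : C), ?_, ((β c').symm g').2⟩
      refine (mem_cells h α β Te rfl ((β c').symm g').2).2 ⟨hc', ?_⟩
      rw [Subtype.coe_eta, Equiv.apply_symm_apply]
      exact hg'
  · rw [← hcol (h.col c) (β (h.col c) ⟨c, rfl⟩)]
    refine Set.ncard_congr (fun r _ => (h.row r, α (h.row r) (h.col c) ⟨r, rfl⟩)) (fun r hr => hr)
      (fun r₁ r₂ h₁ h₂ e => ?_) fun q hq => ?_
    · obtain ⟨e1, e2⟩ := Prod.mk.inj e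
      have key : ∀ r' (h1 : h.row r₁ = r') (h2 : h.row r₂ = r'),
          α r' (h.col c) ⟨r₁, h1⟩ = α r' (h.col c) ⟨r₂, h2⟩ → r₁ = r₂ := fun r' h1 h2 e =>
        congrArg Subtype.val ((α r' (h.col c)).injective e)
      have e3 : ∀ r' (h1 : h.row r₁ = r'), α (h.row r₁) (h.col c) ⟨r₁, rfl⟩ = α r' (h.col c) ⟨r₁, h1⟩ := by
        intro r' h1
        subst h1
        rfl
      exact key (h.row r₂) e1 rfl ((e3 _ e1).symm.trans e2)
    · obtain ⟨r', g⟩ := q
      have e1 : h.row ((α r' (h.col c)).symm g : R) = r' := ((α r' (h.col c)).symm g).2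
      refine ⟨((α r' (h.col c)).symm g : R), ?_, ?_⟩
      · refine (mem_cells h α β Te e1 rfl).2 ⟨hq.1, ?_⟩
        rw [Subtype.coe_eta, Equiv.apply_symm_apply]
        exact hq.2
      · have key : ∀ r'' (h1 : h.row ((α r' (h.col c)).symm g : R) = r''),
            (r'', α r'' (h.col c) ⟨((α r' (h.col c)).symm g : R), h1⟩) = (r', g) := by
          intro r'' h1
          have : r'' = r' := h1.symm.trans e1
          subst this
          rw [Subtype.coe_eta, Equiv.apply_symm_apply]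
        exact key _ rfl
  · rw [← hsym s]
    refine Set.ncard_congr (fun x _ => ((h.row x.1, h.col x.2),
      (α (h.row x.1) (h.col x.2) ⟨x.1, rfl⟩, β (h.col x.2) ⟨x.2, rfl⟩))) (fun x hx => ?_)
      (fun x₁ x₂ h₁ h₂ e => ?_) fun q hq => ?_
    · obtain ⟨hx, rfl⟩ := hx
      refine ⟨hx.1, hx.2, h.map x.1 x.2, ?_⟩
      rw [← hγ]
      rfl
    · obtain ⟨e1, e2⟩ := Prod.mk.inj e
      obtain ⟨e3, e4⟩ := Prod.mk.inj e1
      obtain ⟨e5, e6⟩ := Prod.mk.inj e2
      obtain ⟨r₁, c₁⟩ := x₁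
      obtain ⟨r₂, c₂⟩ := x₂
      simp only [] at e3 e4 e5 e6
      have k1 : ∀ r' c' (h1 : h.row r₁ = r') (h2 : h.row r₂ = r'),
          α r' c' ⟨r₁, h1⟩ = α r' c' ⟨r₂, h2⟩ → r₁ = r₂ := fun r' c' h1 h2 e =>
        congrArg Subtype.val ((α r' c').injective e)
      have k2 : ∀ r' c' (h1 : h.row r₁ = r') (h2 : h.col c₁ = c'),
          α (h.row r₁) (h.col c₁) ⟨r₁, rfl⟩ = α r' c' ⟨r₁, h1⟩ := by
        intro r' c' h1 h2
        subst h1 h2
        rfl
      have k3 : ∀ c' (h1 : h.col c₁ = c'), β (h.col c₁) ⟨c₁, rfl⟩ = β c' ⟨c₁, h1⟩ := by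
        intro c' h1
        subst h1
        rfl
      have k4 : r₁ = r₂ := k1 (h.row r₂) (h.col c₂) e3 rfl ((k2 _ _ e3 e4).symm.trans e5)
      have k5 : c₁ = c₂ := congrArg Subtype.val ((β (h.col c₂)).injective ((k3 _ e4).symm.trans e6) :
        (⟨c₁, e4⟩ : {c // h.col c = h.col c₂}) = ⟨c₂, rfl⟩)
      rw [k4, k5]
    · obtain ⟨⟨r', c'⟩, ⟨g, g'⟩⟩ := q
      obtain ⟨q1, q2, q3, q4⟩ := hq
      simp only [] at q1 q2 q3 q4
      have e1 : h.row ((α r' c').symm g : R) = r' := ((α r' c').symm g).2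
      have e2 : h.col ((β c').symm g' : C) = c' := ((β c').symm g').2
      refine ⟨(((α r' c').symm g : R), ((β c').symm g' : C)), ⟨?_, ?_⟩, ?_⟩
      · refine (mem_cells h α β Te e1 e2).2 ⟨q1, ?_⟩
        rw [Subtype.coe_eta, Subtype.coe_eta, Equiv.apply_symm_apply, Equiv.apply_symm_apply]
        exact q2
      · have h5 := hγ r' c' ((α r' c').symm g) ((β c').symm g')
        rw [Equiv.apply_symm_apply, Equiv.apply_symm_apply, q4] at h5
        exact congrArg Subtype.val ((γ r' c').injective h5)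
      · have key : ∀ r'' c'' (h1 : h.row ((α r' c').symm g : R) = r'') (h2 : h.col ((β c').symm g' : C) = c''),
            ((r'', c''), (α r'' c'' ⟨((α r' c').symm g : R), h1⟩, β c'' ⟨((β c').symm g' : C), h2⟩)) =
              ((r', c'), (g, g')) := by
          intro r'' c'' h1 h2
          have h3 : r'' = r' := h1.symm.trans e1
          have h4 : c'' = c' := h2.symm.trans e2
          subst h3 h4
          rw [Subtype.coe_eta, Subtype.coe_eta, Equiv.apply_symm_apply, Equiv.apply_symm_apply]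
        exact key _ _ rfl rfl

end assemble

end Pool.Agent.NC79
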