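import Pool.Agent.NC79.Final
import Pool.Agent.Duplex38.Defs

/-!
# Tables with diagonal blocks close to cyclic tables
-/

namespace Pool.Agent.NC79

open Finset

/-- if the diagonal blocks of a table are close to the cyclic table, then the table has a duplex -/
theorem block {I R K S : Type} {m t : ℕ} (hm : 200000000 * (t + 1) ≤ m) (row : R ≃ I × ZMod m)
    (col : K ≃ I × ZMod m) (sym : S ≃ I × ZMod m) (L : R → K → S)
    (hr : ∀ i k, {l | L (row.symm (i, k)) (col.symm (i, l)) ≠ sym.symm (i, k + l)}.ncard ≤ t)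
    (hc : ∀ i l, {k | L (row.symm (i, k)) (col.symm (i, l)) ≠ sym.symm (i, k + l)}.ncard ≤ t)
    (hs : ∀ i s, {k | L (row.symm (i, k)) (col.symm (i, s - k)) ≠ sym.symm (i, s)}.ncard ≤ t) :
    ∃ D, Pool.Agent.Duplex38.IsDuplex L D ∧ ∀ x ∈ D, ∃ i k l, x = (row.symm (i, k), col.symm (i, l)) ∧
      L x.1 x.2 = sym.symm (i, k + l) := by
  classical
  have _ : NeZero m := ⟨by omega⟩
  have h1 : ∀ i, Avoid (univ.filter fun c : ZMod m × ZMod m =>
      L (row.symm (i, c.1)) (col.symm (i, c.2)) ≠ sym.symm (i, c.1 + c.2)) := fun i => by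
    refine avoid_cyclic t hm _ (fun r => ?_) (fun r => ?_) (fun r => ?_)
    · refine le_trans ?_ (hr i r)
      rw [← Set.ncard_coe_finset]
      refine Set.ncard_le_ncard_of_injOn (fun c => c.2) ?_ ?_ (Set.toFinite _)
      · rintro ⟨x, y⟩ hx
        simp only [filter_filter, coe_filter, mem_univ, true_and, Set.mem_ofPred_eq] at hx ⊢
        rw [← hx.2]
        exact hx.1
      · rintro ⟨x, y⟩ hx ⟨x', y'⟩ hx' e
        simp only [coe_filter, Set.mem_ofPred_eq] at hx hx'
        exact Prod.ext (hx.2.trans hx'.2.symm) e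
    · refine le_trans ?_ (hc i r)
      rw [← Set.ncard_coe_finset]
      refine Set.ncard_le_ncard_of_injOn (fun c => c.1) ?_ ?_ (Set.toFinite _)
      · rintro ⟨x, y⟩ hx
        simp only [filter_filter, coe_filter, mem_univ, true_and, Set.mem_ofPred_eq] at hx ⊢
        rw [← hx.2]
        exact hx.1
      · rintro ⟨x, y⟩ hx ⟨x', y'⟩ hx' e
        simp only [coe_filter, Set.mem_ofPred_eq] at hx hx'
        exact Prod.ext e (hx.2.trans hx'.2.symm)
    · refine le_trans ?_ (hs i r)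
      rw [← Set.ncard_coe_finset]
      refine Set.ncard_le_ncard_of_injOn (fun c => c.1) ?_ ?_ (Set.toFinite _)
      · rintro ⟨x, y⟩ hx
        simp only [filter_filter, coe_filter, mem_univ, true_and, Set.mem_ofPred_eq] at hx ⊢
        rw [← hx.2, add_sub_cancel_left]
        exact hx.1
      · rintro ⟨x, y⟩ hx ⟨x', y'⟩ hx' e
        simp only [coe_filter, Set.mem_ofPred_eq] at hx hx'
        have e1 : x = x' := e
        subst e1
        exact Prod.ext rfl (add_left_cancel (hx.2.trans hx'.2.symm))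
  choose D hD using h1
  have hL : ∀ i c, c ∈ D i → L (row.symm (i, c.1)) (col.symm (i, c.2)) = sym.symm (i, c.1 + c.2) := fun i c hc => by
    by_contra hcon
    exact (hD i).1 c hc (mem_filter.2 ⟨mem_univ _, hcon⟩)
  refine ⟨{p | ∃ i c, c ∈ D i ∧ p = (row.symm (i, c.1), col.symm (i, c.2))}, ⟨fun r => ?_, fun c => ?_, fun s => ?_⟩,
    fun x hx => ?_⟩
  · obtain ⟨⟨i, k⟩, rfl⟩ := row.symm.surjective r
    rw [← (hD i).2.1 k, ← Set.ncard_coe_finset]
    refine (Set.ncard_congr (fun c _ => col.symm (i, c.2)) (fun c hc => ?_) (fun c c' hc hc' e => ?_)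
      fun y hy => ?_).symm
    · simp only [coe_filter, Set.mem_ofPred_eq] at hc
      exact ⟨i, c, hc.1, by rw [hc.2]⟩
    · simp only [coe_filter, Set.mem_ofPred_eq] at hc hc'
      exact Prod.ext (hc.2.trans hc'.2.symm) (Prod.mk.inj (col.symm.injective e)).2
    · obtain ⟨i', c, hc, e⟩ := hy
      have e1 := Prod.mk.inj e
      have e2 := Prod.mk.inj (row.symm.injective e1.1)
      obtain ⟨rfl, rfl⟩ := e2
      exact ⟨c, by simp only [coe_filter, Set.mem_ofPred_eq]; exact ⟨hc, trivial⟩, e1.2.symm⟩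
  · obtain ⟨⟨i, k⟩, rfl⟩ := col.symm.surjective c
    rw [← (hD i).2.2.1 k, ← Set.ncard_coe_finset]
    refine (Set.ncard_congr (fun c _ => row.symm (i, c.1)) (fun c hc => ?_) (fun c c' hc hc' e => ?_)
      fun y hy => ?_).symm
    · simp only [coe_filter, Set.mem_ofPred_eq] at hc
      exact ⟨i, c, hc.1, by rw [hc.2]⟩
    · simp only [coe_filter, Set.mem_ofPred_eq] at hc hc'
      exact Prod.ext (Prod.mk.inj (row.symm.injective e)).2 (hc.2.trans hc'.2.symm)
    · obtain ⟨i', c, hc, e⟩ := hy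
      have e1 := Prod.mk.inj e
      have e2 := Prod.mk.inj (col.symm.injective e1.2)
      obtain ⟨rfl, rfl⟩ := e2
      exact ⟨c, by simp only [coe_filter, Set.mem_ofPred_eq]; exact ⟨hc, trivial⟩, e1.1.symm⟩
  · obtain ⟨⟨i, k⟩, rfl⟩ := sym.symm.surjective s
    rw [← (hD i).2.2.2 k, ← Set.ncard_coe_finset]
    refine (Set.ncard_congr (fun c _ => (row.symm (i, c.1), col.symm (i, c.2))) (fun c hc => ?_)
      (fun c c' hc hc' e => ?_) fun y hy => ?_).symm
    · simp only [coe_filter, Set.mem_ofPred_eq] at hc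
      exact ⟨⟨i, c, hc.1, rfl⟩, by rw [hL i c hc.1, hc.2]⟩
    · have e1 := Prod.mk.inj e
      exact Prod.ext (Prod.mk.inj (row.symm.injective e1.1)).2 (Prod.mk.inj (col.symm.injective e1.2)).2
    · obtain ⟨⟨i', c, hc, rfl⟩, e⟩ := hy
      rw [hL i' c hc] at e
      have e2 := Prod.mk.inj (sym.symm.injective e)
      obtain ⟨rfl, rfl⟩ := e2
      exact ⟨c, by simp only [coe_filter, Set.mem_ofPred_eq]; exact ⟨hc, trivial⟩, rfl⟩
  · obtain ⟨i, c, hc, rfl⟩ := hx
    exact ⟨i, c.1, c.2, rfl, hL i c hc⟩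

end Pool.Agent.NC79
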