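import Pool.Agent.NC79.Split

/-!
# Duplexes which avoid a set of cells, in tables covered twice by charts

The table `T` is covered by blocks which look like the addition tables of groups with an automorphism `ζ` such that
`ζ² + ζ + 1 = 0`, each row, column and symbol occurring in exactly two of the blocks.
-/

namespace Pool.Agent.NC79

open Finset Pool.Agent.Duplex38

/-- `T` has a duplex outside each set of cells with at most `t` cells in each row, in each column and with each symbol -/
def Robust {X Y Z : Type} (t : ℕ) (T : X → Y → Z) : Prop :=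
  ∀ B : Set (X × Y), (∀ x, {y | (x, y) ∈ B}.ncard ≤ t) → (∀ y, {x | (x, y) ∈ B}.ncard ≤ t) →
    (∀ z, {c : X × Y | T c.1 c.2 = z ∧ c ∈ B}.ncard ≤ t) → ∃ D, IsDuplex T D ∧ ∀ c ∈ D, c ∉ B

lemma card_fibre {G X : Type} [Fintype G] [DecidableEq X] {e : G → X} (he : Function.Injective e) (x : X)
    [Decidable (x ∈ Set.range e)] :
    (univ.filter fun r => e r = x).card = if x ∈ Set.range e then 1 else 0 := by
  split_ifs with h
  · obtain ⟨r, rfl⟩ := h
    rw [card_eq_one]
    refine ⟨r, ?_⟩
    ext s
    rw [mem_filter, mem_singleton]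
    exact ⟨fun hs => he hs.2, fun hs => ⟨mem_univ _, by rw [hs]⟩⟩
  · rw [card_eq_zero, filter_eq_empty_iff]
    intro r _ hr
    exact h ⟨r, hr⟩

/-- a group with an automorphism `ζ` such that `ζ² + ζ + 1 = 0` -/
def Zeta (G : Type) [AddCommGroup G] : Prop := ∃ z : G →+ G, ∀ x, z (z x) + z x + x = 0

section chart

variable {X Y Z J : Type} [Finite X] [Finite Y] [Finite J] (T : X → Y → Z) (G : J → Type)
  [∀ j, AddCommGroup (G j)] [∀ j, Finite (G j)] (a : ∀ j, G j → X) (b : ∀ j, G j → Y) (c : ∀ j, G j → Z)

/-- tables covered twice by charts -/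
theorem robust_of_charts (t : ℕ) (hG : ∀ j, Zeta (G j)) (hbig : ∀ j, 9 * (t + 1) < Nat.card (G j))
    (ha : ∀ j, Function.Injective (a j)) (hb : ∀ j, Function.Injective (b j)) (hc : ∀ j, Function.Injective (c j))
    (hT : ∀ j r s, T (a j r) (b j s) = c j (r + s)) (hx : ∀ x, {j | x ∈ Set.range (a j)}.ncard = 2)
    (hy : ∀ y, {j | y ∈ Set.range (b j)}.ncard = 2) (hz : ∀ z, {j | z ∈ Set.range (c j)}.ncard = 2) :
    Robust t T := by
  classical
  intro B hBr hBc hBs
  have _ := Fintype.ofFinite X
  have _ := Fintype.ofFinite Y
  have _ := Fintype.ofFinite J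
  have hx' : ∀ x, (univ.filter fun j => x ∈ Set.range (a j)).card = 2 := fun x => by
    rw [← hx x, ← Set.ncard_coe_finset]
    congr 1
    ext j
    simp
  have hy' : ∀ x, (univ.filter fun j => x ∈ Set.range (b j)).card = 2 := fun x => by
    rw [← hy x, ← Set.ncard_coe_finset]
    congr 1
    ext j
    simp
  have hz' : ∀ x, (univ.filter fun j => x ∈ Set.range (c j)).card = 2 := fun x => by
    rw [← hz x, ← Set.ncard_coe_finset]
    congr 1
    ext j
    simp
  have key : ∀ s : Finset J, ∃ D : Finset (X × Y), (∀ p ∈ D, p ∉ B) ∧
      (∀ x, (D.filter fun p => p.1 = x).card = (s.filter fun j => x ∈ Set.range (a j)).card) ∧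
      (∀ y, (D.filter fun p => p.2 = y).card = (s.filter fun j => y ∈ Set.range (b j)).card) ∧
      ∀ z, (D.filter fun p => T p.1 p.2 = z).card = (s.filter fun j => z ∈ Set.range (c j)).card := by
    intro s
    induction s using Finset.induction_on with
    | empty => exact ⟨∅, by simp⟩
    | insert j s hj ih =>
      obtain ⟨D, hD, hDx, hDy, hDz⟩ := ih
      have _ := Fintype.ofFinite (G j)
      have small : ∀ {W : Type} (e : ∀ j, G j → W) (w : W) (_ : w ∈ Set.range (e j))
          (_ : (univ.filter fun j => w ∈ Set.range (e j)).card = 2),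
          (s.filter fun j => w ∈ Set.range (e j)).card ≤ 1 := by
        intro W e w hw h2
        have h1 : insert j (s.filter fun j => w ∈ Set.range (e j)) ⊆ univ.filter fun j => w ∈ Set.range (e j) := by
          intro i hi
          rw [mem_insert] at hi
          rcases hi with rfl | hi
          · exact mem_filter.2 ⟨mem_univ _, hw⟩
          · exact mem_filter.2 ⟨mem_univ _, (mem_filter.1 hi).2⟩
        have h3 := card_le_card h1
        rw [h2, card_insert_of_notMem (fun h => hj (mem_filter.1 h).1)] at h3
        omega
      set F : G j × G j → X × Y := fun p => (a j p.1, b j p.2) with hF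
      have hFinj : Function.Injective F := fun p q e =>
        Prod.ext (ha j (Prod.mk.inj e).1) (hb j (Prod.mk.inj e).2)
      set B' : Finset (G j × G j) := univ.filter fun p => F p ∈ B ∨ F p ∈ D with hB'
      obtain ⟨z, hzz⟩ := hG j
      obtain ⟨π, σ, hπ⟩ := avoid_zeta z hzz (t + 1) (by rw [← Nat.card_eq_fintype_card]; exact hbig j) B'
        (fun r => by
          have h1 : (univ.filter fun q : X × Y => q ∈ B ∧ q.1 = a j r).card ≤ t := by
            refine le_trans ?_ (hBr (a j r))
            rw [← Set.ncard_coe_finset]
            refine Set.ncard_le_ncard_of_injOn (fun q => q.2) ?_ ?_ (Set.toFinite _)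
            · rintro ⟨x, y⟩ hq
              simp only [coe_filter, mem_univ, true_and, Set.mem_ofPred_eq] at hq ⊢
              rw [← hq.2]
              exact hq.1
            · rintro ⟨x, y⟩ hq ⟨x', y'⟩ hq' e
              simp only [coe_filter, mem_univ, true_and, Set.mem_ofPred_eq] at hq hq'
              exact Prod.ext (hq.2.trans hq'.2.symm) e
          have h2 : (D.filter fun q => q.1 = a j r).card ≤ 1 := by
            rw [hDx]
            exact small a (a j r) ⟨r, rfl⟩ (hx' _)
          refine le_trans ?_ ((card_union_le _ _).trans (Nat.add_le_add h1 h2))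
          refine card_le_card_of_injOn F (fun p hp => ?_) hFinj.injOn
          simp only [coe_filter, Set.mem_ofPred_eq, hB', mem_filter, mem_univ, true_and] at hp
          simp only [coe_union, coe_filter, Set.mem_union, Set.mem_ofPred_eq, mem_univ, true_and]
          rw [← hp.2]
          exact hp.1.imp (fun h => ⟨h, rfl⟩) fun h => ⟨h, rfl⟩)
        (fun r => by
          have h1 : (univ.filter fun q : X × Y => q ∈ B ∧ q.2 = b j r).card ≤ t := by
            refine le_trans ?_ (hBc (b j r))
            rw [← Set.ncard_coe_finset]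
            refine Set.ncard_le_ncard_of_injOn (fun q => q.1) ?_ ?_ (Set.toFinite _)
            · rintro ⟨x, y⟩ hq
              simp only [coe_filter, mem_univ, true_and, Set.mem_ofPred_eq] at hq ⊢
              rw [← hq.2]
              exact hq.1
            · rintro ⟨x, y⟩ hq ⟨x', y'⟩ hq' e
              simp only [coe_filter, mem_univ, true_and, Set.mem_ofPred_eq] at hq hq'
              exact Prod.ext e (hq.2.trans hq'.2.symm)
          have h2 : (D.filter fun q => q.2 = b j r).card ≤ 1 := by
            rw [hDy]
            exact small b (b j r) ⟨r, rfl⟩ (hy' _)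
          refine le_trans ?_ ((card_union_le _ _).trans (Nat.add_le_add h1 h2))
          refine card_le_card_of_injOn F (fun p hp => ?_) hFinj.injOn
          simp only [coe_filter, Set.mem_ofPred_eq, hB', mem_filter, mem_univ, true_and] at hp
          simp only [coe_union, coe_filter, Set.mem_union, Set.mem_ofPred_eq, mem_univ, true_and]
          rw [← hp.2]
          exact hp.1.imp (fun h => ⟨h, rfl⟩) fun h => ⟨h, rfl⟩)
        (fun r => by
          have h1 : (univ.filter fun q : X × Y => q ∈ B ∧ T q.1 q.2 = c j r).card ≤ t := by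
            refine le_trans ?_ (hBs (c j r))
            rw [← Set.ncard_coe_finset]
            refine Set.ncard_le_ncard ?_ (Set.toFinite _)
            intro q hq
            simp only [coe_filter, mem_univ, true_and, Set.mem_ofPred_eq] at hq ⊢
            exact ⟨hq.2, hq.1⟩
          have h2 : (D.filter fun q => T q.1 q.2 = c j r).card ≤ 1 := by
            rw [hDz]
            exact small c (c j r) ⟨r, rfl⟩ (hz' _)
          refine le_trans ?_ ((card_union_le _ _).trans (Nat.add_le_add h1 h2))
          refine card_le_card_of_injOn F (fun p hp => ?_) hFinj.injOn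
          simp only [coe_filter, Set.mem_ofPred_eq, hB', mem_filter, mem_univ, true_and] at hp
          simp only [coe_union, coe_filter, Set.mem_union, Set.mem_ofPred_eq, mem_univ, true_and]
          have h3 : T (F p).1 (F p).2 = c j r := by
            rw [← hp.2]
            exact hT j p.1 p.2
          exact hp.1.imp (fun h => ⟨h, h3⟩) fun h => ⟨h, h3⟩)
      have hπB : ∀ r, F (r, π r) ∉ B ∧ F (r, π r) ∉ D := fun r => by
        have h1 := (hπ r).2
        simp only [hB', mem_filter, mem_univ, true_and, not_or] at h1
        exact h1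
      set E : G j → X × Y := fun r => F (r, π r) with hE
      have hEinj : Function.Injective E := fun r r' e => (Prod.mk.inj (hFinj e)).1
      have hdisj : Disjoint D (univ.image E) := by
        refine disjoint_left.2 fun p hp hp' => ?_
        obtain ⟨r, -, rfl⟩ := mem_image.1 hp'
        exact (hπB r).2 hp
      have count : ∀ {W : Type} (φ : X × Y → W) (e : ∀ j, G j → W) (θ : Equiv.Perm (G j))
          (_ : Function.Injective (e j)) (_ : ∀ r, φ (E r) = e j (θ r))
          (_ : ∀ w, (D.filter fun p => φ p = w).card = (s.filter fun j => w ∈ Set.range (e j)).card) (w : W),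
          ((D ∪ univ.image E).filter fun p => φ p = w).card =
            ((insert j s).filter fun j => w ∈ Set.range (e j)).card := by
        intro W φ e θ he hφ hD1 w
        rw [filter_union, card_union_of_disjoint (disjoint_filter_filter hdisj), hD1, filter_image,
          card_image_of_injective _ hEinj, filter_insert]
        have h1 : (univ.filter fun r => φ (E r) = w) = univ.filter fun r => (e j ∘ θ) r = w := by
          refine filter_congr fun r _ => ?_
          rw [hφ]
          rfl
        have h3 : w ∈ Set.range (e j ∘ θ) ↔ w ∈ Set.range (e j) := by rw [EquivLike.range_comp]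
        rw [h1, card_fibre (he.comp θ.injective)]
        by_cases h2 : w ∈ Set.range (e j)
        · rw [if_pos (h3.2 h2), if_pos h2, card_insert_of_notMem fun h => hj (mem_filter.1 h).1]
        · rw [if_neg fun h => h2 (h3.1 h), if_neg h2, add_zero]
      refine ⟨D ∪ univ.image E, fun p hp => ?_, count (fun p => p.1) a 1 (ha j) (fun r => rfl) hDx,
        count (fun p => p.2) b π (hb j) (fun r => rfl) hDy,
        count (fun p => T p.1 p.2) c σ (hc j) (fun r => ?_) hDz⟩
      · rcases mem_union.1 hp with hp | hp
        · exact hD p hp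
        · obtain ⟨r, -, rfl⟩ := mem_image.1 hp
          exact (hπB r).1
      · rw [← (hπ r).1]
        exact hT j r (π r)
  obtain ⟨D, hD, hDx, hDy, hDz⟩ := key univ
  refine ⟨(D : Set (X × Y)), ⟨fun x => ?_, fun y => ?_, fun z => ?_⟩, fun p hp => hD p hp⟩
  · rw [← hx' x, ← hDx x, ← Set.ncard_coe_finset]
    refine (Set.ncard_congr (fun p _ => p.2) (fun p hp => ?_) (fun p q hp hq e => ?_) fun y hy => ?_).symm
    · simp only [coe_filter, Set.mem_ofPred_eq] at hp
      change (x, p.2) ∈ (D : Set (X × Y))
      rw [← hp.2]
      exact hp.1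
    · simp only [coe_filter, Set.mem_ofPred_eq] at hp hq
      exact Prod.ext (hp.2.trans hq.2.symm) e
    · exact ⟨(x, y), by simp only [coe_filter, Set.mem_ofPred_eq]; exact ⟨hy, trivial⟩, rfl⟩
  · rw [← hy' y, ← hDy y, ← Set.ncard_coe_finset]
    refine (Set.ncard_congr (fun p _ => p.1) (fun p hp => ?_) (fun p q hp hq e => ?_) fun x hx => ?_).symm
    · simp only [coe_filter, Set.mem_ofPred_eq] at hp
      change (p.1, y) ∈ (D : Set (X × Y))
      rw [← hp.2]
      exact hp.1
    · simp only [coe_filter, Set.mem_ofPred_eq] at hp hq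
      exact Prod.ext e (hp.2.trans hq.2.symm)
    · exact ⟨(x, y), by simp only [coe_filter, Set.mem_ofPred_eq]; exact ⟨hx, trivial⟩, rfl⟩
  · rw [← hz' z, ← hDz z, ← Set.ncard_coe_finset]
    congr 1
    ext p
    simp

end chart

end Pool.Agent.NC79
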