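import Pool.Agent.NC79.Prod

/-!
# The main theorem: tables close to the product of a latin square and an abelian group
-/

namespace Pool.Agent.NC79

open Finset Pool.Agent.Duplex38

variable {A : Type} [AddCommGroup A] [Finite A]

lemma sum_quot (H K : AddSubgroup A) (hle : H ≤ K) (hsum : ∀ [Fintype (A ⧸ K)], ∑ w : A ⧸ K, w = 0)
    (N : AddSubgroup (A ⧸ H)) (hN : N = K.map (QuotientAddGroup.mk' H)) [Fintype ((A ⧸ H) ⧸ N)] :
    ∑ w : (A ⧸ H) ⧸ N, w = 0 := by
  classical
  subst hN
  have _ := Fintype.ofFinite (A ⧸ K)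
  set e := QuotientAddGroup.quotientQuotientEquivQuotient H K hle with he
  apply e.injective
  rw [map_zero, map_sum]
  have h1 : ∑ w, e w = ∑ w : A ⧸ K, w := e.toEquiv.sum_comp (fun w => w)
  rw [h1]
  exact hsum

lemma addOrderOf_mk {g : A} {q m : ℕ} (hq : 0 < q) (h : addOrderOf g = q * m) :
    addOrderOf ((g : A ⧸ AddSubgroup.zmultiples (q • g))) = q := by
  refine Nat.dvd_antisymm ?_ ?_
  · rw [addOrderOf_dvd_iff_nsmul_eq_zero, ← QuotientAddGroup.mk_nsmul, QuotientAddGroup.eq_zero_iff]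
    exact AddSubgroup.mem_zmultiples _
  · have h1 := addOrderOf_nsmul_eq_zero (g : A ⧸ AddSubgroup.zmultiples (q • g))
    rw [← QuotientAddGroup.mk_nsmul, QuotientAddGroup.eq_zero_iff, AddSubgroup.mem_zmultiples_iff] at h1
    obtain ⟨k, hk⟩ := h1
    set n := addOrderOf ((g : A ⧸ AddSubgroup.zmultiples (q • g))) with hn
    have h2 : ((n : ℤ) - k * q) • g = 0 := by
      rw [sub_smul, mul_smul, natCast_zsmul, natCast_zsmul, hk, sub_self]
    rw [← addOrderOf_dvd_iff_zsmul_eq_zero, h] at h2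
    obtain ⟨r, hr⟩ := h2
    have h3 : (q : ℤ) ∣ n := ⟨m * r + k, by
      push_cast at hr
      linear_combination hr⟩
    exact_mod_cast h3

theorem main {q t : ℕ} (hq : 0 < q) (Q : Fin q → Fin q → Fin q) (hQ : IsLatin Q)
    (he : 400000000 * q * (t + 1) ≤ AddMonoid.exponent A)
    (h : HasTransversal Q ∨ 2 * q ∣ AddMonoid.exponent A ∨ (Odd q ∧ q ∣ AddMonoid.exponent A)) {R K S : Type} (row : R ≃ Fin q × A)
    (col : K ≃ Fin q × A) (sym : S ≃ Fin q × A) (L : R → K → S)
    (hr : ∀ r, {c | sym (L r c) ≠ prodTable Q A (row r) (col c)}.ncard ≤ t)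
    (hc : ∀ c, {r | sym (L r c) ≠ prodTable Q A (row r) (col c)}.ncard ≤ t)
    (hs : ∀ s, {x : R × K | prodTable Q A (row x.1) (col x.2) = sym s ∧ L x.1 x.2 ≠ s}.ncard ≤ t) :
    ∃ D, IsDuplex L D ∧ ∀ x ∈ D, sym (L x.1 x.2) = prodTable Q A (row x.1) (col x.2) := by
  have h0 : 1 ≤ q * (t + 1) := Nat.mul_pos hq (Nat.succ_pos t)
  rw [mul_assoc] at he
  obtain ⟨g, hg, hsum⟩ := exists_element (A := A) (by omega)
  have hM : 200000000 * (q * (t + 1)) ≤ addOrderOf g := by omega
  rcases h with h | h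
  · refine lift (AddSubgroup.zmultiples g) (t := t) ?_ Q (transversal_of_transversal hsum Q h) row col sym L hr hc hs
    rw [Nat.card_zmultiples]
    have h1 : 1 * (t + 1) ≤ q * (t + 1) := Nat.mul_le_mul_right _ hq
    omega
  · have hqM : q ∣ addOrderOf g := by
      rcases hg with hg | hg
      · rw [hg]
        rcases h with h | h
        · exact (Dvd.intro_left 2 rfl).trans h
        · exact h.2
      · rw [← hg] at h
        rcases h with h | h
        · exact (Nat.mul_dvd_mul_iff_left two_pos).1 h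
        · exact (Nat.coprime_two_right.2 h.1).dvd_of_dvd_mul_left h.2
    obtain ⟨m, hm⟩ := hqM
    have ho := addOrderOf_mk hq hm
    have hc1 : Nat.card (Fin q) = Nat.card (ZMod (addOrderOf (g : A ⧸ AddSubgroup.zmultiples (q • g)))) := by
      rw [ho, Nat.card_zmod, Nat.card_eq_fintype_card, Fintype.card_fin]
    have _ : Finite (ZMod (addOrderOf (g : A ⧸ AddSubgroup.zmultiples (q • g)))) :=
      Nat.finite_of_card_ne_zero (by rw [← hc1, Nat.card_eq_fintype_card, Fintype.card_fin]; omega)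
    obtain ⟨c⟩ := Finite.card_eq.1 hc1
    have hle : AddSubgroup.zmultiples (q • g) ≤ AddSubgroup.zmultiples g := by
      rw [AddSubgroup.zmultiples_le]
      exact AddSubgroup.nsmul_mem _ (AddSubgroup.mem_zmultiples g) q
    have hT := transversal_of_element (W := A ⧸ AddSubgroup.zmultiples (q • g))
      (g : A ⧸ AddSubgroup.zmultiples (q • g))
      (sum_quot (AddSubgroup.zmultiples (q • g)) (AddSubgroup.zmultiples g) hle hsum _
        (by rw [AddMonoidHom.map_zmultiples]; rfl)) Q hQ c c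
    refine lift (AddSubgroup.zmultiples (q • g)) (t := t) ?_ Q hT row col sym L hr hc hs
    rw [Nat.card_zmultiples, addOrderOf_nsmul' g hq.ne', hm, Nat.gcd_mul_right_left, Nat.mul_div_cancel_left _ hq]
    rw [hm] at hM
    have h2 : q * (200000000 * (t + 1)) ≤ q * m := by
      calc q * (200000000 * (t + 1)) = 200000000 * (q * (t + 1)) := by ring
        _ ≤ q * m := hM
    exact Nat.le_of_mul_le_mul_left h2 hq

end Pool.Agent.NC79
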