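import Pool.Agent.NC79.Base
import Pool.Agent.NC79.Main

/-!
# Tables close to robust tables; products of latin squares and large abelian groups
-/

namespace Pool.Agent.NC79

open Finset Pool.Agent.Duplex38

/-- tables close to a robust table have duplexes -/
theorem close {X Y Z R C S : Type} [Finite X] [Finite Y] {t : ℕ} {T : X → Y → Z} (hT : Robust t T)
    (row : R ≃ X) (col : C ≃ Y) (sym : S ≃ Z) (L : R → C → S)
    (hr : ∀ r, {c | sym (L r c) ≠ T (row r) (col c)}.ncard ≤ t)
    (hc : ∀ c, {r | sym (L r c) ≠ T (row r) (col c)}.ncard ≤ t)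
    (hs : ∀ s, {x : R × C | T (row x.1) (col x.2) = sym s ∧ L x.1 x.2 ≠ s}.ncard ≤ t) :
    ∃ D, IsDuplex L D ∧ ∀ x ∈ D, sym (L x.1 x.2) = T (row x.1) (col x.2) := by
  have fR : Finite R := Finite.of_equiv _ row.symm
  have fC : Finite C := Finite.of_equiv _ col.symm
  have h1 : Robust t (fun r c => sym.symm (T (row r) (col c))) :=
    robust_of_isotopic row col sym (fun r c => sym.apply_symm_apply _) hT
  obtain ⟨D, hD, hDB⟩ := h1 {x | sym (L x.1 x.2) ≠ T (row x.1) (col x.2)} hr hc (fun s => by
    convert hs s using 3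
    ext x
    constructor
    · rintro ⟨e, h⟩
      have e' : T (row x.1) (col x.2) = sym s := by rw [← e]; exact (sym.apply_symm_apply _).symm
      refine ⟨e', fun h' => h ?_⟩
      rw [h', e']
    · rintro ⟨e, h⟩
      refine ⟨by simp only []; rw [e, sym.symm_apply_apply], fun h' => h ?_⟩
      rw [e] at h'
      exact sym.injective h')
  have h2 : ∀ x ∈ D, sym (L x.1 x.2) = T (row x.1) (col x.2) := fun x hx => by
    by_contra hcon
    exact hDB x hx hcon
  refine ⟨D, ⟨hD.1, hD.2.1, fun s => ?_⟩, h2⟩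
  rw [← hD.2.2 s]
  congr 1
  ext x
  constructor
  · rintro ⟨hx, e⟩
    refine ⟨hx, ?_⟩
    change sym.symm (T (row x.1) (col x.2)) = s
    rw [← h2 x hx, sym.symm_apply_apply, e]
  · rintro ⟨hx, e⟩
    refine ⟨hx, ?_⟩
    change sym.symm (T (row x.1) (col x.2)) = s at e
    rw [← h2 x hx, sym.symm_apply_apply] at e
    exact e

section products

variable {P P' P'' : Type}

/-- a fibre of `P × A → P` -/
def fstEquiv (A : Type) (p : P) : {r : P × A // r.1 = p} ≃ A where
  toFun r := r.1.2
  invFun a := ⟨(p, a), rfl⟩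
  left_inv r := Subtype.ext (Prod.ext r.2.symm rfl)
  right_inv _ := rfl

/-- a fibre of `P × A → A` -/
def sndEquiv {A : Type} (P : Type) (a : A) : {r : P × A // r.2 = a} ≃ P where
  toFun r := r.1.1
  invFun p := ⟨(p, a), rfl⟩
  left_inv r := Subtype.ext (Prod.ext rfl r.2.symm)
  right_inv _ := rfl

variable {A : Type} [AddCommGroup A]

/-- the projection onto the first factor -/
def fstEpi (Q : P → P' → P'') (A : Type) [AddCommGroup A] : Epi (prodTable Q A) Q where
  row r := r.1
  col r := r.1
  sym r := r.1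
  row_surj p := ⟨(p, 0), rfl⟩
  col_surj p := ⟨(p, 0), rfl⟩
  sym_surj p := ⟨(p, 0), rfl⟩
  map _ _ := rfl

/-- the projection onto the second factor -/
def sndEpi [Nonempty P] [Nonempty P'] (Q : P → P' → P'') (A : Type) [AddCommGroup A] :
    Epi (prodTable Q A) (fun a b : A => a + b) where
  row r := r.2
  col r := r.2
  sym r := r.2
  row_surj a := ⟨(Classical.arbitrary P, a), rfl⟩
  col_surj a := ⟨(Classical.arbitrary P', a), rfl⟩
  sym_surj a := ⟨(Q (Classical.arbitrary P) (Classical.arbitrary P'), a), rfl⟩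
  map _ _ := rfl

variable [Finite A] {t : ℕ}

/-- a latin square with a transversal times a large abelian group -/
theorem robust_of_transversal [Finite P] [Finite P'] (Q : P → P' → P'') (hQ : HasTransversal Q) (hA : Large t A) :
    Robust t (prodTable Q A) := by
  obtain ⟨π, hπ⟩ := hQ
  exact robust_of_blocks (fstEpi Q A) π hπ fun p =>
    robust_of_isotopic (T' := fun x y : A => x + y) (fstEquiv A p) (fstEquiv A (π p)) (fstEquiv A (Q p (π p)))
      (fun _ _ => rfl) (robust_abelian hA)

/-- a latin square with a duplex times an abelian group which is large in comparison -/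
theorem robust_of_duplex {q : ℕ} [Finite P] [Finite P'] [Finite P''] [Nonempty P] [Nonempty P'] (Q : P → P' → P'')
    (h1 : Nat.card P ≤ q) (h2 : Nat.card P' ≤ q) (h3 : Nat.card P'' ≤ q)
    (hQ : Pair Q Q) (hA : Large (q * t) A) : Robust t (prodTable Q A) := by
  have fib : ∀ (P₁ : Type) [Finite P₁] (_ : Nat.card P₁ ≤ q) (a : A), {r : P₁ × A | r.2 = a}.ncard ≤ q := by
    intro P₁ _ h a
    have e : {r : P₁ × A | r.2 = a}.ncard = Nat.card P₁ := Nat.card_congr (sndEquiv P₁ a)
    rw [e]
    exact h
  obtain ⟨π₁, π₂, hπ⟩ := hQ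
  refine robust_of_quotient (m := q) (sndEpi Q A) (fib P h1) (fib P' h2) (fib P'' h3) (robust_abelian hA) ?_
  intro a b a' b' s hs hs' _
  refine ⟨((sndEquiv P a).trans π₁).trans (sndEquiv P' b).symm,
    ((sndEquiv P a').trans π₂).trans (sndEquiv P' b').symm, fun z => ?_⟩
  rw [← hπ z.1.1]
  congr 1
  · refine Set.ncard_congr (fun x _ => x.1.1) (fun x hx => ?_) (fun x y _ _ e => ?_) (fun p hp => ?_)
    · have := congrArg (fun w => w.1.1) (show _ = z from hx)
      exact this
    · exact (sndEquiv P a).injective e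
    · refine ⟨⟨(p, a), rfl⟩, ?_, rfl⟩
      refine Subtype.ext (Prod.ext ?_ ?_)
      · exact hp
      · change a + b = z.1.2
        have e1 : a + b = s := hs
        rw [e1]
        exact z.2.symm
  · refine Set.ncard_congr (fun x _ => x.1.1) (fun x hx => ?_) (fun x y _ _ e => ?_) (fun p hp => ?_)
    · have := congrArg (fun w => w.1.1) (show _ = z from hx)
      exact this
    · exact (sndEquiv P a').injective e
    · refine ⟨⟨(p, a'), rfl⟩, ?_, rfl⟩
      refine Subtype.ext (Prod.ext ?_ ?_)
      · exact hp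
      · change a' + b' = z.1.2
        have e1 : a' + b' = s := hs'
        rw [e1]
        exact z.2.symm

/-- the products of the main theorem -/
theorem robust_products {q : ℕ} (hq : 0 < q) (Q : Fin q → Fin q → Fin q) (hQ : IsLatin Q)
    (h : (HasTransversal Q ∧ Large t A) ∨ ((∃ D, IsDuplex Q D) ∧ Large (q * t) A) ∨
      ((2 * q ∣ AddMonoid.exponent A ∨ (Odd q ∧ q ∣ AddMonoid.exponent A)) ∧
        400000000 * q * (t + 1) ≤ AddMonoid.exponent A)) :
    Robust t (prodTable Q A) := by
  have _ : Nonempty (Fin q) := ⟨⟨0, hq⟩⟩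
  rcases h with ⟨h, h'⟩ | ⟨⟨D, hD⟩, h'⟩ | ⟨h, he⟩
  · exact robust_of_transversal Q h h'
  · exact robust_of_duplex (q := q) Q (by simp) (by simp) (by simp) (diagonals_of_duplex hD) h'
  · have h0 : 1 ≤ q * (t + 1) := Nat.mul_pos hq (Nat.succ_pos t)
    rw [mul_assoc] at he
    obtain ⟨g, hg, hsum⟩ := exists_element (A := A) (by omega)
    have hM : 200000000 * (q * (t + 1)) ≤ addOrderOf g := by omega
    have hqM : q ∣ addOrderOf g := by
      rcases hg with hg | hg
      · rw [hg]
        rcases h with h | h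
        · exact (Dvd.intro_left 2 rfl).trans h
        · exact h.2
      · rw [← hg] at h
        rcases h with h | h
        · exact (Nat.mul_dvd_mul_iff_left two_pos).1 h
        · exact (Nat.coprime_two_right.2 h.1).dvd_of_dvd_mul_left h.2
    obtain ⟨m, hm⟩ := hqM
    have ho := addOrderOf_mk hq hm
    have hc1 : Nat.card (Fin q) = Nat.card (ZMod (addOrderOf (g : A ⧸ AddSubgroup.zmultiples (q • g)))) := by
      rw [ho, Nat.card_zmod, Nat.card_eq_fintype_card, Fintype.card_fin]
    have _ : Finite (ZMod (addOrderOf (g : A ⧸ AddSubgroup.zmultiples (q • g)))) :=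
      Nat.finite_of_card_ne_zero (by rw [← hc1, Nat.card_eq_fintype_card, Fintype.card_fin]; omega)
    obtain ⟨c⟩ := Finite.card_eq.1 hc1
    have hle : AddSubgroup.zmultiples (q • g) ≤ AddSubgroup.zmultiples g := by
      rw [AddSubgroup.zmultiples_le]
      exact AddSubgroup.nsmul_mem _ (AddSubgroup.mem_zmultiples g) q
    have hT := transversal_of_element (W := A ⧸ AddSubgroup.zmultiples (q • g))
      (g : A ⧸ AddSubgroup.zmultiples (q • g))
      (sum_quot (AddSubgroup.zmultiples (q • g)) (AddSubgroup.zmultiples g) hle hsum _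
        (by rw [AddMonoidHom.map_zmultiples]; rfl)) Q hQ c c
    refine robust_prod_cyclic Q (AddSubgroup.zmultiples (q • g)) ?_ hT
    rw [Nat.card_zmultiples, addOrderOf_nsmul' g hq.ne', hm, Nat.gcd_mul_right_left, Nat.mul_div_cancel_left _ hq]
    rw [hm] at hM
    have h2 : q * (200000000 * (t + 1)) ≤ q * m := by
      calc q * (200000000 * (t + 1)) = 200000000 * (q * (t + 1)) := by ring
        _ ≤ q * m := hM
    exact Nat.le_of_mul_le_mul_left h2 hq

end products

end Pool.Agent.NC79
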