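import Pool.Agent.NC79.Quot

/-!
# Twofold covers by blocks
-/

namespace Pool.Agent.NC79

open Finset Pool.Agent.Duplex38

lemma ncard_bool {α : Type} [Finite α] (F : Set (Bool × α)) :
    F.ncard = {a | (false, a) ∈ F}.ncard + {a | (true, a) ∈ F}.ncard := by
  have h1 : F = (fun a => (false, a)) '' {a | (false, a) ∈ F} ∪ (fun a => (true, a)) '' {a | (true, a) ∈ F} := by
    ext ⟨b, a⟩
    constructor
    · intro h
      cases b
      · exact Or.inl ⟨a, h, rfl⟩
      · exact Or.inr ⟨a, h, rfl⟩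
    · rintro (⟨a', h, e⟩ | ⟨a', h, e⟩)
      · rw [← e]
        exact h
      · rw [← e]
        exact h
  have h2 : Disjoint ((fun a : α => (false, a)) '' {a | (false, a) ∈ F})
      ((fun a : α => (true, a)) '' {a | (true, a) ∈ F}) := by
    rw [Set.disjoint_left]
    rintro _ ⟨a, _, rfl⟩ ⟨a', _, e⟩
    exact absurd (Prod.mk.inj e).1 (by decide)
  conv_lhs => rw [h1]
  rw [Set.ncard_union_eq h2 (Set.toFinite _) (Set.toFinite _),
    Set.ncard_image_of_injective _ (fun a b e => (Prod.mk.inj e).2),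
    Set.ncard_image_of_injective _ (fun a b e => (Prod.mk.inj e).2)]

/-- the addition table of a finite abelian group has a twofold cover -/
lemma pair_abelian (W : Type) [AddCommGroup W] [Finite W] :
    Pair (fun x y : W => x + y) (fun x y : W => x + y) := by
  by_cases h : 2 ≤ Nat.card W
  · obtain ⟨D, hD⟩ := duplex_of_abelian (T := fun x y : W => x + y) h
      ⟨W, inferInstance, Equiv.refl W, Equiv.refl W, Equiv.refl W, fun _ _ => rfl⟩
    exact diagonals_of_duplex hD
  · have h1 : Subsingleton W := Finite.card_le_one_iff_subsingleton.1 (by omega)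
    have h2 : HasTransversal (fun x y : W => x + y) :=
      ⟨Equiv.refl W, fun x y _ => Subsingleton.elim x y, fun x => ⟨x, Subsingleton.elim _ _⟩⟩
    exact pair_of_transversals h2 h2

/-- products of twofold covers -/
lemma pair_prod {P P' P'' W : Type} [Finite P] [AddCommGroup W] [Finite W] {Q : P → P' → P''} (h : Pair Q Q) :
    Pair (prodTable Q W) (prodTable Q W) := by
  classical
  obtain ⟨θ₁, θ₂, hθ⟩ := pair_abelian W
  obtain ⟨π₁, π₂, hπ⟩ := h
  set π : Bool → (P ≃ P') := fun b => if b then π₂ else π₁ with hπdef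
  have h2 : ∀ s, {e : Bool × P | Q e.2 (π e.1 e.2) = s}.ncard = 2 := fun s => by
    rw [ncard_bool, ← hπ s]
    rfl
  choose x y hxy hset using fun s => Set.ncard_eq_two.1 (h2 s)
  have hx : ∀ s, Q (x s).2 (π (x s).1 (x s).2) = s := fun s => by
    have : x s ∈ {e : Bool × P | Q e.2 (π e.1 e.2) = s} := by rw [hset]; exact Set.mem_insert _ _
    exact this
  have hy : ∀ s, Q (y s).2 (π (y s).1 (y s).2) = s := fun s => by
    have : y s ∈ {e : Bool × P | Q e.2 (π e.1 e.2) = s} := by rw [hset]; exact Set.mem_insert_of_mem _ rfl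
    exact this
  set θ : Bool × P → (W ≃ W) := fun e => if e = x (Q e.2 (π e.1 e.2)) then θ₁ else θ₂ with hθdef
  have hθx : ∀ s, θ (x s) = θ₁ := fun s => by
    simp only [hθdef]
    rw [hx s, if_pos rfl]
  have hθy : ∀ s, θ (y s) = θ₂ := fun s => by
    simp only [hθdef]
    rw [hy s, if_neg (hxy s).symm]
  refine ⟨(π false).prodShear fun p => θ (false, p), (π true).prodShear fun p => θ (true, p), ?_⟩
  rintro ⟨s, w⟩
  have h3 := ncard_bool {j : Bool × (P × W) | (Q j.2.1 (π j.1 j.2.1), j.2.2 + θ (j.1, j.2.1) j.2.2) = (s, w)}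
  refine Eq.trans (b := {j : Bool × (P × W) |
    (Q j.2.1 (π j.1 j.2.1), j.2.2 + θ (j.1, j.2.1) j.2.2) = (s, w)}.ncard) h3.symm ?_
  have h4 : {j : Bool × (P × W) | (Q j.2.1 (π j.1 j.2.1), j.2.2 + θ (j.1, j.2.1) j.2.2) = (s, w)} =
      (fun i => ((x s).1, ((x s).2, i))) '' {i : W | i + θ₁ i = w} ∪
      (fun i => ((y s).1, ((y s).2, i))) '' {i : W | i + θ₂ i = w} := by
    ext ⟨b, p, i⟩
    constructor
    · intro h
      obtain ⟨e1, e2⟩ := Prod.mk.inj h
      have e3 : (b, p) ∈ {e : Bool × P | Q e.2 (π e.1 e.2) = s} := e1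
      rw [hset] at e3
      simp only [] at e2
      rcases e3 with e3 | e3
      · left
        refine ⟨i, ?_, ?_⟩
        · rw [e3, hθx] at e2
          exact e2
        · rw [← e3]
      · right
        have e4 : (b, p) = y s := e3
        refine ⟨i, ?_, ?_⟩
        · rw [e4, hθy] at e2
          exact e2
        · rw [← e4]
    · rintro (⟨i', hi, e⟩ | ⟨i', hi, e⟩)
      · rw [← e]
        refine Prod.ext (hx s) ?_
        change i' + θ (x s) i' = w
        rw [hθx]
        exact hi
      · rw [← e]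
        refine Prod.ext (hy s) ?_
        change i' + θ (y s) i' = w
        rw [hθy]
        exact hi
  have h5 : Disjoint ((fun i => ((x s).1, ((x s).2, i))) '' {i : W | i + θ₁ i = w})
      ((fun i => ((y s).1, ((y s).2, i))) '' {i : W | i + θ₂ i = w}) := by
    rw [Set.disjoint_left]
    rintro _ ⟨i, _, rfl⟩ ⟨i', _, e⟩
    obtain ⟨e1, e2⟩ := Prod.mk.inj e
    exact hxy s (Prod.ext e1.symm (Prod.mk.inj e2).1.symm)
  rw [h4, Set.ncard_union_eq h5 (Set.toFinite _) (Set.toFinite _),
    Set.ncard_image_of_injective _ (fun a b e => (Prod.mk.inj (Prod.mk.inj e).2).2),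
    Set.ncard_image_of_injective _ (fun a b e => (Prod.mk.inj (Prod.mk.inj e).2).2)]
  exact hθ w

/-- the table is isotopic to a group which has more than `9 (t + 1)` elements and an automorphism `ζ` such that
`ζ² + ζ + 1 = 0` -/
def ZetaIsotope {X Y Z : Type} (t : ℕ) (T : X → Y → Z) : Prop :=
  ∃ (G : Type) (_ : AddCommGroup G) (α : X ≃ G) (β : Y ≃ G) (γ : Z ≃ G), Finite G ∧ Zeta G ∧ 9 * (t + 1) < Nat.card G ∧
    ∀ x y, γ (T x y) = α x + β y

/-- blocks with `ζ` over a twofold cover -/
theorem robust_of_squares {R C S R' C' S' : Type} [Finite R] [Finite C] {t : ℕ}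
    {L : R → C → S} {L' : R' → C' → S'} (h : Epi L L') (hL' : Pair L' L')
    (hb : ∀ r' c', ZetaIsotope t (h.block (rfl : L' r' c' = L' r' c'))) : Robust t L := by
  classical
  have fR' : Finite R' := Finite.of_surjective _ h.row_surj
  have fC' : Finite C' := Finite.of_surjective _ h.col_surj
  obtain ⟨π₁, π₂, hπ⟩ := hL'
  set π : Bool → (R' ≃ C') := fun b => if b then π₂ else π₁ with hπdef
  choose G iG α β γ fG hzeta hcard hγ using hb
  refine robust_of_charts (J := Bool × R') L (fun j => G j.2 (π j.1 j.2))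
    (fun j g => ((α j.2 (π j.1 j.2)).symm g : R)) (fun j g => ((β j.2 (π j.1 j.2)).symm g : C))
    (fun j g => ((γ j.2 (π j.1 j.2)).symm g : S)) t (fun j => hzeta _ _) (fun j => hcard _ _)
    (fun j => Subtype.val_injective.comp (Equiv.injective _)) (fun j => Subtype.val_injective.comp (Equiv.injective _))
    (fun j => Subtype.val_injective.comp (Equiv.injective _)) (fun j r s => ?_) (fun x => ?_) (fun y => ?_)
    (fun z => ?_)
  · have h1 := hγ j.2 (π j.1 j.2) ((α j.2 (π j.1 j.2)).symm r) ((β j.2 (π j.1 j.2)).symm s)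
    rw [Equiv.apply_symm_apply, Equiv.apply_symm_apply] at h1
    rw [← h1, Equiv.symm_apply_apply]
    rfl
  · have h1 : {j : Bool × R' | x ∈ Set.range fun g => ((α j.2 (π j.1 j.2)).symm g : R)} =
        (fun b => (b, h.row x)) '' Set.univ := by
      ext ⟨b, r'⟩
      constructor
      · rintro ⟨g, hg⟩
        refine ⟨b, Set.mem_univ _, Prod.ext rfl ?_⟩
        have := ((α r' (π b r')).symm g).2
        rw [← this]
        exact congrArg h.row hg.symm
      · rintro ⟨b', -, e⟩
        obtain ⟨rfl, rfl⟩ := Prod.mk.inj e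
        exact ⟨α _ (π b' (h.row x)) ⟨x, rfl⟩, by simp⟩
    rw [h1, Set.ncard_image_of_injective _ (fun a b e => (Prod.mk.inj e).1), Set.ncard_univ]
    simp
  · have h1 : {j : Bool × R' | y ∈ Set.range fun g => ((β j.2 (π j.1 j.2)).symm g : C)} =
        (fun b => (b, (π b).symm (h.col y))) '' Set.univ := by
      ext ⟨b, r'⟩
      constructor
      · rintro ⟨g, hg⟩
        refine ⟨b, Set.mem_univ _, Prod.ext rfl ?_⟩
        have := ((β r' (π b r')).symm g).2
        change (π b).symm (h.col y) = r'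
        rw [Equiv.symm_apply_eq, ← this]
        exact congrArg h.col hg.symm
      · rintro ⟨b', -, e⟩
        obtain ⟨rfl, rfl⟩ := Prod.mk.inj e
        exact ⟨β _ _ ⟨y, (Equiv.apply_symm_apply _ _).symm⟩, by simp⟩
    rw [h1, Set.ncard_image_of_injective _ (fun a b e => (Prod.mk.inj e).1), Set.ncard_univ]
    simp
  · have h1 : {j : Bool × R' | z ∈ Set.range fun g => ((γ j.2 (π j.1 j.2)).symm g : S)} =
        {j : Bool × R' | L' j.2 (π j.1 j.2) = h.sym z} := by
      ext ⟨b, r'⟩
      constructor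
      · rintro ⟨g, hg⟩
        have := ((γ r' (π b r')).symm g).2
        change L' r' (π b r') = h.sym z
        rw [← this]
        exact congrArg h.sym hg
      · intro e
        exact ⟨γ _ _ ⟨z, e.symm⟩, by simp⟩
    rw [h1, ncard_bool, ← hπ (h.sym z)]
    rfl

/-- robust blocks over a transversal -/
theorem robust_of_blocks {R C S R' C' S' : Type} [Finite R] [Finite C] {t : ℕ}
    {L : R → C → S} {L' : R' → C' → S'} (h : Epi L L') (π : R' ≃ C')
    (hπ : Function.Bijective fun r' => L' r' (π r'))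
    (hb : ∀ r', Robust t (h.block (rfl : L' r' (π r') = L' r' (π r')))) : Robust t L := by
  refine robust_glue (J := R') L (fun r' => {r // h.row r = r'}) (fun r' => {c // h.col c = π r'})
    (fun r' => {s // h.sym s = L' r' (π r')}) (fun r' => h.block (rfl : L' r' (π r') = L' r' (π r')))
    (fun _ r => r) (fun _ c => c) (fun _ s => s) t ⟨?_, ?_⟩ ⟨?_, ?_⟩ ⟨?_, ?_⟩ (fun j x y => rfl) hb
  · rintro ⟨i, x, hx⟩ ⟨j, y, hy⟩ e
    have e' : x = y := e
    subst e'
    have : i = j := hx.symm.trans hy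
    subst this
    rfl
  · exact fun x => ⟨⟨h.row x, x, rfl⟩, rfl⟩
  · rintro ⟨i, x, hx⟩ ⟨j, y, hy⟩ e
    have e' : x = y := e
    subst e'
    have : i = j := π.injective (hx.symm.trans hy)
    subst this
    rfl
  · exact fun x => ⟨⟨π.symm (h.col x), x, (Equiv.apply_symm_apply _ _).symm⟩, rfl⟩
  · rintro ⟨i, x, hx⟩ ⟨j, y, hy⟩ e
    have e' : x = y := e
    subst e'
    have : i = j := hπ.1 (hx.symm.trans hy)
    subst this
    rfl
  · intro x
    obtain ⟨r', hr'⟩ := hπ.2 (h.sym x)
    exact ⟨⟨r', x, hr'.symm⟩, rfl⟩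

end Pool.Agent.NC79
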