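import Pool.Agent.NC79.Near

/-!
# The base duplexes of the cyclic groups whose order is not divisible by `6`
-/

namespace Pool.Agent.NC79

open Finset

section

variable {C : ℕ} {G : Type} [AddCommGroup G] [Fintype G] [DecidableEq G]

/-- a bound for the torsion gives a bound for the fibres -/
lemma cb_of_torsion (hC : ∀ m : ℕ, 0 < m → m ≤ 30 → (univ.filter fun x : G => m • x = 0).card ≤ C) : CB C G := by
  intro m hm hm' w
  rcases (univ.filter fun x : G => m • x = w).eq_empty_or_nonempty with h0 | ⟨x₀, hx₀⟩
  · rw [h0]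
    simp
  · have h00 := Int.natCast_natAbs m
    have h1 : m.natAbs ≤ 30 := by omega
    have h2 : 0 < m.natAbs := by omega
    refine le_trans (card_le_card_of_injOn (fun x => x - x₀) ?_ ?_) (hC _ h2 h1)
    · intro x hx
      simp only [coe_filter, mem_filter, mem_univ, true_and, Set.mem_ofPred_eq] at hx hx₀ ⊢
      have h3 : m • (x - x₀) = 0 := by rw [smul_sub, hx, hx₀, sub_self]
      rcases Int.natAbs_eq m with h4 | h4
      · rw [h4, natCast_zsmul] at h3
        exact h3
      · rw [h4, neg_smul, natCast_zsmul, neg_eq_zero] at h3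
        exact h3
    · exact fun x _ y _ e => sub_left_injective e

lemma two_le (φ : Bool × G → G) (r : G) (σ σ' : Bool × G) (h : σ ≠ σ') (h1 : φ σ = r) (h2 : φ σ' = r) :
    2 ≤ (univ.filter fun σ => φ σ = r).card := by
  rw [← card_pair h]
  refine card_le_card fun x hx => ?_
  rw [mem_insert, mem_singleton] at hx
  rcases hx with rfl | rfl
  · simp [h1]
  · simp [h2]

lemma eq_two (φ : Bool × G → G) (h : ∀ r, 2 ≤ (univ.filter fun σ => φ σ = r).card) (r : G) :
    (univ.filter fun σ => φ σ = r).card = 2 := by
  have h1 : ∑ r : G, 2 = ∑ r : G, (univ.filter fun σ => φ σ = r).card := by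
    have h2 : (univ : Finset (Bool × G)).card = ∑ r : G, (univ.filter fun σ => φ σ = r).card :=
      card_eq_sum_card_fiberwise (f := φ) (t := univ) fun _ _ => mem_coe.2 (mem_univ _)
    rw [← h2, card_univ, Fintype.card_prod, Fintype.card_bool, sum_const, card_univ, smul_eq_mul, mul_comm]
  exact ((sum_eq_sum_iff_of_le fun r _ => h r).1 h1 r (mem_univ r)).symm

lemma eq_two_of_bij (f : Bool → G → G) (h : ∀ c, Function.Injective (f c)) (r : G) :
    (univ.filter fun σ : Bool × G => f σ.1 σ.2 = r).card = 2 := by
  refine eq_two (fun σ => f σ.1 σ.2) (fun r => ?_) r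
  obtain ⟨x, hx⟩ := (Finite.injective_iff_surjective.1 (h false)) r
  obtain ⟨y, hy⟩ := (Finite.injective_iff_surjective.1 (h true)) r
  exact two_le _ r (false, x) (true, y) (by simp) hx hy

/-- bases made of two linear families -/
lemma base_lin {k : Bool → ℤ} (o : Bool → G) {P : Bool → Pat} (hP : ∀ c, (P c).Ok k)
    (hty : ∀ c, (P c).typ (P c).i0 = c) (hinj : ∀ c, Function.Injective fun x : G => k c • x)
    (hsum : ∀ r, (univ.filter fun σ : Bool × G => (cell k o σ).1 + (cell k o σ).2 = r).card = 2) (κ : ℕ)
    (hcoll : (univ.filter fun x : G => cell k o (true, x) = cell k o (false, x)).card ≤ κ) :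
    Base κ (Fintype.card G * Fintype.card G) k (cell k o) where
  fst := fun σ => rfl
  col := fun r => eq_two_of_bij (fun c x => k c • x + o c) (fun c x y e => hinj c (add_right_cancel e)) r
  sum := hsum
  coll := hcoll
  ex := fun V => ⟨P V.1, o, univ, hP V.1, hty V.1, by rw [card_univ, Fintype.card_prod], fun _ _ _ => rfl⟩

end

section

variable {n : ℕ} [NeZero n]

lemma cb_zmod : CB 30 (ZMod n) := by
  refine cb_of_torsion fun m hm hm' => ?_
  exact (IsAddCyclic.card_nsmul_eq_zero_le hm).trans hm'

lemma inj_smul (m : ℤ) (h : IsCoprime m (n : ℤ)) : Function.Injective fun x : ZMod n => m • x := by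
  have hu : IsUnit (m : ZMod n) := by
    obtain ⟨a, b, hab⟩ := h
    have h1 : (a : ZMod n) * (m : ZMod n) = 1 := by
      have := congrArg (fun z : ℤ => (z : ZMod n)) hab
      simpa using this
    exact IsUnit.of_mul_eq_one_right _ h1
  intro x y e
  simp only [zsmul_eq_mul] at e
  exact hu.mul_left_cancel e

end

end Pool.Agent.NC79
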