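import Pool.Agent.NC79.Pairs

/-!
# Blocks like cyclic groups of odd order or of even order not divisible by `3`
-/

namespace Pool.Agent.NC79

open Finset Pool.Agent.Duplex38

section lines

variable {G : Type} [AddCommGroup G] [Fintype G] [DecidableEq G] [IsAddCyclic G]

lemma cb_cyclic : CB 30 G := by
  refine cb_of_torsion fun m hm hm' => ?_
  exact (IsAddCyclic.card_nsmul_eq_zero_le hm).trans hm'

lemma fibre_two (z : G) : (univ.filter fun w : G => 2 • w = z).card ≤ 2 := by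
  rcases (univ.filter fun w : G => 2 • w = z).eq_empty_or_nonempty with h0 | ⟨x₀, hx₀⟩
  · rw [h0]
    simp
  · refine le_trans (card_le_card_of_injOn (fun x => x - x₀) ?_ ?_)
      (IsAddCyclic.card_nsmul_eq_zero_le (α := G) (n := 2) (by norm_num))
    · intro x hx
      simp only [coe_filter, mem_filter, mem_univ, true_and, Set.mem_ofPred_eq] at hx hx₀ ⊢
      rw [smul_sub, hx, hx₀, sub_self]
    · exact fun x _ y _ e => sub_left_injective e

omit [DecidableEq G] [IsAddCyclic G] in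
lemma inj_of_coprime (n : ℕ) (hn : Nat.Coprime n (Nat.card G)) : Function.Injective fun x : G => n • x :=
  (nsmulCoprime (G := G) hn.symm).injective

omit [DecidableEq G] [IsAddCyclic G] in
lemma bij_of_coprime (n : ℕ) (hn : Nat.Coprime n (Nat.card G)) : Function.Bijective fun x : G => n • x :=
  (nsmulCoprime (G := G) hn.symm).bijective

omit [IsAddCyclic G] in
lemma count_one {f : G → G} (hf : Function.Bijective f) (z : G) : (univ.filter fun x => f x = z).card = 1 := by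
  obtain ⟨x, hx⟩ := hf.2 z
  rw [card_eq_one]
  refine ⟨x, ?_⟩
  ext y
  rw [mem_filter, mem_singleton]
  exact ⟨fun hy => hf.1 (hy.2.trans hx.symm), fun hy => ⟨mem_univ _, by rw [hy, hx]⟩⟩

omit [IsAddCyclic G] in
lemma cnt_k2 (hodd : Odd (Nat.card G)) (c : Bool) (o s : G) : cnt (k2 c) o s = 1 := by
  have hb := bij_of_coprime (G := G) 2 (Nat.coprime_two_left.2 hodd)
  cases c
  · have : cnt (k2 false) o s = (univ.filter fun x : G => 2 • x = s - o).card := by
      refine congrArg card (filter_congr fun x _ => ?_)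
      simp only [k2, Bool.false_eq_true, if_false, one_smul]
      rw [← add_assoc, ← two_nsmul, eq_sub_iff_add_eq]
    rw [this]
    exact count_one hb _
  · have : cnt (k2 true) o s = (univ.filter fun x : G => o - x = s).card := by
      refine congrArg card (filter_congr fun x _ => ?_)
      simp only [k2, if_true]
      have e : x + ((-2 : ℤ) • x + o) = o - x := by
        rw [neg_smul, two_zsmul]
        abel
      rw [e]
    rw [this]
    exact count_one (Equiv.subLeft o).bijective _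

/-- the two exchanges with the slopes `1`, `-2` -/
def px2 : Bool → Ex := fun c => if c then ex21 else ex20

/-- the two exchanges with the slopes `1`, `-3` -/
def px3 : Bool → Ex := fun c => if c then ex31 else ex30

theorem lines_odd (hodd : Odd (Nat.card G)) : Lines G k2 2 px2 where
  cb := cb_cyclic
  ok c := by
    cases c
    · exact okx20
    · exact okx21
  ty c := by cases c <;> rfl
  inj c := by
    cases c
    · intro x y e
      simpa [k2] using e
    · intro x y e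
      have h := inj_of_coprime (G := G) 2 (Nat.coprime_two_left.2 hodd)
      refine h ?_
      simp only [k2, if_true, neg_smul, neg_inj, two_zsmul] at e
      change 2 • x = 2 • y
      rw [two_nsmul, two_nsmul, e]
  div g := by
    obtain ⟨g', hg'⟩ := (bij_of_coprime (G := G) 2 (Nat.coprime_two_left.2 hodd)).2 g
    refine ⟨g', ?_⟩
    rw [two_zsmul, ← hg']
    exact (two_nsmul g').symm
  two := fibre_two
  cnt c o s := by
    rw [cnt_k2 hodd]
    norm_num

/-- being twice an element -/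
def Par (z : G) : Prop := ∃ w : G, 2 • w = z

omit [Fintype G] [DecidableEq G] [IsAddCyclic G] in
lemma Par.sub {a b : G} (ha : Par a) (hb : Par b) : Par (a - b) := by
  obtain ⟨v, rfl⟩ := ha
  obtain ⟨w, rfl⟩ := hb
  exact ⟨v - w, smul_sub _ _ _⟩

omit [Fintype G] [DecidableEq G] [IsAddCyclic G] in
lemma Par.neg {a : G} (ha : Par a) : Par (-a) := by
  obtain ⟨v, rfl⟩ := ha
  exact ⟨-v, smul_neg _ _⟩

lemma par_dec (hev : Even (Nat.card G)) : (∃ u : G, ¬ Par u) ∧ (∀ a b : G, ¬ Par a → ¬ Par b → Par (a - b)) ∧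
    ∀ z : G, Par z → (univ.filter fun w : G => 2 • w = z).card = 2 := by
  classical
  obtain ⟨g, hg⟩ := IsAddCyclic.exists_generator (α := G)
  have ho : addOrderOf g = Nat.card G := addOrderOf_eq_card_of_forall_mem_zmultiples hg
  obtain ⟨m, hm⟩ := hev
  have hpos : 0 < Nat.card G := Nat.card_pos
  have key : ∀ n : ℤ, Par (n • g) → Even n := fun n hn => by
    obtain ⟨w, hw⟩ := hn
    obtain ⟨l, rfl⟩ := AddSubgroup.mem_zmultiples_iff.1 (hg w)
    have h1 : (n - 2 * l) • g = 0 := by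
      rw [sub_smul, mul_smul, two_zsmul, ← hw, two_nsmul, sub_self]
    rw [← addOrderOf_dvd_iff_zsmul_eq_zero, ho, hm] at h1
    obtain ⟨r, hr⟩ := h1
    push_cast at hr
    exact ⟨l + m * r, by linear_combination hr⟩
  have h0 : ¬ Par g := fun h => by
    have := key 1 (by rwa [one_smul])
    exact absurd this (by decide)
  refine ⟨⟨g, h0⟩, ?_, ?_⟩
  · intro a b ha hb
    obtain ⟨i, rfl⟩ := AddSubgroup.mem_zmultiples_iff.1 (hg a)
    obtain ⟨j, rfl⟩ := AddSubgroup.mem_zmultiples_iff.1 (hg b)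
    have hi : Odd i := by
      by_contra hcon
      rw [Int.not_odd_iff_even] at hcon
      obtain ⟨l, rfl⟩ := hcon
      exact ha ⟨l • g, by rw [add_smul, two_nsmul]⟩
    have hj : Odd j := by
      by_contra hcon
      rw [Int.not_odd_iff_even] at hcon
      obtain ⟨l, rfl⟩ := hcon
      exact hb ⟨l • g, by rw [add_smul, two_nsmul]⟩
    obtain ⟨l, hl⟩ := hi.sub_odd hj
    exact ⟨l • g, by rw [← sub_smul, hl, add_smul, two_nsmul]⟩
  · rintro z ⟨w, rfl⟩
    refine le_antisymm (fibre_two _) ?_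
    have h1 : w ≠ w + m • g := fun e => by
      have h2 : m • g = 0 := by
        have := congrArg (fun x => x - w) e
        simpa using this.symm
      have h3 := addOrderOf_dvd_of_nsmul_eq_zero h2
      rw [ho, hm] at h3
      have h4 := Nat.le_of_dvd (by omega) h3
      omega
    refine le_trans (le_of_eq (card_pair h1).symm) (card_le_card fun x hx => ?_)
    rw [mem_insert, mem_singleton] at hx
    rcases hx with rfl | rfl
    · simp
    · rw [mem_filter]
      refine ⟨mem_univ _, ?_⟩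
      have h5 : 2 • (m • g) = 0 := by
        rw [← mul_smul, mul_comm, mul_two, ← hm, ← ho]
        exact addOrderOf_nsmul_eq_zero g
      rw [smul_add, h5, add_zero]

lemma cnt_k3 (hev : Even (Nat.card G)) (c : Bool) (o s : G) :
    (Par (s - o) → cnt (k3 c) o s = 2) ∧ (¬ Par (s - o) → cnt (k3 c) o s = 0) := by
  obtain ⟨-, -, h3⟩ := par_dec (G := G) hev
  have zero : ∀ z : G, ¬ Par z → (univ.filter fun w : G => 2 • w = z).card = 0 := fun z hz => by
    rw [card_eq_zero, filter_eq_empty_iff]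
    exact fun w _ hw => hz ⟨w, hw⟩
  cases c
  · have e : cnt (k3 false) o s = (univ.filter fun x : G => 2 • x = s - o).card := by
      refine congrArg card (filter_congr fun x _ => ?_)
      simp only [k3, Bool.false_eq_true, if_false, one_smul]
      rw [← add_assoc, ← two_nsmul, eq_sub_iff_add_eq]
    rw [e]
    exact ⟨fun h => h3 _ h, fun h => zero _ h⟩
  · have e : cnt (k3 true) o s = (univ.filter fun x : G => 2 • x = -(s - o)).card := by
      refine congrArg card (filter_congr fun x _ => ?_)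
      simp only [k3, if_true]
      have e1 : x + ((-3 : ℤ) • x + o) = o - 2 • x := by
        have : (-3 : ℤ) • x = -x - 2 • x := by
          have h5 : (-3 : ℤ) = -1 - 2 := by norm_num
          rw [h5, sub_smul, neg_smul, one_smul, two_zsmul, two_nsmul]
        rw [this]
        abel
      rw [e1, neg_sub, sub_eq_iff_eq_add]
      constructor
      · intro h
        rw [h]
        abel
      · intro h
        rw [h]
        abel
    rw [e]
    refine ⟨fun h => h3 _ h.neg, fun h => zero _ fun h' => h ?_⟩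
    have := h'.neg
    rwa [neg_neg] at this

theorem lines_even (hev : Even (Nat.card G)) (h3 : ¬ 3 ∣ Nat.card G) : Lines G k3 1 px3 where
  cb := cb_cyclic
  ok c := by
    cases c
    · exact okx30
    · exact okx31
  ty c := by cases c <;> rfl
  inj c := by
    cases c
    · intro x y e
      simpa [k3] using e
    · intro x y e
      have h := inj_of_coprime (G := G) 3 ((Nat.Prime.coprime_iff_not_dvd Nat.prime_three).2 h3)
      refine h ?_
      simp only [k3, if_true, neg_smul, neg_inj] at e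
      change 3 • x = 3 • y
      rw [← natCast_zsmul, ← natCast_zsmul]
      exact e
  div g := ⟨g, one_smul _ _⟩
  two := fibre_two
  cnt c o s := by
    by_cases h : Par (s - o)
    · rw [(cnt_k3 hev c o s).1 h]
    · rw [(cnt_k3 hev c o s).2 h]
      norm_num

end lines

section pairs

variable {R C S R' C' S' G : Type} [Finite R] [Finite C] {L : R → C → S} {L' : R' → C' → S'} (h : Epi L L')
  {D : Set (R' × C')} (hD : IsDuplex L' D) [AddCommGroup G] [Finite G] [IsAddCyclic G]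
  (α : ∀ r' (_ : C'), {r // h.row r = r'} ≃ G) (β : ∀ c', {c // h.col c = c'} ≃ G)
  (γ : ∀ r' c', {s // h.sym s = L' r' c'} ≃ G)
  (hγ : ∀ r' c' a b, γ r' c' (h.block rfl a b) = α r' c' a + β c' b) (t : ℕ)

include hD hγ

/-- blocks like a large cyclic group of odd order over a duplex -/
theorem robust_of_cyclic_odd (hodd : Odd (Nat.card G)) (hbig : 80000 * (t + 1) ≤ Nat.card G) : Robust t L := by
  classical
  have _ := Fintype.ofFinite G
  refine robust_of_pairs h hD α β γ hγ (lines_odd hodd) (fun _ _ => 0)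
    (fun w₁ w₂ b₁ b₂ s r₁ r₂ c₁ c₂ _ _ _ h₁ h₂ => ?_) t (by rw [← Nat.card_eq_fintype_card]; exact hbig)
  rw [cnt_k2 hodd, cnt_k2 hodd]

/-- blocks like a large cyclic group of even order over a duplex -/
theorem robust_of_cyclic_even (hev : Even (Nat.card G)) (h3 : ¬ 3 ∣ Nat.card G)
    (hpar : ∀ r₁ c₁ r₂ c₂ (s s₀ : S) (h₁ : h.sym s = L' r₁ c₁) (h₁' : h.sym s₀ = L' r₁ c₁)
      (h₂ : h.sym s = L' r₂ c₂) (h₂' : h.sym s₀ = L' r₂ c₂),
      Par (γ r₁ c₁ ⟨s, h₁⟩ - γ r₁ c₁ ⟨s₀, h₁'⟩) → Par (γ r₂ c₂ ⟨s, h₂⟩ - γ r₂ c₂ ⟨s₀, h₂'⟩))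
    (hbig : 80000 * (t + 1) ≤ Nat.card G) : Robust t L := by
  classical
  have _ := Fintype.ofFinite G
  obtain ⟨⟨u, hu⟩, hdec, -⟩ := par_dec (G := G) hev
  choose e₁ e₂ hne hset using fun s' => Set.ncard_eq_two.1 (hD.2.2 s')
  choose s₀ hs₀ using h.sym_surj
  set p : R' → C' → G := fun r' c' => γ r' c' ⟨s₀ (L' r' c'), hs₀ _⟩ +
    (if (r', c') = e₂ (L' r' c') then u else 0) with hp
  refine robust_of_pairs h hD α β γ hγ (lines_even hev h3) p
    (fun w₁ w₂ b₁ b₂ s r₁ r₂ c₁ c₂ m₁ m₂ hne' h₁ h₂ => ?_) t (by rw [← Nat.card_eq_fintype_card]; exact hbig)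
  -- the shifts by `2 w` do not matter
  have shift : ∀ a b w : G, Par (a - (b + 2 • w)) ↔ Par (a - b) := fun a b w => by
    constructor
    · rintro ⟨v, hv⟩
      refine ⟨v + w, ?_⟩
      rw [smul_add, hv]
      abel
    · rintro ⟨v, hv⟩
      refine ⟨v - w, ?_⟩
      rw [smul_sub, hv]
      abel
  -- one of the two cells is `e₁`, the other is `e₂`
  have main : ∀ (w₁ w₂ : G) (b₁ b₂ : Bool) (r₁ r₂ : R') (c₁ c₂ : C') (h₁ : h.sym s = L' r₁ c₁)
      (h₂ : h.sym s = L' r₂ c₂), (r₁, c₁) = e₁ (h.sym s) → (r₂, c₂) = e₂ (h.sym s) →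
      cnt (k3 b₁) (p r₁ c₁ + 2 • w₁) (γ r₁ c₁ ⟨s, h₁⟩) + cnt (k3 b₂) (p r₂ c₂ + 2 • w₂) (γ r₂ c₂ ⟨s, h₂⟩) = 2 := by
    intro w₁ w₂ b₁ b₂ r₁ r₂ c₁ c₂ h₁ h₂ q₁ q₂
    have a₁ : h.sym (s₀ (h.sym s)) = L' r₁ c₁ := by rw [hs₀, h₁]
    have a₂ : h.sym (s₀ (h.sym s)) = L' r₂ c₂ := by rw [hs₀, h₂]
    have p₁ : p r₁ c₁ = γ r₁ c₁ ⟨s₀ (h.sym s), a₁⟩ := by
      have e5 : ∀ s' (hs' : L' r₁ c₁ = s') (a : h.sym (s₀ s') = L' r₁ c₁), s' = h.sym s →
          γ r₁ c₁ ⟨s₀ (L' r₁ c₁), hs₀ _⟩ = γ r₁ c₁ ⟨s₀ s', a⟩ := by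
        intro s' hs' a _
        subst hs'
        rfl
      simp only [hp]
      rw [if_neg, add_zero, e5 (h.sym s) h₁.symm a₁ rfl]
      rw [← h₁, q₁]
      exact hne _
    have p₂ : p r₂ c₂ = γ r₂ c₂ ⟨s₀ (h.sym s), a₂⟩ + u := by
      have e5 : ∀ s' (hs' : L' r₂ c₂ = s') (a : h.sym (s₀ s') = L' r₂ c₂), s' = h.sym s →
          γ r₂ c₂ ⟨s₀ (L' r₂ c₂), hs₀ _⟩ = γ r₂ c₂ ⟨s₀ s', a⟩ := by
        intro s' hs' a _
        subst hs'
        rfl
      simp only [hp]
      rw [if_pos, e5 (h.sym s) h₂.symm a₂ rfl]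
      rw [← h₂, q₂]
    by_cases hpar₁ : Par (γ r₁ c₁ ⟨s, h₁⟩ - γ r₁ c₁ ⟨s₀ (h.sym s), a₁⟩)
    · have k1 : Par (γ r₁ c₁ ⟨s, h₁⟩ - (p r₁ c₁ + 2 • w₁)) := by
        rw [shift, p₁]
        exact hpar₁
      have k2 := hpar r₁ c₁ r₂ c₂ s (s₀ (h.sym s)) h₁ a₁ h₂ a₂ hpar₁
      have k3 : ¬ Par (γ r₂ c₂ ⟨s, h₂⟩ - (p r₂ c₂ + 2 • w₂)) := by
        rw [shift, p₂]
        intro k4
        refine hu ?_
        have k5 := k2.sub k4
        have k6 : γ r₂ c₂ ⟨s, h₂⟩ - γ r₂ c₂ ⟨s₀ (h.sym s), a₂⟩ -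
            (γ r₂ c₂ ⟨s, h₂⟩ - (γ r₂ c₂ ⟨s₀ (h.sym s), a₂⟩ + u)) = u := by abel
        rwa [k6] at k5
      rw [(cnt_k3 hev _ _ _).1 k1, (cnt_k3 hev _ _ _).2 k3]
    · have k1 : ¬ Par (γ r₁ c₁ ⟨s, h₁⟩ - (p r₁ c₁ + 2 • w₁)) := by
        rw [shift, p₁]
        exact hpar₁
      have k2 : ¬ Par (γ r₂ c₂ ⟨s, h₂⟩ - γ r₂ c₂ ⟨s₀ (h.sym s), a₂⟩) := fun k =>
        hpar₁ (hpar r₂ c₂ r₁ c₁ s (s₀ (h.sym s)) h₂ a₂ h₁ a₁ k)
      have k3 : Par (γ r₂ c₂ ⟨s, h₂⟩ - (p r₂ c₂ + 2 • w₂)) := by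
        rw [shift, p₂]
        have k4 := hdec _ _ k2 hu
        have k5 : γ r₂ c₂ ⟨s, h₂⟩ - γ r₂ c₂ ⟨s₀ (h.sym s), a₂⟩ - u =
            γ r₂ c₂ ⟨s, h₂⟩ - (γ r₂ c₂ ⟨s₀ (h.sym s), a₂⟩ + u) := by abel
        rwa [k5] at k4
      rw [(cnt_k3 hev _ _ _).2 k1, (cnt_k3 hev _ _ _).1 k3]
  have i₁ : (r₁, c₁) = e₁ (h.sym s) ∨ (r₁, c₁) = e₂ (h.sym s) := by
    have : (r₁, c₁) ∈ {x | x ∈ D ∧ L' x.1 x.2 = h.sym s} := ⟨m₁, h₁.symm⟩
    rw [hset] at this
    exact this
  have i₂ : (r₂, c₂) = e₁ (h.sym s) ∨ (r₂, c₂) = e₂ (h.sym s) := by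
    have : (r₂, c₂) ∈ {x | x ∈ D ∧ L' x.1 x.2 = h.sym s} := ⟨m₂, h₂.symm⟩
    rw [hset] at this
    exact this
  rcases i₁ with i₁ | i₁ <;> rcases i₂ with i₂ | i₂
  · exact absurd (i₁.trans i₂.symm) hne'
  · exact main _ _ _ _ _ _ _ _ h₁ h₂ i₁ i₂
  · rw [add_comm]
    exact main _ _ _ _ _ _ _ _ h₂ h₁ i₂ i₁
  · exact absurd (i₁.trans i₂.symm) hne'

end pairs

end Pool.Agent.NC79
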