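import Pool.Agent.NC79.Cyc

/-!
# Exchanges of ten cells in two blocks with common columns

Every new cell lies in the block of its row, and its sum is the sum of an old cell of the same block.
-/

namespace Pool.Agent.NC79

open Finset

/-- an exchange of ten cells -/
structure Ex where
  typ : Fin 10 → Bool
  sg : Fin 10 → Fin 10
  ta : Fin 10 → Fin 10
  i0 : Fin 10
  p : Fin 10 → ℤ
  q : Fin 10 → ℤ
  ca : Fin 10 → ℤ
  cb : Fin 10 → ℤ
  cv : Fin 10 → ℤ

/-- what is checked for an exchange, the offsets and the given row being `d` times the parameters -/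
structure Ex.Ok (P : Ex) (k : Bool → ℤ) (d : ℤ) : Prop where
  sg_inj : ∀ i j, P.sg i = P.sg j → i = j
  ta_inj : ∀ i j, P.ta i = P.ta j → i = j
  rs : ∀ i, P.typ (P.ta i) = P.typ i
  base : P.p P.i0 = 0 ∧ P.q P.i0 = 0 ∧ P.ca P.i0 = 0 ∧ P.cb P.i0 = 0 ∧ P.cv P.i0 = d
  sp : ∀ i, P.p i + k (P.typ (P.sg i)) * P.p (P.sg i) = (1 + k (P.typ (P.ta i))) * P.p (P.ta i)
  sq : ∀ i, P.q i + k (P.typ (P.sg i)) * P.q (P.sg i) = (1 + k (P.typ (P.ta i))) * P.q (P.ta i)
  sv : ∀ i, P.cv i + k (P.typ (P.sg i)) * P.cv (P.sg i) = (1 + k (P.typ (P.ta i))) * P.cv (P.ta i)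
  sa : ∀ i, P.ca i + k (P.typ (P.sg i)) * P.ca (P.sg i) + (if P.typ (P.sg i) then 0 else d) =
    (1 + k (P.typ (P.ta i))) * P.ca (P.ta i) + (if P.typ (P.ta i) then 0 else d)
  sb : ∀ i, P.cb i + k (P.typ (P.sg i)) * P.cb (P.sg i) + (if P.typ (P.sg i) then d else 0) =
    (1 + k (P.typ (P.ta i))) * P.cb (P.ta i) + (if P.typ (P.ta i) then d else 0)
  nz : ∀ i, i ≠ P.i0 → P.p i ≠ 0 ∨ P.q i ≠ 0
  nzp : ∀ i, |P.p i| ≤ 30
  nzq : ∀ i, |P.q i| ≤ 30
  diff : ∀ i j, i ≠ j → P.typ i = P.typ j → P.p i - P.p j ≠ 0 ∨ P.q i - P.q j ≠ 0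
  diffp : ∀ i j, |P.p i - P.p j| ≤ 30
  diffq : ∀ i j, |P.q i - P.q j| ≤ 30
  row0 : k (P.typ (P.sg P.i0)) * P.p (P.sg P.i0) ≠ 0 ∨ k (P.typ (P.sg P.i0)) * P.q (P.sg P.i0) ≠ 0
  row0p : |k (P.typ (P.sg P.i0)) * P.p (P.sg P.i0)| ≤ 30
  row0q : |k (P.typ (P.sg P.i0)) * P.q (P.sg P.i0)| ≤ 30
  det : ∀ i, i ≠ P.i0 → P.sg i ≠ P.i0 → P.ta i ≠ P.i0 →
    P.p i * (k (P.typ (P.sg i)) * P.q (P.sg i)) - k (P.typ (P.sg i)) * P.p (P.sg i) * P.q i ≠ 0
  detb : ∀ i, |P.p i * (k (P.typ (P.sg i)) * P.q (P.sg i)) - k (P.typ (P.sg i)) * P.p (P.sg i) * P.q i| ≤ 30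

/-- the exchange for a cell of slope `1` with the slopes `1`, `-3` -/
def ex30 : Ex where
  typ := ![true, false, false, true, false, false, true, false, true, false]
  sg := ![1, 2, 0, 4, 5, 3, 7, 6, 9, 8]
  ta := ![6, 4, 9, 8, 1, 7, 3, 5, 0, 2]
  i0 := 1
  p := ![0, 0, 2, 1, 1, -1, 0, -2, -1, 1]
  q := ![-2, 0, 0, -2, 0, 0, 1, 3, 1, 3]
  ca := ![-1, 0, 0, -1, 0, 0, 0, 1, 0, 1]
  cb := ![1, 0, 0, 1, 0, 0, 0, -1, 0, -1]
  cv := ![1, 1, 1, 1, 1, 1, -1, -1, -1, -1]

/-- the exchange for a cell of slope `-3` with the slopes `1`, `-3` -/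
def ex31 : Ex where
  typ := ![true, false, false, true, false, false, true, false, true, false]
  sg := ![1, 2, 0, 4, 5, 3, 7, 6, 9, 8]
  ta := ![6, 9, 5, 8, 7, 2, 0, 1, 3, 4]
  i0 := 6
  p := ![0, 0, 2, -1, -1, 1, 0, 0, 1, 1]
  q := ![1, -1, -1, 0, -2, -2, 0, -2, 1, -1]
  ca := ![-1, 0, 0, 0, 1, 1, 0, 1, -1, 0]
  cb := ![1, 0, 0, 0, -1, -1, 0, -1, 1, 0]
  cv := ![-1, -1, 1, 0, 0, 2, 1, 1, 0, 0]

/-- the exchange for a cell of slope `1` with the slopes `1`, `-2` (halved offsets) -/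
def ex20 : Ex where
  typ := ![true, true, true, true, true, false, true, false, true, false]
  sg := ![1, 2, 3, 4, 5, 6, 7, 8, 9, 0]
  ta := ![8, 4, 6, 0, 1, 7, 2, 9, 3, 5]
  i0 := 9
  p := ![-2, -1, -1, 0, -1, 2, 1, 0, 0, 0]
  q := ![0, 1, 0, -2, -1, 0, -4, 4, 2, 0]
  ca := ![-1, -1, -1, -1, -1, 0, -1, 0, -1, 0]
  cb := ![1, 1, 1, 1, 1, 0, 1, 0, 1, 0]
  cv := ![1, 0, 0, -1, 0, 0, -2, 2, -1, 2]

/-- the exchange for a cell of slope `-2` with the slopes `1`, `-2` (halved offsets) -/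
def ex21 : Ex where
  typ := ![true, true, true, true, true, false, true, false, true, false]
  sg := ![1, 2, 3, 4, 5, 6, 7, 8, 9, 0]
  ta := ![8, 4, 6, 0, 1, 7, 2, 9, 3, 5]
  i0 := 1
  p := ![-1, 0, 0, 1, 0, 0, 2, -2, 1, -2]
  q := ![-3, 0, -1, -1, -2, 2, -1, 2, 3, -2]
  ca := ![1, 0, 0, -1, 0, -2, -2, 0, -1, 0]
  cb := ![-1, 0, 0, 1, 0, 2, 2, 0, 1, 0]
  cv := ![1, 2, 1, -1, 0, -2, -3, 2, 3, -2]


lemma okx30 : ex30.Ok k3 1 := by
  constructor <;> decide

lemma okx31 : ex31.Ok k3 1 := by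
  constructor <;> decide

lemma okx20 : ex20.Ok k2 2 := by
  constructor <;> decide

lemma okx21 : ex21.Ok k2 2 := by
  constructor <;> decide

section params

variable {C : ℕ} {G : Type} [AddCommGroup G]

/-- the constant part of the `i`-th row -/
def Ex.cst (P : Ex) (o' : Bool → G) (v' : G) (i : Fin 10) : G :=
  P.ca i • o' false + P.cb i • o' true + P.cv i • v'

/-- the `i`-th row -/
def Ex.row (P : Ex) (o' : Bool → G) (v' : G) (x : G × G) (i : Fin 10) : G :=
  P.p i • x.1 + P.q i • x.2 + P.cst o' v' i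

/-- the `i`-th of the ten cells which are taken out -/
def Ex.slot (P : Ex) (o' : Bool → G) (v' : G) (x : G × G) (i : Fin 10) : Bool × G := (P.typ i, P.row o' v' x i)

/-- the `i`-th of the ten cells which are put in -/
def Ex.new (P : Ex) (k : Bool → ℤ) (d : ℤ) (o' : Bool → G) (v' : G) (x : G × G) (i : Fin 10) : G × G :=
  (P.row o' v' x i, (cell k (fun c => d • o' c) (P.slot o' v' x (P.sg i))).2)

variable {k : Bool → ℤ} {d : ℤ} {P : Ex}

lemma Ex.sum_new (hP : P.Ok k d) (o' : Bool → G) (v' : G) (x : G × G) (i : Fin 10) :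
    (P.new k d o' v' x i).1 + (P.new k d o' v' x i).2 =
      (cell k (fun c => d • o' c) (P.slot o' v' x (P.ta i))).1 +
      (cell k (fun c => d • o' c) (P.slot o' v' x (P.ta i))).2 := by
  simp only [Ex.new, cell, Ex.slot, Ex.row, Ex.cst]
  rw [off_eq (fun c => d • o' c) (P.typ (P.sg i)), off_eq (fun c => d • o' c) (P.typ (P.ta i))]
  have h1 := hP.sp i
  have h2 := hP.sq i
  have h3 := hP.sv i
  have h4 := hP.sa i
  have h5 := hP.sb i
  have h4' : P.ca i + k (P.typ (P.sg i)) * P.ca (P.sg i) + (if P.typ (P.sg i) then 0 else 1) * d =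
    (1 + k (P.typ (P.ta i))) * P.ca (P.ta i) + (if P.typ (P.ta i) then 0 else 1) * d := by
    rw [ite_mul, ite_mul, zero_mul, one_mul]
    exact h4
  have h5' : P.cb i + k (P.typ (P.sg i)) * P.cb (P.sg i) + (if P.typ (P.sg i) then 1 else 0) * d =
    (1 + k (P.typ (P.ta i))) * P.cb (P.ta i) + (if P.typ (P.ta i) then 1 else 0) * d := by
    rw [ite_mul, ite_mul, zero_mul, one_mul]
    exact h5
  linear_combination (norm := module) h1 • x.1 + h2 • x.2 + h3 • v' + h4' • o' false + h5' • o' true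

lemma Ex.row_base (hP : P.Ok k d) (o' : Bool → G) (v' : G) (x : G × G) : P.row o' v' x P.i0 = d • v' := by
  obtain ⟨h1, h2, h3, h4, h5⟩ := hP.base
  simp [Ex.row, Ex.cst, h1, h2, h3, h4, h5]

variable [Fintype G] [DecidableEq G]

lemma cardx_row (h : CB C G) (hP : P.Ok k d) (o' : Bool → G) (v' : G) {i : Fin 10}
    (hi : i ≠ P.i0) (w : G) : (univ.filter fun x : G × G => P.row o' v' x i = w).card ≤ C * Fintype.card G := by
  have := lin1 h (hP.nz i hi) (hP.nzp i) (hP.nzq i) (w - P.cst o' v' i)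
  convert this using 2
  ext x
  simp only [mem_filter, mem_univ, true_and, Ex.row]
  exact ⟨fun e => eq_sub_of_add_eq e, fun e => by rw [e, sub_add_cancel]⟩

lemma cardx_eq_row (h : CB C G) (hP : P.Ok k d) (o' : Bool → G) (v' : G) {i j : Fin 10} (hij : i ≠ j)
    (hty : P.typ i = P.typ j) :
    (univ.filter fun x : G × G => P.row o' v' x i = P.row o' v' x j).card ≤ C * Fintype.card G := by
  have := lin1 h (hP.diff i j hij hty) (hP.diffp i j) (hP.diffq i j) (P.cst o' v' j - P.cst o' v' i)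
  convert this using 2
  ext x
  simp only [mem_filter, mem_univ, true_and, Ex.row]
  constructor
  · intro e
    linear_combination (norm := module) e
  · intro e
    linear_combination (norm := module) e

lemma cardx_new (h : CB C G) (hP : P.Ok k d) (o' : Bool → G) (v' : G) (Z : Finset (G × G)) (z : ℕ)
    (hZr : ∀ r, (Z.filter fun c => c.1 = r).card ≤ z) (hZc : ∀ r, (Z.filter fun c => c.2 = r).card ≤ z)
    (hZs : ∀ r, (Z.filter fun c => c.1 + c.2 = r).card ≤ z) (i : Fin 10) :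
    (univ.filter fun x : G × G => P.new k d o' v' x i ∈ Z).card ≤ z * (C * Fintype.card G) + Z.card * (C * C) := by
  by_cases hi : i = P.i0
  · have hsub : (univ.filter fun x : G × G => P.new k d o' v' x i ∈ Z) ⊆
        (Z.filter fun c => c.1 = d • v').biUnion fun c =>
        univ.filter fun x : G × G => (k (P.typ (P.sg P.i0)) * P.p (P.sg P.i0)) • x.1 +
          (k (P.typ (P.sg P.i0)) * P.q (P.sg P.i0)) • x.2 =
          c.2 - (k (P.typ (P.sg P.i0)) • P.cst o' v' (P.sg P.i0) + d • o' (P.typ (P.sg P.i0))) := by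
      intro x hx
      simp only [mem_filter, mem_univ, true_and, mem_biUnion] at hx ⊢
      refine ⟨_, ⟨hx, ?_⟩, ?_⟩
      · subst hi
        exact Ex.row_base hP o' v' x
      · subst hi
        simp only [Ex.new, cell, Ex.slot, Ex.row]
        module
    refine (card_le_card hsub).trans ((card_biUnion_le_card_mul _ _ _ fun c _ =>
      lin1 h hP.row0 hP.row0p hP.row0q _).trans ?_)
    exact (Nat.mul_le_mul_right _ (hZr _)).trans (Nat.le_add_right _ _)
  · by_cases hs : P.sg i = P.i0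
    · have hsub : (univ.filter fun x : G × G => P.new k d o' v' x i ∈ Z) ⊆
          (Z.filter fun c => c.2 = (cell k (fun c => d • o' c) (P.typ P.i0, d • v')).2).biUnion fun c =>
            univ.filter fun x : G × G => P.row o' v' x i = c.1 := by
        intro x hx
        simp only [mem_filter, mem_univ, true_and, mem_biUnion] at hx ⊢
        refine ⟨_, ⟨hx, ?_⟩, rfl⟩
        simp only [Ex.new, Ex.slot, hs, Ex.row_base hP]
      refine (card_le_card hsub).trans ((card_biUnion_le_card_mul _ _ _ fun c _ =>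
        cardx_row h hP o' v' hi _).trans ?_)
      exact (Nat.mul_le_mul_right _ (hZc _)).trans (Nat.le_add_right _ _)
    · by_cases ht : P.ta i = P.i0
      · have hsub : (univ.filter fun x : G × G => P.new k d o' v' x i ∈ Z) ⊆
            (Z.filter fun c => c.1 + c.2 = (cell k (fun c => d • o' c) (P.typ P.i0, d • v')).1 +
              (cell k (fun c => d • o' c) (P.typ P.i0, d • v')).2).biUnion
              fun c => univ.filter fun x : G × G => P.row o' v' x i = c.1 := by
          intro x hx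
          simp only [mem_filter, mem_univ, true_and, mem_biUnion] at hx ⊢
          refine ⟨_, ⟨hx, ?_⟩, rfl⟩
          rw [Ex.sum_new hP]
          simp only [Ex.slot, ht, Ex.row_base hP]
        refine (card_le_card hsub).trans ((card_biUnion_le_card_mul _ _ _ fun c _ =>
          cardx_row h hP o' v' hi _).trans ?_)
        exact (Nat.mul_le_mul_right _ (hZs _)).trans (Nat.le_add_right _ _)
      · have hsub : (univ.filter fun x : G × G => P.new k d o' v' x i ∈ Z) ⊆ Z.biUnion fun c =>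
            univ.filter fun x : G × G => P.p i • x.1 + P.q i • x.2 = c.1 - P.cst o' v' i ∧
              (k (P.typ (P.sg i)) * P.p (P.sg i)) • x.1 + (k (P.typ (P.sg i)) * P.q (P.sg i)) • x.2 =
              c.2 - (k (P.typ (P.sg i)) • P.cst o' v' (P.sg i) + d • o' (P.typ (P.sg i))) := by
          intro x hx
          simp only [mem_filter, mem_univ, true_and, mem_biUnion] at hx ⊢
          refine ⟨_, hx, ?_, ?_⟩
          · simp only [Ex.new, Ex.row]
            module
          · simp only [Ex.new, cell, Ex.slot, Ex.row]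
            module
        refine (card_le_card hsub).trans ((card_biUnion_le_card_mul _ _ _ fun c _ =>
          lin2 h (hP.det i hi hs ht) (hP.detb i) _ _).trans ?_)
        exact Nat.le_add_left _ _

/-- there is an exchange which avoids given cells -/
lemma existsx_params (h : CB C G) (hP : P.Ok k d) (o' : Bool → G) (v' : G)
    (U : Finset (Bool × G)) (Z : Finset (G × G)) (z : ℕ)
    (hZr : ∀ r, (Z.filter fun c => c.1 = r).card ≤ z) (hZc : ∀ r, (Z.filter fun c => c.2 = r).card ≤ z)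
    (hZs : ∀ r, (Z.filter fun c => c.1 + c.2 = r).card ≤ z)
    (hbig : 100 * (C * Fintype.card G) + 10 * (U.card * (C * Fintype.card G)) +
      10 * (z * (C * Fintype.card G) + Z.card * (C * C)) < Fintype.card G * Fintype.card G) :
    ∃ x : G × G, (∀ i j, i ≠ j → P.slot o' v' x i ≠ P.slot o' v' x j) ∧
      (∀ i, i ≠ P.i0 → P.slot o' v' x i ∉ U) ∧ ∀ i, P.new k d o' v' x i ∉ Z := by
  by_contra hcon
  push Not at hcon
  have hsub : (univ : Finset (G × G)) ⊆
      ((univ : Finset (Fin 10 × Fin 10)).biUnion fun ij => if ij.1 = ij.2 ∨ P.typ ij.1 ≠ P.typ ij.2 then ∅ else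
        univ.filter fun x : G × G => P.row o' v' x ij.1 = P.row o' v' x ij.2) ∪
      (((univ : Finset (Fin 10)).biUnion fun i => if i = P.i0 then ∅ else U.biUnion fun u =>
        univ.filter fun x : G × G => P.row o' v' x i = u.2) ∪
      ((univ : Finset (Fin 10)).biUnion fun i => univ.filter fun x : G × G => P.new k d o' v' x i ∈ Z)) := by
    intro x _
    rw [mem_union, mem_union, mem_biUnion, mem_biUnion, mem_biUnion]
    by_cases h1 : ∃ i j, i ≠ j ∧ P.slot o' v' x i = P.slot o' v' x j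
    · obtain ⟨i, j, hij, e⟩ := h1
      obtain ⟨e1, e2⟩ := Prod.mk.inj e
      refine Or.inl ⟨(i, j), mem_univ _, ?_⟩
      rw [if_neg (by simp only [not_or, not_not]; exact ⟨hij, e1⟩), mem_filter]
      exact ⟨mem_univ _, e2⟩
    · push Not at h1
      by_cases h2 : ∃ i, i ≠ P.i0 ∧ P.slot o' v' x i ∈ U
      · obtain ⟨i, hi, e⟩ := h2
        refine Or.inr (Or.inl ⟨i, mem_univ _, ?_⟩)
        rw [if_neg hi, mem_biUnion]
        exact ⟨_, e, mem_filter.2 ⟨mem_univ _, rfl⟩⟩
      · push Not at h2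
        obtain ⟨i, hi⟩ := hcon x h1 h2
        exact Or.inr (Or.inr ⟨i, mem_univ _, mem_filter.2 ⟨mem_univ _, hi⟩⟩)
  have c1 : ((univ : Finset (Fin 10 × Fin 10)).biUnion fun ij => if ij.1 = ij.2 ∨ P.typ ij.1 ≠ P.typ ij.2 then ∅ else
      univ.filter fun x : G × G => P.row o' v' x ij.1 = P.row o' v' x ij.2).card ≤ 100 * (C * Fintype.card G) := by
    refine (card_biUnion_le_card_mul _ _ (C * Fintype.card G) fun ij _ => ?_).trans (le_of_eq (by simp))
    split_ifs with hij
    · simp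
    · rw [not_or, not_not] at hij
      exact cardx_eq_row h hP o' v' hij.1 hij.2
  have c2 : ((univ : Finset (Fin 10)).biUnion fun i => if i = P.i0 then ∅ else U.biUnion fun u =>
      univ.filter fun x : G × G => P.row o' v' x i = u.2).card ≤ 10 * (U.card * (C * Fintype.card G)) := by
    refine (card_biUnion_le_card_mul _ _ (U.card * (C * Fintype.card G)) fun i _ => ?_).trans
      (le_of_eq (by simp))
    split_ifs with hi
    · simp
    · exact card_biUnion_le_card_mul _ _ _ fun u _ => cardx_row h hP o' v' hi _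
  have c3 : ((univ : Finset (Fin 10)).biUnion fun i =>
      univ.filter fun x : G × G => P.new k d o' v' x i ∈ Z).card ≤
      10 * (z * (C * Fintype.card G) + Z.card * (C * C)) := by
    refine (card_biUnion_le_card_mul _ _ (z * (C * Fintype.card G) + Z.card * (C * C)) fun i _ => ?_).trans
      (le_of_eq (by simp))
    exact cardx_new h hP o' v' Z z hZr hZc hZs i
  have c0 := (card_le_card hsub).trans ((card_union_le _ _).trans (Nat.add_le_add_left (card_union_le _ _) _))
  rw [card_univ, Fintype.card_prod] at c0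
  omega

end params

end Pool.Agent.NC79
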