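import Pool.Agent.NC79.Tab

/-!
# All orders
-/

namespace Pool.Agent.NC79

open Finset

variable {n : ℕ} [NeZero n]

theorem base_odd (hn : Odd n) : Base 30 (Fintype.card (ZMod n) * Fintype.card (ZMod n)) k2
    (cell k2 fun _ : Bool => (0 : ZMod n)) := by
  have h2 : IsCoprime (2 : ℤ) (n : ℤ) := by
    rw [Int.isCoprime_iff_gcd_eq_one]
    exact hn.coprime_two_left
  refine base_lin (P := fun c => if c then pat21 else pat20) _ (fun c => by cases c <;> simp [ok20, ok21])
    (fun c => by cases c <;> rfl) (fun c => ?_) (fun r => ?_) 30 ?_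
  · cases c
    · exact inj_smul 1 isCoprime_one_left
    · exact inj_smul (-2) h2.neg_left
  · refine eq_two_of_bij (fun c x => (cell k2 (fun _ : Bool => (0 : ZMod n)) (c, x)).1 +
      (cell k2 (fun _ : Bool => (0 : ZMod n)) (c, x)).2) (fun c => ?_) r
    cases c
    · intro x y e
      refine inj_smul 2 h2 ?_
      simp only [cell, k2, Bool.false_eq_true, if_false] at e
      change (2 : ℤ) • x = (2 : ℤ) • y
      linear_combination (norm := module) e
    · intro x y e
      simp only [cell, k2, if_true] at e
      have e' : (-1 : ℤ) • x = (-1 : ℤ) • y := by linear_combination (norm := module) e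
      simpa using e'
  · have := cb_zmod (n := n) 3 (by norm_num) (by norm_num) 0
    refine le_trans (card_le_card fun x hx => ?_) this
    simp only [mem_filter, mem_univ, true_and, cell, k2, if_true, Bool.false_eq_true, if_false] at hx ⊢
    have e := (Prod.mk.inj hx).2
    linear_combination (norm := module) (-1 : ℤ) • e

theorem base_even (hn : Even n) (h3 : ¬ 3 ∣ n) : Base 30 (Fintype.card (ZMod n) * Fintype.card (ZMod n)) k3
    (cell k3 fun b : Bool => if b then (1 : ZMod n) else 0) := by
  obtain ⟨m, hm⟩ := hn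
  have hn0 : 0 < n := Nat.pos_of_ne_zero (NeZero.ne n)
  have h3' : IsCoprime (3 : ℤ) (n : ℤ) := by
    rw [Int.isCoprime_iff_gcd_eq_one]
    exact (Nat.Prime.coprime_iff_not_dvd Nat.prime_three).2 h3
  refine base_lin (P := fun c => if c then pat31 else pat30) _ (fun c => by cases c <;> simp [ok30, ok31])
    (fun c => by cases c <;> rfl) (fun c => ?_) (fun r => ?_) 30 ?_
  · cases c
    · exact inj_smul 1 isCoprime_one_left
    · exact inj_smul (-3) h3'.neg_left
  · refine eq_two (fun σ => (cell k3 (fun b : Bool => if b then (1 : ZMod n) else 0) σ).1 +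
      (cell k3 (fun b : Bool => if b then (1 : ZMod n) else 0) σ).2) (fun r => ?_) r
    have hr := ZMod.val_lt r
    have hr' : ((r.val : ℤ) : ZMod n) = r := by
      rw [Int.cast_natCast, ZMod.natCast_zmod_val]
    generalize r.val = ρ at *
    subst hr'
    have hne : ∀ a : ℤ, ((a : ℤ) : ZMod n) ≠ ((a + m : ℤ) : ZMod n) := fun a e => by
      obtain ⟨q, hq⟩ := zeq' e
      have h4 : (m : ℤ) = (m + m) * q := by
        have : (n : ℤ) = m + m := by exact_mod_cast hm
        rw [← this, ← hq]
        ring
      have h5 : 0 < m := by omega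
      have h6 : (m : ℤ) * (1 - 2 * q) = 0 := by linear_combination h4
      rcases mul_eq_zero.1 h6 with h7 | h7 <;> omega
    rcases Nat.even_or_odd' ρ with ⟨u, rfl | rfl⟩
    · refine two_le _ _ (false, ((u : ℤ) : ZMod n)) (false, ((u + m : ℤ) : ZMod n)) ?_ ?_ ?_
      · exact fun e => hne u (Prod.mk.inj e).2
      · simp only [cell, k3, Bool.false_eq_true, if_false]
        rw [one_smul, add_zero, ← Int.cast_add]
        exact zeq 0 (by push_cast; ring)
      · simp only [cell, k3, Bool.false_eq_true, if_false]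
        rw [one_smul, add_zero, ← Int.cast_add]
        exact zeq (-1) (by push_cast [hm]; ring)
    · refine two_le _ _ (true, ((-u : ℤ) : ZMod n)) (true, ((-u + m : ℤ) : ZMod n)) ?_ ?_ ?_
      · exact fun e => hne (-u) (Prod.mk.inj e).2
      · simp only [cell, k3, if_true]
        rw [zsmul_eq_mul, ← Int.cast_mul, ← Int.cast_one, ← Int.cast_add, ← Int.cast_add]
        exact zeq 0 (by push_cast; ring)
      · simp only [cell, k3, if_true]
        rw [zsmul_eq_mul, ← Int.cast_mul, ← Int.cast_one, ← Int.cast_add, ← Int.cast_add]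
        exact zeq 1 (by push_cast [hm]; ring)
  · have := cb_zmod (n := n) 4 (by norm_num) (by norm_num) 1
    refine le_trans (card_le_card fun x hx => ?_) this
    simp only [mem_filter, mem_univ, true_and, cell, k3, if_true, Bool.false_eq_true, if_false] at hx ⊢
    have e := (Prod.mk.inj hx).2
    linear_combination (norm := module) (-1 : ℤ) • e

/-- the main theorem -/
theorem avoid_cyclic (t : ℕ) (hn : 200000000 * (t + 1) ≤ n) (B : Finset (ZMod n × ZMod n))
    (hBr : ∀ r, (B.filter fun c => c.1 = r).card ≤ t) (hBc : ∀ r, (B.filter fun c => c.2 = r).card ≤ t)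
    (hBs : ∀ r, (B.filter fun c => c.1 + c.2 = r).card ≤ t) : Avoid B := by
  rcases Nat.even_or_odd n with h2 | h2
  · by_cases h3 : 3 ∣ n
    · obtain ⟨j, rfl⟩ : ∃ j, n = 6 * j := by
        obtain ⟨m, hm⟩ := h2
        exact ⟨n / 6, by omega⟩
      refine avoid cb_zmod (base6 (by omega)) t ?_ B hBr hBc hBs
      rw [ZMod.card]
      obtain ⟨a, ha⟩ : ∃ a, j / 12 = a := ⟨_, rfl⟩
      have h4 : j < 12 * a + 12 := by omega
      have h5 : 33000000 * (t + 1) ≤ j := by omega
      have h6 : 2700000 * (t + 1) ≤ a := by omega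
      rw [ha]
      calc (81 * 30 + 90 * (2 * t + 0) * 30 + 9 * (t + 4) * 30 + 9 * (t + 4) * 30 ^ 2) * (6 * j)
          ≤ (36000 * (t + 1)) * (6 * (12 * a + 12)) := by gcongr <;> omega
        _ ≤ (36000 * (t + 1)) * (73 * a) := Nat.mul_le_mul_left _ (by omega)
        _ = 2628000 * (t + 1) * a := by ring
        _ < 2700000 * (t + 1) * a := by
          have : 0 < a := by omega
          gcongr
          norm_num
        _ ≤ a * a := by gcongr
    · refine avoid cb_zmod (base_even h2 h3) t ?_ B hBr hBc hBs
      rw [ZMod.card]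
      refine Nat.mul_lt_mul_of_pos_right ?_ (by omega)
      omega
  · refine avoid cb_zmod (base_odd h2) t ?_ B hBr hBc hBs
    rw [ZMod.card]
    refine Nat.mul_lt_mul_of_pos_right ?_ (by omega)
    omega

end Pool.Agent.NC79
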