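import Pool.Agent.NC79.Gad

/-!
# Repairing all bad cells
-/

namespace Pool.Agent.NC79

open Finset

lemma count_exchange {α β γ : Type} [DecidableEq α] [DecidableEq β] [DecidableEq γ]
    (Q : Finset α) (N : Finset β) (f : Fin 9 → α) (g : Fin 9 → β) (hf : Function.Injective f)
    (hg : Function.Injective g) (hfP : ∀ i, f i ∉ Q) (hgN : ∀ i, g i ∉ N) (τ : Fin 9 → Fin 9)
    (hτ : Function.Injective τ) (φ : β → γ) (ψ : α → γ) (h : ∀ i, φ (g i) = ψ (f (τ i))) (r : γ)
    (h0 : (N.filter fun c => φ c = r).card = (Q.filter fun σ => ψ σ = r).card) :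
    ((N ∪ univ.image g).filter fun c => φ c = r).card = ((Q ∪ univ.image f).filter fun σ => ψ σ = r).card := by
  have d1 : Disjoint (N.filter fun c => φ c = r) ((univ.image g).filter fun c => φ c = r) := by
    refine disjoint_left.2 fun c h1 h2 => ?_
    obtain ⟨i, -, rfl⟩ := mem_image.1 (mem_filter.1 h2).1
    exact hgN i (mem_filter.1 h1).1
  have d2 : Disjoint (Q.filter fun σ => ψ σ = r) ((univ.image f).filter fun σ => ψ σ = r) := by
    refine disjoint_left.2 fun c h1 h2 => ?_
    obtain ⟨i, -, rfl⟩ := mem_image.1 (mem_filter.1 h2).1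
    exact hfP i (mem_filter.1 h1).1
  rw [filter_union, filter_union, card_union_of_disjoint d1, card_union_of_disjoint d2, h0, filter_image,
    filter_image, card_image_of_injective _ hg, card_image_of_injective _ hf]
  congr 1
  have hb : Function.Bijective τ := Finite.injective_iff_bijective.1 hτ
  refine card_bij (fun i _ => τ i) (fun i hi => ?_) (fun i _ j _ e => hτ e) fun j hj => ?_
  · simp only [mem_filter, mem_univ, true_and] at hi ⊢
    rw [← h, hi]
  · obtain ⟨i, rfl⟩ := hb.2 j
    simp only [mem_filter, mem_univ, true_and] at hj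
    exact ⟨i, by simp only [mem_filter, mem_univ, true_and]; rw [h, hj], rfl⟩

lemma card_le_of_lines {G : Type} [Fintype G] [DecidableEq G] (Z : Finset (G × G)) (z : ℕ) (hZ : ∀ r, (Z.filter fun c => c.1 = r).card ≤ z) :
    Z.card ≤ Fintype.card G * z := by
  have h1 : Z = (univ : Finset G).biUnion fun r => Z.filter fun c => c.1 = r := by
    ext c
    simp
  rw [h1]
  exact (card_biUnion_le_card_mul _ _ z fun r _ => hZ r).trans (le_of_eq (by rw [card_univ]))

variable {C : ℕ} {G : Type} [AddCommGroup G] [Fintype G] [DecidableEq G]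

/-- a set of cells `cl σ`, one of each family in each row, two in each column and sum class, and each of them lying in
at least `M` exchanges -/
structure Base (κ M : ℕ) (k : Bool → ℤ) (cl : Bool × G → G × G) : Prop where
  fst : ∀ σ, (cl σ).1 = σ.2
  col : ∀ r, (univ.filter fun σ => (cl σ).2 = r).card = 2
  sum : ∀ r, (univ.filter fun σ => (cl σ).1 + (cl σ).2 = r).card = 2
  coll : (univ.filter fun x : G => cl (true, x) = cl (false, x)).card ≤ κ
  ex : ∀ V : Bool × G, ∃ (P : Pat) (o : Bool → G) (X : Finset (G × G)), P.Ok k ∧ P.typ P.i0 = V.1 ∧ M ≤ X.card ∧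
    ∀ x ∈ X, ∀ i, cl (P.slot o V.2 x i) = cell k o (P.slot o V.2 x i)

lemma Base.row {κ M : ℕ} {k : Bool → ℤ} {cl : Bool × G → G × G} (hb : Base κ M k cl) (r : G) :
    (univ.filter fun σ : Bool × G => (cl σ).1 = r).card = 2 := by
  have : (univ.filter fun σ : Bool × G => (cl σ).1 = r) = (univ : Finset Bool).image fun c => (c, r) := by
    ext ⟨c, x⟩
    simp only [hb.fst, mem_filter, mem_univ, true_and, mem_image, Prod.mk.injEq]
    exact ⟨fun e => ⟨c, rfl, e.symm⟩, fun ⟨_, _, e⟩ => e.symm⟩
  rw [this, card_image_of_injective _ fun a b e => (Prod.mk.inj e).1]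
  simp

/-- all bad cells of a set are exchanged -/
lemma greedy (h : CB C G) {κ M : ℕ} {k : Bool → ℤ} {cl : Bool × G → G × G} (hb : Base κ M k cl)
    (Bad : Finset (Bool × G)) (Z : Finset (G × G)) (z : ℕ)
    (hZr : ∀ r, (Z.filter fun c => c.1 = r).card ≤ z) (hZc : ∀ r, (Z.filter fun c => c.2 = r).card ≤ z)
    (hZs : ∀ r, (Z.filter fun c => c.1 + c.2 = r).card ≤ z)
    (hbig : 81 * (C * Fintype.card G) + 9 * ((10 * Bad.card) * (C * Fintype.card G)) +
      9 * ((z + 2) * (C * Fintype.card G) + (Fintype.card G * (z + 2)) * (C * C)) < M) (T : Finset (Bool × G)) :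
    T ⊆ Bad → ∃ (Q : Finset (Bool × G)) (N : Finset (G × G)), T ⊆ Q ∧ (∀ σ ∈ Bad, σ ∈ Q → σ ∈ T) ∧
      Q.card ≤ 9 * T.card ∧ (∀ c ∈ N, c ∉ Z) ∧
      (∀ r, (N.filter fun c => c.1 = r).card = (Q.filter fun σ => (cl σ).1 = r).card) ∧
      (∀ r, (N.filter fun c => c.2 = r).card = (Q.filter fun σ => (cl σ).2 = r).card) ∧
      ∀ r, (N.filter fun c => c.1 + c.2 = r).card = (Q.filter fun σ => (cl σ).1 + (cl σ).2 = r).card := by
  induction T using Finset.induction_on with
  | empty =>
    intro _
    exact ⟨∅, ∅, by simp, by simp, by simp, by simp, by simp, by simp, by simp⟩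
  | insert V T hV ih =>
    intro hT
    obtain ⟨Q, N, h1, h2, h3, h4, h5, h6, h7⟩ := ih ((subset_insert V T).trans hT)
    have hVB : V ∈ Bad := hT (mem_insert_self V T)
    have hVQ : V ∉ Q := fun hh => hV (h2 V hVB hh)
    have hTB : T.card ≤ Bad.card := card_le_card ((subset_insert V T).trans hT)
    have lr : ∀ r, ((Z ∪ N).filter fun c => c.1 = r).card ≤ z + 2 := fun r => by
      rw [filter_union]
      refine (card_union_le _ _).trans (Nat.add_le_add (hZr r) ?_)
      rw [h5]
      exact (card_le_card (filter_subset_filter _ (subset_univ Q))).trans (hb.row r).le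
    have lc : ∀ r, ((Z ∪ N).filter fun c => c.2 = r).card ≤ z + 2 := fun r => by
      rw [filter_union]
      refine (card_union_le _ _).trans (Nat.add_le_add (hZc r) ?_)
      rw [h6]
      exact (card_le_card (filter_subset_filter _ (subset_univ Q))).trans (hb.col r).le
    have ls : ∀ r, ((Z ∪ N).filter fun c => c.1 + c.2 = r).card ≤ z + 2 := fun r => by
      rw [filter_union]
      refine (card_union_le _ _).trans (Nat.add_le_add (hZs r) ?_)
      rw [h7]
      exact (card_le_card (filter_subset_filter _ (subset_univ Q))).trans (hb.sum r).le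
    have hcard := card_le_of_lines (Z ∪ N) (z + 2) lr
    have hU : (Q ∪ Bad).card ≤ 10 * Bad.card := (card_union_le _ _).trans (by omega)
    obtain ⟨P, o, X, hP, hty, hM, hX⟩ := hb.ex V
    obtain ⟨x, hxX, x1, x2, x3⟩ := exists_params h hP o V.2 (Q ∪ Bad) (Z ∪ N) (z + 2) lr lc ls X (by
      refine lt_of_le_of_lt (Nat.add_le_add (Nat.add_le_add_left (Nat.mul_le_mul_left _
        (Nat.mul_le_mul_right _ hU)) _) (Nat.mul_le_mul_left _ (Nat.add_le_add_left
        (Nat.mul_le_mul_right _ hcard) _))) (lt_of_lt_of_le hbig hM))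
    have hcl := hX x hxX
    have hf : Function.Injective (P.slot o V.2 x) := fun i j e => by
      by_contra hij
      exact x1 i j hij (Prod.mk.inj e).2
    have hg : Function.Injective (P.new k o V.2 x) := fun i j e => by
      by_contra hij
      exact x1 i j hij (Prod.mk.inj e).1
    have hslot0 : P.slot o V.2 x P.i0 = V := by
      rw [Pat.slot, Pat.row_base hP, hty]
    have hfQ : ∀ i, P.slot o V.2 x i ∉ Q := fun i => by
      by_cases hi : i = P.i0
      · rw [hi, hslot0]
        exact hVQ
      · exact fun hh => x2 i hi (mem_union_left _ hh)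
    have hgN : ∀ i, P.new k o V.2 x i ∉ N := fun i hh => x3 i (mem_union_right _ hh)
    refine ⟨Q ∪ univ.image (P.slot o V.2 x), N ∪ univ.image (P.new k o V.2 x), ?_, ?_, ?_, ?_, ?_, ?_, ?_⟩
    · refine insert_subset (mem_union_right _ (mem_image.2 ⟨P.i0, mem_univ _, hslot0⟩))
        (h1.trans subset_union_left)
    · intro σ hσ hσQ
      rcases mem_union.1 hσQ with hh | hh
      · exact mem_insert_of_mem (h2 σ hσ hh)
      · obtain ⟨i, -, rfl⟩ := mem_image.1 hh
        by_cases hi : i = P.i0
        · rw [hi, hslot0]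
          exact mem_insert_self _ _
        · exact absurd (mem_union_right _ hσ) (x2 i hi)
    · rw [card_insert_of_notMem hV]
      refine (card_union_le _ _).trans ?_
      have := card_image_le (s := (univ : Finset (Fin 9))) (f := P.slot o V.2 x)
      rw [card_univ, Fintype.card_fin] at this
      omega
    · intro c hc
      rcases mem_union.1 hc with hh | hh
      · exact h4 c hh
      · obtain ⟨i, -, rfl⟩ := mem_image.1 hh
        exact fun hz => x3 i (mem_union_left _ hz)
    · exact fun r => count_exchange Q N _ _ hf hg hfQ hgN id Function.injective_id (fun c => c.1)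
        (fun σ => (cl σ).1) (fun i => by rw [hb.fst]; rfl) r (h5 r)
    · exact fun r => count_exchange Q N _ _ hf hg hfQ hgN P.sg (fun i j => hP.sg_inj i j)
        (fun c => c.2) (fun σ => (cl σ).2) (fun i => by
          change (cell k o (P.slot o V.2 x (P.sg i))).2 = _
          rw [hcl]) r (h6 r)
    · exact fun r => count_exchange Q N _ _ hf hg hfQ hgN P.ta (fun i j => hP.ta_inj i j)
        (fun c => c.1 + c.2) (fun σ => (cl σ).1 + (cl σ).2) (fun i => by
          change (P.new k o V.2 x i).1 + (P.new k o V.2 x i).2 = _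
          rw [Pat.sum_new hP o V.2 x i, hcl]) r (h7 r)

/-- a translate of the cells which meets few cells of `B` -/
lemma exists_shift {κ M : ℕ} {k : Bool → ℤ} {cl : Bool × G → G × G} (_hb : Base κ M k cl) (B : Finset (G × G))
    (t : ℕ) (hB : ∀ r, (B.filter fun c => c.1 = r).card ≤ t) :
    ∃ u : G × G, (univ.filter fun σ : Bool × G => cl σ + u ∈ B).card ≤ 2 * t := by
  by_contra hcon
  push Not at hcon
  have h1 : ∑ u : G × G, (univ.filter fun σ : Bool × G => cl σ + u ∈ B).card =
      ∑ σ : Bool × G, (univ.filter fun u : G × G => cl σ + u ∈ B).card := by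
    simp only [card_filter]
    exact sum_comm
  have h2 : ∀ σ : Bool × G, (univ.filter fun u : G × G => cl σ + u ∈ B).card = B.card := fun σ => by
    refine card_bij (fun u _ => cl σ + u) (fun u hu => (mem_filter.1 hu).2) (fun u _ u' _ e => add_left_cancel e) ?_
    intro c hc
    exact ⟨c - cl σ, mem_filter.2 ⟨mem_univ _, by rw [add_sub_cancel]; exact hc⟩, add_sub_cancel _ _⟩
  rw [sum_congr rfl fun σ _ => h2 σ, sum_const, card_univ, Fintype.card_prod, Fintype.card_bool, smul_eq_mul] at h1
  have h3 : ∑ u : G × G, (2 * t + 1) ≤ ∑ u : G × G, (univ.filter fun σ : Bool × G => cl σ + u ∈ B).card :=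
    sum_le_sum fun u _ => hcon u
  rw [sum_const, card_univ, Fintype.card_prod, smul_eq_mul, h1] at h3
  have h4 := card_le_of_lines B t hB
  have h5 : 0 < Fintype.card G := Fintype.card_pos
  have h6 : 2 * Fintype.card G * B.card ≤ 2 * Fintype.card G * (Fintype.card G * t) := Nat.mul_le_mul_left _ h4
  have h7 : 2 * Fintype.card G * (Fintype.card G * t) = Fintype.card G * Fintype.card G * (2 * t) := by ring
  have h8 : Fintype.card G * Fintype.card G * (2 * t + 1) =
      Fintype.card G * Fintype.card G * (2 * t) + Fintype.card G * Fintype.card G := by ring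
  have h9 : 0 < Fintype.card G * Fintype.card G := Nat.mul_pos h5 h5
  omega

end Pool.Agent.NC79
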