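import Pool.Agent.NC79.Pat

/-!
# Many exchanges through every cell
-/

namespace Pool.Agent.NC79

open Finset

variable {C : ℕ} {G : Type} [AddCommGroup G]

/-- the constant part of the `i`-th row -/
def Pat.cst (P : Pat) (o : Bool → G) (v : G) (i : Fin 9) : G :=
  P.ca i • o false + P.cb i • o true + P.cv i • v

/-- the `i`-th row -/
def Pat.row (P : Pat) (o : Bool → G) (v : G) (x : G × G) (i : Fin 9) : G :=
  P.p i • x.1 + P.q i • x.2 + P.cst o v i

/-- the `i`-th of the nine cells which are taken out -/
def Pat.slot (P : Pat) (o : Bool → G) (v : G) (x : G × G) (i : Fin 9) : Bool × G := (P.typ i, P.row o v x i)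

/-- the `i`-th of the nine cells which are put in -/
def Pat.new (P : Pat) (k : Bool → ℤ) (o : Bool → G) (v : G) (x : G × G) (i : Fin 9) : G × G :=
  (P.row o v x i, (cell k o (P.slot o v x (P.sg i))).2)

lemma off_eq (o : Bool → G) (c : Bool) :
    o c = (if c then (0 : ℤ) else 1) • o false + (if c then (1 : ℤ) else 0) • o true := by
  cases c <;> simp

lemma Pat.sum_new {P : Pat} {k : Bool → ℤ} (hP : P.Ok k) (o : Bool → G) (v : G) (x : G × G) (i : Fin 9) :
    (P.new k o v x i).1 + (P.new k o v x i).2 =
      (cell k o (P.slot o v x (P.ta i))).1 + (cell k o (P.slot o v x (P.ta i))).2 := by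
  simp only [Pat.new, cell, Pat.slot, Pat.row, Pat.cst]
  rw [off_eq o (P.typ (P.sg i)), off_eq o (P.typ (P.ta i))]
  have h1 := hP.sp i
  have h2 := hP.sq i
  have h3 := hP.sv i
  have h4 := hP.sa i
  have h5 := hP.sb i
  linear_combination (norm := module) h1 • x.1 + h2 • x.2 + h3 • v + h4 • o false + h5 • o true

lemma Pat.row_base {P : Pat} {k : Bool → ℤ} (hP : P.Ok k) (o : Bool → G) (v : G) (x : G × G) :
    P.row o v x P.i0 = v := by
  obtain ⟨h1, h2, h3, h4, h5⟩ := hP.base
  simp [Pat.row, Pat.cst, h1, h2, h3, h4, h5]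

variable [Fintype G] [DecidableEq G]

lemma card_row (h : CB C G) {P : Pat} {k : Bool → ℤ} (hP : P.Ok k) (o : Bool → G) (v : G) {i : Fin 9}
    (hi : i ≠ P.i0) (w : G) : (univ.filter fun x : G × G => P.row o v x i = w).card ≤ C * Fintype.card G := by
  obtain ⟨b1, b2, -⟩ := hP.base
  have h0 := hP.diff i P.i0 hi
  have h1 := hP.diffp i P.i0
  have h2 := hP.diffq i P.i0
  rw [b1, b2, sub_zero, sub_zero] at h0
  rw [b1, sub_zero] at h1
  rw [b2, sub_zero] at h2
  have := lin1 h h0 h1 h2 (w - P.cst o v i)
  convert this using 2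
  ext x
  simp only [mem_filter, mem_univ, true_and, Pat.row]
  exact ⟨fun e => eq_sub_of_add_eq e, fun e => by rw [e, sub_add_cancel]⟩

lemma card_eq_row (h : CB C G) {P : Pat} {k : Bool → ℤ} (hP : P.Ok k) (o : Bool → G) (v : G) {i j : Fin 9}
    (hij : i ≠ j) : (univ.filter fun x : G × G => P.row o v x i = P.row o v x j).card ≤ C * Fintype.card G := by
  have := lin1 h (hP.diff i j hij) (hP.diffp i j) (hP.diffq i j) (P.cst o v j - P.cst o v i)
  convert this using 2
  ext x
  simp only [mem_filter, mem_univ, true_and, Pat.row]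
  constructor
  · intro e
    linear_combination (norm := module) e
  · intro e
    linear_combination (norm := module) e

lemma card_new (h : CB C G) {P : Pat} {k : Bool → ℤ} (hP : P.Ok k) (o : Bool → G) (v : G) (Z : Finset (G × G)) (z : ℕ)
    (hZr : ∀ r, (Z.filter fun c => c.1 = r).card ≤ z) (hZc : ∀ r, (Z.filter fun c => c.2 = r).card ≤ z)
    (hZs : ∀ r, (Z.filter fun c => c.1 + c.2 = r).card ≤ z) (i : Fin 9) :
    (univ.filter fun x : G × G => P.new k o v x i ∈ Z).card ≤ z * (C * Fintype.card G) + Z.card * (C * C) := by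
  by_cases hi : i = P.i0
  · have hsub : (univ.filter fun x : G × G => P.new k o v x i ∈ Z) ⊆ (Z.filter fun c => c.1 = v).biUnion fun c =>
        univ.filter fun x : G × G => (k (P.typ (P.sg P.i0)) * P.p (P.sg P.i0)) • x.1 +
          (k (P.typ (P.sg P.i0)) * P.q (P.sg P.i0)) • x.2 =
          c.2 - (k (P.typ (P.sg P.i0)) • P.cst o v (P.sg P.i0) + o (P.typ (P.sg P.i0))) := by
      intro x hx
      simp only [mem_filter, mem_univ, true_and, mem_biUnion] at hx ⊢
      refine ⟨_, ⟨hx, ?_⟩, ?_⟩
      · subst hi
        exact Pat.row_base hP o v x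
      · subst hi
        simp only [Pat.new, cell, Pat.slot, Pat.row]
        module
    refine (card_le_card hsub).trans ((card_biUnion_le_card_mul _ _ _ fun c _ =>
      lin1 h hP.row0 hP.row0p hP.row0q _).trans ?_)
    exact (Nat.mul_le_mul_right _ (hZr v)).trans (Nat.le_add_right _ _)
  · by_cases hs : P.sg i = P.i0
    · have hsub : (univ.filter fun x : G × G => P.new k o v x i ∈ Z) ⊆
          (Z.filter fun c => c.2 = (cell k o (P.typ P.i0, v)).2).biUnion fun c =>
            univ.filter fun x : G × G => P.row o v x i = c.1 := by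
        intro x hx
        simp only [mem_filter, mem_univ, true_and, mem_biUnion] at hx ⊢
        refine ⟨_, ⟨hx, ?_⟩, rfl⟩
        simp only [Pat.new, Pat.slot, hs, Pat.row_base hP]
      refine (card_le_card hsub).trans ((card_biUnion_le_card_mul _ _ _ fun c _ =>
        card_row h hP o v hi _).trans ?_)
      exact (Nat.mul_le_mul_right _ (hZc _)).trans (Nat.le_add_right _ _)
    · by_cases ht : P.ta i = P.i0
      · have hsub : (univ.filter fun x : G × G => P.new k o v x i ∈ Z) ⊆
            (Z.filter fun c => c.1 + c.2 = (cell k o (P.typ P.i0, v)).1 + (cell k o (P.typ P.i0, v)).2).biUnion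
              fun c => univ.filter fun x : G × G => P.row o v x i = c.1 := by
          intro x hx
          simp only [mem_filter, mem_univ, true_and, mem_biUnion] at hx ⊢
          refine ⟨_, ⟨hx, ?_⟩, rfl⟩
          rw [Pat.sum_new hP]
          simp only [Pat.slot, ht, Pat.row_base hP]
        refine (card_le_card hsub).trans ((card_biUnion_le_card_mul _ _ _ fun c _ =>
          card_row h hP o v hi _).trans ?_)
        exact (Nat.mul_le_mul_right _ (hZs _)).trans (Nat.le_add_right _ _)
      · have hsub : (univ.filter fun x : G × G => P.new k o v x i ∈ Z) ⊆ Z.biUnion fun c =>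
            univ.filter fun x : G × G => P.p i • x.1 + P.q i • x.2 = c.1 - P.cst o v i ∧
              (k (P.typ (P.sg i)) * P.p (P.sg i)) • x.1 + (k (P.typ (P.sg i)) * P.q (P.sg i)) • x.2 =
              c.2 - (k (P.typ (P.sg i)) • P.cst o v (P.sg i) + o (P.typ (P.sg i))) := by
          intro x hx
          simp only [mem_filter, mem_univ, true_and, mem_biUnion] at hx ⊢
          refine ⟨_, hx, ?_, ?_⟩
          · simp only [Pat.new, Pat.row]
            module
          · simp only [Pat.new, cell, Pat.slot, Pat.row]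
            module
        refine (card_le_card hsub).trans ((card_biUnion_le_card_mul _ _ _ fun c _ =>
          lin2 h (hP.det i hi hs ht) (hP.detb i) _ _).trans ?_)
        exact Nat.le_add_left _ _

/-- there is an exchange which avoids given cells -/
lemma exists_params (h : CB C G) {P : Pat} {k : Bool → ℤ} (hP : P.Ok k) (o : Bool → G) (v : G)
    (U : Finset (Bool × G)) (Z : Finset (G × G)) (z : ℕ)
    (hZr : ∀ r, (Z.filter fun c => c.1 = r).card ≤ z) (hZc : ∀ r, (Z.filter fun c => c.2 = r).card ≤ z)
    (hZs : ∀ r, (Z.filter fun c => c.1 + c.2 = r).card ≤ z)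
    (X : Finset (G × G))
    (hbig : 81 * (C * Fintype.card G) + 9 * (U.card * (C * Fintype.card G)) +
      9 * (z * (C * Fintype.card G) + Z.card * (C * C)) < X.card) :
    ∃ x ∈ X, (∀ i j, i ≠ j → P.row o v x i ≠ P.row o v x j) ∧ (∀ i, i ≠ P.i0 → P.slot o v x i ∉ U) ∧
      ∀ i, P.new k o v x i ∉ Z := by
  by_contra hcon
  push Not at hcon
  have hsub : X ⊆
      ((univ : Finset (Fin 9 × Fin 9)).biUnion fun ij => if ij.1 = ij.2 then ∅ else
        univ.filter fun x : G × G => P.row o v x ij.1 = P.row o v x ij.2) ∪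
      (((univ : Finset (Fin 9)).biUnion fun i => if i = P.i0 then ∅ else U.biUnion fun u =>
        univ.filter fun x : G × G => P.row o v x i = u.2) ∪
      ((univ : Finset (Fin 9)).biUnion fun i => univ.filter fun x : G × G => P.new k o v x i ∈ Z)) := by
    intro x hxX
    rw [mem_union, mem_union, mem_biUnion, mem_biUnion, mem_biUnion]
    by_cases h1 : ∃ i j, i ≠ j ∧ P.row o v x i = P.row o v x j
    · obtain ⟨i, j, hij, e⟩ := h1
      refine Or.inl ⟨(i, j), mem_univ _, ?_⟩
      rw [if_neg hij, mem_filter]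
      exact ⟨mem_univ _, e⟩
    · push Not at h1
      by_cases h2 : ∃ i, i ≠ P.i0 ∧ P.slot o v x i ∈ U
      · obtain ⟨i, hi, e⟩ := h2
        refine Or.inr (Or.inl ⟨i, mem_univ _, ?_⟩)
        rw [if_neg hi, mem_biUnion]
        exact ⟨_, e, mem_filter.2 ⟨mem_univ _, rfl⟩⟩
      · push Not at h2
        obtain ⟨i, hi⟩ := hcon x hxX h1 h2
        exact Or.inr (Or.inr ⟨i, mem_univ _, mem_filter.2 ⟨mem_univ _, hi⟩⟩)
  have c1 : ((univ : Finset (Fin 9 × Fin 9)).biUnion fun ij => if ij.1 = ij.2 then ∅ else
      univ.filter fun x : G × G => P.row o v x ij.1 = P.row o v x ij.2).card ≤ 81 * (C * Fintype.card G) := by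
    refine (card_biUnion_le_card_mul _ _ (C * Fintype.card G) fun ij _ => ?_).trans (le_of_eq (by simp))
    split_ifs with hij
    · simp
    · exact card_eq_row h hP o v hij
  have c2 : ((univ : Finset (Fin 9)).biUnion fun i => if i = P.i0 then ∅ else U.biUnion fun u =>
      univ.filter fun x : G × G => P.row o v x i = u.2).card ≤ 9 * (U.card * (C * Fintype.card G)) := by
    refine (card_biUnion_le_card_mul _ _ (U.card * (C * Fintype.card G)) fun i _ => ?_).trans
      (le_of_eq (by simp))
    split_ifs with hi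
    · simp
    · exact card_biUnion_le_card_mul _ _ _ fun u _ => card_row h hP o v hi _
  have c3 : ((univ : Finset (Fin 9)).biUnion fun i => univ.filter fun x : G × G => P.new k o v x i ∈ Z).card ≤
      9 * (z * (C * Fintype.card G) + Z.card * (C * C)) := by
    refine (card_biUnion_le_card_mul _ _ (z * (C * Fintype.card G) + Z.card * (C * C)) fun i _ => ?_).trans
      (le_of_eq (by simp))
    exact card_new h hP o v Z z hZr hZc hZs i
  have c0 := (card_le_card hsub).trans ((card_union_le _ _).trans (Nat.add_le_add_left (card_union_le _ _) _))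
  omega

end Pool.Agent.NC79
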