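import Pool.Agent.NC79.Abel

/-!
# Tables close to the product of a latin square and the addition table of an abelian group
-/

namespace Pool.Agent.NC79

open Finset Pool.Agent.Duplex38

/-- the direct product of the table `Q` and the addition table of `A` -/
def prodTable {P P' P'' : Type} (Q : P → P' → P'') (A : Type) [Add A] (x : P × A) (y : P' × A) : P'' × A :=
  (Q x.1 y.1, x.2 + y.2)

section lift

variable {A : Type} [AddCommGroup A] {P P' P'' R K S : Type}

lemma theta2 {I P₁ : Type} {m : ℕ} (H : AddSubgroup A) (ι : ZMod m ≃+ H) (μ : I → P₁ × (A ⧸ H))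
    (hμ : Function.Bijective μ) (σ : I → A) (hσ : ∀ i, ((σ i : A) : A ⧸ H) = (μ i).2) :
    Function.Bijective fun x : I × ZMod m => ((μ x.1).1, σ x.1 + (ι x.2 : A)) := by
  have hι : ∀ k, ((ι k : A) : A ⧸ H) = 0 := fun k => (QuotientAddGroup.eq_zero_iff _).2 (ι k).2
  constructor
  · rintro ⟨i, k⟩ ⟨i', k'⟩ e
    obtain ⟨e1, e2⟩ := Prod.mk.inj e
    have e3 : (μ i).2 = (μ i').2 := by
      have := congrArg (fun a : A => (a : A ⧸ H)) e2
      simp only [QuotientAddGroup.mk_add, hι, add_zero, hσ] at this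
      exact this
    have e4 : i = i' := hμ.1 (Prod.ext e1 e3)
    subst e4
    exact Prod.ext rfl (ι.injective (Subtype.ext (add_left_cancel e2)))
  · rintro ⟨p, a⟩
    obtain ⟨i, hi⟩ := hμ.2 (p, (a : A ⧸ H))
    have h1 : -σ i + a ∈ H := by
      rw [← QuotientAddGroup.eq, hσ, hi]
    obtain ⟨k, hk⟩ := ι.surjective ⟨-σ i + a, h1⟩
    exact ⟨(i, k), Prod.ext (by simp only [hi]) (by simp only [hk]; abel)⟩

theorem lift [Finite A] [Finite P] [Finite P'] (H : AddSubgroup A) [IsAddCyclic H] {t : ℕ}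
    (hH : 200000000 * (t + 1) ≤ Nat.card H) (Q : P → P' → P'') (hT : HasTransversal (prodTable Q (A ⧸ H)))
    (row : R ≃ P × A) (col : K ≃ P' × A) (sym : S ≃ P'' × A) (L : R → K → S)
    (hr : ∀ r, {c | sym (L r c) ≠ prodTable Q A (row r) (col c)}.ncard ≤ t)
    (hc : ∀ c, {r | sym (L r c) ≠ prodTable Q A (row r) (col c)}.ncard ≤ t)
    (hs : ∀ s, {x : R × K | prodTable Q A (row x.1) (col x.2) = sym s ∧ L x.1 x.2 ≠ s}.ncard ≤ t) :
    ∃ D, IsDuplex L D ∧ ∀ x ∈ D, sym (L x.1 x.2) = prodTable Q A (row x.1) (col x.2) := by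
  classical
  obtain ⟨π, hπ⟩ := hT
  have fR : Finite R := Finite.of_equiv _ row.symm
  have fK : Finite K := Finite.of_equiv _ col.symm
  set ι : ZMod (Nat.card H) ≃+ H := zmodAddCyclicAddEquiv (G := H) inferInstance with hι
  have b1 := theta2 H ι (I := P × (A ⧸ H)) (P₁ := P) id Function.bijective_id (fun i => Quotient.out i.2)
    (fun i => QuotientAddGroup.out_eq' i.2)
  have b2 := theta2 H ι (I := P × (A ⧸ H)) π π.bijective (fun i => Quotient.out (π i).2)
    (fun i => QuotientAddGroup.out_eq' (π i).2)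
  have b3 := theta2 H ι (I := P × (A ⧸ H)) _ hπ (fun i => Quotient.out i.2 + Quotient.out (π i).2) (fun i => by
    rw [QuotientAddGroup.mk_add]
    change ((Quotient.out i.2 : A) : A ⧸ H) + ((Quotient.out (π i).2 : A) : A ⧸ H) = i.2 + (π i).2
    rw [QuotientAddGroup.out_eq', QuotientAddGroup.out_eq'])
  set row' : R ≃ (P × (A ⧸ H)) × ZMod (Nat.card H) := row.trans (Equiv.ofBijective _ b1).symm with hrow'
  set col' : K ≃ (P × (A ⧸ H)) × ZMod (Nat.card H) := col.trans (Equiv.ofBijective _ b2).symm with hcol'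
  set sym' : S ≃ (P × (A ⧸ H)) × ZMod (Nat.card H) := sym.trans (Equiv.ofBijective _ b3).symm with hsym'
  have e1 : ∀ i k, row (row'.symm (i, k)) = (i.1, Quotient.out i.2 + (ι k : A)) := fun i k => by
    simp [hrow']
  have e2 : ∀ i k, col (col'.symm (i, k)) = ((π i).1, Quotient.out (π i).2 + (ι k : A)) := fun i k => by
    simp [hcol']
  have e3 : ∀ i k, sym (sym'.symm (i, k)) =
      (Q i.1 (π i).1, Quotient.out i.2 + Quotient.out (π i).2 + (ι k : A)) := fun i k => by
    simp only [hsym', Equiv.symm_trans_apply, Equiv.symm_symm, Equiv.ofBijective_apply, Equiv.apply_symm_apply]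
    rfl
  have e4 : ∀ i k l, prodTable Q A (row (row'.symm (i, k))) (col (col'.symm (i, l))) =
      sym (sym'.symm (i, k + l)) := fun i k l => by
    rw [e1, e2, e3]
    refine Prod.ext rfl ?_
    change (Quotient.out i.2 + (ι k : A)) + (Quotient.out (π i).2 + (ι l : A)) = _
    rw [map_add, AddSubgroup.coe_add]
    abel
  suffices hsuff : ∃ D, IsDuplex L D ∧ ∀ x ∈ D, ∃ i k l, x = (row'.symm (i, k), col'.symm (i, l)) ∧
      L x.1 x.2 = sym'.symm (i, k + l) by
    obtain ⟨D, hD, hD'⟩ := hsuff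
    refine ⟨D, hD, fun x hx => ?_⟩
    obtain ⟨i, k, l, h1, h2⟩ := hD' x hx
    rw [h2, h1]
    exact (e4 i k l).symm
  refine block hH row' col' sym' L (fun i k => ?_) (fun i l => ?_) (fun i s => ?_)
  · refine le_trans ?_ (hr (row'.symm (i, k)))
    refine Set.ncard_le_ncard_of_injOn (fun l => col'.symm (i, l)) ?_ ?_ (Set.toFinite _)
    · intro l hl
      change _ ≠ _
      rw [e4]
      exact fun h => hl (sym.injective h)
    · exact fun l _ l' _ e => (Prod.mk.inj (col'.symm.injective e)).2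
  · refine le_trans ?_ (hc (col'.symm (i, l)))
    refine Set.ncard_le_ncard_of_injOn (fun k => row'.symm (i, k)) ?_ ?_ (Set.toFinite _)
    · intro k hk
      change _ ≠ _
      rw [e4]
      exact fun h => hk (sym.injective h)
    · exact fun l _ l' _ e => (Prod.mk.inj (row'.symm.injective e)).2
  · refine le_trans ?_ (hs (sym'.symm (i, s)))
    refine Set.ncard_le_ncard_of_injOn (fun k => (row'.symm (i, k), col'.symm (i, s - k))) ?_ ?_ (Set.toFinite _)
    · intro k hk
      refine ⟨?_, hk⟩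
      rw [e4, add_sub_cancel]
    · exact fun l _ l' _ e => (Prod.mk.inj (row'.symm.injective (Prod.mk.inj e).1)).2

end lift

section transversals

variable {W : Type} [AddCommGroup W] [Finite W] {P P' P'' : Type}

/-- a representation of the elements of a group of sum zero -/
lemma hall_id (hsum : ∀ [Fintype W], ∑ w : W, w = 0) : ∃ f g : W ≃ W, ∀ i, g i = i + f i := by
  classical
  have _ := Fintype.ofFinite W
  obtain ⟨f, g, h⟩ := hall (I := W) (G := W) rfl (fun w => w) hsum
  exact ⟨f, g, fun i => sub_eq_iff_eq_add.1 (h i)⟩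

lemma transversal_of_transversal (hsum : ∀ [Fintype W], ∑ w : W, w = 0) (Q : P → P' → P'')
    (hQ : HasTransversal Q) : HasTransversal (prodTable Q W) := by
  obtain ⟨f, g, hfg⟩ := hall_id (W := W) hsum
  obtain ⟨π, hπ⟩ := hQ
  refine ⟨π.prodCongr f, ?_⟩
  have : (fun a : P × W => prodTable Q W a ((π.prodCongr f) a)) =
      Prod.map (fun a => Q a (π a)) g := by
    funext a
    exact Prod.ext rfl (hfg a.2).symm
  rw [this]
  exact hπ.prodMap g.bijective

/-- the product of an arbitrary latin square of order `q` with a group having an element of order `q` -/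
lemma transversal_of_element (h : W) (hsum : ∀ [Fintype (W ⧸ AddSubgroup.zmultiples h)],
    ∑ w : W ⧸ AddSubgroup.zmultiples h, w = 0) (Q : P → P' → P'') (hQ : IsLatin Q)
    (c : P' ≃ ZMod (addOrderOf h)) (d : P'' ≃ ZMod (addOrderOf h)) : HasTransversal (prodTable Q W) := by
  classical
  set H := AddSubgroup.zmultiples h with hH
  obtain ⟨f, g, hfg⟩ := hall_id (W := W ⧸ H) hsum
  have hcard : Nat.card H = addOrderOf h := by rw [hH, Nat.card_zmultiples]
  rw [← hcard] at c d
  set ι : ZMod (Nat.card H) ≃+ H := zmodAddCyclicAddEquiv (G := H) inferInstance with hι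
  -- a general bijection
  have key : ∀ {P₁ : Type} (E : P × P' → P₁ × ZMod (Nat.card H)) (_ : Function.Bijective E) (σ : W ⧸ H → W)
      (_ : Function.Bijective fun w => (σ w : W ⧸ H)),
      Function.Bijective fun x : (P × P') × (W ⧸ H) => ((E x.1).1, σ x.2 + (ι (E x.1).2 : W)) := by
    intro P₁ E hE σ hσ
    have hb := theta_bij H σ hσ
    constructor
    · rintro ⟨x, w⟩ ⟨x', w'⟩ e
      obtain ⟨e1, e2⟩ := Prod.mk.inj e
      have e3 := hb.1 (a₁ := (w, ι (E x).2)) (a₂ := (w', ι (E x').2)) e2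
      obtain ⟨e4, e5⟩ := Prod.mk.inj e3
      exact Prod.ext (hE.1 (Prod.ext e1 (ι.injective e5))) e4
    · rintro ⟨p, a⟩
      obtain ⟨⟨w, k⟩, hw⟩ := hb.2 a
      obtain ⟨l, hl⟩ := ι.surjective k
      obtain ⟨x, hx⟩ := hE.2 (p, l)
      refine ⟨(x, w), ?_⟩
      simp only [hx, hl]
      exact Prod.ext rfl hw
  have hout : Function.Bijective fun w : W ⧸ H => ((Quotient.out w : W) : W ⧸ H) := by
    have : (fun w : W ⧸ H => ((Quotient.out w : W) : W ⧸ H)) = id := funext fun w => QuotientAddGroup.out_eq' w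
    rw [this]
    exact Function.bijective_id
  have b1 := key (fun x => (x.1, c x.2)) ⟨fun x y e => Prod.ext (Prod.mk.inj e).1 (c.injective (Prod.mk.inj e).2),
    fun y => ⟨(y.1, c.symm y.2), by simp⟩⟩ (fun w => Quotient.out w) hout
  have b2 := key (fun x => (x.2, d (Q x.1 x.2) - 2 * c x.2))
    ⟨fun x y e => by
      obtain ⟨e1, e2⟩ := Prod.mk.inj e
      rw [e1] at e2
      have e3 := d.injective (sub_left_injective e2)
      exact Prod.ext ((hQ.2 y.2).1 e3) e1,
    fun y => by
      obtain ⟨p, hp⟩ := (hQ.2 y.1).2 (d.symm (y.2 + 2 * c y.1))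
      refine ⟨(p, y.1), ?_⟩
      simp only [] at hp ⊢
      rw [hp]
      simp⟩ (fun w => Quotient.out (f w)) (hout.comp f.bijective)
  have b3 := key (fun x => (Q x.1 x.2, d (Q x.1 x.2) - c x.2))
    ⟨fun x y e => by
      obtain ⟨e1, e2⟩ := Prod.mk.inj e
      rw [e1] at e2
      have e3 : x.2 = y.2 := c.injective (sub_right_injective e2)
      rw [e3] at e1
      exact Prod.ext ((hQ.2 y.2).1 e1) e3,
    fun y => by
      obtain ⟨p, hp⟩ := (hQ.2 (c.symm (d y.1 - y.2))).2 y.1
      refine ⟨(p, c.symm (d y.1 - y.2)), ?_⟩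
      simp only [] at hp ⊢
      rw [hp]
      simp⟩ (fun w => Quotient.out w + Quotient.out (f w)) (by
        have : (fun w : W ⧸ H => ((Quotient.out w + Quotient.out (f w) : W) : W ⧸ H)) = g := funext fun w => by
          rw [QuotientAddGroup.mk_add, QuotientAddGroup.out_eq', QuotientAddGroup.out_eq', hfg]
        rw [this]
        exact g.bijective)
  set r := Equiv.ofBijective _ b1 with hr
  set s := Equiv.ofBijective _ b2 with hs
  refine ⟨r.symm.trans s, ?_⟩
  have h1 : (fun a => prodTable Q W a ((r.symm.trans s) a)) = (Equiv.ofBijective _ b3) ∘ r.symm := by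
    funext a
    obtain ⟨x, rfl⟩ := r.surjective a
    change prodTable Q W (r x) (s (r.symm (r x))) = (Equiv.ofBijective _ b3) (r.symm (r x))
    rw [Equiv.symm_apply_apply]
    refine Prod.ext rfl ?_
    change (Quotient.out x.2 + (ι (c x.1.2) : W)) +
      (Quotient.out (f x.2) + (ι (d (Q x.1.1 x.1.2) - 2 * c x.1.2) : W)) =
      Quotient.out x.2 + Quotient.out (f x.2) + (ι (d (Q x.1.1 x.1.2) - c x.1.2) : W)
    have h2 : ι (d (Q x.1.1 x.1.2) - c x.1.2) = ι (c x.1.2) + ι (d (Q x.1.1 x.1.2) - 2 * c x.1.2) := by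
      rw [← map_add]
      congr 1
      ring
    rw [h2, AddSubgroup.coe_add]
    abel
  rw [h1]
  exact (Equiv.ofBijective _ b3).bijective.comp r.symm.bijective

end transversals

end Pool.Agent.NC79
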