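import Pool.Agent.NC79.Chart
import Pool.Agent.NC79.Prod

/-!
# Gluing blocks; robust addition tables
-/

namespace Pool.Agent.NC79

open Finset Pool.Agent.Duplex38

section glue

variable {X Y Z J : Type} [Finite X] [Finite Y] (T : X → Y → Z) (X' Y' Z' : J → Type)
  (T' : ∀ j, X' j → Y' j → Z' j) (a : ∀ j, X' j → X) (b : ∀ j, Y' j → Y) (c : ∀ j, Z' j → Z)

/-- a table in which each row, column and symbol meets exactly one of a family of robust blocks is robust -/
theorem robust_glue (t : ℕ) (ha : Function.Bijective fun p : (Σ j, X' j) => a p.1 p.2)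
    (hb : Function.Bijective fun p : (Σ j, Y' j) => b p.1 p.2)
    (hc : Function.Bijective fun p : (Σ j, Z' j) => c p.1 p.2)
    (hT : ∀ j x y, T (a j x) (b j y) = c j (T' j x y)) (h : ∀ j, Robust t (T' j)) : Robust t T := by
  classical
  intro B hBr hBc hBs
  have ia : ∀ j, Function.Injective (a j) := fun j x y e => by
    have := ha.1 (a₁ := ⟨j, x⟩) (a₂ := ⟨j, y⟩) e
    simpa using this
  have ib : ∀ j, Function.Injective (b j) := fun j x y e => by
    have := hb.1 (a₁ := ⟨j, x⟩) (a₂ := ⟨j, y⟩) e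
    simpa using this
  have h1 : ∀ j, ∃ D, IsDuplex (T' j) D ∧ ∀ p ∈ D, p ∉ {p : X' j × Y' j | (a j p.1, b j p.2) ∈ B} := by
    intro j
    refine h j _ (fun x => ?_) (fun y => ?_) (fun z => ?_)
    · refine le_trans ?_ (hBr (a j x))
      exact Set.ncard_le_ncard_of_injOn (b j) (fun y hy => hy) (ib j).injOn (Set.toFinite _)
    · refine le_trans ?_ (hBc (b j y))
      exact Set.ncard_le_ncard_of_injOn (a j) (fun x hx => hx) (ia j).injOn (Set.toFinite _)
    · refine le_trans ?_ (hBs (c j z))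
      refine Set.ncard_le_ncard_of_injOn (fun p => (a j p.1, b j p.2)) (fun p hp => ?_) (fun p _ q _ e => ?_)
        (Set.toFinite _)
      · exact ⟨by rw [hT, hp.1], hp.2⟩
      · exact Prod.ext (ia j (Prod.mk.inj e).1) (ib j (Prod.mk.inj e).2)
  choose D hD hDB using h1
  refine ⟨{p | ∃ j q, q ∈ D j ∧ p = (a j q.1, b j q.2)}, ⟨fun x => ?_, fun y => ?_, fun z => ?_⟩, ?_⟩
  · obtain ⟨⟨j, x'⟩, rfl⟩ := ha.2 x
    rw [← (hD j).1 x', ← Set.ncard_image_of_injective _ (ib j)]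
    congr 1
    ext y
    constructor
    · rintro ⟨j', q, hq, e⟩
      obtain ⟨e1, e2⟩ := Prod.mk.inj e
      have e3 := ha.1 (a₁ := ⟨j, x'⟩) (a₂ := ⟨j', q.1⟩) e1
      obtain ⟨rfl, e4⟩ := Sigma.mk.inj e3
      rw [heq_eq_eq] at e4
      refine ⟨q.2, ?_, e2.symm⟩
      change (x', q.2) ∈ D j
      rw [e4]
      exact hq
    · rintro ⟨y', hy', rfl⟩
      exact ⟨j, (x', y'), hy', rfl⟩
  · obtain ⟨⟨j, y'⟩, rfl⟩ := hb.2 y
    rw [← (hD j).2.1 y', ← Set.ncard_image_of_injective _ (ia j)]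
    congr 1
    ext x
    constructor
    · rintro ⟨j', q, hq, e⟩
      obtain ⟨e1, e2⟩ := Prod.mk.inj e
      have e3 := hb.1 (a₁ := ⟨j, y'⟩) (a₂ := ⟨j', q.2⟩) e2
      obtain ⟨rfl, e4⟩ := Sigma.mk.inj e3
      rw [heq_eq_eq] at e4
      refine ⟨q.1, ?_, e1.symm⟩
      change (q.1, y') ∈ D j
      rw [e4]
      exact hq
    · rintro ⟨x', hx', rfl⟩
      exact ⟨j, (x', y'), hx', rfl⟩
  · obtain ⟨⟨j, z'⟩, rfl⟩ := hc.2 z
    have iab : Function.Injective fun q : X' j × Y' j => (a j q.1, b j q.2) := fun p q e =>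
      Prod.ext (ia j (Prod.mk.inj e).1) (ib j (Prod.mk.inj e).2)
    rw [← (hD j).2.2 z', ← Set.ncard_image_of_injective _ iab]
    congr 1
    ext p
    constructor
    · rintro ⟨⟨j', q, hq, rfl⟩, e⟩
      simp only [] at e
      rw [hT] at e
      have e3 := hc.1 (a₁ := ⟨j', T' j' q.1 q.2⟩) (a₂ := ⟨j, z'⟩) e
      obtain ⟨rfl, e4⟩ := Sigma.mk.inj e3
      rw [heq_eq_eq] at e4
      exact ⟨q, ⟨hq, e4⟩, rfl⟩
    · rintro ⟨q, ⟨hq, hqz⟩, rfl⟩
      exact ⟨⟨j, q, hq, rfl⟩, by simp only []; rw [hT, hqz]⟩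
  · rintro p ⟨j, q, hq, rfl⟩
    exact hDB j q hq

end glue

/-- isotopic tables -/
theorem robust_of_isotopic {X Y Z X' Y' Z' : Type} [Finite X] [Finite Y] {T : X → Y → Z} {T' : X' → Y' → Z'} {t : ℕ}
    (α : X ≃ X') (β : Y ≃ Y') (γ : Z ≃ Z') (h : ∀ x y, γ (T x y) = T' (α x) (β y)) (hT' : Robust t T') :
    Robust t T := by
  refine robust_glue (J := Unit) T (fun _ => X') (fun _ => Y') (fun _ => Z') (fun _ => T') (fun _ => α.symm)
    (fun _ => β.symm) (fun _ => γ.symm) t ⟨?_, ?_⟩ ⟨?_, ?_⟩ ⟨?_, ?_⟩ (fun _ x y => ?_) (fun _ => hT')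
  · rintro ⟨⟨⟩, x⟩ ⟨⟨⟩, y⟩ e
    exact congrArg (Sigma.mk ()) (α.symm.injective e)
  · exact fun x => ⟨⟨(), α x⟩, α.symm_apply_apply x⟩
  · rintro ⟨⟨⟩, x⟩ ⟨⟨⟩, y⟩ e
    exact congrArg (Sigma.mk ()) (β.symm.injective e)
  · exact fun x => ⟨⟨(), β x⟩, β.symm_apply_apply x⟩
  · rintro ⟨⟨⟩, x⟩ ⟨⟨⟩, y⟩ e
    exact congrArg (Sigma.mk ()) (γ.symm.injective e)
  · exact fun x => ⟨⟨(), γ x⟩, γ.symm_apply_apply x⟩
  · rw [Equiv.eq_symm_apply, h, α.apply_symm_apply, β.apply_symm_apply]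

/-- cyclic groups -/
theorem robust_cyclic {m t : ℕ} (hm : 200000000 * (t + 1) ≤ m) : Robust t (fun x y : ZMod m => x + y) := by
  classical
  have _ : NeZero m := ⟨by omega⟩
  intro B hBr hBc hBs
  obtain ⟨D, hD, hDr, hDc, hDs⟩ := avoid_cyclic t hm (univ.filter fun p => p ∈ B)
    (fun r => by
      refine le_trans ?_ (hBr r)
      rw [← Set.ncard_coe_finset]
      refine Set.ncard_le_ncard_of_injOn (fun q => q.2) ?_ ?_ (Set.toFinite _)
      · rintro ⟨x, y⟩ hq
        simp only [coe_filter, mem_filter, mem_univ, true_and, Set.mem_ofPred_eq] at hq ⊢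
        rw [← hq.2]
        exact hq.1
      · rintro ⟨x, y⟩ hq ⟨x', y'⟩ hq' e
        simp only [coe_filter, mem_filter, mem_univ, true_and, Set.mem_ofPred_eq] at hq hq'
        exact Prod.ext (hq.2.trans hq'.2.symm) e)
    (fun r => by
      refine le_trans ?_ (hBc r)
      rw [← Set.ncard_coe_finset]
      refine Set.ncard_le_ncard_of_injOn (fun q => q.1) ?_ ?_ (Set.toFinite _)
      · rintro ⟨x, y⟩ hq
        simp only [coe_filter, mem_filter, mem_univ, true_and, Set.mem_ofPred_eq] at hq ⊢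
        rw [← hq.2]
        exact hq.1
      · rintro ⟨x, y⟩ hq ⟨x', y'⟩ hq' e
        simp only [coe_filter, mem_filter, mem_univ, true_and, Set.mem_ofPred_eq] at hq hq'
        exact Prod.ext e (hq.2.trans hq'.2.symm))
    (fun r => by
      refine le_trans ?_ (hBs r)
      rw [← Set.ncard_coe_finset]
      refine Set.ncard_le_ncard ?_ (Set.toFinite _)
      intro q hq
      simp only [coe_filter, mem_filter, mem_univ, true_and, Set.mem_ofPred_eq] at hq ⊢
      exact ⟨hq.2, hq.1⟩)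
  refine ⟨(D : Set _), ⟨fun x => ?_, fun y => ?_, fun z => ?_⟩, fun p hp hpB => ?_⟩
  · rw [← hDr x, ← Set.ncard_coe_finset]
    refine (Set.ncard_congr (fun p _ => p.2) (fun p hp => ?_) (fun p q hp hq e => ?_) fun y hy => ?_).symm
    · simp only [coe_filter, Set.mem_ofPred_eq] at hp
      change (x, p.2) ∈ (D : Set _)
      rw [← hp.2]
      exact hp.1
    · simp only [coe_filter, Set.mem_ofPred_eq] at hp hq
      exact Prod.ext (hp.2.trans hq.2.symm) e
    · exact ⟨(x, y), by simp only [coe_filter, Set.mem_ofPred_eq]; exact ⟨hy, trivial⟩, rfl⟩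
  · rw [← hDc y, ← Set.ncard_coe_finset]
    refine (Set.ncard_congr (fun p _ => p.1) (fun p hp => ?_) (fun p q hp hq e => ?_) fun x hx => ?_).symm
    · simp only [coe_filter, Set.mem_ofPred_eq] at hp
      change (p.1, y) ∈ (D : Set _)
      rw [← hp.2]
      exact hp.1
    · simp only [coe_filter, Set.mem_ofPred_eq] at hp hq
      exact Prod.ext e (hp.2.trans hq.2.symm)
    · exact ⟨(x, y), by simp only [coe_filter, Set.mem_ofPred_eq]; exact ⟨hx, trivial⟩, rfl⟩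
  · rw [← hDs z, ← Set.ncard_coe_finset]
    congr 1
    ext p
    simp
  · exact hD p hp (mem_filter.2 ⟨mem_univ _, hpB⟩)

end Pool.Agent.NC79
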