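import Mathlib

/-!
# Large abelian sections of soluble groups

If `f` is given, then every large finite soluble group `G` has an abelian normal subgroup `K` such that `G / K` has an
abelian normal subgroup `N` with at least `f |K|` elements.
-/

namespace Pool.Agent.NC79

open Subgroup

open scoped commutatorElement

/-- the bound for the order -/
def secBound (f : ℕ → ℕ) : ℕ := f 1 * (∑ a ∈ Finset.range (f 1), a * f a + 1) ^ (∑ a ∈ Finset.range (f 1), a * f a + 1)

/-- a hom to the functions bounds the order -/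
lemma card_le_of_centralizer {G : Type*} [Group G] [Finite G] (M A : Subgroup G) [M.Normal]
    (h : centralizer (M : Set G) ≤ A) : Nat.card G ≤ Nat.card A * Nat.card M ^ Nat.card M := by
  classical
  set ψ : G →* MulAut M := MulAut.conjNormal with hψ
  have h1 : Nat.card G = Nat.card ψ.ker * Nat.card ψ.range := by
    rw [← Subgroup.index_ker, Subgroup.card_mul_index]
  have h2 : ψ.ker ≤ A := by
    refine le_trans (fun g hg => ?_) h
    rw [mem_centralizer_iff]
    intro m hm
    rw [MonoidHom.mem_ker] at hg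
    have h3 : ((ψ g ⟨m, hm⟩ : M) : G) = m := by rw [hg]; rfl
    rw [hψ, MulAut.conjNormal_apply] at h3
    simp only [] at h3
    calc m * g = (g * m * g⁻¹) * g := by rw [h3]
      _ = g * m := by group
  have h3 : Nat.card ψ.ker ≤ Nat.card A := Nat.card_le_card_of_injective _ (Subgroup.inclusion_injective h2)
  have h4 : Nat.card ψ.range ≤ Nat.card (M → M) := by
    refine Nat.card_le_card_of_injective (fun x => ((x : MulAut M) : M → M)) fun x y e => ?_
    exact Subtype.ext (MulEquiv.ext fun m => congrFun e m)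
  rw [Nat.card_fun] at h4
  rw [h1]
  exact Nat.mul_le_mul h3 h4

lemma card_le_map {G : Type*} [Group G] [Finite G] (M A : Subgroup G) [A.Normal] :
    Nat.card M ≤ Nat.card A * Nat.card (M.map (QuotientGroup.mk' A)) := by
  set ψ : M →* G ⧸ A := (QuotientGroup.mk' A).comp M.subtype with hψ
  have h1 : Nat.card M = Nat.card ψ.ker * Nat.card ψ.range := by
    rw [← Subgroup.index_ker, Subgroup.card_mul_index]
  have h2 : ψ.range = M.map (QuotientGroup.mk' A) := by
    rw [hψ, MonoidHom.range_comp, M.range_subtype]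
  have h3 : Nat.card ψ.ker ≤ Nat.card A := by
    refine Nat.card_le_card_of_injective (fun x : ψ.ker => (⟨((x : M) : G), ?_⟩ : A)) fun x y e => ?_
    · exact (QuotientGroup.eq_one_iff _).1 x.2
    · have e' : ((x : M) : G) = ((y : M) : G) := congrArg (fun z : A => (z : G)) e
      exact Subtype.ext (Subtype.ext e')
  rw [h1, h2]
  exact Nat.mul_le_mul_right _ h3

theorem exists_section (G : Type) [Group G] [Finite G] [hs : Group.IsSolvable G] (f : ℕ → ℕ)
    (hG : secBound f < Nat.card G) : ∃ (K : Subgroup G) (_ : K.Normal) (N : Subgroup (G ⧸ K)), N.Normal ∧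
      (∀ a ∈ K, ∀ b ∈ K, a * b = b * a) ∧ (∀ a ∈ N, ∀ b ∈ N, a * b = b * a) ∧ f (Nat.card K) ≤ Nat.card N := by
  classical
  obtain ⟨A, ⟨hAn, hAc⟩, hAmax⟩ := Set.exists_max_image
    {A : Subgroup G | A.Normal ∧ ∀ a ∈ A, ∀ b ∈ A, a * b = b * a} (fun A => Nat.card A) (Set.toFinite _)
    ⟨⊥, inferInstance, fun a ha b hb => by rw [mem_bot.1 ha, mem_bot.1 hb]⟩
  by_cases hA : f 1 ≤ Nat.card A
  · -- the first case
    refine ⟨⊥, inferInstance, A.map (QuotientGroup.mk' ⊥), hAn.map _ (QuotientGroup.mk'_surjective _), ?_, ?_, ?_⟩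
    · exact fun a ha b hb => by rw [mem_bot.1 ha, mem_bot.1 hb]
    · rintro _ ⟨a, ha, rfl⟩ _ ⟨b, hb, rfl⟩
      rw [← map_mul, hAc a ha b hb, map_mul]
    · have h1 := card_le_map A (⊥ : Subgroup G)
      rw [Subgroup.card_bot] at h1 ⊢
      rw [one_mul] at h1
      exact hA.trans h1
  · push Not at hA
    obtain ⟨M, ⟨hMn, hAM, hMC, hMc⟩, hMmax⟩ := Set.exists_max_image
      {M : Subgroup G | M.Normal ∧ A ≤ M ∧ M ≤ centralizer (A : Set G) ∧
        ∀ a ∈ M, ∀ b ∈ M, (a : G ⧸ A) * (b : G ⧸ A) = (b : G ⧸ A) * (a : G ⧸ A)} (fun A => Nat.card A)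
      (Set.toFinite _)
      ⟨A, hAn, le_rfl, fun a ha => mem_centralizer_iff.2 fun b hb => hAc b hb a ha, fun a ha b hb => by
        rw [← QuotientGroup.mk_mul, ← QuotientGroup.mk_mul, hAc a ha b hb]⟩
    by_cases hM : f (Nat.card A) ≤ Nat.card (M.map (QuotientGroup.mk' A))
    · refine ⟨A, hAn, M.map (QuotientGroup.mk' A), hMn.map _ (QuotientGroup.mk'_surjective _), hAc, ?_, hM⟩
      rintro _ ⟨a, ha, rfl⟩ _ ⟨b, hb, rfl⟩
      exact hMc a ha b hb
    · push Not at hM
      exfalso
      set D := centralizer (M : Set G) with hD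
      have hAD : A ≤ D := fun a ha => mem_centralizer_iff.2 fun m hm =>
        (mem_centralizer_iff.1 (hMC hm) a ha).symm
      have hDC : D ≤ centralizer (A : Set G) := Subgroup.centralizer_le hAM
      have hDM : D ⊓ M = A := by
        have h1 : D ⊓ M ∈ {A : Subgroup G | A.Normal ∧ ∀ a ∈ A, ∀ b ∈ A, a * b = b * a} :=
          ⟨inferInstance, fun a ha b hb => (mem_centralizer_iff.1 (mem_inf.1 hb).1 a (mem_inf.1 ha).2)⟩
        have h2 := hAmax _ h1
        exact (Subgroup.eq_of_le_of_card_ge (le_inf hAD hAM) h2).symm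
      have hDA : D ≤ A := by
        by_contra hcon
        obtain ⟨n, hn⟩ := hs.solvable
        have hex : ∃ i, D ⊓ derivedSeries G i ≤ A := ⟨n, by rw [hn, inf_bot_eq]; exact bot_le⟩
        set i := Nat.find hex with hi
        have hi1 : D ⊓ derivedSeries G i ≤ A := Nat.find_spec hex
        have hi0 : i ≠ 0 := by
          intro h0
          rw [h0, derivedSeries_zero, inf_top_eq] at hi1
          exact hcon hi1
        obtain ⟨j, hj⟩ := Nat.exists_eq_succ_of_ne_zero hi0
        have hjn : ¬ D ⊓ derivedSeries G j ≤ A := Nat.find_min hex (by omega)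
        set E := D ⊓ derivedSeries G j with hE
        have hEn : E.Normal := inferInstance
        have hEE : ∀ x ∈ E, ∀ y ∈ E, (x : G ⧸ A) * (y : G ⧸ A) = (y : G ⧸ A) * (x : G ⧸ A) := by
          intro x hx y hy
          have h3 : ⁅x, y⁆ ∈ A := by
            refine hi1 (mem_inf.2 ⟨?_, ?_⟩)
            · rw [commutatorElement_def]
              exact D.mul_mem (D.mul_mem (D.mul_mem (mem_inf.1 hx).1 (mem_inf.1 hy).1)
                (D.inv_mem (mem_inf.1 hx).1)) (D.inv_mem (mem_inf.1 hy).1)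
            · rw [hj, derivedSeries_succ]
              exact commutator_mem_commutator (mem_inf.1 hx).2 (mem_inf.1 hy).2
          rw [← QuotientGroup.mk_mul, ← QuotientGroup.mk_mul, eq_comm, QuotientGroup.eq]
          have h4 : (y * x)⁻¹ * (x * y) = (y * x)⁻¹ * ⁅x, y⁆ * ((y * x)⁻¹)⁻¹ := by
            rw [commutatorElement_def]
            group
          rw [h4]
          exact hAn.conj_mem _ h3 _
        have hME : ∀ m ∈ M, ∀ e ∈ E, m * e = e * m := fun m hm e he =>
          mem_centralizer_iff.1 (mem_inf.1 he).1 m hm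
        have h5 : M ⊔ E ∈ {M : Subgroup G | M.Normal ∧ A ≤ M ∧ M ≤ centralizer (A : Set G) ∧
            ∀ a ∈ M, ∀ b ∈ M, (a : G ⧸ A) * (b : G ⧸ A) = (b : G ⧸ A) * (a : G ⧸ A)} := by
          refine ⟨inferInstance, hAM.trans le_sup_left, sup_le hMC (inf_le_left.trans hDC), ?_⟩
          intro x hx y hy
          obtain ⟨m₁, hm₁, e₁, he₁, rfl⟩ := mem_sup_of_normal_right.1 hx
          obtain ⟨m₂, hm₂, e₂, he₂, rfl⟩ := mem_sup_of_normal_right.1 hy
          have k1 := hMc m₁ hm₁ m₂ hm₂
          have k2 := hEE e₁ he₁ e₂ he₂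
          have k3 : (e₁ : G ⧸ A) * (m₂ : G ⧸ A) = (m₂ : G ⧸ A) * (e₁ : G ⧸ A) := by
            rw [← QuotientGroup.mk_mul, ← QuotientGroup.mk_mul, hME m₂ hm₂ e₁ he₁]
          have k4 : (e₂ : G ⧸ A) * (m₁ : G ⧸ A) = (m₁ : G ⧸ A) * (e₂ : G ⧸ A) := by
            rw [← QuotientGroup.mk_mul, ← QuotientGroup.mk_mul, hME m₁ hm₁ e₂ he₂]
          rw [QuotientGroup.mk_mul, QuotientGroup.mk_mul]
          calc (m₁ : G ⧸ A) * e₁ * (m₂ * e₂) = m₁ * (e₁ * m₂) * e₂ := by group
            _ = m₁ * (m₂ * e₁) * e₂ := by rw [k3]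
            _ = (m₁ * m₂) * (e₁ * e₂) := by group
            _ = (m₂ * m₁) * (e₂ * e₁) := by rw [k1, k2]
            _ = m₂ * (m₁ * e₂) * e₁ := by group
            _ = m₂ * (e₂ * m₁) * e₁ := by rw [k4]
            _ = (m₂ : G ⧸ A) * e₂ * (m₁ * e₁) := by group
        have h6 := hMmax _ h5
        have h7 : M = M ⊔ E := Subgroup.eq_of_le_of_card_ge le_sup_left h6
        have h8 : E ≤ M := by
          rw [h7]
          exact le_sup_right
        exact hjn (by
          rw [← hDM]
          exact le_inf inf_le_left h8)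
      have h9 := card_le_of_centralizer M A hDA
      have h10 := card_le_map M A
      set b₀ := ∑ a ∈ Finset.range (f 1), a * f a with hb₀
      have h11 : Nat.card M ≤ b₀ + 1 := by
        have h12 : Nat.card A * f (Nat.card A) ≤ b₀ :=
          Finset.single_le_sum (f := fun a => a * f a) (fun _ _ => Nat.zero_le _) (Finset.mem_range.2 hA)
        have h13 : Nat.card A * Nat.card (M.map (QuotientGroup.mk' A)) ≤ Nat.card A * f (Nat.card A) :=
          Nat.mul_le_mul_left _ hM.le
        omega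
      have h14 : Nat.card M ^ Nat.card M ≤ (b₀ + 1) ^ (b₀ + 1) :=
        (Nat.pow_le_pow_left h11 _).trans (Nat.pow_le_pow_right (by omega) h11)
      have h15 : Nat.card A * Nat.card M ^ Nat.card M ≤ f 1 * (b₀ + 1) ^ (b₀ + 1) := Nat.mul_le_mul hA.le h14
      have h16 : secBound f = f 1 * (b₀ + 1) ^ (b₀ + 1) := rfl
      omega

end Pool.Agent.NC79
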