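import Pool.Agent.NC79.Nice
import Pool.Agent.NC79.Section

/-!
# Cayley tables of soluble groups
-/

namespace Pool.Agent.NC79

open Finset Pool.Agent.Duplex38

section pairs

variable {A B S A' B' S' A₁ B₁ : Type}

lemma pair_isotopic {T : A → B → S} {T' : A' → B' → S'} (α : A ≃ A') (β : B ≃ B') (γ : S ≃ S')
    (h : ∀ a b, γ (T a b) = T' (α a) (β b)) (hT' : Pair T' T') : Pair T T := by
  obtain ⟨π₁, π₂, hπ⟩ := hT'
  have key : ∀ (π : A' ≃ B') (s : S), {a | T a (((α.trans π).trans β.symm) a) = s}.ncard =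
      {a | T' a (π a) = γ s}.ncard := fun π s => by
    have e : {a | T a (((α.trans π).trans β.symm) a) = s} = α ⁻¹' {a | T' a (π a) = γ s} := by
      ext a
      change T a (β.symm (π (α a))) = s ↔ T' (α a) (π (α a)) = γ s
      rw [← γ.injective.eq_iff, h, β.apply_symm_apply]
    rw [e, ← Equiv.image_symm_eq_preimage, Set.ncard_image_of_injective _ (Equiv.injective _)]
  exact ⟨(α.trans π₁).trans β.symm, (α.trans π₂).trans β.symm, fun s => by rw [key, key, hπ]⟩

lemma pair_rowCol {T : A → B → S} {T₁ : A₁ → B₁ → S} (h : Pair T T) (h₁ : RowColEquiv T T₁) : Pair T T₁ := by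
  obtain ⟨π₁, π₂, hπ⟩ := h
  obtain ⟨α, β, hαβ⟩ := h₁
  refine ⟨π₁, (α.trans π₂).trans β.symm, fun s => ?_⟩
  rw [← hπ s]
  congr 1
  have : {a | T₁ a (((α.trans π₂).trans β.symm) a) = s} = α ⁻¹' {a | T a (π₂ a) = s} := by
    ext a
    change T₁ a (((α.trans π₂).trans β.symm) a) = s ↔ T (α a) (π₂ (α a)) = s
    rw [hαβ]
    simp
  rw [this, ← Equiv.image_symm_eq_preimage, Set.ncard_image_of_injective _ (Equiv.injective _)]

end pairs

section group

variable {G : Type} [Group G]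

/-- the Cayley table -/
def cayley (G : Type) [Group G] : G → G → G := fun x y => x * y

/-- the projection onto the Cayley table of a factor group -/
def groupEpi (N : Subgroup G) [N.Normal] : Epi (cayley G) (cayley (G ⧸ N)) where
  row x := (x : G ⧸ N)
  col x := (x : G ⧸ N)
  sym x := (x : G ⧸ N)
  row_surj := QuotientGroup.mk_surjective
  col_surj := QuotientGroup.mk_surjective
  sym_surj := QuotientGroup.mk_surjective
  map _ _ := rfl

variable (N : Subgroup G) [N.Normal]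

/-- the rows of a block -/
noncomputable def rowChart (r' : G ⧸ N) : {r : G // (r : G ⧸ N) = r'} ≃ N where
  toFun r := ⟨(Quotient.out r')⁻¹ * r, by
    rw [← QuotientGroup.eq, r.2]
    exact QuotientGroup.out_eq' r'⟩
  invFun k := ⟨Quotient.out r' * k, by
    rw [QuotientGroup.mk_mul, (QuotientGroup.eq_one_iff _).2 k.2, mul_one]
    exact QuotientGroup.out_eq' r'⟩
  left_inv r := Subtype.ext (mul_inv_cancel_left _ _)
  right_inv k := Subtype.ext (inv_mul_cancel_left _ _)

/-- the columns of a block -/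
noncomputable def colChart (c' : G ⧸ N) : {c : G // (c : G ⧸ N) = c'} ≃ N where
  toFun c := ⟨c * (Quotient.out c')⁻¹, by
    rw [← QuotientGroup.eq_one_iff, QuotientGroup.mk_mul, QuotientGroup.mk_inv, c.2, QuotientGroup.out_eq',
      mul_inv_cancel]⟩
  invFun k := ⟨k * Quotient.out c', by
    rw [QuotientGroup.mk_mul, (QuotientGroup.eq_one_iff _).2 k.2, one_mul]
    exact QuotientGroup.out_eq' c'⟩
  left_inv r := Subtype.ext (inv_mul_cancel_right _ _)
  right_inv k := Subtype.ext (mul_inv_cancel_right _ _)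

/-- the symbols of a block -/
noncomputable def symChart (r' c' : G ⧸ N) : {s : G // (s : G ⧸ N) = r' * c'} ≃ N where
  toFun s := ⟨(Quotient.out r')⁻¹ * s * (Quotient.out c')⁻¹, by
    rw [← QuotientGroup.eq_one_iff, QuotientGroup.mk_mul, QuotientGroup.mk_mul, QuotientGroup.mk_inv,
      QuotientGroup.mk_inv, s.2, QuotientGroup.out_eq', QuotientGroup.out_eq']
    group⟩
  invFun k := ⟨Quotient.out r' * k * Quotient.out c', by
    rw [QuotientGroup.mk_mul, QuotientGroup.mk_mul, (QuotientGroup.eq_one_iff _).2 k.2, mul_one,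
      QuotientGroup.out_eq', QuotientGroup.out_eq']⟩
  left_inv s := Subtype.ext (by
    change Quotient.out r' * ((Quotient.out r')⁻¹ * s * (Quotient.out c')⁻¹) * Quotient.out c' = s
    group)
  right_inv k := Subtype.ext (by
    change (Quotient.out r')⁻¹ * (Quotient.out r' * k * Quotient.out c') * (Quotient.out c')⁻¹ = k
    group)

lemma chart_mul (r' c' : G ⧸ N) (a : {r : G // (r : G ⧸ N) = r'}) (b : {c : G // (c : G ⧸ N) = c'}) :
    symChart N r' c' ((groupEpi N).block (rfl : cayley (G ⧸ N) r' c' = _) a b) = rowChart N r' a * colChart N c' b := by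
  refine Subtype.ext ?_
  change (Quotient.out r')⁻¹ * ((a : G) * (b : G)) * (Quotient.out c')⁻¹ =
    ((Quotient.out r')⁻¹ * (a : G)) * ((b : G) * (Quotient.out c')⁻¹)
  group

/-- an additive model of an abelian subgroup -/
lemma exists_model (M : Subgroup G) (h : ∀ a ∈ M, ∀ b ∈ M, a * b = b * a) :
    ∃ (A : Type) (_ : AddCommGroup A) (φ : M ≃ A), ∀ a b, φ (a * b) = φ a + φ b := by
  letI : CommGroup M := { (inferInstance : Group M) with mul_comm := fun a b => Subtype.ext (h a a.2 b b.2) }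
  exact ⟨Additive M, inferInstance, Additive.ofMul, fun _ _ => rfl⟩

variable {A : Type} [AddCommGroup A] (φ : N ≃ A) (hφ : ∀ a b, φ (a * b) = φ a + φ b)

include hφ

lemma block_model (r' c' : G ⧸ N) (a : {r : G // (groupEpi N).row r = r'}) (b : {c : G // (groupEpi N).col c = c'}) :
    ((symChart N r' c').trans φ) ((groupEpi N).block (rfl : cayley (G ⧸ N) r' c' = _) a b) =
      ((rowChart N r').trans φ) a + ((colChart N c').trans φ) b := by
  rw [Equiv.trans_apply, chart_mul, hφ]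
  rfl

/-- two blocks with the same symbols -/
lemma pair_blocks [Finite A] (r₁ c₁ r₂ c₂ s : G ⧸ N) (h₁ : cayley (G ⧸ N) r₁ c₁ = s)
    (h₂ : cayley (G ⧸ N) r₂ c₂ = s) : Pair ((groupEpi N).block h₁) ((groupEpi N).block h₂) := by
  subst h₁
  have p1 : Pair ((groupEpi N).block (rfl : cayley (G ⧸ N) r₁ c₁ = _))
      ((groupEpi N).block (rfl : cayley (G ⧸ N) r₁ c₁ = _)) :=
    pair_isotopic (T' := fun x y : A => x + y) ((rowChart N r₁).trans φ) ((colChart N c₁).trans φ)
      ((symChart N r₁ c₁).trans φ) (block_model N φ hφ r₁ c₁) (pair_abelian A)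
  obtain ⟨x₁, rfl⟩ := QuotientGroup.mk_surjective r₁
  obtain ⟨x₂, rfl⟩ := QuotientGroup.mk_surjective r₂
  have h₂' : (x₂ : G ⧸ N) * c₂ = (x₁ : G ⧸ N) * c₁ := h₂
  refine pair_rowCol p1 ⟨?_, ?_, ?_⟩
  · refine Equiv.subtypeEquiv (Equiv.mulRight (x₂⁻¹ * x₁)) fun a => ?_
    change (a : G ⧸ N) = x₂ ↔ ((a * (x₂⁻¹ * x₁) : G) : G ⧸ N) = x₁
    rw [QuotientGroup.mk_mul, QuotientGroup.mk_mul, QuotientGroup.mk_inv]
    constructor
    · intro e
      rw [e, mul_inv_cancel_left]
    · intro e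
      rw [← mul_assoc, mul_eq_right, mul_inv_eq_one] at e
      exact e
  · refine Equiv.subtypeEquiv (Equiv.mulLeft (x₁⁻¹ * x₂)) fun b => ?_
    change (b : G ⧸ N) = c₂ ↔ (((x₁⁻¹ * x₂) * b : G) : G ⧸ N) = c₁
    rw [QuotientGroup.mk_mul, QuotientGroup.mk_mul, QuotientGroup.mk_inv]
    constructor
    · intro e
      rw [e, mul_assoc, h₂', inv_mul_cancel_left]
    · intro e
      have e2 : (x₂ : G ⧸ N) * b = x₂ * c₂ := by
        rw [h₂', ← e]
        group
      exact mul_left_cancel e2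
  · intro a b
    refine Subtype.ext ?_
    change (a : G) * (b : G) = ((a : G) * (x₂⁻¹ * x₁)) * ((x₁⁻¹ * x₂) * (b : G))
    group

omit hφ in
lemma fibre_ncard [Finite G] (r' : G ⧸ N) : {r : G | (r : G ⧸ N) = r'}.ncard = Nat.card N :=
  Nat.card_congr (rowChart N r')

end group

section lift

variable {G : Type} [Group G] [Finite G]

/-- a small abelian kernel -/
theorem robust_of_kernel (N : Subgroup G) [N.Normal] (hN : ∀ a ∈ N, ∀ b ∈ N, a * b = b * a) {t : ℕ}
    (h : Robust (Nat.card N * t) (cayley (G ⧸ N))) : Robust t (cayley G) := by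
  obtain ⟨A, iA, φ, hφ⟩ := exists_model N hN
  have _ : Finite A := Finite.of_equiv _ φ
  exact robust_of_quotient (groupEpi N) (fun r' => (fibre_ncard N r').le) (fun r' => (fibre_ncard N r').le)
    (fun r' => (fibre_ncard N r').le) h fun r₁ c₁ r₂ c₂ s h₁ h₂ _ => pair_blocks N φ hφ r₁ c₁ r₂ c₂ s h₁ h₂

/-- a nontrivial soluble group has a nontrivial abelian normal subgroup -/
lemma exists_abelian_normal [hs : Group.IsSolvable G] (h2 : 2 ≤ Nat.card G) :
    ∃ N : Subgroup G, N.Normal ∧ N ≠ ⊥ ∧ ∀ a ∈ N, ∀ b ∈ N, a * b = b * a := by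
  classical
  obtain ⟨n, hn⟩ := hs.solvable
  have hex : ∃ i, derivedSeries G i = ⊥ := ⟨n, hn⟩
  set i := Nat.find hex with hi
  have hi1 : derivedSeries G i = ⊥ := Nat.find_spec hex
  have hi0 : i ≠ 0 := by
    intro h0
    rw [h0, derivedSeries_zero] at hi1
    have h3 : Nat.card (⊤ : Subgroup G) = Nat.card (⊥ : Subgroup G) := by rw [hi1]
    rw [Subgroup.card_top, Subgroup.card_bot] at h3
    omega
  obtain ⟨j, hj⟩ := Nat.exists_eq_succ_of_ne_zero hi0
  refine ⟨derivedSeries G j, inferInstance, Nat.find_min hex (by omega), fun a ha b hb => ?_⟩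
  rw [hj, derivedSeries_succ] at hi1
  have h4 : a * b * a⁻¹ * b⁻¹ = 1 := by
    have h5 := Subgroup.commutator_mem_commutator ha hb
    rw [hi1, Subgroup.mem_bot] at h5
    exact h5
  have h6 : a * b = (a * b * a⁻¹ * b⁻¹) * (b * a) := by group
  rw [h6, h4, one_mul]

/-- nontrivial soluble groups have duplexes -/
theorem soluble_duplex (n : ℕ) : ∀ (G : Type) [Group G] [Finite G] [Group.IsSolvable G], Nat.card G = n → 2 ≤ n →
    ∃ D, IsDuplex (cayley G) D := by
  induction n using Nat.strong_induction_on with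
  | _ n ih =>
    intro G _ _ _ hG hn
    obtain ⟨N, hNn, hN1, hNc⟩ := exists_abelian_normal (G := G) (by omega)
    obtain ⟨A, iA, φ, hφ⟩ := exists_model N hNc
    have _ : Finite A := Finite.of_equiv _ φ
    have hNcard : 2 ≤ Nat.card N := by
      have h1 := (Subgroup.one_lt_card_iff_ne_bot N).2 hN1
      omega
    have hmul : Nat.card G = Nat.card (G ⧸ N) * Nat.card N := Subgroup.card_eq_card_quotient_mul_card_subgroup N
    have hqpos : 0 < Nat.card (G ⧸ N) := Nat.card_pos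
    by_cases hq : Nat.card (G ⧸ N) = 1
    · -- the whole group is abelian
      have h1 : Nat.card N = Nat.card G := by rw [hmul, hq, one_mul]
      have htop : N = ⊤ := Subgroup.eq_top_of_card_eq N h1
      have hall : ∀ x : G, x ∈ N := fun x => by rw [htop]; trivial
      set e : G ≃ N := ⟨fun x => ⟨x, hall x⟩, fun x => x, fun _ => rfl, fun _ => rfl⟩ with he
      refine duplex_of_abelian (T := cayley G) (by omega)
        ⟨A, iA, e.trans φ, e.trans φ, e.trans φ, fun x y => ?_⟩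
      change φ (e (x * y)) = φ (e x) + φ (e y)
      rw [← hφ]
      rfl
    · have hlt : Nat.card (G ⧸ N) < n := by
        rw [← hG, hmul]
        nlinarith
      obtain ⟨D, hD⟩ := ih _ hlt (G ⧸ N) rfl (by omega)
      exact (lift_duplex (groupEpi N) hD fun r₁ c₁ r₂ c₂ s h₁ h₂ _ _ _ => pair_blocks N φ hφ r₁ c₁ r₂ c₂ s h₁ h₂)

lemma pair_soluble (G : Type) [Group G] [Finite G] [Group.IsSolvable G] : Pair (cayley G) (cayley G) := by
  by_cases h : 2 ≤ Nat.card G
  · obtain ⟨D, hD⟩ := soluble_duplex _ G rfl h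
    exact diagonals_of_duplex hD
  · have h1 : Subsingleton G := Finite.card_le_one_iff_subsingleton.1 (by omega)
    have h2 : HasTransversal (cayley G) :=
      ⟨Equiv.refl G, fun x y _ => Subsingleton.elim x y, fun x => ⟨x, Subsingleton.elim _ _⟩⟩
    exact pair_of_transversals h2 h2

/-- the parity of the quotient of two symbols does not depend on the block -/
lemma par_conj (N : Subgroup G) [N.Normal] {A : Type} [AddCommGroup A] (φ : N ≃ A)
    (hφ : ∀ a b, φ (a * b) = φ a + φ b) (r₁ c₁ r₂ c₂ : G ⧸ N) (s s₀ : G) (h₁ : (s : G ⧸ N) = r₁ * c₁)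
    (h₁' : (s₀ : G ⧸ N) = r₁ * c₁) (h₂ : (s : G ⧸ N) = r₂ * c₂) (h₂' : (s₀ : G ⧸ N) = r₂ * c₂)
    (hpar : Par (((symChart N r₁ c₁).trans φ) ⟨s, h₁⟩ - ((symChart N r₁ c₁).trans φ) ⟨s₀, h₁'⟩)) :
    Par (((symChart N r₂ c₂).trans φ) ⟨s, h₂⟩ - ((symChart N r₂ c₂).trans φ) ⟨s₀, h₂'⟩) := by
  have hone : φ 1 = 0 := by
    have h5 := hφ 1 1
    rw [mul_one] at h5
    exact left_eq_add.1 h5
  have hinv : ∀ a, φ a⁻¹ = - φ a := fun a => by
    rw [eq_neg_iff_add_eq_zero, ← hφ, inv_mul_cancel, hone]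
  have hdiff : ∀ (r' c' : G ⧸ N) (k : (groupEpi N).sym s = cayley (G ⧸ N) r' c')
      (k' : (groupEpi N).sym s₀ = cayley (G ⧸ N) r' c'),
      ((symChart N r' c').trans φ) ⟨s, k⟩ - ((symChart N r' c').trans φ) ⟨s₀, k'⟩ =
        φ (symChart N r' c' ⟨s, k⟩ * (symChart N r' c' ⟨s₀, k'⟩)⁻¹) := fun r' c' k k' => by
    rw [hφ, hinv, ← sub_eq_add_neg]
    rfl
  change Par (((symChart N r₁ c₁).trans φ) ⟨s, h₁⟩ - ((symChart N r₁ c₁).trans φ) ⟨s₀, h₁'⟩) at hpar
  change Par (((symChart N r₂ c₂).trans φ) ⟨s, h₂⟩ - ((symChart N r₂ c₂).trans φ) ⟨s₀, h₂'⟩)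
  rw [hdiff r₁ c₁ h₁ h₁'] at hpar
  rw [hdiff r₂ c₂ h₂ h₂']
  obtain ⟨w, hw⟩ := hpar
  obtain ⟨v, rfl⟩ := φ.surjective w
  -- both quotients are conjugate
  set g : G := (Quotient.out r₂)⁻¹ * Quotient.out r₁ with hg
  have hsq : (symChart N r₁ c₁ ⟨s, h₁⟩ * (symChart N r₁ c₁ ⟨s₀, h₁'⟩)⁻¹ : N) = v * v := by
    apply φ.injective
    rw [hφ v v, ← two_nsmul, hw]
  refine ⟨φ ⟨g * v * g⁻¹, (inferInstance : N.Normal).conj_mem _ v.2 _⟩, ?_⟩
  rw [two_nsmul, ← hφ]
  congr 1
  refine Subtype.ext ?_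
  have h6 := congrArg (fun x : N => (x : G)) hsq
  change ((Quotient.out r₁)⁻¹ * s * (Quotient.out c₁)⁻¹) *
    ((Quotient.out r₁)⁻¹ * s₀ * (Quotient.out c₁)⁻¹)⁻¹ = (v : G) * v at h6
  change (g * v * g⁻¹) * (g * v * g⁻¹) = ((Quotient.out r₂)⁻¹ * s * (Quotient.out c₂)⁻¹) *
    ((Quotient.out r₂)⁻¹ * s₀ * (Quotient.out c₂)⁻¹)⁻¹
  have h7 : (g * v * g⁻¹) * (g * v * g⁻¹) = g * ((v : G) * v) * g⁻¹ := by group
  rw [h7, ← h6, hg]
  group

/-- soluble groups with a nice abelian normal subgroup -/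
theorem robust_of_nice [Group.IsSolvable G] (N : Subgroup G) [N.Normal] {A : Type} [AddCommGroup A] (φ : N ≃ A)
    (hφ : ∀ a b, φ (a * b) = φ a + φ b) {t : ℕ} (hA : Nice t A) : Robust t (cayley G) := by
  have _ : Finite A := Finite.of_equiv _ φ
  rcases hA with hA | ⟨hcyc, hbig, hA⟩
  · refine robust_of_pair (groupEpi N) (pair_soluble (G ⧸ N)) fun r' c' => ?_
    exact robustT_of_isotopic ((rowChart N r').trans φ) ((colChart N c').trans φ) ((symChart N r' c').trans φ)
      (block_model N φ hφ r' c') hA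
  · by_cases hq : 2 ≤ Nat.card (G ⧸ N)
    · obtain ⟨D, hD⟩ := soluble_duplex _ (G ⧸ N) rfl hq
      have hbig' : 80000 * (t + 1) ≤ Nat.card A := by omega
      rcases hA with hA | ⟨hA, h3⟩
      · exact robust_of_cyclic_odd (groupEpi N) hD (fun r' _ => (rowChart N r').trans φ)
          (fun c' => (colChart N c').trans φ) (fun r' c' => (symChart N r' c').trans φ)
          (fun r' c' a b => block_model N φ hφ r' c' a b) t hA hbig'
      · refine robust_of_cyclic_even (groupEpi N) hD (fun r' _ => (rowChart N r').trans φ)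
          (fun c' => (colChart N c').trans φ) (fun r' c' => (symChart N r' c').trans φ)
          (fun r' c' a b => block_model N φ hφ r' c' a b) t hA h3 ?_ hbig'
        intro r₁ c₁ r₂ c₂ s s₀ h₁ h₁' h₂ h₂' hpar
        exact par_conj N φ hφ r₁ c₁ r₂ c₂ s s₀ h₁ h₁' h₂ h₂' hpar
    · have h1 : Subsingleton (G ⧸ N) := Finite.card_le_one_iff_subsingleton.1 (by omega)
      refine robust_of_blocks (groupEpi N) (Equiv.refl (G ⧸ N)) ⟨fun x y _ => Subsingleton.elim x y, fun x =>
        ⟨x, Subsingleton.elim _ _⟩⟩ fun r' => ?_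
      exact robust_of_isotopic ((rowChart N r').trans φ) ((colChart N r').trans φ) ((symChart N r' r').trans φ)
        (block_model N φ hφ r' r') (robust_addCyclic hbig)

/-- a large abelian normal subgroup contains a nice one -/
theorem exists_nice_normal (N : Subgroup G) [hNn : N.Normal] (hN : ∀ a ∈ N, ∀ b ∈ N, a * b = b * a)
    {t : ℕ} (hbig : (200000000 * (t + 1) * (36 * (t + 1))) ^ 2 * (36 * (t + 1)) ≤ Nat.card N) :
    ∃ (M : Subgroup G) (_ : M.Normal) (A : Type) (_ : AddCommGroup A) (φ : M ≃ A), M ≤ N ∧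
      (∀ a b, φ (a * b) = φ a + φ b) ∧ Nice t A := by
  obtain ⟨A, iA, φ, hφ⟩ := exists_model N hN
  have _ : Finite A := Finite.of_equiv _ φ
  obtain ⟨j, hj⟩ := exists_nice (A := A) t (by rw [← Nat.card_congr φ]; exact hbig)
  have hone : φ 1 = 0 := by
    have h5 := hφ 1 1
    rw [mul_one] at h5
    exact left_eq_add.1 h5
  have hinv : ∀ a, φ a⁻¹ = - φ a := fun a => by
    rw [eq_neg_iff_add_eq_zero, ← hφ, inv_mul_cancel, hone]
  have hpow : ∀ (a : N) (k : ℕ), φ (a ^ k) = k • φ a := fun a k => by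
    induction k with
    | zero => rw [pow_zero, hone, zero_smul]
    | succ k ih => rw [pow_succ, hφ, ih, succ_nsmul]
  set M : Subgroup G :=
    { carrier := {x | ∃ h : x ∈ N, φ ⟨x, h⟩ ∈ mult A j}
      mul_mem' := by
        rintro a b ⟨ha, ha'⟩ ⟨hb, hb'⟩
        refine ⟨N.mul_mem ha hb, ?_⟩
        have : φ ⟨a * b, N.mul_mem ha hb⟩ = φ ⟨a, ha⟩ + φ ⟨b, hb⟩ := hφ ⟨a, ha⟩ ⟨b, hb⟩
        rw [this]
        exact (mult A j).add_mem ha' hb'
      one_mem' := ⟨N.one_mem, by
        have : φ ⟨1, N.one_mem⟩ = 0 := hone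
        rw [this]
        exact (mult A j).zero_mem⟩
      inv_mem' := by
        rintro a ⟨ha, ha'⟩
        refine ⟨N.inv_mem ha, ?_⟩
        have : φ ⟨a⁻¹, N.inv_mem ha⟩ = - φ ⟨a, ha⟩ := hinv ⟨a, ha⟩
        rw [this]
        exact (mult A j).neg_mem ha' } with hM
  have hMn : M.Normal := by
    refine ⟨fun x hx g => ?_⟩
    obtain ⟨hxN, y, hy⟩ := hx
    refine ⟨hNn.conj_mem x hxN g, ?_⟩
    obtain ⟨z, rfl⟩ := φ.surjective y
    have h1 : (⟨x, hxN⟩ : N) = z ^ j := by
      apply φ.injective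
      rw [hpow]
      exact hy.symm
    have h2 : x = (z : G) ^ j := congrArg Subtype.val h1
    refine ⟨φ ⟨g * z * g⁻¹, hNn.conj_mem z z.2 g⟩, ?_⟩
    change j • φ ⟨g * z * g⁻¹, hNn.conj_mem z z.2 g⟩ = _
    rw [← hpow]
    congr 1
    refine Subtype.ext ?_
    change (g * z * g⁻¹) ^ j = g * x * g⁻¹
    rw [h2, conj_pow]
  set ψ : M ≃ mult A j :=
    { toFun := fun x => ⟨φ ⟨x.1, x.2.choose⟩, x.2.choose_spec⟩
      invFun := fun y => ⟨(φ.symm y.1 : G), (φ.symm y.1).2, by
        rw [Subtype.coe_eta, Equiv.apply_symm_apply]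
        exact y.2⟩
      left_inv := fun x => Subtype.ext (by
        change ((φ.symm (φ ⟨x.1, x.2.choose⟩) : N) : G) = x
        rw [Equiv.symm_apply_apply])
      right_inv := fun y => Subtype.ext (by
        change φ ⟨((φ.symm y.1 : N) : G), _⟩ = y.1
        rw [Subtype.coe_eta, Equiv.apply_symm_apply]) } with hψ
  exact ⟨M, hMn, mult A j, inferInstance, ψ, fun x hx => hx.choose,
    fun a b => Subtype.ext (hφ ⟨a.1, a.2.choose⟩ ⟨b.1, b.2.choose⟩), hj⟩

/-- soluble groups with a large abelian normal subgroup -/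
theorem robust_of_large [Group.IsSolvable G] (N : Subgroup G) [N.Normal] (hN : ∀ a ∈ N, ∀ b ∈ N, a * b = b * a)
    {t : ℕ} (hbig : (200000000 * (t + 1) * (36 * (t + 1))) ^ 2 * (36 * (t + 1)) ≤ Nat.card N) :
    Robust t (cayley G) := by
  obtain ⟨M, hMn, A, iA, φ, -, hφ, hA⟩ := exists_nice_normal N hN hbig
  exact robust_of_nice M φ hφ hA

/-- the threshold for abelian sections -/
def thr (t m : ℕ) : ℕ := (200000000 * (m * t + 1) * (36 * (m * t + 1))) ^ 2 * (36 * (m * t + 1))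

/-- all large soluble groups are robust -/
theorem robust_soluble (t : ℕ) [Group.IsSolvable G] (hG : secBound (thr t) < Nat.card G) : Robust t (cayley G) := by
  obtain ⟨K, hK, N, hN, hKc, hNc, hcard⟩ := exists_section G (thr t) hG
  exact robust_of_kernel K hKc (robust_of_large N hNc hcard)

end lift

end Pool.Agent.NC79
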