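import Pool.Agent.NC79.Fix
import Pool.Agent.Duplex38.Defs

/-!
# Tables close to the addition table of a group
-/

namespace Pool.Agent.NC79

open Finset

variable {C : ℕ} {G : Type} [AddCommGroup G] [Fintype G] [DecidableEq G]

lemma count_final (cl : Bool × G → G × G) (Q : Finset (Bool × G)) (N : Finset (G × G))
    (hinj : ∀ σ σ', σ ∉ Q → σ' ∉ Q → cl σ = cl σ' → σ = σ')
    (hN : ∀ σ, cl σ ∉ N) (φ : G × G → G) (r : G)
    (h1 : (N.filter fun c => φ c = r).card = (Q.filter fun σ => φ (cl σ) = r).card)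
    (h2 : (univ.filter fun σ => φ (cl σ) = r).card = 2) :
    (((univ \ Q).image cl ∪ N).filter fun c => φ c = r).card = 2 := by
  have d1 : Disjoint (((univ \ Q).image cl).filter fun c => φ c = r) (N.filter fun c => φ c = r) := by
    refine disjoint_left.2 fun c h3 h4 => ?_
    obtain ⟨σ, -, rfl⟩ := mem_image.1 (mem_filter.1 h3).1
    exact hN σ (mem_filter.1 h4).1
  rw [filter_union, card_union_of_disjoint d1, h1, filter_image, card_image_of_injOn, ← h2]
  · rw [← card_union_of_disjoint, ← filter_union, sdiff_union_self_eq_union, union_eq_left.2 (subset_univ Q)]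
    exact disjoint_filter_filter sdiff_disjoint
  · intro σ hσ σ' hσ' e
    simp only [coe_filter, mem_sdiff, mem_univ, true_and, Set.mem_ofPred_eq] at hσ hσ'
    exact hinj σ σ' hσ.1 hσ'.1 e

/-- the addition table has a duplex which avoids `B` -/
def Avoid (B : Finset (G × G)) : Prop :=
  ∃ D : Finset (G × G), (∀ c ∈ D, c ∉ B) ∧ (∀ r, (D.filter fun c => c.1 = r).card = 2) ∧
    (∀ r, (D.filter fun c => c.2 = r).card = 2) ∧ ∀ r, (D.filter fun c => c.1 + c.2 = r).card = 2

theorem avoid0 (h : CB C G) {κ M : ℕ} {k : Bool → ℤ} {cl : Bool × G → G × G} (hb : Base κ M k cl)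
    (t : ℕ) (B : Finset (G × G))
    (hBr : ∀ r, (B.filter fun c => c.1 = r).card ≤ t) (hBc : ∀ r, (B.filter fun c => c.2 = r).card ≤ t)
    (hBs : ∀ r, (B.filter fun c => c.1 + c.2 = r).card ≤ t)
    (hbad : (univ.filter fun σ => cl σ ∈ B).card ≤ 2 * t)
    (hbig : (81 * C + 90 * (2 * t + κ) * C + 9 * (t + 4) * C + 9 * (t + 4) * C ^ 2) * Fintype.card G < M) :
    Avoid B := by
  set Bad : Finset (Bool × G) := (univ.filter fun σ => cl σ ∈ B) ∪
    ((univ.filter fun x : G => cl (true, x) = cl (false, x)).image fun x => (true, x)) with hBad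
  have hBadcard : Bad.card ≤ 2 * t + κ := by
    have h3 := card_image_le (s := univ.filter fun x : G => cl (true, x) = cl (false, x))
      (f := fun x => ((true, x) : Bool × G))
    have h4 := hb.coll
    have h5 := card_union_le (univ.filter fun σ => cl σ ∈ B)
      ((univ.filter fun x : G => cl (true, x) = cl (false, x)).image fun x => (true, x))
    rw [← hBad] at h5
    omega
  obtain ⟨Q, N, q1, -, -, q4, q5, q6, q7⟩ := greedy h hb Bad (B ∪ univ.image cl) (t + 2)
    (fun r => by
      rw [filter_union]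
      refine (card_union_le _ _).trans (Nat.add_le_add (hBr r) ?_)
      rw [filter_image]
      exact card_image_le.trans (hb.row r).le)
    (fun r => by
      rw [filter_union]
      refine (card_union_le _ _).trans (Nat.add_le_add (hBc r) ?_)
      rw [filter_image]
      exact card_image_le.trans (hb.col r).le)
    (fun r => by
      rw [filter_union]
      refine (card_union_le _ _).trans (Nat.add_le_add (hBs r) ?_)
      rw [filter_image]
      exact card_image_le.trans (hb.sum r).le)
    (by
      have e1 : 81 * (C * Fintype.card G) + 9 * ((10 * Bad.card) * (C * Fintype.card G)) +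
          9 * ((t + 2 + 2) * (C * Fintype.card G) + (Fintype.card G * (t + 2 + 2)) * (C * C)) ≤
          81 * (C * Fintype.card G) + 9 * ((10 * (2 * t + κ)) * (C * Fintype.card G)) +
          9 * ((t + 2 + 2) * (C * Fintype.card G) + (Fintype.card G * (t + 2 + 2)) * (C * C)) := by gcongr
      have e2 : 81 * (C * Fintype.card G) + 9 * ((10 * (2 * t + κ)) * (C * Fintype.card G)) +
          9 * ((t + 2 + 2) * (C * Fintype.card G) + (Fintype.card G * (t + 2 + 2)) * (C * C)) =
          (81 * C + 90 * (2 * t + κ) * C + 9 * (t + 4) * C + 9 * (t + 4) * C ^ 2) * Fintype.card G := by ring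
      rw [e2] at e1
      exact lt_of_le_of_lt e1 hbig)
    Bad (Subset.refl _)
  have hcinj : ∀ σ σ', σ ∉ Q → σ' ∉ Q → cl σ = cl σ' → σ = σ' := by
    have key : ∀ x, (true, x) ∉ Q → cl (true, x) ≠ cl (false, x) := by
      intro x hx e
      refine hx (q1 (mem_union_right _ (mem_image.2 ⟨x, ?_, rfl⟩)))
      simp only [mem_filter, mem_univ, true_and]
      exact e
    rintro ⟨c, x⟩ ⟨c', x'⟩ hσ hσ' e
    have e1 : x = x' := by
      have e2 := congrArg Prod.fst e
      rwa [hb.fst, hb.fst] at e2
    subst e1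
    cases c <;> cases c'
    · rfl
    · exact absurd e.symm (key x hσ')
    · exact absurd e (key x hσ)
    · rfl
  have hN : ∀ σ, cl σ ∉ N := fun σ hσ => q4 _ hσ (mem_union_right _ (mem_image_of_mem _ (mem_univ σ)))
  refine ⟨(univ \ Q).image cl ∪ N, ?_, ?_, ?_, ?_⟩
  · intro c hc'
    rcases mem_union.1 hc' with hh | hh
    · obtain ⟨σ, hσ, rfl⟩ := mem_image.1 hh
      exact fun hcon => (mem_sdiff.1 hσ).2 (q1 (mem_union_left _ (mem_filter.2 ⟨mem_univ _, hcon⟩)))
    · exact fun hcon => q4 c hh (mem_union_left _ hcon)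
  · exact fun r => count_final cl Q N hcinj hN (fun c => c.1) r (q5 r) (hb.row r)
  · exact fun r => count_final cl Q N hcinj hN (fun c => c.2) r (q6 r) (hb.col r)
  · exact fun r => count_final cl Q N hcinj hN (fun c => c.1 + c.2) r (q7 r) (hb.sum r)

theorem avoid (h : CB C G) {κ M : ℕ} {k : Bool → ℤ} {cl : Bool × G → G × G} (hb : Base κ M k cl)
    (t : ℕ) (hbig : (81 * C + 90 * (2 * t + κ) * C + 9 * (t + 4) * C + 9 * (t + 4) * C ^ 2) * Fintype.card G < M)
    (B : Finset (G × G)) (hBr : ∀ r, (B.filter fun c => c.1 = r).card ≤ t)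
    (hBc : ∀ r, (B.filter fun c => c.2 = r).card ≤ t) (hBs : ∀ r, (B.filter fun c => c.1 + c.2 = r).card ≤ t) :
    Avoid B := by
  obtain ⟨u, hu⟩ := exists_shift hb B t hBr
  set B' : Finset (G × G) := univ.filter fun c => c + u ∈ B with hB'def
  have himg : ∀ (φ : G × G → G), (∀ c, φ (c + u) = φ c + φ u) → (∀ r, (B.filter fun c => φ c = r).card ≤ t) →
      ∀ r, (B'.filter fun c => φ c = r).card ≤ t := fun φ hφ hB r => by
    refine le_trans (card_le_card_of_injOn (fun c => c + u) ?_ ?_) (hB (r + φ u))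
    · intro c hc'
      simp only [hB'def, filter_filter, coe_filter, mem_univ, true_and, Set.mem_ofPred_eq] at hc' ⊢
      exact ⟨hc'.1, by rw [hφ, hc'.2]⟩
    · exact fun c _ c' _ e => add_right_cancel e
  have hφ3 : ∀ c : G × G, (fun c : G × G => c.1 + c.2) (c + u) = (fun c : G × G => c.1 + c.2) c +
      (fun c : G × G => c.1 + c.2) u := fun c => by
    simp only [Prod.fst_add, Prod.snd_add]
    abel
  obtain ⟨D, h1, h2, h3, h4⟩ := avoid0 h hb t B'
    (himg (fun c => c.1) (fun c => rfl) hBr) (himg (fun c => c.2) (fun c => rfl) hBc)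
    (himg (fun c => c.1 + c.2) hφ3 hBs)
    (by
      convert hu using 3
      simp [hB'def]) hbig
  have hcount : ∀ (φ : G × G → G), (∀ c, φ (c + u) = φ c + φ u) → (∀ r, (D.filter fun c => φ c = r).card = 2) →
      ∀ r, ((D.image fun c => c + u).filter fun c => φ c = r).card = 2 := fun φ hφ hD r => by
    rw [filter_image, card_image_of_injective _ (add_left_injective u), ← hD (r - φ u)]
    congr 1
    refine filter_congr fun c _ => ?_
    rw [hφ]
    exact ⟨fun e => eq_sub_of_add_eq e, fun e => by rw [e, sub_add_cancel]⟩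
  refine ⟨D.image fun c => c + u, ?_, hcount _ (fun c => rfl) h2, hcount _ (fun c => rfl) h3, hcount _ hφ3 h4⟩
  intro c hc
  obtain ⟨c, hc', rfl⟩ := mem_image.1 hc
  exact fun hh => h1 c hc' (mem_filter.2 ⟨mem_univ _, hh⟩)

end Pool.Agent.NC79
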