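import Pool.Agent.NC79.RobT
import Pool.Agent.NC79.CycPair

/-!
# Large finite abelian groups have nice subgroups of multiples
-/

namespace Pool.Agent.NC79

open Finset Pool.Agent.Duplex38

/-- robust transversals exist, or the group is cyclic and large, its order being odd or (even and) not divisible by
`3` -/
def Nice (t : ℕ) (A : Type) [AddCommGroup A] : Prop :=
  RobustT (t + 1) (fun x y : A => x + y) ∨ (IsAddCyclic A ∧ 200000000 * (t + 1) ≤ Nat.card A ∧
    (Odd (Nat.card A) ∨ (Even (Nat.card A) ∧ ¬ 3 ∣ Nat.card A)))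

/-- the multiples by `j` -/
def mult (A : Type) [AddCommGroup A] (j : ℕ) : AddSubgroup A := (nsmulAddMonoidHom j : A →+ A).range

lemma mem_mult {A : Type} [AddCommGroup A] {j : ℕ} {x : A} : x ∈ mult A j ↔ ∃ y, j • y = x := Iff.rfl

section

variable {A : Type} [AddCommGroup A] [Finite A]

/-- a subgroup of index two -/
lemma exists_index_two {S : Type} [AddCommGroup S] [Finite S] (h : Even (Nat.card S)) :
    ∃ (M : AddSubgroup S) (s : S), s ∉ M ∧ 2 • s ∈ M ∧ Nat.card S ≤ 2 * Nat.card M := by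
  have hne : mult S 2 ≠ ⊤ := by
    intro htop
    have hsurj : Function.Surjective fun x : S => 2 • x := fun x => by
      have : x ∈ mult S 2 := by rw [htop]; trivial
      exact this
    have hinj := Finite.injective_iff_surjective.2 hsurj
    have _ : Fact (Nat.Prime 2) := ⟨Nat.prime_two⟩
    obtain ⟨x, hx⟩ := exists_prime_addOrderOf_dvd_card' (G := S) 2 h.two_dvd
    have h1 : 2 • x = 0 := by rw [← hx]; exact addOrderOf_nsmul_eq_zero x
    have h2 : x = 0 := hinj (by simp only [h1, smul_zero])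
    rw [h2, addOrderOf_zero] at hx
    omega
  obtain ⟨M, hM, hle⟩ := (eq_top_or_exists_le_coatom (mult S 2)).resolve_left hne
  obtain ⟨s, hs⟩ : ∃ s, s ∉ M := by
    by_contra hcon
    push Not at hcon
    exact hM.1 ((AddSubgroup.eq_top_iff' M).2 hcon)
  have h2s : 2 • s ∈ M := hle ⟨s, rfl⟩
  refine ⟨M, s, hs, h2s, ?_⟩
  have htop : M ⊔ AddSubgroup.zmultiples s = ⊤ := by
    refine hM.2 _ (lt_of_le_of_ne le_sup_left fun e => hs ?_)
    rw [e]
    exact (le_sup_right : AddSubgroup.zmultiples s ≤ _) (AddSubgroup.mem_zmultiples s)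
  have hsurj : Function.Surjective fun p : M × Bool => (p.1 : S) + if p.2 then s else 0 := by
    intro x
    have hx : x ∈ M ⊔ AddSubgroup.zmultiples s := by rw [htop]; trivial
    obtain ⟨m, hm, z, hz, rfl⟩ := AddSubgroup.mem_sup.1 hx
    obtain ⟨k, rfl⟩ := AddSubgroup.mem_zmultiples_iff.1 hz
    rcases Int.even_or_odd' k with ⟨l, rfl | rfl⟩
    · refine ⟨(⟨m + l • (2 • s), M.add_mem hm (M.zsmul_mem h2s l)⟩, false), ?_⟩
      simp only [Bool.false_eq_true, if_false, add_zero]
      rw [mul_comm, mul_smul, two_zsmul, two_nsmul]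
    · refine ⟨(⟨m + l • (2 • s), M.add_mem hm (M.zsmul_mem h2s l)⟩, true), ?_⟩
      simp only [if_true]
      rw [add_smul, one_smul, mul_comm, mul_smul, two_zsmul, two_nsmul, add_assoc]
  have h3 := Nat.card_le_card_of_surjective _ hsurj
  rw [Nat.card_prod, Nat.card_eq_fintype_card (α := Bool), Fintype.card_bool] at h3
  omega

lemma robustT_congr {B : Type} [AddCommGroup B] [Finite B] {t : ℕ} (e : A ≃+ B)
    (h : RobustT t (fun x y : B => x + y)) : RobustT t (fun x y : A => x + y) :=
  robustT_of_isotopic e.toEquiv e.toEquiv e.toEquiv (fun x y => map_add e x y) h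

/-- the case of a large subgroup `S × S` -/
lemma nice_square (t : ℕ) (S : Type) [AddCommGroup S] [Finite S] (f : S × S →+ A) (hf : Function.Injective f)
    (hS : 36 * (t + 1) < Nat.card S ^ 2) : ∃ j, Nice t (mult A j) := by
  rcases Nat.even_or_odd (Nat.card S) with hev | hodd
  · obtain ⟨M, s, hs, h2s, hcard⟩ := exists_index_two hev
    refine ⟨1, Or.inl ?_⟩
    have e : mult A 1 ≃+ A := by
      have h1 : mult A 1 = ⊤ := by
        rw [eq_top_iff]
        intro x _
        exact ⟨x, one_nsmul x⟩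
      rw [h1]
      exact AddSubgroup.topEquiv
    refine robustT_congr e ?_
    set f' : M × M →+ A := f.comp (M.subtype.prodMap M.subtype) with hf'
    have hf'inj : Function.Injective f' := hf.comp (Subtype.val_injective.prodMap Subtype.val_injective)
    set ε : M × M ≃+ f'.range := AddMonoidHom.ofInjective hf'inj with hε
    refine robustT_of_zeta f'.range (zeta_congr ε (zeta_square M)) ?_ ?_
    · rw [← Nat.card_congr ε.toEquiv, Nat.card_prod]
      nlinarith
    · intro _
      have mem : ∀ x y : S, f (x, y) ∈ f'.range → x ∈ M ∧ y ∈ M := by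
        rintro x y ⟨⟨a, b⟩, hab⟩
        have h1 : ((a : S), (b : S)) = (x, y) := hf hab
        obtain ⟨rfl, rfl⟩ := Prod.mk.inj h1
        exact ⟨a.2, b.2⟩
      have mem' : ∀ x y : S, x ∈ M → y ∈ M → f (x, y) ∈ f'.range := fun x y hx hy =>
        ⟨(⟨x, hx⟩, ⟨y, hy⟩), rfl⟩
      refine sum_zero (f (s, 0) : A ⧸ f'.range) (f (0, s) : A ⧸ f'.range) ?_ ?_ ?_ ?_ ?_
      · exact fun h => hs (mem _ _ ((QuotientAddGroup.eq_zero_iff _).1 h)).1
      · rw [← QuotientAddGroup.mk_nsmul, QuotientAddGroup.eq_zero_iff, ← map_nsmul]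
        exact mem' _ _ h2s (by change 2 • (0 : S) ∈ M; rw [smul_zero]; exact M.zero_mem)
      · exact fun h => hs (mem _ _ ((QuotientAddGroup.eq_zero_iff _).1 h)).2
      · rw [← QuotientAddGroup.mk_nsmul, QuotientAddGroup.eq_zero_iff, ← map_nsmul]
        exact mem' _ _ (by change 2 • (0 : S) ∈ M; rw [smul_zero]; exact M.zero_mem) h2s
      · intro h
        rw [QuotientAddGroup.eq, ← map_neg, ← map_add] at h
        have h1 := (mem (-s + 0) (-0 + s) h).1
        rw [add_zero, neg_mem_iff] at h1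
        exact hs h1
  · obtain ⟨a, u, hu, hau⟩ := Nat.exists_eq_two_pow_mul_odd (n := Nat.card A) Nat.card_pos.ne'
    refine ⟨2 ^ a, Or.inl ?_⟩
    have hbij : Function.Bijective fun p : S × S => (2 ^ a) • p := by
      have h1 : Nat.Coprime (Nat.card (S × S)) (2 ^ a) := by
        rw [Nat.card_prod]
        exact Nat.Coprime.pow_right a (Nat.coprime_two_right.2 (hodd.mul hodd))
      exact (nsmulCoprime h1).bijective
    set f' : S × S →+ mult A (2 ^ a) := f.codRestrict (mult A (2 ^ a)) (fun p => by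
      obtain ⟨p', hp'⟩ := hbij.2 p
      refine ⟨f p', ?_⟩
      change (2 ^ a) • f p' = f p
      rw [← map_nsmul]
      exact congrArg f hp') with hf'
    have hf'inj : Function.Injective f' := fun p q e => hf (congrArg Subtype.val e)
    set ε : S × S ≃+ f'.range := AddMonoidHom.ofInjective hf'inj with hε
    have hoddA : Odd (Nat.card (mult A (2 ^ a))) := by
      by_contra hcon
      rw [Nat.not_odd_iff_even] at hcon
      have _ : Fact (Nat.Prime 2) := ⟨Nat.prime_two⟩
      obtain ⟨x, hx⟩ := exists_prime_addOrderOf_dvd_card' (G := mult A (2 ^ a)) 2 hcon.two_dvd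
      obtain ⟨⟨_, ⟨y, rfl⟩⟩, rfl⟩ : ∃ z : mult A (2 ^ a), z = x := ⟨x, rfl⟩
      have h1 : u • (⟨(nsmulAddMonoidHom (2 ^ a) : A →+ A) y, ⟨y, rfl⟩⟩ : mult A (2 ^ a)) = 0 := by
        refine Subtype.ext ?_
        change u • ((2 ^ a) • y) = 0
        rw [← mul_smul, mul_comm, ← hau]
        exact card_nsmul_eq_zero'
      have h2 := addOrderOf_dvd_of_nsmul_eq_zero h1
      rw [hx] at h2
      exact (Nat.not_even_iff_odd.2 hu) (even_iff_two_dvd.2 h2)
    refine robustT_of_zeta f'.range (zeta_congr ε (zeta_square S)) ?_ ?_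
    · rw [← Nat.card_congr ε.toEquiv, Nat.card_prod]
      nlinarith
    · intro _
      have h3 : Odd (Nat.card (mult A (2 ^ a) ⧸ f'.range)) := by
        obtain ⟨r, hr⟩ := AddSubgroup.card_quotient_dvd_card f'.range
        rw [hr] at hoddA
        exact (Nat.odd_mul.1 hoddA).1
      exact Pool.Agent.Duplex38.sum_odd (Equiv.refl (mult A (2 ^ a) ⧸ f'.range)) h3

/-- multiples by a multiple of the order of a complement of a cyclic subgroup -/
lemma mult_cyclic (K : AddSubgroup A) (φ : ZMod (AddMonoid.exponent A) × K ≃+ A) {j : ℕ} (hj : Nat.card K ∣ j) :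
    IsAddCyclic (mult A j) ∧ Nat.card (mult A j) = AddMonoid.exponent A / Nat.gcd (AddMonoid.exponent A) j := by
  have he0 : AddMonoid.exponent A ≠ 0 := AddMonoid.exponent_ne_zero_of_finite
  set e := AddMonoid.exponent A with he
  have _ : NeZero e := ⟨he0⟩
  set g : A := φ (1, 0) with hg
  have hog : addOrderOf g = e := by
    have h1 : addOrderOf g = addOrderOf ((1 : ZMod e), (0 : K)) :=
      addOrderOf_injective φ.toAddMonoidHom φ.injective _
    rw [h1, Prod.addOrderOf, addOrderOf_zero, ZMod.addOrderOf_one, Nat.lcm_one_right]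
  have h1 : mult A j = AddSubgroup.zmultiples (j • g) := by
    apply le_antisymm
    · rintro _ ⟨a, rfl⟩
      obtain ⟨⟨k, x⟩, rfl⟩ := φ.surjective a
      obtain ⟨l, rfl⟩ := ZMod.intCast_surjective k
      refine AddSubgroup.mem_zmultiples_iff.2 ⟨l, ?_⟩
      obtain ⟨r, hr⟩ := hj
      have h2 : j • x = 0 := by
        rw [hr, mul_comm, mul_smul, card_nsmul_eq_zero', smul_zero]
      have h3 : j • (((l : ℤ) : ZMod e), x) = l • (j • ((1 : ZMod e), (0 : K))) := by
        refine Prod.ext ?_ ?_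
        · simp only [Prod.smul_fst, nsmul_eq_mul, zsmul_eq_mul, mul_one]
          ring
        · simp only [Prod.smul_snd, smul_zero]
          exact h2
      have h4 : j • φ (((l : ℤ) : ZMod e), x) = l • (j • g) := by
        rw [← map_nsmul, h3, map_zsmul, map_nsmul]
      exact h4.symm
    · rw [AddSubgroup.zmultiples_le]
      exact ⟨g, rfl⟩
  refine ⟨?_, ?_⟩
  · rw [h1]
    infer_instance
  · rw [h1, Nat.card_zmultiples]
    by_cases hj0 : j = 0
    · subst hj0
      rw [zero_smul, addOrderOf_zero, Nat.gcd_zero_right, Nat.div_self (Nat.pos_of_ne_zero he0)]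
    · rw [addOrderOf_nsmul' g hj0, hog]

/-- every large finite abelian group has a nice subgroup of multiples -/
theorem exists_nice (t : ℕ) (hA : (200000000 * (t + 1) * (36 * (t + 1))) ^ 2 * (36 * (t + 1)) ≤ Nat.card A) :
    ∃ j, Nice t (mult A j) := by
  obtain ⟨S, iS, fS, f, hf, hcard⟩ := exists_square _ A rfl
  by_cases hS : 36 * (t + 1) < Nat.card S ^ 2
  · exact nice_square t S f hf hS
  · push Not at hS
    obtain ⟨K, ⟨φ⟩⟩ := split A
    have he0 : AddMonoid.exponent A ≠ 0 := AddMonoid.exponent_ne_zero_of_finite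
    have c1 : Nat.card A = AddMonoid.exponent A * Nat.card K := by
      have _ : NeZero (AddMonoid.exponent A) := ⟨he0⟩
      rw [← Nat.card_congr φ.toEquiv, Nat.card_prod, Nat.card_zmod]
    set e := AddMonoid.exponent A with he
    set κ := Nat.card K with hκ
    have hκpos : 0 < κ := Nat.card_pos
    have hκle : κ ≤ 36 * (t + 1) := by
      refine le_trans ?_ hS
      rw [c1] at hcard
      exact Nat.le_of_mul_le_mul_left hcard (Nat.pos_of_ne_zero he0)
    set X := 200000000 * (t + 1) with hX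
    have hebig : (X * κ) ^ 2 ≤ e := by
      have h1 : (X * (36 * (t + 1))) ^ 2 * κ ≤ e * κ := by
        rw [c1] at hA
        refine le_trans ?_ hA
        gcongr
      have h2 := Nat.le_of_mul_le_mul_right h1 hκpos
      refine le_trans ?_ h2
      gcongr
    obtain ⟨a, u, hu, hau⟩ := Nat.exists_eq_two_pow_mul_odd he0
    have hupos : 0 < u := hu.pos
    have h2a : 0 < 2 ^ a := by positivity
    by_cases hubig : X * κ ≤ u
    · -- odd order
      obtain ⟨h3, h4⟩ := mult_cyclic K φ (j := κ * 2 ^ a) (Dvd.intro _ rfl)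
      rw [← he] at h4
      have hd1 : 2 ^ a ∣ Nat.gcd e (κ * 2 ^ a) := Nat.dvd_gcd (by rw [hau]; exact Dvd.intro _ rfl) (Dvd.intro_left _ rfl)
      obtain ⟨d, hd⟩ := hd1
      have hde : Nat.gcd e (κ * 2 ^ a) ∣ e := Nat.gcd_dvd_left _ _
      have hdpos : 0 < Nat.gcd e (κ * 2 ^ a) := Nat.gcd_pos_of_pos_left _ (Nat.pos_of_ne_zero he0)
      obtain ⟨m, hm⟩ := hde
      have h5 : Nat.card (mult A (κ * 2 ^ a)) = m := by
        rw [h4]
        exact Nat.div_eq_of_eq_mul_right hdpos hm
      have h6 : u = d * m := by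
        have : 2 ^ a * u = 2 ^ a * (d * m) := by rw [← hau, hm, hd]; ring
        exact Nat.eq_of_mul_eq_mul_left h2a this
      have h7 : d ≤ κ := by
        have h8 : Nat.gcd e (κ * 2 ^ a) ≤ κ * 2 ^ a := Nat.gcd_le_right _ (Nat.mul_pos hκpos h2a)
        rw [hd, mul_comm] at h8
        exact Nat.le_of_mul_le_mul_right h8 h2a
      refine ⟨κ * 2 ^ a, Or.inr ⟨h3, ?_, Or.inl ?_⟩⟩
      · rw [h5]
        rw [h6, mul_comm d] at hubig
        have h9 : X * κ ≤ m * κ := hubig.trans (Nat.mul_le_mul_left _ h7)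
        exact Nat.le_of_mul_le_mul_right h9 hκpos
      · rw [h5]
        rw [h6] at hu
        exact (Nat.odd_mul.1 hu).2
    · push Not at hubig
      have h2abig : X * κ ≤ 2 ^ a := by
        by_contra hcon
        push Not at hcon
        have : e < (X * κ) ^ 2 := by
          rw [hau, pow_two]
          exact Nat.mul_lt_mul'' hcon hubig
        omega
      obtain ⟨h3, h4⟩ := mult_cyclic K φ (j := κ * u) (Dvd.intro _ rfl)
      rw [← he] at h4
      have hd1 : u ∣ Nat.gcd e (κ * u) := Nat.dvd_gcd (by rw [hau]; exact Dvd.intro_left _ rfl) (Dvd.intro_left _ rfl)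
      obtain ⟨d, hd⟩ := hd1
      have hde : Nat.gcd e (κ * u) ∣ e := Nat.gcd_dvd_left _ _
      have hdpos : 0 < Nat.gcd e (κ * u) := Nat.gcd_pos_of_pos_left _ (Nat.pos_of_ne_zero he0)
      obtain ⟨m, hm⟩ := hde
      have h5 : Nat.card (mult A (κ * u)) = m := by
        rw [h4]
        exact Nat.div_eq_of_eq_mul_right hdpos hm
      have h6 : 2 ^ a = d * m := by
        have : u * 2 ^ a = u * (d * m) := by rw [mul_comm, ← hau, hm, hd]; ring
        exact Nat.eq_of_mul_eq_mul_left hupos this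
      have h7 : d ≤ κ := by
        have h8 : Nat.gcd e (κ * u) ≤ κ * u := Nat.gcd_le_right _ (Nat.mul_pos hκpos hupos)
        rw [hd, mul_comm] at h8
        exact Nat.le_of_mul_le_mul_right h8 hupos
      have h10 : X ≤ m := by
        rw [h6, mul_comm d] at h2abig
        have h9 : X * κ ≤ m * κ := h2abig.trans (Nat.mul_le_mul_left _ h7)
        exact Nat.le_of_mul_le_mul_right h9 hκpos
      obtain ⟨b, hb, hmb⟩ := (Nat.dvd_prime_pow Nat.prime_two).1 (Dvd.intro_left _ h6.symm : m ∣ 2 ^ a)
      have hb0 : b ≠ 0 := by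
        rintro rfl
        rw [pow_zero] at hmb
        omega
      refine ⟨κ * u, Or.inr ⟨h3, by rw [h5]; exact h10, Or.inr ⟨?_, ?_⟩⟩⟩
      · rw [h5, hmb]
        exact (Nat.even_pow.2 ⟨even_two, hb0⟩)
      · rw [h5, hmb]
        intro h11
        have := Nat.prime_three.dvd_of_dvd_pow h11
        omega

end

end Pool.Agent.NC79
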