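import Pool.Agent.NC79.Ex

/-!
# Two blocks with common columns

In one block the cells `(x, k₀ x + o₀)` and in the other block the cells `(x, k₁ x + o₁)` are chosen; exchanges of ten
cells remove all bad cells, the rows and the sums of each block and the common columns being preserved.
-/

namespace Pool.Agent.NC79

open Finset

lemma count_exchange' {ι α β γ : Type} [Fintype ι] [DecidableEq ι] [DecidableEq α] [DecidableEq β] [DecidableEq γ]
    (Q : Finset α) (N : Finset β) (f : ι → α) (g : ι → β) (hf : Function.Injective f)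
    (hg : Function.Injective g) (hfP : ∀ i, f i ∉ Q) (hgN : ∀ i, g i ∉ N) (τ : ι → ι)
    (hτ : Function.Injective τ) (φ : β → γ) (ψ : α → γ) (h : ∀ i, φ (g i) = ψ (f (τ i))) (r : γ)
    (h0 : (N.filter fun c => φ c = r).card = (Q.filter fun σ => ψ σ = r).card) :
    ((N ∪ univ.image g).filter fun c => φ c = r).card = ((Q ∪ univ.image f).filter fun σ => ψ σ = r).card := by
  have d1 : Disjoint (N.filter fun c => φ c = r) ((univ.image g).filter fun c => φ c = r) := by
    refine disjoint_left.2 fun c h1 h2 => ?_
    obtain ⟨i, -, rfl⟩ := mem_image.1 (mem_filter.1 h2).1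
    exact hgN i (mem_filter.1 h1).1
  have d2 : Disjoint (Q.filter fun σ => ψ σ = r) ((univ.image f).filter fun σ => ψ σ = r) := by
    refine disjoint_left.2 fun c h1 h2 => ?_
    obtain ⟨i, -, rfl⟩ := mem_image.1 (mem_filter.1 h2).1
    exact hfP i (mem_filter.1 h1).1
  rw [filter_union, filter_union, card_union_of_disjoint d1, card_union_of_disjoint d2, h0, filter_image,
    filter_image, card_image_of_injective _ hg, card_image_of_injective _ hf]
  congr 1
  have hb : Function.Bijective τ := Finite.injective_iff_bijective.1 hτ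
  refine card_bij (fun i _ => τ i) (fun i hi => ?_) (fun i _ j _ e => hτ e) fun j hj => ?_
  · simp only [mem_filter, mem_univ, true_and] at hi ⊢
    rw [← h, hi]
  · obtain ⟨i, rfl⟩ := hb.2 j
    simp only [mem_filter, mem_univ, true_and] at hj
    exact ⟨i, by simp only [mem_filter, mem_univ, true_and]; rw [h, hj], rfl⟩

lemma count_final' {α β γ : Type} [Fintype α] [DecidableEq α] [DecidableEq β] [DecidableEq γ] (cl : α → β)
    (Q : Finset α) (N : Finset β) (hinj : Function.Injective cl) (hN : ∀ σ, cl σ ∉ N) (φ : β → γ) (r : γ)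
    (h1 : (N.filter fun c => φ c = r).card = (Q.filter fun σ => φ (cl σ) = r).card) :
    (((univ \ Q).image cl ∪ N).filter fun c => φ c = r).card = (univ.filter fun σ => φ (cl σ) = r).card := by
  have d1 : Disjoint (((univ \ Q).image cl).filter fun c => φ c = r) (N.filter fun c => φ c = r) := by
    refine disjoint_left.2 fun c h3 h4 => ?_
    obtain ⟨σ, -, rfl⟩ := mem_image.1 (mem_filter.1 h3).1
    exact hN σ (mem_filter.1 h4).1
  rw [filter_union, card_union_of_disjoint d1, h1, filter_image, card_image_of_injective _ hinj,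
    ← card_union_of_disjoint, ← filter_union, sdiff_union_self_eq_union, union_eq_left.2 (subset_univ Q)]
  exact disjoint_filter_filter sdiff_disjoint

variable {C : ℕ} {G : Type} [AddCommGroup G] [Fintype G] [DecidableEq G] {k : Bool → ℤ} {d : ℤ} {P : Bool → Ex}

/-- the chosen cells, with their blocks -/
def bcell (k : Bool → ℤ) (o : Bool → G) (σ : Bool × G) : Bool × (G × G) := (σ.1, cell k o σ)

omit [Fintype G] [DecidableEq G] in
lemma bcell_inj (o : Bool → G) : Function.Injective (bcell k o) := fun σ τ e => by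
  obtain ⟨e1, e2⟩ := Prod.mk.inj e
  exact Prod.ext e1 (Prod.mk.inj e2).1

lemma split_bool {γ : Type} [DecidableEq γ] (N : Finset (Bool × (G × G))) (φ : G × G → γ) (r : γ) (a : ℕ)
    (h : ∀ b, (N.filter fun c => (c.1, φ c.2) = (b, r)).card ≤ a) :
    (N.filter fun c => φ c.2 = r).card ≤ 2 * a := by
  have h1 : (N.filter fun c => φ c.2 = r) ⊆ (N.filter fun c => (c.1, φ c.2) = (false, r)) ∪
      (N.filter fun c => (c.1, φ c.2) = (true, r)) := by
    rintro ⟨b, c⟩ hc
    simp only [mem_filter, mem_union, Prod.mk.injEq] at hc ⊢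
    cases b
    · exact Or.inl ⟨hc.1, rfl, hc.2⟩
    · exact Or.inr ⟨hc.1, rfl, hc.2⟩
  refine (card_le_card h1).trans ((card_union_le _ _).trans ?_)
  have h2 := h false
  have h3 := h true
  omega

lemma proj_le {γ : Type} [DecidableEq γ] (N : Finset (Bool × (G × G))) (φ : G × G → γ) (r : γ) :
    ((N.image Prod.snd).filter fun c => φ c = r).card ≤ (N.filter fun c => φ c.2 = r).card := by
  rw [filter_image]
  exact card_image_le

lemma base_rows (o : Bool → G) (r : Bool × G) :
    (univ.filter fun σ => ((bcell k o σ).1, (bcell k o σ).2.1) = r).card = 1 := by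
  have : (univ.filter fun σ : Bool × G => ((bcell k o σ).1, (bcell k o σ).2.1) = r) = {r} := by
    ext σ
    rw [mem_filter, mem_singleton]
    exact ⟨fun h => h.2, fun h => ⟨mem_univ _, h⟩⟩
  rw [this, card_singleton]

lemma base_cols (hk : ∀ c, Function.Injective fun x : G => k c • x) (o : Bool → G) (y : G) :
    (univ.filter fun σ => (bcell k o σ).2.2 = y).card = 2 :=
  eq_two_of_bij (fun c x => k c • x + o c) (fun c x y e => hk c (add_right_cancel e)) y

/-- all bad cells of a set are exchanged -/
lemma greedyx (h : CB C G) (hP : ∀ c, (P c).Ok k d) (hty : ∀ c, (P c).typ (P c).i0 = c)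
    (hk : ∀ c, Function.Injective fun x : G => k c • x) (hd : ∀ g : G, ∃ g', d • g' = g) (o' : Bool → G)
    (hsum : ∀ r : Bool × G, (univ.filter fun σ => ((bcell k (fun c => d • o' c) σ).1,
      (bcell k (fun c => d • o' c) σ).2.1 + (bcell k (fun c => d • o' c) σ).2.2) = r).card ≤ 2)
    (Bad : Finset (Bool × G)) (Z : Finset (G × G)) (z : ℕ)
    (hZr : ∀ r, (Z.filter fun c => c.1 = r).card ≤ z) (hZc : ∀ r, (Z.filter fun c => c.2 = r).card ≤ z)
    (hZs : ∀ r, (Z.filter fun c => c.1 + c.2 = r).card ≤ z)
    (hbig : 100 * (C * Fintype.card G) + 10 * ((11 * Bad.card) * (C * Fintype.card G)) +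
      10 * ((z + 4) * (C * Fintype.card G) + (Fintype.card G * (z + 4)) * (C * C)) <
        Fintype.card G * Fintype.card G) (T : Finset (Bool × G)) :
    T ⊆ Bad → ∃ (Q : Finset (Bool × G)) (N : Finset (Bool × (G × G))), T ⊆ Q ∧ (∀ σ ∈ Bad, σ ∈ Q → σ ∈ T) ∧
      Q.card ≤ 10 * T.card ∧ (∀ c ∈ N, c.2 ∉ Z) ∧
      (∀ r, (N.filter fun c => (c.1, c.2.1) = r).card =
        (Q.filter fun σ => ((bcell k (fun c => d • o' c) σ).1, (bcell k (fun c => d • o' c) σ).2.1) = r).card) ∧
      (∀ r, (N.filter fun c => c.2.2 = r).card =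
        (Q.filter fun σ => (bcell k (fun c => d • o' c) σ).2.2 = r).card) ∧
      ∀ r, (N.filter fun c => (c.1, c.2.1 + c.2.2) = r).card =
        (Q.filter fun σ => ((bcell k (fun c => d • o' c) σ).1,
          (bcell k (fun c => d • o' c) σ).2.1 + (bcell k (fun c => d • o' c) σ).2.2) = r).card := by
  set o : Bool → G := fun c => d • o' c with ho
  induction T using Finset.induction_on with
  | empty =>
    intro _
    exact ⟨∅, ∅, by simp, by simp, by simp, by simp, by simp, by simp, by simp⟩
  | insert V T hV ih =>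
    intro hT
    obtain ⟨Q, N, h1, h2, h3, h4, h5, h6, h7⟩ := ih ((subset_insert V T).trans hT)
    have hVB : V ∈ Bad := hT (mem_insert_self V T)
    have hVQ : V ∉ Q := fun hh => hV (h2 V hVB hh)
    have hTB : T.card ≤ Bad.card := card_le_card ((subset_insert V T).trans hT)
    have lr : ∀ r, ((Z ∪ N.image Prod.snd).filter fun c => c.1 = r).card ≤ z + 4 := fun r => by
      rw [filter_union]
      refine (card_union_le _ _).trans (Nat.add_le_add (hZr r) ?_)
      refine (proj_le N (fun c => c.1) r).trans ((split_bool N (fun c => c.1) r 1 fun b => ?_).trans (by norm_num))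
      rw [h5]
      exact (card_le_card (filter_subset_filter _ (subset_univ Q))).trans (base_rows o (b, r)).le
    have lc : ∀ r, ((Z ∪ N.image Prod.snd).filter fun c => c.2 = r).card ≤ z + 4 := fun r => by
      rw [filter_union]
      refine (card_union_le _ _).trans (Nat.add_le_add (hZc r) ?_)
      refine (proj_le N (fun c => c.2) r).trans ?_
      rw [h6]
      exact ((card_le_card (filter_subset_filter _ (subset_univ Q))).trans (base_cols hk o r).le).trans (by norm_num)
    have ls : ∀ r, ((Z ∪ N.image Prod.snd).filter fun c => c.1 + c.2 = r).card ≤ z + 4 := fun r => by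
      rw [filter_union]
      refine (card_union_le _ _).trans (Nat.add_le_add (hZs r) ?_)
      refine (proj_le N (fun c => c.1 + c.2) r).trans
        ((split_bool N (fun c => c.1 + c.2) r 2 fun b => ?_).trans (by norm_num))
      rw [h7]
      exact (card_le_card (filter_subset_filter _ (subset_univ Q))).trans (hsum (b, r))
    have hcard := card_le_of_lines (Z ∪ N.image Prod.snd) (z + 4) lr
    have hU : (Q ∪ Bad).card ≤ 11 * Bad.card := (card_union_le _ _).trans (by omega)
    obtain ⟨v', hv'⟩ := hd V.2
    obtain ⟨x, x1, x2, x3⟩ := existsx_params h (hP V.1) o' v' (Q ∪ Bad) (Z ∪ N.image Prod.snd) (z + 4) lr lc ls (by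
      refine lt_of_le_of_lt (Nat.add_le_add (Nat.add_le_add_left (Nat.mul_le_mul_left _
        (Nat.mul_le_mul_right _ hU)) _) (Nat.mul_le_mul_left _ (Nat.add_le_add_left
        (Nat.mul_le_mul_right _ hcard) _))) hbig)
    set f : Fin 10 → Bool × G := (P V.1).slot o' v' x with hfdef
    set g : Fin 10 → Bool × (G × G) := fun i => ((P V.1).typ i, (P V.1).new k d o' v' x i) with hgdef
    have hf : Function.Injective f := fun i j e => by
      by_contra hij
      exact x1 i j hij e
    have hg : Function.Injective g := fun i j e => by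
      obtain ⟨e1, e2⟩ := Prod.mk.inj e
      exact hf (Prod.ext e1 (Prod.mk.inj e2).1)
    have hslot0 : f (P V.1).i0 = V := by
      rw [hfdef, Ex.slot, Ex.row_base (hP V.1), hty, hv']
    have hfQ : ∀ i, f i ∉ Q := fun i => by
      by_cases hi : i = (P V.1).i0
      · rw [hi, hslot0]
        exact hVQ
      · exact fun hh => x2 i hi (mem_union_left _ hh)
    have hgN : ∀ i, g i ∉ N := fun i hh => x3 i (mem_union_right _ (mem_image_of_mem Prod.snd hh))
    refine ⟨Q ∪ univ.image f, N ∪ univ.image g, ?_, ?_, ?_, ?_, ?_, ?_, ?_⟩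
    · refine insert_subset (mem_union_right _ (mem_image.2 ⟨(P V.1).i0, mem_univ _, hslot0⟩))
        (h1.trans subset_union_left)
    · intro σ hσ hσQ
      rcases mem_union.1 hσQ with hh | hh
      · exact mem_insert_of_mem (h2 σ hσ hh)
      · obtain ⟨i, -, rfl⟩ := mem_image.1 hh
        by_cases hi : i = (P V.1).i0
        · rw [hi, hslot0]
          exact mem_insert_self _ _
        · exact absurd (mem_union_right _ hσ) (x2 i hi)
    · rw [card_insert_of_notMem hV]
      refine (card_union_le _ _).trans ?_
      have := card_image_le (s := (univ : Finset (Fin 10))) (f := f)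
      rw [card_univ, Fintype.card_fin] at this
      omega
    · intro c hc
      rcases mem_union.1 hc with hh | hh
      · exact h4 c hh
      · obtain ⟨i, -, rfl⟩ := mem_image.1 hh
        exact fun hz => x3 i (mem_union_left _ hz)
    · exact fun r => count_exchange' Q N f g hf hg hfQ hgN id Function.injective_id (fun c => (c.1, c.2.1))
        (fun σ => ((bcell k o σ).1, (bcell k o σ).2.1)) (fun i => rfl) r (h5 r)
    · exact fun r => count_exchange' Q N f g hf hg hfQ hgN (P V.1).sg (fun i j => (hP V.1).sg_inj i j)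
        (fun c => c.2.2) (fun σ => (bcell k o σ).2.2) (fun i => rfl) r (h6 r)
    · exact fun r => count_exchange' Q N f g hf hg hfQ hgN (P V.1).ta (fun i j => (hP V.1).ta_inj i j)
        (fun c => (c.1, c.2.1 + c.2.2)) (fun σ => ((bcell k o σ).1, (bcell k o σ).2.1 + (bcell k o σ).2.2))
        (fun i => Prod.ext ((hP V.1).rs i).symm (Ex.sum_new (hP V.1) o' v' x i)) r (h7 r)

/-- two blocks with common columns: the final cells -/
theorem pair_avoid (h : CB C G) (hP : ∀ c, (P c).Ok k d) (hty : ∀ c, (P c).typ (P c).i0 = c)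
    (hk : ∀ c, Function.Injective fun x : G => k c • x) (hd : ∀ g : G, ∃ g', d • g' = g) (o : Bool → G)
    (hsum : ∀ r : Bool × G, (univ.filter fun σ => ((bcell k o σ).1,
      (bcell k o σ).2.1 + (bcell k o σ).2.2) = r).card ≤ 2)
    (t : ℕ) (B : Finset (Bool × (G × G)))
    (hBr : ∀ r : Bool × G, (B.filter fun c => (c.1, c.2.1) = r).card ≤ t)
    (hBc : ∀ r : Bool × G, (B.filter fun c => (c.1, c.2.2) = r).card ≤ t)
    (hBs : ∀ r : Bool × G, (B.filter fun c => (c.1, c.2.1 + c.2.2) = r).card ≤ t)
    (hbad : (univ.filter fun σ => bcell k o σ ∈ B).card ≤ 4 * t)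
    (hbig : 100 * (C * Fintype.card G) + 10 * ((44 * t) * (C * Fintype.card G)) +
      10 * ((2 * t + 8) * (C * Fintype.card G) + (Fintype.card G * (2 * t + 8)) * (C * C)) <
        Fintype.card G * Fintype.card G) :
    ∃ D : Finset (Bool × (G × G)), (∀ c ∈ D, c ∉ B) ∧
      (∀ r : Bool × G, (D.filter fun c => (c.1, c.2.1) = r).card = 1) ∧
      (∀ y, (D.filter fun c => c.2.2 = y).card = 2) ∧
      ∀ r : Bool × G, (D.filter fun c => (c.1, c.2.1 + c.2.2) = r).card =
        (univ.filter fun σ => ((bcell k o σ).1, (bcell k o σ).2.1 + (bcell k o σ).2.2) = r).card := by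
  obtain ⟨o', rfl⟩ : ∃ o' : Bool → G, o = fun c => d • o' c := by
    choose o' ho' using fun c => hd (o c)
    exact ⟨o', funext fun c => (ho' c).symm⟩
  set o : Bool → G := fun c => d • o' c with ho
  set Bad := univ.filter fun σ => bcell k o σ ∈ B with hBad
  obtain ⟨Q, N, q1, -, -, q4, q5, q6, q7⟩ := greedyx h hP hty hk hd o' hsum Bad
    (B.image Prod.snd ∪ (univ.image (bcell k o)).image Prod.snd) (2 * t + 4)
    (fun r => by
      rw [filter_union]
      refine (card_union_le _ _).trans (Nat.add_le_add ?_ ?_)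
      · exact (proj_le B (fun c => c.1) r).trans (split_bool B (fun c => c.1) r t fun b => hBr (b, r))
      · refine (proj_le _ (fun c => c.1) r).trans ((split_bool _ (fun c => c.1) r 1 fun b => ?_).trans (by norm_num))
        rw [filter_image]
        exact card_image_le.trans (base_rows o (b, r)).le)
    (fun r => by
      rw [filter_union]
      refine (card_union_le _ _).trans (Nat.add_le_add ?_ ?_)
      · exact (proj_le B (fun c => c.2) r).trans (split_bool B (fun c => c.2) r t fun b => hBc (b, r))
      · refine (proj_le _ (fun c => c.2) r).trans ?_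
        rw [filter_image]
        exact (card_image_le.trans (base_cols hk o r).le).trans (by norm_num))
    (fun r => by
      rw [filter_union]
      refine (card_union_le _ _).trans (Nat.add_le_add ?_ ?_)
      · exact (proj_le B (fun c => c.1 + c.2) r).trans (split_bool B (fun c => c.1 + c.2) r t fun b => hBs (b, r))
      · refine (proj_le _ (fun c => c.1 + c.2) r).trans
          ((split_bool _ (fun c => c.1 + c.2) r 2 fun b => ?_).trans (by norm_num))
        rw [filter_image]
        exact card_image_le.trans (hsum (b, r)))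
    (by
      refine lt_of_le_of_lt ?_ hbig
      have e1 : 11 * Bad.card ≤ 44 * t := by omega
      have e2 : 2 * t + 4 + 4 = 2 * t + 8 := by ring
      rw [e2]
      gcongr)
    Bad (Subset.refl _)
  have hN : ∀ σ, bcell k o σ ∉ N := fun σ hσ => q4 _ hσ (mem_union_right _
    (mem_image_of_mem Prod.snd (mem_image_of_mem _ (mem_univ σ))))
  refine ⟨(univ \ Q).image (bcell k o) ∪ N, ?_, ?_, ?_, ?_⟩
  · intro c hc'
    rcases mem_union.1 hc' with hh | hh
    · obtain ⟨σ, hσ, rfl⟩ := mem_image.1 hh
      exact fun hcon => (mem_sdiff.1 hσ).2 (q1 (mem_filter.2 ⟨mem_univ _, hcon⟩))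
    · exact fun hcon => q4 c hh (mem_union_left _ (mem_image_of_mem Prod.snd hcon))
  · intro r
    rw [count_final' (bcell k o) Q N (bcell_inj o) hN (fun c => (c.1, c.2.1)) r (q5 r)]
    exact base_rows o r
  · intro r
    rw [count_final' (bcell k o) Q N (bcell_inj o) hN (fun c => c.2.2) r (q6 r)]
    exact base_cols hk o r
  · exact fun r => count_final' (bcell k o) Q N (bcell_inj o) hN (fun c => (c.1, c.2.1 + c.2.2)) r (q7 r)

end Pool.Agent.NC79
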