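import Pool.Agent.NC79.Assemble

/-!
# Tables which map onto a table with a duplex, with blocks like large cyclic groups
-/

namespace Pool.Agent.NC79

open Finset Pool.Agent.Duplex38

section count

variable {G : Type} [AddCommGroup G] [Fintype G] [DecidableEq G]

/-- the number of the cells `(x, κ x + o)` with the sum `s` -/
def cnt (κ : ℤ) (o s : G) : ℕ := (univ.filter fun x : G => x + (κ • x + o) = s).card

/-- what is used of the group and of the slopes -/
structure Lines (G : Type) [AddCommGroup G] [Fintype G] [DecidableEq G] (k : Bool → ℤ) (d : ℤ) (P : Bool → Ex) :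
    Prop where
  cb : CB 30 G
  ok : ∀ c, (P c).Ok k d
  ty : ∀ c, (P c).typ (P c).i0 = c
  inj : ∀ c, Function.Injective fun x : G => k c • x
  div : ∀ g : G, ∃ g', d • g' = g
  two : ∀ z : G, (univ.filter fun w : G => 2 • w = z).card ≤ 2
  cnt : ∀ c (o s : G), cnt (k c) o s ≤ 2

lemma exists_offset (two : ∀ z : G, (univ.filter fun w : G => 2 • w = z).card ≤ 2) (κ : ℤ) (p : G)
    (B : Finset (G × G)) (t : ℕ) (hB : ∀ r, (B.filter fun c => c.1 = r).card ≤ t) :
    ∃ w : G, (univ.filter fun x : G => (x, κ • x + (p + 2 • w)) ∈ B).card ≤ 2 * t := by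
  by_contra hcon
  push Not at hcon
  have h1 : ∑ w : G, (univ.filter fun x : G => (x, κ • x + (p + 2 • w)) ∈ B).card ≤ B.card * 2 := by
    have h2 : ∑ w : G, (univ.filter fun x : G => (x, κ • x + (p + 2 • w)) ∈ B).card =
        (univ.filter fun q : G × G => (q.2, κ • q.2 + (p + 2 • q.1)) ∈ B).card := by
      rw [card_eq_sum_card_fiberwise (f := fun q : G × G => q.1) (t := univ) (fun _ _ => mem_univ _)]
      refine sum_congr rfl fun w _ => ?_
      refine card_bij (fun x _ => (w, x)) (fun x hx => ?_) (fun x _ y _ e => (Prod.mk.inj e).2) fun q hq => ?_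
      · simp only [mem_filter, mem_univ, true_and] at hx ⊢
        exact ⟨hx, trivial⟩
      · simp only [mem_filter, mem_univ, true_and] at hq
        refine ⟨q.2, ?_, Prod.ext hq.2.symm rfl⟩
        rw [mem_filter]
        refine ⟨mem_univ _, ?_⟩
        rw [← hq.2]
        exact hq.1
    have h2' := card_eq_sum_card_fiberwise (s := univ.filter fun q : G × G => (q.2, κ • q.2 + (p + 2 • q.1)) ∈ B)
      (f := fun q : G × G => (q.2, κ • q.2 + (p + 2 • q.1))) (t := B)
      (fun q hq => mem_coe.2 (mem_filter.1 (mem_coe.1 hq)).2)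
    rw [h2, h2']
    refine sum_le_card_nsmul _ _ 2 fun c _ => ?_
    refine le_trans (card_le_card_of_injOn (fun q => q.1) (fun q hq => ?_) (fun q hq q' hq' e => ?_))
      (two (c.2 - κ • c.1 - p))
    · simp only [coe_filter, mem_filter, mem_univ, true_and, Set.mem_ofPred_eq] at hq ⊢
      rw [← hq.2]
      change 2 • q.1 = κ • q.2 + (p + 2 • q.1) - κ • q.2 - p
      rw [add_sub_cancel_left, add_sub_cancel_left]
    · simp only [coe_filter, mem_filter, mem_univ, true_and, Set.mem_ofPred_eq] at hq hq'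
      have e1 := (Prod.mk.inj (hq.2.trans hq'.2.symm)).1
      exact Prod.ext e e1
  have h3 := card_le_of_lines B t hB
  have h4 : Fintype.card G * (2 * t + 1) ≤
      ∑ w : G, (univ.filter fun x : G => (x, κ • x + (p + 2 • w)) ∈ B).card := by
    have h5 := card_nsmul_le_sum (univ : Finset G)
      (fun w => (univ.filter fun x : G => (x, κ • x + (p + 2 • w)) ∈ B).card) (2 * t + 1) fun w _ => hcon w
    rw [smul_eq_mul, card_univ] at h5
    exact h5
  have h6 : 0 < Fintype.card G := Fintype.card_pos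
  nlinarith

end count

section pairs

variable {R C S R' C' S' G : Type} [Finite R] [Finite C] {L : R → C → S} {L' : R' → C' → S'} (h : Epi L L')
  {D : Set (R' × C')} (hD : IsDuplex L' D) [AddCommGroup G] [Fintype G] [DecidableEq G]
  (α : ∀ r' (_ : C'), {r // h.row r = r'} ≃ G) (β : ∀ c', {c // h.col c = c'} ≃ G)
  (γ : ∀ r' c', {s // h.sym s = L' r' c'} ≃ G)
  (hγ : ∀ r' c' a b, γ r' c' (h.block rfl a b) = α r' c' a + β c' b)
  {k : Bool → ℤ} {d : ℤ} {P : Bool → Ex} (hG : Lines G k d P)

include hD hγ hG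

/-- blocks like a group with suitable lines, over a duplex -/
theorem robust_of_pairs (p : R' → C' → G)
    (hcnt : ∀ (w₁ w₂ : G) (b₁ b₂ : Bool) (s : S) (r₁ r₂ : R') (c₁ c₂ : C'), (r₁, c₁) ∈ D → (r₂, c₂) ∈ D →
      (r₁, c₁) ≠ (r₂, c₂) → ∀ (h₁ : h.sym s = L' r₁ c₁) (h₂ : h.sym s = L' r₂ c₂),
      cnt (k b₁) (p r₁ c₁ + 2 • w₁) (γ r₁ c₁ ⟨s, h₁⟩) + cnt (k b₂) (p r₂ c₂ + 2 • w₂) (γ r₂ c₂ ⟨s, h₂⟩) = 2)
    (t : ℕ) (hbig : 80000 * (t + 1) ≤ Fintype.card G) : Robust t L := by
  classical
  intro B hBr hBc hBs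
  -- the two cells of `D` in a column
  choose x y hxy hset using fun c' => Set.ncard_eq_two.1 (hD.2.1 c')
  have hx : ∀ c', (x c', c') ∈ D := fun c' => by
    have : x c' ∈ {r' | (r', c') ∈ D} := by rw [hset]; exact Set.mem_insert _ _
    exact this
  have hy : ∀ c', (y c', c') ∈ D := fun c' => by
    have : y c' ∈ {r' | (r', c') ∈ D} := by rw [hset]; exact Set.mem_insert_of_mem _ rfl
    exact this
  have hxyD : ∀ r' c', (r', c') ∈ D → r' = x c' ∨ r' = y c' := fun r' c' hr => by
    have : r' ∈ {r' | (r', c') ∈ D} := hr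
    rw [hset] at this
    exact this
  set rr : C' → Bool → R' := fun c' b => if b then y c' else x c' with hrr
  have hrrD : ∀ c' b, (rr c' b, c') ∈ D := fun c' b => by
    cases b
    · exact hx c'
    · exact hy c'
  set typ : R' → C' → Bool := fun r' c' => decide (r' = y c') with htyp
  have typ_rr : ∀ c' b, typ (rr c' b) c' = b := fun c' b => by
    cases b
    · simp only [htyp, hrr, Bool.false_eq_true, if_false, decide_eq_false_iff_not]
      exact hxy c'
    · simp [htyp, hrr]
  have rr_typ : ∀ r' c', (r', c') ∈ D → rr c' (typ r' c') = r' := fun r' c' hr => by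
    rcases hxyD r' c' hr with e | e
    · have : r' ≠ y c' := by rw [e]; exact hxy c'
      simp only [htyp, hrr, this, decide_false, Bool.false_eq_true, if_false]
      exact e.symm
    · simp only [htyp, hrr, e, decide_true, if_true]
  -- the bad cells of the blocks
  set Bad : R' → C' → Finset (G × G) := fun r' c' =>
    univ.filter fun g => (((α r' c').symm g.1 : R), ((β c').symm g.2 : C)) ∈ B with hBad
  have iα : ∀ r' c', Function.Injective fun g => ((α r' c').symm g : R) := fun r' c' =>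
    Subtype.val_injective.comp (Equiv.injective _)
  have iβ : ∀ c', Function.Injective fun g => ((β c').symm g : C) := fun c' =>
    Subtype.val_injective.comp (Equiv.injective _)
  have hL : ∀ r' c' g g', L ((α r' c').symm g : R) ((β c').symm g' : C) = ((γ r' c').symm (g + g') : S) := by
    intro r' c' g g'
    have h5 := hγ r' c' ((α r' c').symm g) ((β c').symm g')
    rw [Equiv.apply_symm_apply, Equiv.apply_symm_apply] at h5
    rw [← h5, Equiv.symm_apply_apply]
    rfl
  have bad1 : ∀ r' c' r, ((Bad r' c').filter fun c => c.1 = r).card ≤ t := fun r' c' r => by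
    refine le_trans ?_ (hBr ((α r' c').symm r : R))
    rw [← Set.ncard_coe_finset]
    refine Set.ncard_le_ncard_of_injOn (fun g => ((β c').symm g.2 : C)) ?_ ?_ (Set.toFinite _)
    · intro g hg
      simp only [hBad, coe_filter, mem_filter, mem_univ, true_and, Set.mem_ofPred_eq] at hg ⊢
      rw [← hg.2]
      exact hg.1
    · intro g hg g' hg' e
      simp only [coe_filter, mem_filter, mem_univ, true_and, Set.mem_ofPred_eq] at hg hg'
      exact Prod.ext (hg.2.trans hg'.2.symm) (iβ c' e)
  have bad2 : ∀ r' c' r, ((Bad r' c').filter fun c => c.2 = r).card ≤ t := fun r' c' r => by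
    refine le_trans ?_ (hBc ((β c').symm r : C))
    rw [← Set.ncard_coe_finset]
    refine Set.ncard_le_ncard_of_injOn (fun g => ((α r' c').symm g.1 : R)) ?_ ?_ (Set.toFinite _)
    · intro g hg
      simp only [hBad, coe_filter, mem_filter, mem_univ, true_and, Set.mem_ofPred_eq] at hg ⊢
      rw [← hg.2]
      exact hg.1
    · intro g hg g' hg' e
      simp only [coe_filter, mem_filter, mem_univ, true_and, Set.mem_ofPred_eq] at hg hg'
      exact Prod.ext (iα r' c' e) (hg.2.trans hg'.2.symm)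
  have bad3 : ∀ r' c' r, ((Bad r' c').filter fun c => c.1 + c.2 = r).card ≤ t := fun r' c' r => by
    refine le_trans ?_ (hBs ((γ r' c').symm r : S))
    rw [← Set.ncard_coe_finset]
    refine Set.ncard_le_ncard_of_injOn (fun g => (((α r' c').symm g.1 : R), ((β c').symm g.2 : C))) ?_ ?_
      (Set.toFinite _)
    · intro g hg
      simp only [hBad, coe_filter, mem_filter, mem_univ, true_and, Set.mem_ofPred_eq] at hg ⊢
      exact ⟨by rw [hL, hg.2], hg.1⟩
    · intro g hg g' hg' e
      exact Prod.ext (iα r' c' (Prod.mk.inj e).1) (iβ c' (Prod.mk.inj e).2)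
  -- the offsets
  choose w hw using fun r' c' => exists_offset hG.two (k (typ r' c')) (p r' c') (Bad r' c') t (bad1 r' c')
  -- the pairs of blocks
  have hpair : ∀ c', ∃ T : Finset (Bool × (G × G)), (∀ c ∈ T, c.2 ∉ Bad (rr c' c.1) c') ∧
      (∀ r : Bool × G, (T.filter fun c => (c.1, c.2.1) = r).card = 1) ∧
      (∀ z, (T.filter fun c => c.2.2 = z).card = 2) ∧
      ∀ b s, (T.filter fun c => (c.1, c.2.1 + c.2.2) = (b, s)).card =
        cnt (k b) (p (rr c' b) c' + 2 • w (rr c' b) c') s := by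
    intro c'
    set o : Bool → G := fun b => p (rr c' b) c' + 2 • w (rr c' b) c' with ho
    have hcount : ∀ b s, (univ.filter fun σ => ((bcell k o σ).1,
        (bcell k o σ).2.1 + (bcell k o σ).2.2) = (b, s)).card = cnt (k b) (o b) s := by
      intro b s
      symm
      refine card_bij (fun g _ => (b, g)) (fun g hg => ?_) (fun g _ g' _ e => (Prod.mk.inj e).2) fun σ hσ => ?_
      · simp only [mem_filter, mem_univ, true_and] at hg ⊢
        exact Prod.ext rfl hg
      · obtain ⟨b', g⟩ := σ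
        simp only [mem_filter, mem_univ, true_and] at hσ
        obtain ⟨e1, e2⟩ := Prod.mk.inj hσ
        have e3 : b' = b := e1
        subst e3
        exact ⟨g, mem_filter.2 ⟨mem_univ _, e2⟩, rfl⟩
    obtain ⟨T, h1, h2, h3, h4⟩ := pair_avoid hG.cb hG.ok hG.ty hG.inj hG.div o
      (fun r => by
        obtain ⟨b, s⟩ := r
        rw [hcount]
        exact hG.cnt b _ _) t
      (univ.filter fun q : Bool × (G × G) => q.2 ∈ Bad (rr c' q.1) c')
      (fun r => by
        obtain ⟨b, r⟩ := r
        refine le_trans (card_le_card_of_injOn Prod.snd (fun q hq => ?_) fun q hq q' hq' e => ?_)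
          (bad1 (rr c' b) c' r)
        · simp only [coe_filter, mem_filter, mem_univ, true_and, Set.mem_ofPred_eq, Prod.mk.injEq] at hq ⊢
          rw [← hq.2.1]
          exact ⟨hq.1, hq.2.2⟩
        · simp only [coe_filter, mem_filter, mem_univ, true_and, Set.mem_ofPred_eq, Prod.mk.injEq] at hq hq'
          exact Prod.ext (hq.2.1.trans hq'.2.1.symm) e)
      (fun r => by
        obtain ⟨b, r⟩ := r
        refine le_trans (card_le_card_of_injOn Prod.snd (fun q hq => ?_) fun q hq q' hq' e => ?_)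
          (bad2 (rr c' b) c' r)
        · simp only [coe_filter, mem_filter, mem_univ, true_and, Set.mem_ofPred_eq, Prod.mk.injEq] at hq ⊢
          rw [← hq.2.1]
          exact ⟨hq.1, hq.2.2⟩
        · simp only [coe_filter, mem_filter, mem_univ, true_and, Set.mem_ofPred_eq, Prod.mk.injEq] at hq hq'
          exact Prod.ext (hq.2.1.trans hq'.2.1.symm) e)
      (fun r => by
        obtain ⟨b, r⟩ := r
        refine le_trans (card_le_card_of_injOn Prod.snd (fun q hq => ?_) fun q hq q' hq' e => ?_)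
          (bad3 (rr c' b) c' r)
        · simp only [coe_filter, mem_filter, mem_univ, true_and, Set.mem_ofPred_eq, Prod.mk.injEq] at hq ⊢
          rw [← hq.2.1]
          exact ⟨hq.1, hq.2.2⟩
        · simp only [coe_filter, mem_filter, mem_univ, true_and, Set.mem_ofPred_eq, Prod.mk.injEq] at hq hq'
          exact Prod.ext (hq.2.1.trans hq'.2.1.symm) e)
      (by
        have h5 : ∀ b, (univ.filter fun g : G => (g, k b • g + o b) ∈ Bad (rr c' b) c').card ≤ 2 * t := fun b => by
          have h6 := hw (rr c' b) c'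
          rw [typ_rr] at h6
          exact h6
        have h7 : (univ.filter fun σ : Bool × G => bcell k o σ ∈
            (univ.filter fun q : Bool × (G × G) => q.2 ∈ Bad (rr c' q.1) c')) ⊆
            ((univ.filter fun g : G => (g, k false • g + o false) ∈ Bad (rr c' false) c').image fun g => (false, g)) ∪
            ((univ.filter fun g : G => (g, k true • g + o true) ∈ Bad (rr c' true) c').image fun g => (true, g)) := by
          rintro ⟨b, g⟩ hσ
          simp only [mem_filter, mem_univ, true_and] at hσ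
          rw [mem_union, mem_image, mem_image]
          cases b
          · exact Or.inl ⟨g, mem_filter.2 ⟨mem_univ _, hσ⟩, rfl⟩
          · exact Or.inr ⟨g, mem_filter.2 ⟨mem_univ _, hσ⟩, rfl⟩
        refine (card_le_card h7).trans ((card_union_le _ _).trans ?_)
        have h8 := card_image_le (s := univ.filter fun g : G => (g, k false • g + o false) ∈ Bad (rr c' false) c')
          (f := fun g => (false, g))
        have h9 := card_image_le (s := univ.filter fun g : G => (g, k true • g + o true) ∈ Bad (rr c' true) c')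
          (f := fun g => (true, g))
        have h10 := h5 false
        have h11 := h5 true
        omega)
      (by
        have e1 : 100 * (30 * Fintype.card G) + 10 * ((44 * t) * (30 * Fintype.card G)) +
            10 * ((2 * t + 8) * (30 * Fintype.card G) + (Fintype.card G * (2 * t + 8)) * (30 * 30)) =
            (31800 * t + 77400) * Fintype.card G := by ring
        rw [e1]
        have h6 : 0 < Fintype.card G := Fintype.card_pos
        exact Nat.mul_lt_mul_of_pos_right (by omega) h6)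
    refine ⟨T, fun c hc hcon => h1 c hc (mem_filter.2 ⟨mem_univ _, hcon⟩), h2, h3, fun b s => ?_⟩
    rw [h4, hcount]
  choose T hT1 hT2 hT3 hT4 using hpair
  set Te : R' → C' → Set (G × G) := fun r' c' => {q | (typ r' c', q) ∈ T c'} with hTe
  have fR' : Finite R' := Finite.of_surjective _ h.row_surj
  have fC' : Finite C' := Finite.of_surjective _ h.col_surj
  refine ⟨cells h α β Te D, assemble h hD α β γ hγ Te (fun r' c' hr g => ?_) (fun c' g' => ?_) (fun s => ?_), ?_⟩
  · obtain ⟨q, hq⟩ := card_eq_one.1 (hT2 c' (typ r' c', g))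
    have hq' : q ∈ (T c').filter fun c => (c.1, c.2.1) = (typ r' c', g) := by rw [hq]; exact mem_singleton_self q
    obtain ⟨q1, q2⟩ := mem_filter.1 hq'
    obtain ⟨q3, q4⟩ := Prod.mk.inj q2
    refine ⟨q.2.2, ?_, fun g' hg' => ?_⟩
    · change (typ r' c', (g, q.2.2)) ∈ T c'
      rw [← q3, ← q4]
      exact q1
    · have : ((typ r' c', (g, g')) : Bool × (G × G)) ∈ (T c').filter fun c => (c.1, c.2.1) = (typ r' c', g) :=
        mem_filter.2 ⟨hg', rfl⟩
      rw [hq, mem_singleton] at this
      rw [← this]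
  · rw [← hT3 c' g', ← Set.ncard_coe_finset]
    refine Set.ncard_congr (fun q _ => (typ q.1 c', (q.2, g'))) (fun q hq => ?_) (fun q q' hq hq' e => ?_)
      fun q hq => ?_
    · exact mem_coe.2 (mem_filter.2 ⟨hq.2, rfl⟩)
    · obtain ⟨e1, e2⟩ := Prod.mk.inj e
      refine Prod.ext ?_ (Prod.mk.inj e2).1
      rw [← rr_typ q.1 c' hq.1, ← rr_typ q'.1 c' hq'.1, e1]
    · obtain ⟨b, g, g''⟩ := q
      obtain ⟨q1, q2⟩ := mem_filter.1 (mem_coe.1 hq)
      have q3 : g'' = g' := q2
      subst q3
      refine ⟨(rr c' b, g), ⟨hrrD c' b, ?_⟩, ?_⟩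
      · change (typ (rr c' b) c', (g, g'')) ∈ T c'
        rw [typ_rr]
        exact q1
      · simp only [typ_rr]
  · -- the two cells of `D` with the symbol
    obtain ⟨e₁, e₂, hne, hsets⟩ := Set.ncard_eq_two.1 (hD.2.2 (h.sym s))
    have m₁ : e₁ ∈ D ∧ L' e₁.1 e₁.2 = h.sym s := by
      have : e₁ ∈ {x | x ∈ D ∧ L' x.1 x.2 = h.sym s} := by rw [hsets]; exact Set.mem_insert _ _
      exact this
    have m₂ : e₂ ∈ D ∧ L' e₂.1 e₂.2 = h.sym s := by
      have : e₂ ∈ {x | x ∈ D ∧ L' x.1 x.2 = h.sym s} := by rw [hsets]; exact Set.mem_insert_of_mem _ rfl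
      exact this
    have part : ∀ (r' : R') (c' : C') (hrc : (r', c') ∈ D) (hs : h.sym s = L' r' c'),
        {q : (R' × C') × (G × G) | q.1 = (r', c') ∧ q.2 ∈ Te r' c' ∧
          q.2.1 + q.2.2 = γ r' c' ⟨s, hs⟩}.ncard =
        cnt (k (typ r' c')) (p r' c' + 2 • w r' c') (γ r' c' ⟨s, hs⟩) := by
      intro r' c' hrc hs
      have h5 := hT4 c' (typ r' c') (γ r' c' ⟨s, hs⟩)
      rw [rr_typ r' c' hrc] at h5
      rw [← h5, ← Set.ncard_coe_finset]
      refine Set.ncard_congr (fun q _ => (typ r' c', q.2)) (fun q hq => ?_) (fun q q' hq hq' e => ?_)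
        fun q hq => ?_
      · exact mem_coe.2 (mem_filter.2 ⟨hq.2.1, Prod.ext rfl hq.2.2⟩)
      · exact Prod.ext (hq.1.trans hq'.1.symm) (Prod.mk.inj e).2
      · obtain ⟨b, q'⟩ := q
        obtain ⟨q1, q2⟩ := mem_filter.1 (mem_coe.1 hq)
        obtain ⟨q3, q4⟩ := Prod.mk.inj q2
        have q5 : b = typ r' c' := q3
        subst q5
        exact ⟨((r', c'), q'), ⟨rfl, q1, q4⟩, rfl⟩
    have hsplit : {q : (R' × C') × (G × G) | q.1 ∈ D ∧ q.2 ∈ Te q.1.1 q.1.2 ∧
        ∃ hs : h.sym s = L' q.1.1 q.1.2, q.2.1 + q.2.2 = γ q.1.1 q.1.2 ⟨s, hs⟩} =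
        {q : (R' × C') × (G × G) | q.1 = (e₁.1, e₁.2) ∧ q.2 ∈ Te e₁.1 e₁.2 ∧
          q.2.1 + q.2.2 = γ e₁.1 e₁.2 ⟨s, m₁.2.symm⟩} ∪
        {q : (R' × C') × (G × G) | q.1 = (e₂.1, e₂.2) ∧ q.2 ∈ Te e₂.1 e₂.2 ∧
          q.2.1 + q.2.2 = γ e₂.1 e₂.2 ⟨s, m₂.2.symm⟩} := by
      ext ⟨e, q⟩
      constructor
      · rintro ⟨k1, k2, k3, k4⟩
        have k5 : e ∈ {x | x ∈ D ∧ L' x.1 x.2 = h.sym s} := ⟨k1, k3.symm⟩
        rw [hsets] at k5
        rcases k5 with k5 | k5
        · subst k5
          exact Or.inl ⟨rfl, k2, k4⟩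
        · have k6 : e = e₂ := k5
          subst k6
          exact Or.inr ⟨rfl, k2, k4⟩
      · rintro (⟨k1, k2, k3⟩ | ⟨k1, k2, k3⟩)
        · have k4 : e = e₁ := k1
          subst k4
          exact ⟨m₁.1, k2, m₁.2.symm, k3⟩
        · have k4 : e = e₂ := k1
          subst k4
          exact ⟨m₂.1, k2, m₂.2.symm, k3⟩
    have hdisj : Disjoint {q : (R' × C') × (G × G) | q.1 = (e₁.1, e₁.2) ∧ q.2 ∈ Te e₁.1 e₁.2 ∧
          q.2.1 + q.2.2 = γ e₁.1 e₁.2 ⟨s, m₁.2.symm⟩}
        {q : (R' × C') × (G × G) | q.1 = (e₂.1, e₂.2) ∧ q.2 ∈ Te e₂.1 e₂.2 ∧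
          q.2.1 + q.2.2 = γ e₂.1 e₂.2 ⟨s, m₂.2.symm⟩} := by
      rw [Set.disjoint_left]
      rintro q ⟨k1, -⟩ ⟨k2, -⟩
      exact hne (k1.symm.trans k2)
    rw [hsplit, Set.ncard_union_eq hdisj (Set.toFinite _) (Set.toFinite _), part e₁.1 e₁.2 m₁.1 m₁.2.symm,
      part e₂.1 e₂.2 m₂.1 m₂.2.symm]
    exact hcnt _ _ _ _ s _ _ _ _ m₁.1 m₂.1 hne _ _
  · rintro ⟨r, c⟩ hrc hB
    have h1 := (mem_cells h α β Te (D := D) (rfl : h.row r = h.row r) (rfl : h.col c = h.col c)).1 hrc
    have h2 := hT1 (h.col c) _ h1.2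
    rw [rr_typ _ _ h1.1] at h2
    refine h2 (mem_filter.2 ⟨mem_univ _, ?_⟩)
    simp only [Equiv.symm_apply_apply]
    exact hB

end pairs

end Pool.Agent.NC79
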