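import Pool.Agent.NC79.Radical
import Pool.Agent.NC79.Close

/-!
# Transversals of products of arbitrary latin squares and groups
-/

namespace Pool.Agent.NC79

open Pool.Agent.Duplex38

section general

variable {R C S R' C' S' : Type}

lemma transversal_isotopic {T : R → C → S} {T' : R' → C' → S'} (α : R ≃ R') (β : C ≃ C') (γ : S ≃ S')
    (h : ∀ a b, γ (T a b) = T' (α a) (β b)) (hT' : HasTransversal T') : HasTransversal T := by
  obtain ⟨π, hπ⟩ := hT'
  refine ⟨(α.trans π).trans β.symm, ?_⟩
  have : (fun a => T a (((α.trans π).trans β.symm) a)) = γ.symm ∘ (fun a' => T' a' (π a')) ∘ α := by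
    funext a
    apply γ.injective
    rw [h]
    simp
  rw [this]
  exact γ.symm.bijective.comp (hπ.comp α.bijective)

/-- a transversal made of transversals of blocks -/
lemma transversal_of_blocks {T : R → C → S} {T' : R' → C' → S'} (e : Epi T T') (ρ : R' ≃ C')
    (hρ : Function.Bijective fun r' => T' r' (ρ r'))
    (h : ∀ r', HasTransversal (e.block (rfl : T' r' (ρ r') = _))) : HasTransversal T := by
  choose π hπ using h
  refine ⟨((Equiv.sigmaFiberEquiv e.row).symm.trans (Equiv.sigmaCongr ρ π)).trans (Equiv.sigmaFiberEquiv e.col), ?_⟩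
  set F : (Σ r', {r // e.row r = r'}) → S := fun x => (e.block rfl x.2 (π x.1 x.2)).1 with hF
  have hF : Function.Bijective F := by
    constructor
    · rintro ⟨r', x⟩ ⟨r₂', x₂⟩ h
      have h1 : T' r' (ρ r') = T' r₂' (ρ r₂') := by
        have h2 := (e.block (rfl : T' r' (ρ r') = _) x (π r' x)).2
        have h3 := (e.block (rfl : T' r₂' (ρ r₂') = _) x₂ (π r₂' x₂)).2
        rw [← h2, ← h3]
        exact congrArg e.sym h
      obtain rfl := hρ.1 h1
      have h4 : x = x₂ := (hπ r').1 (Subtype.ext h)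
      rw [h4]
    · intro s
      obtain ⟨r', hr'⟩ := hρ.2 (e.sym s)
      obtain ⟨x, hx⟩ := (hπ r').2 ⟨s, hr'.symm⟩
      exact ⟨⟨r', x⟩, congrArg Subtype.val hx⟩
  exact hF.comp (Equiv.sigmaFiberEquiv e.row).symm.bijective

end general

section product

variable {P P' P'' : Type} {Q : P → P' → P''}

/-- the product of a latin square and a group of the same order has a transversal -/
lemma transversal_same_order {W : Type} [Group W] (hQ : IsLatin Q) (f : P ≃ W) (c : P' ≃ W) (d : P'' ≃ W) :
    HasTransversal (times Q W) := by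
  set E₁ : P × W ≃ P × P' :=
    { toFun := fun x => (x.1, c.symm ((f x.1)⁻¹ * x.2))
      invFun := fun y => (y.1, f y.1 * c y.2)
      left_inv := fun x => Prod.ext rfl (by
        change f x.1 * c (c.symm ((f x.1)⁻¹ * x.2)) = x.2
        rw [Equiv.apply_symm_apply, mul_inv_cancel_left])
      right_inv := fun y => Prod.ext rfl (by
        change c.symm ((f y.1)⁻¹ * (f y.1 * c y.2)) = y.2
        rw [inv_mul_cancel_left, Equiv.symm_apply_apply]) } with hE₁
  have h2 : Function.Bijective fun y : P × P' => ((y.2, (c y.2)⁻¹ * d (Q y.1 y.2)) : P' × W) := by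
    constructor
    · rintro ⟨i, j⟩ ⟨i', j'⟩ e
      obtain ⟨e1, e2⟩ := Prod.mk.inj e
      simp only at e1
      subst e1
      have e3 : Q i j = Q i' j := d.injective (mul_left_cancel e2)
      rw [(hQ.2 j).1 e3]
    · rintro ⟨j, b⟩
      obtain ⟨i, hi⟩ := (hQ.2 j).2 (d.symm (c j * b))
      refine ⟨(i, j), Prod.ext rfl ?_⟩
      change (c j)⁻¹ * d (Q i j) = b
      rw [show Q i j = d.symm (c j * b) from hi, Equiv.apply_symm_apply, inv_mul_cancel_left]
  have h3 : Function.Bijective fun y : P × P' => ((Q y.1 y.2, f y.1 * d (Q y.1 y.2)) : P'' × W) := by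
    constructor
    · rintro ⟨i, j⟩ ⟨i', j'⟩ e
      obtain ⟨e1, e2⟩ := Prod.mk.inj e
      simp only at e1 e2
      rw [e1] at e2
      have e3 : i = i' := f.injective (mul_right_cancel e2)
      subst e3
      rw [(hQ.1 i).1 e1]
    · rintro ⟨k, z⟩
      obtain ⟨j, hj⟩ := (hQ.1 (f.symm (z * (d k)⁻¹))).2 k
      have hj' : Q (f.symm (z * (d k)⁻¹)) j = k := hj
      refine ⟨(f.symm (z * (d k)⁻¹), j), Prod.ext hj' ?_⟩
      change f (f.symm (z * (d k)⁻¹)) * d (Q (f.symm (z * (d k)⁻¹)) j) = z
      rw [hj', Equiv.apply_symm_apply, inv_mul_cancel_right]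
  refine ⟨E₁.trans (Equiv.ofBijective _ h2), ?_⟩
  have h4 : (fun x => times Q W x ((E₁.trans (Equiv.ofBijective _ h2)) x)) =
      (fun y : P × P' => ((Q y.1 y.2, f y.1 * d (Q y.1 y.2)) : P'' × W)) ∘ E₁ := by
    funext x
    obtain ⟨⟨i, j⟩, rfl⟩ := E₁.symm.surjective x
    change times Q W (E₁.symm (i, j)) ((fun y : P × P' => ((y.2, (c y.2)⁻¹ * d (Q y.1 y.2)) : P' × W))
      (E₁ (E₁.symm (i, j)))) = (fun y : P × P' => ((Q y.1 y.2, f y.1 * d (Q y.1 y.2)) : P'' × W))
        (E₁ (E₁.symm (i, j)))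
    rw [Equiv.apply_symm_apply]
    refine Prod.ext rfl ?_
    change (f i * c j) * ((c j)⁻¹ * d (Q i j)) = f i * d (Q i j)
    rw [mul_assoc, mul_inv_cancel_left]
  rw [h4]
  exact h3.comp E₁.bijective

/-- the fibres of the projection onto a factor group of the second factor -/
def sndFibre {W : Type} [Group W] (C : Subgroup W) (P₁ : Type) (w : W ⧸ C) :
    {x : P₁ × W // (x.2 : W ⧸ C) = w} ≃ P₁ × {r : W // (r : W ⧸ C) = w} where
  toFun x := (x.1.1, ⟨x.1.2, x.2⟩)
  invFun y := ⟨(y.1, y.2.1), y.2.2⟩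
  left_inv _ := rfl
  right_inv _ := rfl

/-- the projection onto a factor group of the second factor -/
def sndTimes [Nonempty P] [Nonempty P'] (Q : P → P' → P'') {W : Type} [Group W] (C : Subgroup W) [C.Normal] :
    Epi (times Q W) (cayley (W ⧸ C)) where
  row x := (x.2 : W ⧸ C)
  col x := (x.2 : W ⧸ C)
  sym x := (x.2 : W ⧸ C)
  row_surj x := by
    obtain ⟨a, ha⟩ := QuotientGroup.mk_surjective x
    exact ⟨(Classical.arbitrary P, a), ha⟩
  col_surj x := by
    obtain ⟨a, ha⟩ := QuotientGroup.mk_surjective x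
    exact ⟨(Classical.arbitrary P', a), ha⟩
  sym_surj x := by
    obtain ⟨a, ha⟩ := QuotientGroup.mk_surjective x
    exact ⟨(Q (Classical.arbitrary P) (Classical.arbitrary P'), a), ha⟩
  map _ _ := rfl

/-- the blocks over the cells of the factor group -/
lemma block_transversal {q : ℕ} [NeZero q] {Q : Fin q → Fin q → Fin q} {W : Type} [Group W] [Finite W]
    (hQ : IsLatin Q) (C : Subgroup W) [C.Normal] (hC : Nat.card C = q) (w w' s : W ⧸ C)
    (h : cayley (W ⧸ C) w w' = s) : HasTransversal ((sndTimes Q C).block h) := by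
  subst h
  have h0 : Nat.card (Fin q) = Nat.card C := by rw [hC, Nat.card_eq_fintype_card, Fintype.card_fin]
  obtain ⟨f⟩ : Nonempty (Fin q ≃ C) := Finite.card_eq.1 h0
  refine transversal_isotopic
    ((sndFibre C (Fin q) w).trans (Equiv.prodCongr (Equiv.refl _) (rowChart C w)))
    ((sndFibre C (Fin q) w').trans (Equiv.prodCongr (Equiv.refl _) (colChart C w')))
    ((sndFibre C (Fin q) (w * w')).trans (Equiv.prodCongr (Equiv.refl _) (symChart C w w'))) (fun a b => ?_)
    (transversal_same_order hQ f f f)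
  refine Prod.ext rfl ?_
  exact chart_mul C w w' (sndFibre C (Fin q) w a).2 (sndFibre C (Fin q) w' b).2

variable {q : ℕ} {Q : Fin q → Fin q → Fin q} {W : Type} [Group W] [Finite W]

/-- the product of an arbitrary latin square of order `q` and a group with a normal subgroup of order `q` whose factor
group has a transversal -/
lemma transversal_of_part (hQ : IsLatin Q) (C : Subgroup W) [C.Normal]
    (hC : Nat.card C = q) (hT : HasTransversal (cayley (W ⧸ C))) : HasTransversal (times Q W) := by
  have hpos : 0 < Nat.card C := Nat.card_pos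
  have _ : NeZero q := ⟨by omega⟩
  obtain ⟨ρ, hρ⟩ := hT
  exact transversal_of_blocks (sndTimes Q C) ρ hρ fun w => block_transversal hQ C hC _ _ _ rfl

/-- the same for a duplex -/
lemma duplex_of_part (hQ : IsLatin Q) (C : Subgroup W) [C.Normal]
    (hC : Nat.card C = q) (hT : ∃ D, IsDuplex (cayley (W ⧸ C)) D) : ∃ D, IsDuplex (times Q W) D := by
  have hpos : 0 < Nat.card C := Nat.card_pos
  have _ : NeZero q := ⟨by omega⟩
  obtain ⟨D, hD⟩ := hT
  exact lift_duplex (sndTimes Q C) hD fun r₁ c₁ r₂ c₂ s h₁ h₂ _ _ _ =>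
    pair_of_transversals (block_transversal hQ C hC _ _ _ h₁) (block_transversal hQ C hC _ _ _ h₂)

/-- soluble groups have a transversal or a duplex -/
lemma soluble_or (V : Type) [Group V] [Finite V] [Group.IsSolvable V] :
    HasTransversal (cayley V) ∨ ∃ D, IsDuplex (cayley V) D := by
  by_cases h : 2 ≤ Nat.card V
  · exact Or.inr (soluble_duplex _ V rfl h)
  · have h1 : Subsingleton V := Finite.card_le_one_iff_subsingleton.1 (by omega)
    exact Or.inl ⟨Equiv.refl V, fun x y _ => Subsingleton.elim x y, fun x => ⟨x, Subsingleton.elim _ _⟩⟩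

end product

section large

/-- the finite group `H` is abelian and large in comparison with `t` -/
def LargeAb (t : ℕ) (H : Type) [Group H] : Prop :=
  (∀ a b : H, a * b = b * a) ∧ (400000000 * (t + 1) ≤ Monoid.exponent H ∨
    (IsCyclic H ∧ 200000000 * (t + 1) ≤ Nat.card H) ∨ 9 * (t + 1) * Monoid.exponent H < Nat.card H ∨
    4000000000 * (t + 1) ^ 2 ≤ Nat.card H)

lemma robust_of_largeAb {t : ℕ} {H : Type} [Group H] [Finite H] (h : LargeAb t H) : Robust t (cayley H) := by
  obtain ⟨hc, h⟩ := h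
  letI : CommGroup H := { (inferInstance : Group H) with mul_comm := hc }
  have h1 : Large t (Additive H) := by
    rcases h with h | ⟨h, h'⟩ | h | h
    · exact Or.inl (by rw [AddMonoid.exponent_additive]; exact h)
    · refine Or.inr (Or.inl ⟨?_, ?_⟩)
      · exact isAddCyclic_additive_iff.2 h
      · exact h'
    · exact Or.inr (Or.inr (Or.inl (by rw [AddMonoid.exponent_additive]; exact h)))
    · exact Or.inr (Or.inr (Or.inr h))
  exact robust_of_isotopic (T' := fun x y : Additive H => x + y) Additive.ofMul Additive.ofMul Additive.ofMul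
    (fun _ _ => rfl) (robust_abelian h1)

end large

section final

variable {q : ℕ} {Q : Fin q → Fin q → Fin q} {G : Type} [Group G] [Finite G] {t : ℕ} (H : Subgroup G) [H.Normal]

/-- blocks over a transversal -/
theorem robust_over_transversal (hQ : HasTransversal (times Q (G ⧸ H))) (hH : Robust t (cayley H)) :
    Robust t (times Q G) := by
  obtain ⟨ρ, hρ⟩ := hQ
  refine robust_of_blocks (timesEpi Q H) ρ hρ fun p => ?_
  refine robust_of_isotopic (T' := cayley H) ((fibreSnd H p).trans (rowChart H p.2))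
    ((fibreSnd H (ρ p)).trans (colChart H (ρ p).2))
    ((fibreSnd H (times Q (G ⧸ H) p (ρ p))).trans (symChart H p.2 (ρ p).2))
    (fun a b => ?_) hH
  exact chart_mul H p.2 (ρ p).2 (fibreSnd H p a) (fibreSnd H (ρ p) b)

theorem robust_final
    (h : (((HasTransversal (times Q (G ⧸ H)) ∨ ∃ D, IsDuplex (times Q (G ⧸ H)) D) ∨
      (IsLatin Q ∧ ∃ (C : Subgroup (G ⧸ H)) (_ : C.Normal), Nat.card C = q ∧
        (Group.IsSolvable ((G ⧸ H) ⧸ C) ∨ HasTransversal (cayley ((G ⧸ H) ⧸ C)) ∨
          ∃ D, IsDuplex (cayley ((G ⧸ H) ⧸ C)) D))) ∧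
      ((Group.IsSolvable H ∧ secBound (thr t) < Nat.card H) ∨
        ((∀ a b : H, a * b = b * a) ∧ 2000000000000000000000 * (t + 1) ^ 5 ≤ Nat.card H))) ∨
      ((HasTransversal (times Q (G ⧸ H)) ∨
        (IsLatin Q ∧ ∃ (C : Subgroup (G ⧸ H)) (_ : C.Normal), Nat.card C = q ∧
          HasTransversal (cayley ((G ⧸ H) ⧸ C)))) ∧ LargeAb t H)) :
    Robust t (times Q G) := by
  rcases h with ⟨h, hH⟩ | ⟨h, hH⟩
  · have h' : HasTransversal (times Q (G ⧸ H)) ∨ ∃ D, IsDuplex (times Q (G ⧸ H)) D := by
      rcases h with h | ⟨hQ, C, _, hC, h⟩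
      · exact h
      · have h2 : HasTransversal (cayley ((G ⧸ H) ⧸ C)) ∨ ∃ D, IsDuplex (cayley ((G ⧸ H) ⧸ C)) D := by
          rcases h with h | h
          · exact soluble_or _
          · exact h
        rcases h2 with h2 | h2
        · exact Or.inl (transversal_of_part hQ C hC h2)
        · exact Or.inr (duplex_of_part hQ C hC h2)
    rcases hH with ⟨hs, hH⟩ | ⟨hc, hH⟩
    · exact robust_times_soluble Q t H hH h'
    · rcases h' with h' | h'
      · refine robust_over_transversal H h' (robust_of_largeAb ⟨hc, Or.inr (Or.inr (Or.inr ?_))⟩)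
        refine le_trans ?_ hH
        have h3 : (t + 1) ^ 2 ≤ (t + 1) ^ 5 := Nat.pow_le_pow_right (Nat.succ_pos t) (by norm_num)
        omega
      · have hc' : ∀ a ∈ H, ∀ b ∈ H, a * b = b * a := fun a ha b hb => congrArg Subtype.val (hc ⟨a, ha⟩ ⟨b, hb⟩)
        have hs : Group.IsSolvable H := by
          letI : CommGroup H := { (inferInstance : Group H) with mul_comm := hc }
          infer_instance
        refine robust_times_of_large Q H H h' le_rfl hc' (le_trans (le_of_eq_of_le ?_ (Nat.mul_le_mul_right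
          ((t + 1) ^ 5) (show 200000000 ^ 2 * 36 ^ 3 ≤ 2000000000000000000000 by norm_num))) hH)
        ring
  · refine robust_over_transversal H ?_ (robust_of_largeAb hH)
    rcases h with h | ⟨hQ, C, _, hC, h⟩
    · exact h
    · exact transversal_of_part hQ C hC h

end final

end Pool.Agent.NC79
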