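import Mathlib

/-!
# Exchanges in the addition table of a group
-/

namespace Pool.Agent.NC79

open Finset

/-- the equations `m x = w` with `1 ≤ |m| ≤ 30` have at most `C` solutions -/
def CB (C : ℕ) (G : Type) [AddCommGroup G] [Fintype G] [DecidableEq G] : Prop :=
  ∀ m : ℤ, m ≠ 0 → |m| ≤ 30 → ∀ w : G, (univ.filter fun x : G => m • x = w).card ≤ C

section

variable {C : ℕ} {G : Type} [AddCommGroup G] [Fintype G] [DecidableEq G]

lemma lin1 (h : CB C G) {p q : ℤ} (hpq : p ≠ 0 ∨ q ≠ 0) (hp : |p| ≤ 30) (hq : |q| ≤ 30) (w : G) :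
    (univ.filter fun x : G × G => p • x.1 + q • x.2 = w).card ≤ C * Fintype.card G := by
  rcases hpq with h0 | h0
  · have e1 : (univ.filter fun x : G × G => p • x.1 + q • x.2 = w) =
        (univ : Finset G).biUnion fun t => (univ.filter fun s : G => p • s = w - q • t).image fun s => (s, t) := by
      ext ⟨s, t⟩
      simp only [mem_filter, mem_univ, true_and, mem_biUnion, mem_image, Prod.mk.injEq]
      constructor
      · intro e
        exact ⟨t, s, eq_sub_of_add_eq e, rfl, rfl⟩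
      · rintro ⟨t', s', e, rfl, rfl⟩
        rw [e, sub_add_cancel]
    rw [e1]
    refine (card_biUnion_le_card_mul _ _ C fun t _ => card_image_le.trans (h p h0 hp _)).trans ?_
    rw [card_univ, mul_comm]
  · have e1 : (univ.filter fun x : G × G => p • x.1 + q • x.2 = w) =
        (univ : Finset G).biUnion fun s => (univ.filter fun t : G => q • t = w - p • s).image fun t => (s, t) := by
      ext ⟨s, t⟩
      simp only [mem_filter, mem_univ, true_and, mem_biUnion, mem_image, Prod.mk.injEq]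
      constructor
      · intro e
        exact ⟨s, t, by rw [← e, add_sub_cancel_left], rfl, rfl⟩
      · rintro ⟨s', t', e, rfl, rfl⟩
        rw [e, add_sub_cancel]
    rw [e1]
    refine (card_biUnion_le_card_mul _ _ C fun s _ => card_image_le.trans (h q h0 hq _)).trans ?_
    rw [card_univ, mul_comm]

lemma lin2 (h : CB C G) {p q p' q' : ℤ} (h0 : p * q' - p' * q ≠ 0) (hD : |p * q' - p' * q| ≤ 30) (w w' : G) :
    (univ.filter fun x : G × G => p • x.1 + q • x.2 = w ∧ p' • x.1 + q' • x.2 = w').card ≤ C * C := by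
  have hsub : (univ.filter fun x : G × G => p • x.1 + q • x.2 = w ∧ p' • x.1 + q' • x.2 = w') ⊆
      (univ.filter fun s : G => (p * q' - p' * q) • s = q' • w - q • w') ×ˢ
      (univ.filter fun t : G => (p * q' - p' * q) • t = p • w' - p' • w) := by
    rintro ⟨s, t⟩ hx
    simp only [mem_filter, mem_univ, true_and, mem_product] at hx ⊢
    obtain ⟨rfl, rfl⟩ := hx
    constructor <;> module
  refine (card_le_card hsub).trans ?_
  rw [card_product]
  exact Nat.mul_le_mul (h _ h0 hD _) (h _ h0 hD _)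

end

/-- the two families of cells of the duplex: `(x, k₀ x + a)` and `(x, k₁ x + b)` -/
def cell {G : Type} [AddCommGroup G] (k : Bool → ℤ) (o : Bool → G) (σ : Bool × G) : G × G :=
  (σ.2, k σ.1 • σ.2 + o σ.1)

/-- an exchange of nine cells: which of them belong to which family, which rows, columns and sums are combined, and the
coefficients of the nine rows as linear forms in two parameters `s`, `t`, the offsets `a`, `b` and the given row `v` -/
structure Pat where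
  typ : Fin 9 → Bool
  sg : Fin 9 → Fin 9
  ta : Fin 9 → Fin 9
  i0 : Fin 9
  p : Fin 9 → ℤ
  q : Fin 9 → ℤ
  ca : Fin 9 → ℤ
  cb : Fin 9 → ℤ
  cv : Fin 9 → ℤ

/-- what is checked for an exchange -/
structure Pat.Ok (P : Pat) (k : Bool → ℤ) : Prop where
  sg_inj : ∀ i j, P.sg i = P.sg j → i = j
  ta_inj : ∀ i j, P.ta i = P.ta j → i = j
  base : P.p P.i0 = 0 ∧ P.q P.i0 = 0 ∧ P.ca P.i0 = 0 ∧ P.cb P.i0 = 0 ∧ P.cv P.i0 = 1
  sp : ∀ i, P.p i + k (P.typ (P.sg i)) * P.p (P.sg i) = (1 + k (P.typ (P.ta i))) * P.p (P.ta i)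
  sq : ∀ i, P.q i + k (P.typ (P.sg i)) * P.q (P.sg i) = (1 + k (P.typ (P.ta i))) * P.q (P.ta i)
  sv : ∀ i, P.cv i + k (P.typ (P.sg i)) * P.cv (P.sg i) = (1 + k (P.typ (P.ta i))) * P.cv (P.ta i)
  sa : ∀ i, P.ca i + k (P.typ (P.sg i)) * P.ca (P.sg i) + (if P.typ (P.sg i) then 0 else 1) =
    (1 + k (P.typ (P.ta i))) * P.ca (P.ta i) + (if P.typ (P.ta i) then 0 else 1)
  sb : ∀ i, P.cb i + k (P.typ (P.sg i)) * P.cb (P.sg i) + (if P.typ (P.sg i) then 1 else 0) =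
    (1 + k (P.typ (P.ta i))) * P.cb (P.ta i) + (if P.typ (P.ta i) then 1 else 0)
  diff : ∀ i j, i ≠ j → P.p i - P.p j ≠ 0 ∨ P.q i - P.q j ≠ 0
  diffp : ∀ i j, |P.p i - P.p j| ≤ 30
  diffq : ∀ i j, |P.q i - P.q j| ≤ 30
  row0 : k (P.typ (P.sg P.i0)) * P.p (P.sg P.i0) ≠ 0 ∨ k (P.typ (P.sg P.i0)) * P.q (P.sg P.i0) ≠ 0
  row0p : |k (P.typ (P.sg P.i0)) * P.p (P.sg P.i0)| ≤ 30
  row0q : |k (P.typ (P.sg P.i0)) * P.q (P.sg P.i0)| ≤ 30
  det : ∀ i, i ≠ P.i0 → P.sg i ≠ P.i0 → P.ta i ≠ P.i0 →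
    P.p i * (k (P.typ (P.sg i)) * P.q (P.sg i)) - k (P.typ (P.sg i)) * P.p (P.sg i) * P.q i ≠ 0
  detb : ∀ i, |P.p i * (k (P.typ (P.sg i)) * P.q (P.sg i)) - k (P.typ (P.sg i)) * P.p (P.sg i) * P.q i| ≤ 30

/-- the slopes `1`, `-3` -/
def k3 : Bool → ℤ := fun b => if b then -3 else 1

/-- the slopes `1`, `-2` -/
def k2 : Bool → ℤ := fun b => if b then -2 else 1

/-- the exchange for a cell of slope `1` with the slopes `1`, `-3` -/
def pat30 : Pat where
  typ := ![true, false, true, false, false, true, false, true, false]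
  sg := ![1, 2, 3, 4, 0, 6, 5, 8, 7]
  ta := ![3, 6, 7, 5, 8, 2, 1, 0, 4]
  i0 := 3
  p := ![0, 0, -2, 0, -2, 1, 3, 1, -1]
  q := ![2, -2, 0, 0, -2, 1, -1, 0, -4]
  ca := ![0, 0, -1, 0, -1, 0, 1, 0, -1]
  cb := ![0, 0, 1, 0, 1, 0, -1, 0, 1]
  cv := ![1, 1, 1, 1, 1, -1, -1, -1, -1]

/-- the exchange for a cell of slope `-3` with the slopes `1`, `-3` -/
def pat31 : Pat where
  typ := ![true, true, false, true, false, true, false, true, false]
  sg := ![1, 2, 3, 4, 0, 6, 5, 8, 7]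
  ta := ![5, 7, 6, 1, 8, 3, 2, 0, 4]
  i0 := 1
  p := ![-2, 0, -2, 0, 0, 1, -1, 1, 3]
  q := ![0, 0, 2, -2, 2, 0, 4, -1, 1]
  ca := ![-2, 0, -1, -2, 1, 1, 2, 0, 3]
  cb := ![2, 0, 1, 2, -1, -1, -2, 0, -3]
  cv := ![1, 1, -1, -1, -1, 1, 1, 0, -2]

/-- another exchange for a cell of slope `-3` with the slopes `1`, `-3` -/
def pat32 : Pat where
  typ := ![true, false, false, false, true, true, false, false, true]
  sg := ![1, 2, 3, 4, 0, 6, 5, 8, 7]
  ta := ![5, 8, 6, 7, 2, 0, 1, 3, 4]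
  i0 := 5
  p := ![-1, 1, 1, 3, -1, 0, 2, 3, -1]
  q := ![-1, 1, 3, 1, 3, 0, 2, -4, -2]
  ca := ![-1, 0, 1, 1, 0, 0, 1, 0, -1]
  cb := ![1, 0, -1, -1, 0, 0, -1, 0, 1]
  cv := ![-1, -1, 1, 1, -1, 1, 1, 2, 0]

/-- the exchange for a cell of slope `1` with the slopes `1`, `-2` -/
def pat20 : Pat where
  typ := ![true, true, true, false, false, false, false, false, false]
  sg := ![1, 2, 0, 4, 3, 6, 5, 8, 7]
  ta := ![3, 5, 7, 1, 6, 2, 8, 0, 4]
  i0 := 3
  p := ![0, 0, -2, 0, 0, 2, 0, -1, 1]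
  q := ![-4, -2, -2, 0, 2, 1, 1, 3, 1]
  ca := ![-1, -1, -1, 0, 0, 0, 0, 0, 0]
  cb := ![1, 1, 1, 0, 0, 0, 0, 0, 0]
  cv := ![2, 0, 0, 1, -1, 0, 0, -2, 0]

/-- the exchange for a cell of slope `-2` with the slopes `1`, `-2` -/
def pat21 : Pat where
  typ := ![true, true, true, false, false, false, false, false, false]
  sg := ![1, 2, 3, 4, 0, 6, 5, 8, 7]
  ta := ![5, 3, 7, 2, 8, 1, 4, 0, 6]
  i0 := 2
  p := ![-2, 0, 0, 0, 0, -1, 1, 0, 2]
  q := ![0, 4, 0, 2, -2, -4, 0, 1, -1]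
  ca := ![-1, 1, 0, 0, -1, -2, 0, 0, 0]
  cb := ![1, -1, 0, 0, 1, 2, 0, 0, 0]
  cv := ![0, 0, 1, -1, 0, 0, 0, 0, 0]

lemma ok30 : pat30.Ok k3 := by
  constructor <;> decide

lemma ok31 : pat31.Ok k3 := by
  constructor <;> decide

lemma ok32 : pat32.Ok k3 := by
  constructor <;> decide

lemma ok20 : pat20.Ok k2 := by
  constructor <;> decide

lemma ok21 : pat21.Ok k2 := by
  constructor <;> decide

end Pool.Agent.NC79
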