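import Pool.Agent.NC79.Glue
import Pool.Agent.Duplex38.Main

/-!
# Lifting a robust table along an epimorphism
-/

open Finset

namespace Pool.Agent.NC79

open Pool.Agent.Duplex38

section lifting

variable {R C S R' C' S' : Type*}

/-- a duplex `D` of `L'` lifts along an epimorphism `L → L'` when the two blocks over any two cells of `D` with the same
symbol satisfy the local condition -/
theorem lift_duplex_over [Finite R] [Finite C] [Finite S] [Finite R'] [Finite C'] {L : R → C → S} {L' : R' → C' → S'}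
    (h : Epi L L') {D : Set (R' × C')} (hD : IsDuplex L' D)
    (hp : ∀ r₁ c₁ r₂ c₂ s (h₁ : L' r₁ c₁ = s) (h₂ : L' r₂ c₂ = s), (r₁, c₁) ∈ D → (r₂, c₂) ∈ D → (r₁, c₁) ≠ (r₂, c₂) →
      Pair (h.block h₁) (h.block h₂)) : ∃ D₁, IsDuplex L D₁ ∧ ∀ z ∈ D₁, (h.row z.1, h.col z.2) ∈ D := by
  classical
  obtain ⟨hr, hc, hs⟩ := hD
  -- the two cells of `D` with the symbol `s`
  have htwo : ∀ s : S', ∃ x y : R' × C', x ≠ y ∧ {z | z ∈ D ∧ L' z.1 z.2 = s} = {x, y} := fun s =>
    Set.ncard_eq_two.1 (hs s)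
  choose x y hxy hset using htwo
  have hx : ∀ s, x s ∈ D ∧ L' (x s).1 (x s).2 = s := fun s => by
    have : x s ∈ {z | z ∈ D ∧ L' z.1 z.2 = s} := by rw [hset]; exact Set.mem_insert _ _
    exact this
  have hy : ∀ s, y s ∈ D ∧ L' (y s).1 (y s).2 = s := fun s => by
    have : y s ∈ {z | z ∈ D ∧ L' z.1 z.2 = s} := by rw [hset]; exact Set.mem_insert_of_mem _ rfl
    exact this
  have hcell : ∀ z, z ∈ D → z = x (L' z.1 z.2) ∨ z = y (L' z.1 z.2) := fun z hz => by
    have : z ∈ {w | w ∈ D ∧ L' w.1 w.2 = L' z.1 z.2} := ⟨hz, rfl⟩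
    rw [hset] at this
    exact this
  have hpair : ∀ s, Pair (h.block (hx s).2) (h.block (hy s).2) := fun s =>
    hp _ _ _ _ s (hx s).2 (hy s).2 (hx s).1 (hy s).1 (hxy s)
  choose p q hpq using hpair
  -- the cells of `D`, indexed
  set cell : S' × Bool → R' × C' := fun i => if i.2 then y i.1 else x i.1 with hcelldef
  have cell_mem : ∀ i, cell i ∈ D := by
    rintro ⟨s, b⟩
    cases b
    · exact (hx s).1
    · exact (hy s).1
  have cell_sym : ∀ i, L' (cell i).1 (cell i).2 = i.1 := by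
    rintro ⟨s, b⟩
    cases b
    · exact (hx s).2
    · exact (hy s).2
  have cell_inj : ∀ i j, cell i = cell j → i = j := by
    intro i j hij
    have h1 : i.1 = j.1 := by rw [← cell_sym i, ← cell_sym j, hij]
    rcases i with ⟨s, b⟩
    rcases j with ⟨t, b'⟩
    simp only at h1
    subst h1
    cases b <;> cases b'
    · rfl
    · exact absurd hij (hxy s)
    · exact absurd hij.symm (hxy s)
    · rfl
  have cell_surj : ∀ z ∈ D, ∃ i, cell i = z := by
    intro z hz
    rcases hcell z hz with h1 | h1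
    · exact ⟨(L' z.1 z.2, false), h1.symm⟩
    · exact ⟨(L' z.1 z.2, true), h1.symm⟩
  have hP : ∃ P : ∀ i : S' × Bool, {r // h.row r = (cell i).1} ≃ {c // h.col c = (cell i).2},
      (∀ s, P (s, false) = p s) ∧ ∀ s, P (s, true) = q s := by
    refine ⟨fun i => match i with
      | (s, false) => p s
      | (s, true) => q s, fun s => rfl, fun s => rfl⟩
  obtain ⟨P, hPf, hPt⟩ := hP
  set D₁ : Set (R × C) := {z | ∃ i, ∃ hr : h.row z.1 = (cell i).1, (P i ⟨z.1, hr⟩ : C) = z.2} with hD₁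
  have memD : ∀ r c, (r, c) ∈ D₁ ↔ ∃ i, ∃ hr : h.row r = (cell i).1, (P i ⟨r, hr⟩ : C) = c := fun r c => Iff.rfl
  have hfacts : ∀ i r (hr : h.row r = (cell i).1) c, (P i ⟨r, hr⟩ : C) = c → cell i = (h.row r, h.col c) := by
    rintro i r hr c rfl
    exact Prod.ext hr.symm (P i ⟨r, hr⟩).2.symm
  refine ⟨D₁, ⟨fun r => ?_, fun c => ?_, fun s => ?_⟩, fun z hz => ?_⟩
  · rw [← hr (h.row r)]
    have himg : {c' | (h.row r, c') ∈ D} = h.col '' {c | (r, c) ∈ D₁} := by
      ext c'
      constructor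
      · intro hc'
        obtain ⟨i, hi⟩ := cell_surj _ hc'
        have hri : h.row r = (cell i).1 := by rw [hi]
        refine ⟨P i ⟨r, hri⟩, ⟨i, hri, rfl⟩, ?_⟩
        rw [(P i ⟨r, hri⟩).2, hi]
      · rintro ⟨c, ⟨i, hri, hPi⟩, rfl⟩
        have := hfacts i r hri c hPi
        show (h.row r, h.col c) ∈ D
        rw [← this]
        exact cell_mem i
    rw [himg, Set.InjOn.ncard_image]
    rintro c ⟨i, hri, hPi⟩ c₁ ⟨j, hrj, hPj⟩ hcc
    have h1 := hfacts i r hri c hPi
    have h2 := hfacts j r hrj c₁ hPj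
    have h3 : i = j := cell_inj i j (by rw [h1, h2, hcc])
    subst h3
    exact (show (P i ⟨r, hri⟩ : C) = c from hPi).symm.trans (show (P i ⟨r, hrj⟩ : C) = c₁ from hPj)
  · rw [← hc (h.col c)]
    have himg : {r' | (r', h.col c) ∈ D} = h.row '' {r | (r, c) ∈ D₁} := by
      ext r'
      constructor
      · intro hr'
        obtain ⟨i, hi⟩ := cell_surj _ hr'
        have hci : h.col c = (cell i).2 := by rw [hi]
        refine ⟨(P i).symm ⟨c, hci⟩, ⟨i, ((P i).symm ⟨c, hci⟩).2, ?_⟩, ?_⟩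
        · simp
        · rw [((P i).symm ⟨c, hci⟩).2, hi]
      · rintro ⟨r, ⟨i, hri, hPi⟩, rfl⟩
        have := hfacts i r hri c hPi
        show (h.row r, h.col c) ∈ D
        rw [← this]
        exact cell_mem i
    rw [himg, Set.InjOn.ncard_image]
    rintro r ⟨i, hri, hPi⟩ r₁ ⟨j, hrj, hPj⟩ hrr
    have h1 := hfacts i r hri c hPi
    have h2 := hfacts j r₁ hrj c hPj
    have h3 : i = j := cell_inj i j (by rw [h1, h2]; rw [show h.row r = h.row r₁ from hrr])
    subst h3
    have h4 : P i ⟨r, hri⟩ = P i ⟨r₁, hrj⟩ := Subtype.ext ((show (P i ⟨r, hri⟩ : C) = c from hPi).trans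
      (show (P i ⟨r₁, hrj⟩ : C) = c from hPj).symm)
    exact congrArg Subtype.val ((P i).injective h4)
  · set t : S' := h.sym s with ht
    have hsplit : {z | z ∈ D₁ ∧ L z.1 z.2 = s} =
        (fun a : {r // h.row r = (x t).1} => ((a : R), (p t a : C))) '' {a | h.block (hx t).2 a (p t a) = ⟨s, rfl⟩} ∪
        (fun a : {r // h.row r = (y t).1} => ((a : R), (q t a : C))) '' {a | h.block (hy t).2 a (q t a) = ⟨s, rfl⟩} := by
      ext ⟨r, c⟩
      constructor
      · rintro ⟨⟨i, hri, hPi⟩, hL⟩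
        have h1 := hfacts i r hri c hPi
        have h2 : i.1 = t := by
          rw [← cell_sym i, h1, ht, ← hL]
          exact (h.map r c).symm
        rcases i with ⟨u, b⟩
        simp only at h2
        subst h2
        cases b
        · left
          refine ⟨⟨r, hri⟩, ?_, Prod.ext rfl ?_⟩
          · refine Subtype.ext ?_
            show L r (p t ⟨r, hri⟩ : C) = s
            rw [← hPf t]
            rw [show (P (t, false) ⟨r, hri⟩ : C) = c from hPi]
            exact hL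
          · show (p t ⟨r, hri⟩ : C) = c
            rw [← hPf t]; exact hPi
        · right
          refine ⟨⟨r, hri⟩, ?_, Prod.ext rfl ?_⟩
          · refine Subtype.ext ?_
            show L r (q t ⟨r, hri⟩ : C) = s
            rw [← hPt t]
            rw [show (P (t, true) ⟨r, hri⟩ : C) = c from hPi]
            exact hL
          · show (q t ⟨r, hri⟩ : C) = c
            rw [← hPt t]; exact hPi
      · rintro (⟨a, ha, he⟩ | ⟨a, ha, he⟩)
        · obtain ⟨h1, h2⟩ := Prod.mk_inj.1 he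
          subst h1 h2
          refine ⟨⟨(t, false), a.2, ?_⟩, congrArg Subtype.val ha⟩
          show (P (t, false) a : C) = p t a
          rw [hPf]
        · obtain ⟨h1, h2⟩ := Prod.mk_inj.1 he
          subst h1 h2
          refine ⟨⟨(t, true), a.2, ?_⟩, congrArg Subtype.val ha⟩
          show (P (t, true) a : C) = q t a
          rw [hPt]
    have hdisj : Disjoint
        ((fun a : {r // h.row r = (x t).1} => ((a : R), (p t a : C))) '' {a | h.block (hx t).2 a (p t a) = ⟨s, rfl⟩})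
        ((fun a : {r // h.row r = (y t).1} => ((a : R), (q t a : C))) '' {a | h.block (hy t).2 a (q t a) = ⟨s, rfl⟩}) := by
      rw [Set.disjoint_left]
      rintro _ ⟨a, _, rfl⟩ ⟨b, _, he⟩
      obtain ⟨h1, h2⟩ := Prod.mk_inj.1 he
      refine hxy t (Prod.ext ?_ ?_)
      · rw [← a.2, ← b.2, h1]
      · rw [← (p t a).2, ← (q t b).2, h2]
    rw [hsplit, Set.ncard_union_eq hdisj (Set.toFinite _) (Set.toFinite _),
      Set.ncard_image_of_injective _ (fun a b hab => Subtype.ext (Prod.mk_inj.1 hab).1),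
      Set.ncard_image_of_injective _ (fun a b hab => Subtype.ext (Prod.mk_inj.1 hab).1)]
    exact hpq t ⟨s, rfl⟩
  · obtain ⟨i, hri, hPi⟩ := (memD z.1 z.2).1 hz
    rw [← hfacts i z.1 hri z.2 hPi]
    exact cell_mem i

end lifting

lemma ncard_union_le {ι α : Type} [Finite ι] (F : Set ι) (f : ι → Set α) (m t : ℕ) (hF : F.ncard ≤ m)
    (hf : ∀ i, (f i).ncard ≤ t) : (⋃ i ∈ F, f i).ncard ≤ m * t := by
  classical
  have _ := Fintype.ofFinite ι
  have h1 := F.toFinset.set_ncard_biUnion_le f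
  simp only [Set.mem_toFinset] at h1
  refine h1.trans ?_
  refine (sum_le_card_nsmul _ _ t fun i _ => hf i).trans ?_
  rw [smul_eq_mul, ← Set.ncard_eq_toFinset_card']
  exact Nat.mul_le_mul_right t hF

/-- if a table maps onto a robust table, the fibres being small and the blocks over two cells with the same symbol being
good for each other, then the table is robust -/
theorem robust_of_quotient {R C S R' C' S' : Type} [Finite R] [Finite C] [Finite S] {m t : ℕ}
    {L : R → C → S} {L' : R' → C' → S'} (h : Epi L L') (hR : ∀ r', {r | h.row r = r'}.ncard ≤ m)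
    (hC : ∀ c', {c | h.col c = c'}.ncard ≤ m) (hS : ∀ s', {s | h.sym s = s'}.ncard ≤ m) (hQ : Robust (m * t) L')
    (hp : ∀ r₁ c₁ r₂ c₂ s (h₁ : L' r₁ c₁ = s) (h₂ : L' r₂ c₂ = s), (r₁, c₁) ≠ (r₂, c₂) →
      Pair (h.block h₁) (h.block h₂)) : Robust t L := by
  have fR' : Finite R' := Finite.of_surjective _ h.row_surj
  have fC' : Finite C' := Finite.of_surjective _ h.col_surj
  intro B hBr hBc hBs
  have k1 : ∀ r', {c' | (r', c') ∈ {p | ∃ q ∈ B, (h.row q.1, h.col q.2) = p}}.ncard ≤ m * t := fun r' => by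
    refine (Set.ncard_le_ncard ?_ (Set.toFinite _)).trans
      (ncard_union_le {r | h.row r = r'} (fun r => h.col '' {c | (r, c) ∈ B}) m t (hR r') fun r =>
        (Set.ncard_image_le (Set.toFinite _)).trans (hBr r))
    rintro c' ⟨q, hq, e⟩
    obtain ⟨e1, e2⟩ := Prod.mk.inj e
    exact Set.mem_biUnion (x := q.1) e1 ⟨q.2, hq, e2⟩
  have k2 : ∀ c', {r' | (r', c') ∈ {p | ∃ q ∈ B, (h.row q.1, h.col q.2) = p}}.ncard ≤ m * t := fun c' => by
    refine (Set.ncard_le_ncard ?_ (Set.toFinite _)).trans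
      (ncard_union_le {c | h.col c = c'} (fun c => h.row '' {r | (r, c) ∈ B}) m t (hC c') fun c =>
        (Set.ncard_image_le (Set.toFinite _)).trans (hBc c))
    rintro r' ⟨q, hq, e⟩
    obtain ⟨e1, e2⟩ := Prod.mk.inj e
    exact Set.mem_biUnion (x := q.2) e2 ⟨q.1, hq, e1⟩
  have k3 : ∀ s', {p : R' × C' | L' p.1 p.2 = s' ∧ p ∈ {p | ∃ q ∈ B, (h.row q.1, h.col q.2) = p}}.ncard ≤ m * t :=
      fun s' => by
    refine (Set.ncard_le_ncard ?_ (Set.toFinite _)).trans
      (ncard_union_le {s | h.sym s = s'} (fun s => (fun q : R × C => (h.row q.1, h.col q.2)) ''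
        {q : R × C | L q.1 q.2 = s ∧ q ∈ B}) m t (hS s') fun s =>
        (Set.ncard_image_le (Set.toFinite _)).trans (hBs s))
    rintro p ⟨hps, q, hq, rfl⟩
    refine Set.mem_biUnion (x := L q.1 q.2) ?_ ⟨q, ⟨rfl, hq⟩, rfl⟩
    change h.sym (L q.1 q.2) = s'
    rw [h.map]
    exact hps
  obtain ⟨D, hD, hDB⟩ := hQ _ k1 k2 k3
  obtain ⟨D₁, h1, h2⟩ := lift_duplex_over h hD fun r₁ c₁ r₂ c₂ s h₁ h₂ _ _ hne => hp r₁ c₁ r₂ c₂ s h₁ h₂ hne
  exact ⟨D₁, h1, fun z hz hzB => hDB _ (h2 z hz) ⟨z, hzB, rfl⟩⟩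

end Pool.Agent.NC79
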