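import Pool.Agent.NC79.Times

/-!
# Groups with a large soluble normal subgroup, and their products with latin squares
-/

namespace Pool.Agent.NC79

open Subgroup Pool.Agent.Duplex38

open scoped commutatorElement

/-- the derived series of a subgroup -/
def ser {G : Type*} [Group G] (S : Subgroup G) : ℕ → Subgroup G
  | 0 => S
  | n + 1 => ⁅ser S n, ser S n⁆

lemma ser_eq {G : Type*} [Group G] (S : Subgroup G) (n : ℕ) : ser S n = (derivedSeries S n).map S.subtype := by
  induction n with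
  | zero => rw [derivedSeries_zero, ← MonoidHom.range_eq_map, S.range_subtype]; rfl
  | succ n ih => rw [derivedSeries_succ, map_commutator, ← ih]; rfl

instance ser_normal {G : Type*} [Group G] (S : Subgroup G) [S.Normal] (n : ℕ) : (ser S n).Normal := by
  induction n with
  | zero => exact ‹S.Normal›
  | succ n ih => exact Subgroup.commutator_normal (ser S n) (ser S n)

lemma exists_ser {G : Type*} [Group G] (S : Subgroup G) [hs : Group.IsSolvable S] : ∃ n, ser S n = ⊥ := by
  obtain ⟨n, hn⟩ := hs.solvable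
  exact ⟨n, by rw [ser_eq, hn, Subgroup.map_bot]⟩

/-- a hom to the functions bounds the order -/
lemma card_le_of_centralizer' {G : Type*} [Group G] [Finite G] (R M A : Subgroup G) [M.Normal]
    (h : centralizer (M : Set G) ⊓ R ≤ A) : Nat.card R ≤ Nat.card A * Nat.card M ^ Nat.card M := by
  classical
  set ψ : R →* MulAut M := (MulAut.conjNormal (H := M)).comp R.subtype with hψ
  have h1 : Nat.card R = Nat.card ψ.ker * Nat.card ψ.range := by
    rw [← Subgroup.index_ker, Subgroup.card_mul_index]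
  have h2 : ∀ x : ψ.ker, ((x : R) : G) ∈ A := by
    intro x
    refine h (mem_inf.2 ⟨?_, (x : R).2⟩)
    rw [mem_centralizer_iff]
    intro m hm
    have hx : ψ (x : R) = 1 := x.2
    have h3 : ((ψ (x : R) ⟨m, hm⟩ : M) : G) = m := by rw [hx]; rfl
    change ((MulAut.conjNormal ((x : R) : G) ⟨m, hm⟩ : M) : G) = m at h3
    rw [MulAut.conjNormal_apply] at h3
    calc m * ((x : R) : G) = (((x : R) : G) * m * ((x : R) : G)⁻¹) * ((x : R) : G) := by
          rw [show ((x : R) : G) * m * ((x : R) : G)⁻¹ = m from h3]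
      _ = ((x : R) : G) * m := by group
  have h3 : Nat.card ψ.ker ≤ Nat.card A := by
    refine Nat.card_le_card_of_injective (fun x : ψ.ker => (⟨((x : R) : G), h2 x⟩ : A)) fun x y e => ?_
    have e' : ((x : R) : G) = ((y : R) : G) := congrArg (fun z : A => (z : G)) e
    exact Subtype.ext (Subtype.ext e')
  have h4 : Nat.card ψ.range ≤ Nat.card (M → M) := by
    refine Nat.card_le_card_of_injective (fun x => ((x : MulAut M) : M → M)) fun x y e => ?_
    exact Subtype.ext (MulEquiv.ext fun m => congrFun e m)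
  rw [Nat.card_fun] at h4
  rw [h1]
  exact Nat.mul_le_mul h3 h4

theorem exists_section_in (G : Type) [Group G] [Finite G] (R : Subgroup G) [hRn : R.Normal] [hs : Group.IsSolvable R]
    (f : ℕ → ℕ) (hG : secBound f < Nat.card R) : ∃ (K : Subgroup G) (_ : K.Normal) (N : Subgroup (G ⧸ K)), N.Normal ∧
      K ≤ R ∧ N ≤ R.map (QuotientGroup.mk' K) ∧
      (∀ a ∈ K, ∀ b ∈ K, a * b = b * a) ∧ (∀ a ∈ N, ∀ b ∈ N, a * b = b * a) ∧ f (Nat.card K) ≤ Nat.card N := by
  classical
  obtain ⟨A, ⟨hAn, hAR, hAc⟩, hAmax⟩ := Set.exists_max_image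
    {A : Subgroup G | A.Normal ∧ A ≤ R ∧ ∀ a ∈ A, ∀ b ∈ A, a * b = b * a} (fun A => Nat.card A) (Set.toFinite _)
    ⟨⊥, inferInstance, bot_le, fun a ha b hb => by rw [mem_bot.1 ha, mem_bot.1 hb]⟩
  by_cases hA : f 1 ≤ Nat.card A
  · -- the first case
    refine ⟨⊥, inferInstance, A.map (QuotientGroup.mk' ⊥), hAn.map _ (QuotientGroup.mk'_surjective _), bot_le,
      Subgroup.map_mono hAR, ?_, ?_, ?_⟩
    · exact fun a ha b hb => by rw [mem_bot.1 ha, mem_bot.1 hb]
    · rintro _ ⟨a, ha, rfl⟩ _ ⟨b, hb, rfl⟩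
      rw [← map_mul, hAc a ha b hb, map_mul]
    · have h1 := card_le_map A (⊥ : Subgroup G)
      rw [Subgroup.card_bot] at h1 ⊢
      rw [one_mul] at h1
      exact hA.trans h1
  · push Not at hA
    obtain ⟨M, ⟨hMn, hMR, hAM, hMC, hMc⟩, hMmax⟩ := Set.exists_max_image
      {M : Subgroup G | M.Normal ∧ M ≤ R ∧ A ≤ M ∧ M ≤ centralizer (A : Set G) ∧
        ∀ a ∈ M, ∀ b ∈ M, (a : G ⧸ A) * (b : G ⧸ A) = (b : G ⧸ A) * (a : G ⧸ A)} (fun A => Nat.card A)
      (Set.toFinite _)
      ⟨A, hAn, hAR, le_rfl, fun a ha => mem_centralizer_iff.2 fun b hb => hAc b hb a ha, fun a ha b hb => by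
        rw [← QuotientGroup.mk_mul, ← QuotientGroup.mk_mul, hAc a ha b hb]⟩
    by_cases hM : f (Nat.card A) ≤ Nat.card (M.map (QuotientGroup.mk' A))
    · refine ⟨A, hAn, M.map (QuotientGroup.mk' A), hMn.map _ (QuotientGroup.mk'_surjective _), hAR,
        Subgroup.map_mono hMR, hAc, ?_, hM⟩
      rintro _ ⟨a, ha, rfl⟩ _ ⟨b, hb, rfl⟩
      exact hMc a ha b hb
    · push Not at hM
      exfalso
      set D := centralizer (M : Set G) ⊓ R with hD
      have hDn : D.Normal := inferInstance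
      have hAD : A ≤ D := le_inf (fun a ha => mem_centralizer_iff.2 fun m hm =>
        (mem_centralizer_iff.1 (hMC hm) a ha).symm) hAR
      have hDC : D ≤ centralizer (A : Set G) := inf_le_left.trans (Subgroup.centralizer_le hAM)
      have hDM : D ⊓ M = A := by
        have h1 : D ⊓ M ∈ {A : Subgroup G | A.Normal ∧ A ≤ R ∧ ∀ a ∈ A, ∀ b ∈ A, a * b = b * a} :=
          ⟨inferInstance, inf_le_right.trans hMR, fun a ha b hb =>
            (mem_centralizer_iff.1 (mem_inf.1 (mem_inf.1 hb).1).1 a (mem_inf.1 ha).2)⟩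
        have h2 := hAmax _ h1
        exact (Subgroup.eq_of_le_of_card_ge (le_inf hAD hAM) h2).symm
      have hDA : D ≤ A := by
        by_contra hcon
        obtain ⟨n, hn⟩ := exists_ser R
        have hex : ∃ i, D ⊓ ser R i ≤ A := ⟨n, by rw [hn, inf_bot_eq]; exact bot_le⟩
        set i := Nat.find hex with hi
        have hi1 : D ⊓ ser R i ≤ A := Nat.find_spec hex
        have hi0 : i ≠ 0 := by
          intro h0
          rw [h0] at hi1
          exact hcon ((le_inf le_rfl inf_le_right).trans hi1)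
        obtain ⟨j, hj⟩ := Nat.exists_eq_succ_of_ne_zero hi0
        have hjn : ¬ D ⊓ ser R j ≤ A := Nat.find_min hex (by omega)
        set E := D ⊓ ser R j with hE
        have hEn : E.Normal := inferInstance
        have hEE : ∀ x ∈ E, ∀ y ∈ E, (x : G ⧸ A) * (y : G ⧸ A) = (y : G ⧸ A) * (x : G ⧸ A) := by
          intro x hx y hy
          have h3 : ⁅x, y⁆ ∈ A := by
            refine hi1 (mem_inf.2 ⟨?_, ?_⟩)
            · rw [commutatorElement_def]
              exact D.mul_mem (D.mul_mem (D.mul_mem (mem_inf.1 hx).1 (mem_inf.1 hy).1)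
                (D.inv_mem (mem_inf.1 hx).1)) (D.inv_mem (mem_inf.1 hy).1)
            · rw [hj]
              exact commutator_mem_commutator (mem_inf.1 hx).2 (mem_inf.1 hy).2
          rw [← QuotientGroup.mk_mul, ← QuotientGroup.mk_mul, eq_comm, QuotientGroup.eq]
          have h4 : (y * x)⁻¹ * (x * y) = (y * x)⁻¹ * ⁅x, y⁆ * ((y * x)⁻¹)⁻¹ := by
            rw [commutatorElement_def]
            group
          rw [h4]
          exact hAn.conj_mem _ h3 _
        have hME : ∀ m ∈ M, ∀ e ∈ E, m * e = e * m := fun m hm e he =>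
          mem_centralizer_iff.1 (mem_inf.1 (mem_inf.1 he).1).1 m hm
        have h5 : M ⊔ E ∈ {M : Subgroup G | M.Normal ∧ M ≤ R ∧ A ≤ M ∧ M ≤ centralizer (A : Set G) ∧
            ∀ a ∈ M, ∀ b ∈ M, (a : G ⧸ A) * (b : G ⧸ A) = (b : G ⧸ A) * (a : G ⧸ A)} := by
          refine ⟨inferInstance, sup_le hMR (inf_le_left.trans inf_le_right), hAM.trans le_sup_left,
            sup_le hMC (inf_le_left.trans hDC), ?_⟩
          intro x hx y hy
          obtain ⟨m₁, hm₁, e₁, he₁, rfl⟩ := mem_sup_of_normal_right.1 hx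
          obtain ⟨m₂, hm₂, e₂, he₂, rfl⟩ := mem_sup_of_normal_right.1 hy
          have k1 := hMc m₁ hm₁ m₂ hm₂
          have k2 := hEE e₁ he₁ e₂ he₂
          have k3 : (e₁ : G ⧸ A) * (m₂ : G ⧸ A) = (m₂ : G ⧸ A) * (e₁ : G ⧸ A) := by
            rw [← QuotientGroup.mk_mul, ← QuotientGroup.mk_mul, hME m₂ hm₂ e₁ he₁]
          have k4 : (e₂ : G ⧸ A) * (m₁ : G ⧸ A) = (m₁ : G ⧸ A) * (e₂ : G ⧸ A) := by
            rw [← QuotientGroup.mk_mul, ← QuotientGroup.mk_mul, hME m₁ hm₁ e₂ he₂]
          rw [QuotientGroup.mk_mul, QuotientGroup.mk_mul]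
          calc (m₁ : G ⧸ A) * e₁ * (m₂ * e₂) = m₁ * (e₁ * m₂) * e₂ := by group
            _ = m₁ * (m₂ * e₁) * e₂ := by rw [k3]
            _ = (m₁ * m₂) * (e₁ * e₂) := by group
            _ = (m₂ * m₁) * (e₂ * e₁) := by rw [k1, k2]
            _ = m₂ * (m₁ * e₂) * e₁ := by group
            _ = m₂ * (e₂ * m₁) * e₁ := by rw [k4]
            _ = (m₂ : G ⧸ A) * e₂ * (m₁ * e₁) := by group
        have h6 := hMmax _ h5
        have h7 : M = M ⊔ E := Subgroup.eq_of_le_of_card_ge le_sup_left h6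
        have h8 : E ≤ M := by
          rw [h7]
          exact le_sup_right
        exact hjn (by
          rw [← hDM]
          exact le_inf inf_le_left h8)
      have h9 := card_le_of_centralizer' R M A hDA
      have h10 := card_le_map M A
      set b₀ := ∑ a ∈ Finset.range (f 1), a * f a with hb₀
      have h11 : Nat.card M ≤ b₀ + 1 := by
        have h12 : Nat.card A * f (Nat.card A) ≤ b₀ :=
          Finset.single_le_sum (f := fun a => a * f a) (fun _ _ => Nat.zero_le _) (Finset.mem_range.2 hA)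
        have h13 : Nat.card A * Nat.card (M.map (QuotientGroup.mk' A)) ≤ Nat.card A * f (Nat.card A) :=
          Nat.mul_le_mul_left _ hM.le
        omega
      have h14 : Nat.card M ^ Nat.card M ≤ (b₀ + 1) ^ (b₀ + 1) :=
        (Nat.pow_le_pow_left h11 _).trans (Nat.pow_le_pow_right (by omega) h11)
      have h15 : Nat.card A * Nat.card M ^ Nat.card M ≤ f 1 * (b₀ + 1) ^ (b₀ + 1) := Nat.mul_le_mul hA.le h14
      have h16 : secBound f = f 1 * (b₀ + 1) ^ (b₀ + 1) := rfl
      omega

section lift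

lemma duplex_congr {R C S R' C' S' : Type} {T : R → C → S} {T' : R' → C' → S'} (α : R ≃ R') (β : C ≃ C') (γ : S ≃ S')
    (h : ∀ a b, γ (T a b) = T' (α a) (β b)) (hD : ∃ D, IsDuplex T' D) : ∃ D, IsDuplex T D := by
  obtain ⟨D, h1, h2, h3⟩ := hD
  refine ⟨{x | (α x.1, β x.2) ∈ D}, fun r => ?_, fun c => ?_, fun s => ?_⟩
  · rw [← h1 (α r)]
    have : {c | (r, c) ∈ {x : R × C | (α x.1, β x.2) ∈ D}} = β ⁻¹' {c | (α r, c) ∈ D} := rfl
    rw [this, ← Equiv.image_symm_eq_preimage, Set.ncard_image_of_injective _ (Equiv.injective _)]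
  · rw [← h2 (β c)]
    have : {r | (r, c) ∈ {x : R × C | (α x.1, β x.2) ∈ D}} = α ⁻¹' {r | (r, β c) ∈ D} := rfl
    rw [this, ← Equiv.image_symm_eq_preimage, Set.ncard_image_of_injective _ (Equiv.injective _)]
  · rw [← h3 (γ s)]
    have : {x : R × C | x ∈ {x : R × C | (α x.1, β x.2) ∈ D} ∧ T x.1 x.2 = s} =
        (Equiv.prodCongr α β) ⁻¹' {x | x ∈ D ∧ T' x.1 x.2 = γ s} := by
      ext x
      change (α x.1, β x.2) ∈ D ∧ T x.1 x.2 = s ↔ (α x.1, β x.2) ∈ D ∧ T' (α x.1) (β x.2) = γ s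
      rw [← h, γ.injective.eq_iff]
    rw [this, ← Equiv.image_symm_eq_preimage, Set.ncard_image_of_injective _ (Equiv.injective _)]

variable {G : Type} [Group G] [Finite G] {P P' P'' : Type} [Finite P] [Finite P'] [Finite P''] (Q : P → P' → P'')

omit [Finite G] [Finite P] [Finite P'] [Finite P''] in
lemma times_congr {H : Type} [Group H] (e : G ≃* H) (h : ∃ D, IsDuplex (times Q H) D) :
    ∃ D, IsDuplex (times Q G) D :=
  duplex_congr (T := times Q G) (T' := times Q H) (Equiv.prodCongr (Equiv.refl P) e.toEquiv)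
    (Equiv.prodCongr (Equiv.refl P') e.toEquiv) (Equiv.prodCongr (Equiv.refl P'') e.toEquiv)
    (fun a b => Prod.ext rfl (map_mul e a.2 b.2)) h

/-- lifting a duplex over an abelian kernel -/
lemma times_lift_abelian (N : Subgroup G) [N.Normal] (hN : ∀ a ∈ N, ∀ b ∈ N, a * b = b * a)
    (h : ∃ D, IsDuplex (times Q (G ⧸ N)) D) : ∃ D, IsDuplex (times Q G) D := by
  obtain ⟨A, iA, φ, hφ⟩ := exists_model N hN
  have _ : Finite A := Finite.of_equiv _ φ
  obtain ⟨D, hD⟩ := h
  exact lift_duplex (timesEpi Q N) hD fun r₁ c₁ r₂ c₂ s h₁ h₂ _ _ _ =>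
    timesPair_blocks Q N φ hφ r₁ r₂ c₁ c₂ s h₁ h₂

omit [Finite G] [Finite P] [Finite P'] [Finite P''] in
lemma times_third (N M : Subgroup G) [N.Normal] [M.Normal] (h : N ≤ M) (hD : ∃ D, IsDuplex (times Q (G ⧸ M)) D) :
    ∃ D, IsDuplex (times Q ((G ⧸ N) ⧸ M.map (QuotientGroup.mk' N))) D :=
  times_congr Q (QuotientGroup.quotientQuotientEquivQuotient N M h) hD

/-- lifting a duplex over a soluble kernel -/
lemma times_lift_soluble (S : Subgroup G) [S.Normal] [Group.IsSolvable S] (h : ∃ D, IsDuplex (times Q (G ⧸ S)) D) :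
    ∃ D, IsDuplex (times Q G) D := by
  obtain ⟨n, hn⟩ := exists_ser S
  have key : ∀ i, ∃ D, IsDuplex (times Q (G ⧸ ser S i)) D := by
    intro i
    induction i with
    | zero => exact h
    | succ i ih =>
      have hle : ser S (i + 1) ≤ ser S i := Subgroup.commutator_le_self _
      refine times_lift_abelian Q ((ser S i).map (QuotientGroup.mk' (ser S (i + 1)))) ?_ (times_third Q _ _ hle ih)
      rintro _ ⟨a, ha, rfl⟩ _ ⟨b, hb, rfl⟩
      change (a : G ⧸ ser S (i + 1)) * (b : G ⧸ ser S (i + 1)) = (b : G ⧸ ser S (i + 1)) * (a : G ⧸ ser S (i + 1))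
      rw [← QuotientGroup.mk_mul, ← QuotientGroup.mk_mul, eq_comm, QuotientGroup.eq]
      have h4 : (b * a)⁻¹ * (a * b) = ⁅a⁻¹, b⁻¹⁆ := by
        rw [commutatorElement_def]
        group
      rw [h4]
      exact commutator_mem_commutator ((ser S i).inv_mem ha) ((ser S i).inv_mem hb)
  refine times_lift_abelian Q (ser S n) (fun a ha b hb => ?_) (key n)
  rw [hn] at ha hb
  rw [mem_bot.1 ha, mem_bot.1 hb]

lemma times_radical (R M : Subgroup G) [R.Normal] [M.Normal] [Group.IsSolvable R] (h : M ≤ R)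
    (hD : ∃ D, IsDuplex (times Q (G ⧸ R)) D) : ∃ D, IsDuplex (times Q (G ⧸ M)) D := by
  have _ : Group.IsSolvable (R.map (QuotientGroup.mk' M)) :=
    Group.isSolvable_of_surjective ((QuotientGroup.mk' M).subgroupMap_surjective R)
  exact times_lift_soluble Q (R.map (QuotientGroup.mk' M)) (times_third Q M R h hD)

/-- a large abelian normal subgroup -/
theorem robust_times_of_large (R N : Subgroup G) [R.Normal] [Group.IsSolvable R]
    (hD : ∃ D, IsDuplex (times Q (G ⧸ R)) D) [hNn : N.Normal] (hNR : N ≤ R) (hN : ∀ a ∈ N, ∀ b ∈ N, a * b = b * a)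
    {t : ℕ} (hbig : (200000000 * (t + 1) * (36 * (t + 1))) ^ 2 * (36 * (t + 1)) ≤ Nat.card N) :
    Robust t (times Q G) := by
  obtain ⟨M, hMn, A, iA, φ, hM, hφ, hA⟩ := exists_nice_normal N hN hbig
  exact robust_times_of_nice Q M (times_radical Q R M (hM.trans hNR) hD) φ hφ hA

/-- groups with a large soluble normal subgroup, and their products with other tables -/
theorem robust_times_soluble (t : ℕ) (R : Subgroup G) [R.Normal] [Group.IsSolvable R]
    (hR : secBound (thr t) < Nat.card R)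
    (hQ : HasTransversal (times Q (G ⧸ R)) ∨ ∃ D, IsDuplex (times Q (G ⧸ R)) D) : Robust t (times Q G) := by
  rcases hQ with hQ | hD
  · obtain ⟨ρ, hρ⟩ := hQ
    refine robust_of_blocks (timesEpi Q R) ρ hρ fun p => ?_
    refine robust_of_isotopic (T' := cayley R) ((fibreSnd R p).trans (rowChart R p.2))
      ((fibreSnd R (ρ p)).trans (colChart R (ρ p).2))
      ((fibreSnd R (times Q (G ⧸ R) p (ρ p))).trans (symChart R p.2 (ρ p).2))
      (fun a b => ?_) (robust_soluble t hR)
    exact chart_mul R p.2 (ρ p).2 (fibreSnd R p a) (fibreSnd R (ρ p) b)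
  · obtain ⟨K, hK, N, hN, hKR, hNR, hKc, hNc, hcard⟩ := exists_section_in G R (thr t) hR
    have _ : Group.IsSolvable (R.map (QuotientGroup.mk' K)) :=
      Group.isSolvable_of_surjective ((QuotientGroup.mk' K).subgroupMap_surjective R)
    exact robust_times_of_kernel Q K hKc
      (robust_times_of_large Q (R.map (QuotientGroup.mk' K)) N (times_third Q K R hKR hD) hNR hNc hcard)

end lift

end Pool.Agent.NC79
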