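import Pool.Agent.NC79.Close

/-!
# Transversals which avoid sets of cells
-/

namespace Pool.Agent.NC79

open Finset Pool.Agent.Duplex38

/-- `T` has a transversal outside each set of cells with at most `t` cells in each row, in each column and with each
symbol -/
def RobustT {X Y Z : Type} (t : ℕ) (T : X → Y → Z) : Prop :=
  ∀ B : Set (X × Y), (∀ x, {y | (x, y) ∈ B}.ncard ≤ t) → (∀ y, {x | (x, y) ∈ B}.ncard ≤ t) →
    (∀ z, {c : X × Y | T c.1 c.2 = z ∧ c ∈ B}.ncard ≤ t) →
    ∃ π : X ≃ Y, (Function.Bijective fun x => T x (π x)) ∧ ∀ x, (x, π x) ∉ B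

section chart

variable {X Y Z J : Type} [Finite X] [Finite Y] [Finite J] (T : X → Y → Z) (X' Y' Z' : J → Type)
  (T' : ∀ j, X' j → Y' j → Z' j) (a : ∀ j, X' j → X) (b : ∀ j, Y' j → Y) (c : ∀ j, Z' j → Z)

/-- tables covered twice by blocks which have transversals avoiding sets of cells -/
theorem robust_of_charts' (t : ℕ) (hG : ∀ j, RobustT (t + 1) (T' j))
    (ha : ∀ j, Function.Injective (a j)) (hb : ∀ j, Function.Injective (b j)) (hc : ∀ j, Function.Injective (c j))
    (hT : ∀ j r s, T (a j r) (b j s) = c j (T' j r s)) (hx : ∀ x, {j | x ∈ Set.range (a j)}.ncard = 2)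
    (hy : ∀ y, {j | y ∈ Set.range (b j)}.ncard = 2) (hz : ∀ z, {j | z ∈ Set.range (c j)}.ncard = 2) :
    Robust t T := by
  classical
  intro B hBr hBc hBs
  have _ := Fintype.ofFinite X
  have _ := Fintype.ofFinite Y
  have _ := Fintype.ofFinite J
  have hx' : ∀ x, (univ.filter fun j => x ∈ Set.range (a j)).card = 2 := fun x => by
    rw [← hx x, ← Set.ncard_coe_finset]
    congr 1
    ext j
    simp
  have hy' : ∀ x, (univ.filter fun j => x ∈ Set.range (b j)).card = 2 := fun x => by
    rw [← hy x, ← Set.ncard_coe_finset]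
    congr 1
    ext j
    simp
  have hz' : ∀ x, (univ.filter fun j => x ∈ Set.range (c j)).card = 2 := fun x => by
    rw [← hz x, ← Set.ncard_coe_finset]
    congr 1
    ext j
    simp
  have key : ∀ s : Finset J, ∃ D : Finset (X × Y), (∀ p ∈ D, p ∉ B) ∧
      (∀ x, (D.filter fun p => p.1 = x).card = (s.filter fun j => x ∈ Set.range (a j)).card) ∧
      (∀ y, (D.filter fun p => p.2 = y).card = (s.filter fun j => y ∈ Set.range (b j)).card) ∧
      ∀ z, (D.filter fun p => T p.1 p.2 = z).card = (s.filter fun j => z ∈ Set.range (c j)).card := by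
    intro s
    induction s using Finset.induction_on with
    | empty => exact ⟨∅, by simp⟩
    | insert j s hj ih =>
      obtain ⟨D, hD, hDx, hDy, hDz⟩ := ih
      have _ : Finite (X' j) := Finite.of_injective _ (ha j)
      have _ : Finite (Y' j) := Finite.of_injective _ (hb j)
      have _ := Fintype.ofFinite (X' j)
      have _ := Fintype.ofFinite (Y' j)
      have small : ∀ {V : J → Type} {W : Type} (e : ∀ j, V j → W) (w : W) (_ : w ∈ Set.range (e j))
          (_ : (univ.filter fun j => w ∈ Set.range (e j)).card = 2),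
          (s.filter fun j => w ∈ Set.range (e j)).card ≤ 1 := by
        intro V W e w hw h2
        have h1 : insert j (s.filter fun j => w ∈ Set.range (e j)) ⊆ univ.filter fun j => w ∈ Set.range (e j) := by
          intro i hi
          rw [mem_insert] at hi
          rcases hi with rfl | hi
          · exact mem_filter.2 ⟨mem_univ _, hw⟩
          · exact mem_filter.2 ⟨mem_univ _, (mem_filter.1 hi).2⟩
        have h3 := card_le_card h1
        rw [h2, card_insert_of_notMem (fun h => hj (mem_filter.1 h).1)] at h3
        omega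
      set F : X' j × Y' j → X × Y := fun p => (a j p.1, b j p.2) with hF
      have hFinj : Function.Injective F := fun p q e =>
        Prod.ext (ha j (Prod.mk.inj e).1) (hb j (Prod.mk.inj e).2)
      obtain ⟨π, hσ, hπ⟩ := hG j {p | F p ∈ B ∨ F p ∈ D}
        (fun r => by
          have h2 : ({q : X × Y | q ∈ D ∧ q.1 = a j r}).ncard ≤ 1 := by
            have h3 : (D.filter fun q => q.1 = a j r).card ≤ 1 := by
              rw [hDx]
              exact small a (a j r) ⟨r, rfl⟩ (hx' _)
            rw [← Set.ncard_coe_finset] at h3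
            convert h3 using 2
            ext q
            simp
          have h1 : ({q : X × Y | q ∈ B ∧ q.1 = a j r}).ncard ≤ t := by
            refine le_trans ?_ (hBr (a j r))
            refine Set.ncard_le_ncard_of_injOn (fun q => q.2) ?_ ?_ (Set.toFinite _)
            · rintro ⟨x, y⟩ ⟨hq, hq'⟩
              have hq'' : x = a j r := hq'
              subst hq''
              exact hq
            · rintro ⟨x, y⟩ hq ⟨x', y'⟩ hq' e
              exact Prod.ext (hq.2.trans hq'.2.symm) e
          refine le_trans ?_ ((Set.ncard_union_le _ _).trans (Nat.add_le_add h1 h2))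
          refine Set.ncard_le_ncard_of_injOn (fun y => F (r, y)) (fun y hy => ?_) (fun y _ y' _ e => ?_)
            (Set.toFinite _)
          · exact hy.imp (fun h => ⟨h, rfl⟩) fun h => ⟨h, rfl⟩
          · exact (Prod.mk.inj (hFinj e)).2)
        (fun r => by
          have h2 : ({q : X × Y | q ∈ D ∧ q.2 = b j r}).ncard ≤ 1 := by
            have h3 : (D.filter fun q => q.2 = b j r).card ≤ 1 := by
              rw [hDy]
              exact small b (b j r) ⟨r, rfl⟩ (hy' _)
            rw [← Set.ncard_coe_finset] at h3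
            convert h3 using 2
            ext q
            simp
          have h1 : ({q : X × Y | q ∈ B ∧ q.2 = b j r}).ncard ≤ t := by
            refine le_trans ?_ (hBc (b j r))
            refine Set.ncard_le_ncard_of_injOn (fun q => q.1) ?_ ?_ (Set.toFinite _)
            · rintro ⟨x, y⟩ ⟨hq, hq'⟩
              have hq'' : y = b j r := hq'
              subst hq''
              exact hq
            · rintro ⟨x, y⟩ hq ⟨x', y'⟩ hq' e
              exact Prod.ext e (hq.2.trans hq'.2.symm)
          refine le_trans ?_ ((Set.ncard_union_le _ _).trans (Nat.add_le_add h1 h2))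
          refine Set.ncard_le_ncard_of_injOn (fun x => F (x, r)) (fun y hy => ?_) (fun y _ y' _ e => ?_)
            (Set.toFinite _)
          · exact hy.imp (fun h => ⟨h, rfl⟩) fun h => ⟨h, rfl⟩
          · exact (Prod.mk.inj (hFinj e)).1)
        (fun r => by
          have h2 : ({q : X × Y | q ∈ D ∧ T q.1 q.2 = c j r}).ncard ≤ 1 := by
            have h3 : (D.filter fun q => T q.1 q.2 = c j r).card ≤ 1 := by
              rw [hDz]
              exact small c (c j r) ⟨r, rfl⟩ (hz' _)
            rw [← Set.ncard_coe_finset] at h3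
            convert h3 using 2
            ext q
            simp
          have h1 : ({q : X × Y | q ∈ B ∧ T q.1 q.2 = c j r}).ncard ≤ t := by
            refine le_trans (le_of_eq ?_) (hBs (c j r))
            congr 1
            ext q
            exact And.comm
          refine le_trans ?_ ((Set.ncard_union_le _ _).trans (Nat.add_le_add h1 h2))
          refine Set.ncard_le_ncard_of_injOn F (fun p hp => ?_) hFinj.injOn (Set.toFinite _)
          have h3 : T (F p).1 (F p).2 = c j r := by
            rw [← hp.1]
            exact hT j p.1 p.2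
          exact hp.2.imp (fun h => ⟨h, h3⟩) fun h => ⟨h, h3⟩)
      have hπB : ∀ r, F (r, π r) ∉ B ∧ F (r, π r) ∉ D := fun r => not_or.1 (hπ r)
      set E : X' j → X × Y := fun r => F (r, π r) with hE
      have hEinj : Function.Injective E := fun r r' e => (Prod.mk.inj (hFinj e)).1
      have hdisj : Disjoint D (univ.image E) := by
        refine disjoint_left.2 fun p hp hp' => ?_
        obtain ⟨r, -, rfl⟩ := mem_image.1 hp'
        exact (hπB r).2 hp
      have count : ∀ {V : J → Type} {W : Type} (φ : X × Y → W) (e : ∀ j, V j → W) (θ : X' j → V j)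
          (_ : Function.Bijective θ) (_ : Function.Injective (e j)) (_ : ∀ r, φ (E r) = e j (θ r))
          (_ : ∀ w, (D.filter fun p => φ p = w).card = (s.filter fun j => w ∈ Set.range (e j)).card) (w : W),
          ((D ∪ univ.image E).filter fun p => φ p = w).card =
            ((insert j s).filter fun j => w ∈ Set.range (e j)).card := by
        intro V W φ e θ hθ he hφ hD1 w
        rw [filter_union, card_union_of_disjoint (disjoint_filter_filter hdisj), hD1, filter_image,
          card_image_of_injective _ hEinj, filter_insert]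
        have h1 : (univ.filter fun r => φ (E r) = w) = univ.filter fun r => (e j ∘ θ) r = w := by
          refine filter_congr fun r _ => ?_
          rw [hφ]
          rfl
        have h3 : w ∈ Set.range (e j ∘ θ) ↔ w ∈ Set.range (e j) := by rw [hθ.2.range_comp]
        rw [h1, card_fibre (he.comp hθ.1)]
        by_cases h2 : w ∈ Set.range (e j)
        · rw [if_pos (h3.2 h2), if_pos h2, card_insert_of_notMem fun h => hj (mem_filter.1 h).1]
        · rw [if_neg fun h => h2 (h3.1 h), if_neg h2, add_zero]
      refine ⟨D ∪ univ.image E, fun p hp => ?_, count (fun p => p.1) a id Function.bijective_id (ha j)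
        (fun r => rfl) hDx, count (fun p => p.2) b π π.bijective (hb j) (fun r => rfl) hDy,
        count (fun p => T p.1 p.2) c (fun x => T' j x (π x)) hσ (hc j) (fun r => hT j r (π r)) hDz⟩
      rcases mem_union.1 hp with hp | hp
      · exact hD p hp
      · obtain ⟨r, -, rfl⟩ := mem_image.1 hp
        exact (hπB r).1
  obtain ⟨D, hD, hDx, hDy, hDz⟩ := key univ
  refine ⟨(D : Set (X × Y)), ⟨fun x => ?_, fun y => ?_, fun z => ?_⟩, fun p hp => hD p hp⟩
  · rw [← hx' x, ← hDx x, ← Set.ncard_coe_finset]
    refine (Set.ncard_congr (fun p _ => p.2) (fun p hp => ?_) (fun p q hp hq e => ?_) fun y hy => ?_).symm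
    · simp only [coe_filter, Set.mem_ofPred_eq] at hp
      change (x, p.2) ∈ (D : Set (X × Y))
      rw [← hp.2]
      exact hp.1
    · simp only [coe_filter, Set.mem_ofPred_eq] at hp hq
      exact Prod.ext (hp.2.trans hq.2.symm) e
    · exact ⟨(x, y), by simp only [coe_filter, Set.mem_ofPred_eq]; exact ⟨hy, trivial⟩, rfl⟩
  · rw [← hy' y, ← hDy y, ← Set.ncard_coe_finset]
    refine (Set.ncard_congr (fun p _ => p.1) (fun p hp => ?_) (fun p q hp hq e => ?_) fun x hx => ?_).symm
    · simp only [coe_filter, Set.mem_ofPred_eq] at hp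
      change (p.1, y) ∈ (D : Set (X × Y))
      rw [← hp.2]
      exact hp.1
    · simp only [coe_filter, Set.mem_ofPred_eq] at hp hq
      exact Prod.ext e (hp.2.trans hq.2.symm)
    · exact ⟨(x, y), by simp only [coe_filter, Set.mem_ofPred_eq]; exact ⟨hx, trivial⟩, rfl⟩
  · rw [← hz' z, ← hDz z, ← Set.ncard_coe_finset]
    congr 1
    ext p
    simp

end chart

/-- blocks with transversals avoiding sets of cells, over a twofold cover -/
theorem robust_of_pair {R C S R' C' S' : Type} [Finite R] [Finite C] {t : ℕ}
    {L : R → C → S} {L' : R' → C' → S'} (h : Epi L L') (hL' : Pair L' L')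
    (hb : ∀ r' c', RobustT (t + 1) (h.block (rfl : L' r' c' = L' r' c'))) : Robust t L := by
  classical
  have fR' : Finite R' := Finite.of_surjective _ h.row_surj
  have fC' : Finite C' := Finite.of_surjective _ h.col_surj
  obtain ⟨π₁, π₂, hπ⟩ := hL'
  set π : Bool → (R' ≃ C') := fun b => if b then π₂ else π₁ with hπdef
  refine robust_of_charts' (J := Bool × R') L (fun j => {r // h.row r = j.2}) (fun j => {c // h.col c = π j.1 j.2})
    (fun j => {s // h.sym s = L' j.2 (π j.1 j.2)}) (fun j => h.block (rfl : L' j.2 (π j.1 j.2) = _))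
    (fun _ r => r) (fun _ r => r) (fun _ r => r) t (fun j => hb _ _)
    (fun _ => Subtype.val_injective) (fun _ => Subtype.val_injective) (fun _ => Subtype.val_injective)
    (fun j r s => rfl) (fun x => ?_) (fun y => ?_) (fun z => ?_)
  · have h1 : {j : Bool × R' | x ∈ Set.range fun r : {r // h.row r = j.2} => (r : R)} =
        (fun b => (b, h.row x)) '' Set.univ := by
      ext ⟨b, r'⟩
      constructor
      · rintro ⟨g, hg⟩
        refine ⟨b, Set.mem_univ _, Prod.ext rfl ?_⟩
        rw [← g.2]
        exact congrArg h.row hg.symm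
      · rintro ⟨b', -, e⟩
        obtain ⟨rfl, rfl⟩ := Prod.mk.inj e
        exact ⟨⟨x, rfl⟩, rfl⟩
    rw [h1, Set.ncard_image_of_injective _ (fun a b e => (Prod.mk.inj e).1), Set.ncard_univ]
    simp
  · have h1 : {j : Bool × R' | y ∈ Set.range fun r : {c // h.col c = π j.1 j.2} => (r : C)} =
        (fun b => (b, (π b).symm (h.col y))) '' Set.univ := by
      ext ⟨b, r'⟩
      constructor
      · rintro ⟨g, hg⟩
        refine ⟨b, Set.mem_univ _, Prod.ext rfl ?_⟩
        change (π b).symm (h.col y) = r'
        rw [Equiv.symm_apply_eq, ← g.2]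
        exact congrArg h.col hg.symm
      · rintro ⟨b', -, e⟩
        obtain ⟨rfl, rfl⟩ := Prod.mk.inj e
        exact ⟨⟨y, (Equiv.apply_symm_apply _ _).symm⟩, rfl⟩
    rw [h1, Set.ncard_image_of_injective _ (fun a b e => (Prod.mk.inj e).1), Set.ncard_univ]
    simp
  · have h1 : {j : Bool × R' | z ∈ Set.range fun r : {s // h.sym s = L' j.2 (π j.1 j.2)} => (r : S)} =
        {j : Bool × R' | L' j.2 (π j.1 j.2) = h.sym z} := by
      ext ⟨b, r'⟩
      constructor
      · rintro ⟨g, hg⟩
        change L' r' (π b r') = h.sym z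
        rw [← g.2]
        exact congrArg h.sym hg
      · intro e
        exact ⟨⟨z, e.symm⟩, rfl⟩
    rw [h1, ncard_bool, ← hπ (h.sym z)]
    rfl

/-- robust transversals of isotopic tables -/
theorem robustT_of_isotopic {X Y Z X' Y' Z' : Type} [Finite X'] [Finite Y'] {T : X → Y → Z} {T' : X' → Y' → Z'}
    {t : ℕ} (α : X ≃ X') (β : Y ≃ Y') (γ : Z ≃ Z') (h : ∀ x y, γ (T x y) = T' (α x) (β y)) (hT' : RobustT t T') :
    RobustT t T := by
  intro B hBr hBc hBs
  have fX : Finite X := Finite.of_equiv _ α.symm
  have fY : Finite Y := Finite.of_equiv _ β.symm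
  have hT : ∀ x y, T (α.symm x) (β.symm y) = γ.symm (T' x y) := fun x y => by
    rw [Equiv.eq_symm_apply, h, α.apply_symm_apply, β.apply_symm_apply]
  obtain ⟨π, h1, h2⟩ := hT' {p | (α.symm p.1, β.symm p.2) ∈ B}
    (fun x => (Set.ncard_le_ncard_of_injOn β.symm (fun y hy => hy) β.symm.injective.injOn (Set.toFinite _)).trans
      (hBr (α.symm x)))
    (fun y => (Set.ncard_le_ncard_of_injOn α.symm (fun x hx => hx) α.symm.injective.injOn (Set.toFinite _)).trans
      (hBc (β.symm y)))
    (fun z => by
      refine le_trans ?_ (hBs (γ.symm z))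
      refine Set.ncard_le_ncard_of_injOn (fun p => (α.symm p.1, β.symm p.2)) (fun p hp => ?_) (fun p _ q _ e => ?_)
        (Set.toFinite _)
      · exact ⟨by rw [hT, hp.1], hp.2⟩
      · exact Prod.ext (α.symm.injective (Prod.mk.inj e).1) (β.symm.injective (Prod.mk.inj e).2))
  refine ⟨(α.trans π).trans β.symm, ?_, fun x hx => h2 (α x) ?_⟩
  · have e1 : (fun x => T x (((α.trans π).trans β.symm) x)) = γ.symm ∘ (fun x => T' x (π x)) ∘ α := by
      funext x
      change T x (β.symm (π (α x))) = γ.symm (T' (α x) (π (α x)))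
      rw [← hT, α.symm_apply_apply]
    rw [e1]
    exact γ.symm.bijective.comp (h1.comp α.bijective)
  · change (α.symm (α x), β.symm (π (α x))) ∈ B
    rw [α.symm_apply_apply]
    exact hx

/-- robust transversals of blocks over a transversal -/
theorem robustT_of_blocks {R C S R' C' S' : Type} [Finite R] [Finite C] {t : ℕ}
    {L : R → C → S} {L' : R' → C' → S'} (h : Epi L L') (π : R' ≃ C')
    (hπ : Function.Bijective fun r' => L' r' (π r'))
    (hb : ∀ r', RobustT t (h.block (rfl : L' r' (π r') = L' r' (π r')))) : RobustT t L := by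
  intro B hBr hBc hBs
  have h1 : ∀ r', ∃ σ : {r // h.row r = r'} ≃ {c // h.col c = π r'},
      (Function.Bijective fun x => h.block (rfl : L' r' (π r') = _) x (σ x)) ∧
      ∀ x, (x, σ x) ∉ {p : {r // h.row r = r'} × {c // h.col c = π r'} | ((p.1 : R), (p.2 : C)) ∈ B} := by
    intro r'
    refine hb r' _ (fun x => ?_) (fun y => ?_) (fun z => ?_)
    · exact (Set.ncard_le_ncard_of_injOn Subtype.val (fun y hy => hy) Subtype.val_injective.injOn
        (Set.toFinite _)).trans (hBr x)
    · exact (Set.ncard_le_ncard_of_injOn Subtype.val (fun y hy => hy) Subtype.val_injective.injOn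
        (Set.toFinite _)).trans (hBc y)
    · refine le_trans ?_ (hBs z)
      refine Set.ncard_le_ncard_of_injOn (fun p => ((p.1 : R), (p.2 : C))) (fun p hp => ?_) (fun p _ q _ e => ?_)
        (Set.toFinite _)
      · exact ⟨congrArg Subtype.val hp.1, hp.2⟩
      · exact Prod.ext (Subtype.ext (Prod.mk.inj e).1) (Subtype.ext (Prod.mk.inj e).2)
  choose σ hσ hσB using h1
  set e₁ : (Σ r', {r // h.row r = r'}) ≃ R := Equiv.sigmaFiberEquiv h.row with he₁
  set e₂ : (Σ r', {c // h.col c = π r'}) ≃ C :=
    (Equiv.sigmaCongrLeft (β := fun c' => {c // h.col c = c'}) π).trans (Equiv.sigmaFiberEquiv h.col) with he₂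
  set e₃ : (Σ r', {s // h.sym s = L' r' (π r')}) ≃ S :=
    (Equiv.sigmaCongrLeft (β := fun s' => {s // h.sym s = s'}) (Equiv.ofBijective _ hπ)).trans
      (Equiv.sigmaFiberEquiv h.sym) with he₃
  refine ⟨(e₁.symm.trans (Equiv.sigmaCongrRight σ)).trans e₂, ?_, fun r => ?_⟩
  · have e4 : (fun r => L r (((e₁.symm.trans (Equiv.sigmaCongrRight σ)).trans e₂) r)) =
        e₃ ∘ (Equiv.sigmaCongrRight fun r' => Equiv.ofBijective _ (hσ r')) ∘ e₁.symm := by
      funext r
      obtain ⟨⟨r', x⟩, rfl⟩ := e₁.surjective r
      simp only [Equiv.trans_apply, Equiv.symm_apply_apply, Function.comp_apply]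
      rfl
    rw [e4]
    exact e₃.bijective.comp ((Equiv.bijective _).comp e₁.symm.bijective)
  · obtain ⟨⟨r', x⟩, rfl⟩ := e₁.surjective r
    intro hB
    refine hσB r' x ?_
    simp only [Equiv.trans_apply, Equiv.symm_apply_apply] at hB
    exact hB

section groups

variable {A : Type} [AddCommGroup A] [Finite A] {t : ℕ}

/-- groups with `ζ` -/
theorem robustT_zeta (hz : Zeta A) (ht : 9 * t < Nat.card A) : RobustT t (fun x y : A => x + y) := by
  classical
  have _ := Fintype.ofFinite A
  obtain ⟨z, hz⟩ := hz
  intro B hBr hBc hBs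
  obtain ⟨π, σ, h⟩ := avoid_zeta z hz t (by rw [← Nat.card_eq_fintype_card]; exact ht) (univ.filter fun p => p ∈ B)
    (fun r => by
      refine le_trans ?_ (hBr r)
      rw [← Set.ncard_coe_finset]
      refine Set.ncard_le_ncard_of_injOn (fun q => q.2) ?_ ?_ (Set.toFinite _)
      · rintro ⟨x, y⟩ hq
        simp only [coe_filter, mem_filter, mem_univ, true_and, Set.mem_ofPred_eq] at hq ⊢
        rw [← hq.2]
        exact hq.1
      · rintro ⟨x, y⟩ hq ⟨x', y'⟩ hq' e
        simp only [coe_filter, mem_filter, mem_univ, true_and, Set.mem_ofPred_eq] at hq hq'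
        exact Prod.ext (hq.2.trans hq'.2.symm) e)
    (fun r => by
      refine le_trans ?_ (hBc r)
      rw [← Set.ncard_coe_finset]
      refine Set.ncard_le_ncard_of_injOn (fun q => q.1) ?_ ?_ (Set.toFinite _)
      · rintro ⟨x, y⟩ hq
        simp only [coe_filter, mem_filter, mem_univ, true_and, Set.mem_ofPred_eq] at hq ⊢
        rw [← hq.2]
        exact hq.1
      · rintro ⟨x, y⟩ hq ⟨x', y'⟩ hq' e
        simp only [coe_filter, mem_filter, mem_univ, true_and, Set.mem_ofPred_eq] at hq hq'
        exact Prod.ext e (hq.2.trans hq'.2.symm))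
    (fun r => by
      refine le_trans ?_ (hBs r)
      rw [← Set.ncard_coe_finset]
      refine Set.ncard_le_ncard ?_ (Set.toFinite _)
      intro q hq
      simp only [coe_filter, mem_filter, mem_univ, true_and, Set.mem_ofPred_eq] at hq ⊢
      exact ⟨hq.2, hq.1⟩)
  refine ⟨π, ?_, fun x hx => (h x).2 (mem_filter.2 ⟨mem_univ _, hx⟩)⟩
  have e : (fun x => x + π x) = σ := funext fun x => (h x).1
  rw [e]
  exact σ.bijective

/-- abelian groups with a large subgroup with `ζ` and a factor group of sum zero -/
theorem robustT_of_zeta (H : AddSubgroup A) (hz : Zeta H) (hH : 9 * t < Nat.card H)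
    (hsum : ∀ [Fintype (A ⧸ H)], ∑ w : A ⧸ H, w = 0) : RobustT t (fun x y : A => x + y) := by
  have h1 : RobustT t (prodTable (fun _ _ : Unit => ()) A) := by
    obtain ⟨π, hπ⟩ := transversal_of_transversal hsum (fun _ _ : Unit => ()) trivial_transversal
    refine robustT_of_blocks (prodEpi (fun _ _ : Unit => ()) H) π hπ fun x => ?_
    obtain ⟨α, β, γ, h⟩ := prod_block (fun _ _ : Unit => ()) H x (π x)
    exact robustT_of_isotopic (T' := fun x y : H => x + y) α β γ h (robustT_zeta hz hH)
  exact robustT_of_isotopic (T' := prodTable (fun _ _ : Unit => ()) A) (Equiv.punitProd A).symm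
      (Equiv.punitProd A).symm (Equiv.punitProd A).symm (fun x y => rfl) h1

end groups

end Pool.Agent.NC79
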