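import Pool.Agent.NC79.Cyc

/-!
# The base duplex of the cyclic groups whose order is divisible by `6`
-/

namespace Pool.Agent.NC79

open Finset

/-- the correction of the slope `-3`: a function of the row which is constant on five arcs -/
def ex (j X : ℕ) : ℤ :=
  if X < j then 0 else if X < 2 * j + 1 then 1 else if X < 4 * j + 1 then 2 else if X < 5 * j then 1 else 0

variable {j : ℕ}

/-- the base duplex of `ℤ/6j`: the cells `(x, x)` and `(x, -3x + 1 + 2e(x))` -/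
def cl6 (j : ℕ) (σ : Bool × ZMod (6 * j)) : ZMod (6 * j) × ZMod (6 * j) :=
  (σ.2, k3 σ.1 • σ.2 + if σ.1 then ((1 + 2 * ex j σ.2.val : ℤ) : ZMod (6 * j)) else 0)

lemma zeq {n : ℕ} {a b : ℤ} (q : ℤ) (h : b - a = n * q) : (a : ZMod n) = b :=
  (ZMod.intCast_eq_intCast_iff_dvd_sub a b n).2 ⟨q, h⟩

lemma zeq' {n : ℕ} {a b : ℤ} (h : (a : ZMod n) = b) : ∃ q : ℤ, b - a = n * q :=
  (ZMod.intCast_eq_intCast_iff_dvd_sub a b n).1 h

lemma ex_cases (j X : ℕ) : ex j X = 0 ∨ ex j X = 1 ∨ ex j X = 2 := by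
  unfold ex
  split_ifs <;> simp

lemma cl6_true (hj : 0 < j) (x : ZMod (6 * j)) :
    (cl6 j (true, x)).2 = ((-3 * (x.val : ℤ) + (1 + 2 * ex j x.val) : ℤ) : ZMod (6 * j)) := by
  have _ : NeZero (6 * j) := ⟨by omega⟩
  simp only [cl6, k3, if_true]
  push_cast
  rw [ZMod.natCast_zmod_val]
  simp

lemma cl6_false (x : ZMod (6 * j)) : (cl6 j (false, x)).2 = x := by
  simp [cl6, k3]

lemma inj_true (hj : 0 < j) : Function.Injective fun x : ZMod (6 * j) => (cl6 j (true, x)).2 := by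
  have _ : NeZero (6 * j) := ⟨by omega⟩
  intro x y e
  simp only [cl6_true hj] at e
  obtain ⟨q, hq⟩ := zeq' e
  have hx := ZMod.val_lt x
  have hy := ZMod.val_lt y
  apply ZMod.val_injective
  generalize x.val = X at *
  generalize y.val = Y at *
  push_cast at hq
  have hj' : (0 : ℤ) < j := by exact_mod_cast hj
  have h1 := ex_cases j X
  have h2 := ex_cases j Y
  have h3 : q ≤ 3 := by
    by_contra hcon
    have : (j : ℤ) * 4 ≤ j * q := mul_le_mul_of_nonneg_left (by omega) hj'.le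
    have h5 : 6 * (j : ℤ) * q = 6 * (j * q) := by ring
    rw [h5] at hq
    generalize (j : ℤ) * q = p at *
    omega
  have h4 : -3 ≤ q := by
    by_contra hcon
    have : (j : ℤ) * q ≤ j * (-4) := mul_le_mul_of_nonneg_left (by omega) hj'.le
    have h5 : 6 * (j : ℤ) * q = 6 * (j * q) := by ring
    rw [h5] at hq
    generalize (j : ℤ) * q = p at *
    omega
  have hX : X < j ∧ ex j X = 0 ∨ (j ≤ X ∧ X < 2 * j + 1) ∧ ex j X = 1 ∨ (2 * j + 1 ≤ X ∧ X < 4 * j + 1) ∧ ex j X = 2 ∨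
      (4 * j + 1 ≤ X ∧ X < 5 * j) ∧ ex j X = 1 ∨ 5 * j ≤ X ∧ ex j X = 0 := by
    unfold ex
    split_ifs <;> omega
  have hY : Y < j ∧ ex j Y = 0 ∨ (j ≤ Y ∧ Y < 2 * j + 1) ∧ ex j Y = 1 ∨ (2 * j + 1 ≤ Y ∧ Y < 4 * j + 1) ∧ ex j Y = 2 ∨
      (4 * j + 1 ≤ Y ∧ Y < 5 * j) ∧ ex j Y = 1 ∨ 5 * j ≤ Y ∧ ex j Y = 0 := by
    unfold ex
    split_ifs <;> omega
  generalize ex j X = E at *
  generalize ex j Y = F at *
  interval_cases q <;> omega

lemma ex_spec (j X : ℕ) : X < j ∧ ex j X = 0 ∨ (j ≤ X ∧ X < 2 * j + 1) ∧ ex j X = 1 ∨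
    (2 * j + 1 ≤ X ∧ X < 4 * j + 1) ∧ ex j X = 2 ∨ (4 * j + 1 ≤ X ∧ X < 5 * j) ∧ ex j X = 1 ∨
    5 * j ≤ X ∧ ex j X = 0 := by
  unfold ex
  split_ifs <;> omega

/-- `X - e(X)` takes every value modulo `3j` twice -/
lemma ex_twice (hj : 0 < j) (w : ℕ) (hw : w < 3 * j) : ∃ X₁ X₂ a₁ a₂ : ℕ, X₁ < X₂ ∧ X₂ < 6 * j ∧
    (X₁ : ℤ) - ex j X₁ = w + 3 * j * a₁ ∧ (X₂ : ℤ) - ex j X₂ = w + 3 * j * a₂ := by
  by_cases h1 : w + 1 < j
  · refine ⟨w, w + 3 * j + 2, 0, 1, by omega, by omega, ?_, ?_⟩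
    · have := ex_spec j w
      omega
    · have := ex_spec j (w + 3 * j + 2)
      push_cast
      omega
  by_cases h2 : w + 1 = j
  · refine ⟨w, w + 1, 0, 0, by omega, by omega, ?_, ?_⟩
    · have := ex_spec j w
      omega
    · have := ex_spec j (w + 1)
      push_cast
      omega
  by_cases h3 : w + 1 < 2 * j
  · refine ⟨w + 1, w + 3 * j + 1, 0, 1, by omega, by omega, ?_, ?_⟩
    · have := ex_spec j (w + 1)
      push_cast
      omega
    · have := ex_spec j (w + 3 * j + 1)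
      push_cast
      omega
  by_cases h4 : w + 1 = 2 * j
  · refine ⟨w + 1, w + 2, 0, 0, by omega, by omega, ?_, ?_⟩
    · have := ex_spec j (w + 1)
      push_cast
      omega
    · have := ex_spec j (w + 2)
      push_cast
      omega
  · refine ⟨w + 2, w + 3 * j, 0, 1, by omega, by omega, ?_, ?_⟩
    · have := ex_spec j (w + 2)
      push_cast
      omega
    · have := ex_spec j (w + 3 * j)
      push_cast
      omega

lemma sum_true (hj : 0 < j) (X : ℕ) (hX : X < 6 * j) :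
    (cl6 j (true, (X : ZMod (6 * j)))).1 + (cl6 j (true, (X : ZMod (6 * j)))).2 =
      ((-2 * ((X : ℤ) - ex j X) + 1 : ℤ) : ZMod (6 * j)) := by
  have _ : NeZero (6 * j) := ⟨by omega⟩
  rw [cl6_true hj, ZMod.val_natCast_of_lt hX]
  simp only [cl6]
  push_cast
  ring

lemma sum_two (hj : 0 < j) (r : ZMod (6 * j)) [Fintype (ZMod (6 * j))] :
    (univ.filter fun σ => (cl6 j σ).1 + (cl6 j σ).2 = r).card = 2 := by
  have _ : NeZero (6 * j) := ⟨by omega⟩
  refine eq_two (fun σ => (cl6 j σ).1 + (cl6 j σ).2) (fun r => ?_) r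
  have hr := ZMod.val_lt r
  have hr' : ((r.val : ℤ) : ZMod (6 * j)) = r := by
    rw [Int.cast_natCast, ZMod.natCast_zmod_val]
  generalize r.val = ρ at *
  subst hr'
  rcases Nat.even_or_odd' ρ with ⟨u, rfl | rfl⟩
  · refine two_le _ _ (false, (u : ZMod (6 * j))) (false, ((u + 3 * j : ℕ) : ZMod (6 * j))) ?_ ?_ ?_
    · intro e
      have e1 := congrArg ZMod.val (Prod.mk.inj e).2
      rw [ZMod.val_natCast_of_lt (by omega), ZMod.val_natCast_of_lt (by omega)] at e1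
      omega
    · simp only [cl6_false]
      simp only [cl6]
      push_cast
      ring
    · simp only [cl6_false]
      simp only [cl6]
      have : ((u + 3 * j : ℕ) : ZMod (6 * j)) + ((u + 3 * j : ℕ) : ZMod (6 * j)) =
          (((2 * u + 6 * j : ℕ) : ℤ) : ZMod (6 * j)) := by
        push_cast
        ring
      rw [this]
      exact zeq (-1) (by push_cast; ring)
  · obtain ⟨w, hw, b, hb⟩ : ∃ w : ℕ, w < 3 * j ∧ ∃ b : ℤ, (w : ℤ) + u = 3 * j * b := by
      by_cases hu : u = 0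
      · exact ⟨0, by omega, 0, by subst hu; simp⟩
      · refine ⟨3 * j - u, by omega, 1, ?_⟩
        have : u ≤ 3 * j := by omega
        push_cast [this]
        ring
    obtain ⟨X₁, X₂, a₁, a₂, h1, h2, h3, h4⟩ := ex_twice hj w hw
    refine two_le _ _ (true, (X₁ : ZMod (6 * j))) (true, (X₂ : ZMod (6 * j))) ?_ ?_ ?_
    · intro e
      have e1 := congrArg ZMod.val (Prod.mk.inj e).2
      rw [ZMod.val_natCast_of_lt (by omega), ZMod.val_natCast_of_lt (by omega)] at e1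
      omega
    · rw [sum_true hj X₁ (by omega), h3]
      refine zeq (b + a₁) ?_
      push_cast
      linear_combination 2 * hb
    · rw [sum_true hj X₂ (by omega), h4]
      refine zeq (b + a₂) ?_
      push_cast
      linear_combination 2 * hb

lemma no_coll (hj : 0 < j) (x : ZMod (6 * j)) : cl6 j (true, x) ≠ cl6 j (false, x) := by
  have _ : NeZero (6 * j) := ⟨by omega⟩
  intro e
  have e1 := congrArg Prod.snd e
  rw [cl6_true hj, cl6_false] at e1
  have e2 : ((x.val : ℤ) : ZMod (6 * j)) = x := by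
    rw [Int.cast_natCast, ZMod.natCast_zmod_val]
  nth_rewrite 3 [← e2] at e1
  obtain ⟨q, hq⟩ := zeq' e1
  push_cast at hq
  have h5 : 6 * (j : ℤ) * q = 6 * (j * q) := by ring
  rw [h5] at hq
  generalize (j : ℤ) * q = p at *
  omega

end Pool.Agent.NC79
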