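import Pool.Agent.NC79.Zeta

/-!
# Subgroups `S × S` of a finite abelian group

The maximal order of a subgroup of the form `S × S` is at least the index of a cyclic subgroup of maximal order.
-/

namespace Pool.Agent.NC79

open Finset

/-- the homomorphism from `ZMod n` with a given image of `1` -/
noncomputable def toOne {A : Type*} [AddCommGroup A] {n : ℕ} (g : A) (hg : n • g = 0) : ZMod n →+ A :=
  ZMod.lift n ⟨zmultiplesHom A g, by rw [zmultiplesHom_apply, natCast_zsmul, hg]⟩

lemma toOne_coe {A : Type*} [AddCommGroup A] {n : ℕ} (g : A) (hg : n • g = 0) (k : ℤ) :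
    toOne g hg (k : ZMod n) = k • g := by
  rw [toOne, ZMod.lift_coe, zmultiplesHom_apply]

lemma toOne_injective {A : Type*} [AddCommGroup A] (g : A) :
    Function.Injective (toOne g (addOrderOf_nsmul_eq_zero g)) := by
  rw [toOne, ZMod.lift_injective]
  intro m hm
  rw [zmultiplesHom_apply, ← addOrderOf_dvd_iff_zsmul_eq_zero] at hm
  exact (ZMod.intCast_zmod_eq_zero_iff_dvd _ _).2 hm

/-- a cyclic subgroup of maximal order is a direct summand -/
lemma split (A : Type) [AddCommGroup A] [Finite A] :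
    ∃ K : AddSubgroup A, Nonempty (ZMod (AddMonoid.exponent A) × K ≃+ A) := by
  classical
  obtain ⟨g, hg⟩ := AddMonoid.exists_addOrderOf_eq_exponent (G := A) AddMonoid.ExponentExists.of_finite
  have he0 : AddMonoid.exponent A ≠ 0 := by
    rw [← hg]
    exact (addOrderOf_pos g).ne'
  set e := AddMonoid.exponent A with he
  have hx : e • g = 0 := AddMonoid.exponent_nsmul_eq_zero g
  have _ : NeZero e := ⟨he0⟩
  set f : ZMod e →+ A := toOne g hx with hf
  have hfk : ∀ k : ℤ, f (k : ZMod e) = k • g := fun k => toOne_coe g hx k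
  have hf_inj : Function.Injective f := by
    rw [hf, toOne, ZMod.lift_injective]
    intro m hm
    rw [zmultiplesHom_apply, ← addOrderOf_dvd_iff_zsmul_eq_zero, hg] at hm
    exact (ZMod.intCast_zmod_eq_zero_iff_dvd _ _).2 hm
  have hu : e • (((1 / (e : ℚ) : ℚ)) : AddCircle (1 : ℚ)) = 0 := by
    rw [← AddCircle.coe_nsmul, AddCircle.coe_eq_zero_iff]
    refine ⟨1, ?_⟩
    have : (e : ℚ) ≠ 0 := Nat.cast_ne_zero.2 he0
    simp [this]
  set c₀ : ZMod e →+ AddCircle (1 : ℚ) := toOne _ hu with hc₀
  have hck : ∀ k : ℤ, c₀ (k : ZMod e) = k • (((1 / (e : ℚ) : ℚ)) : AddCircle (1 : ℚ)) := fun k => toOne_coe _ hu k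
  have hc₀_inj : Function.Injective c₀ := by
    rw [hc₀, toOne, ZMod.lift_injective]
    intro m hm
    rw [zmultiplesHom_apply, ← AddCircle.coe_zsmul, AddCircle.coe_eq_zero_iff] at hm
    obtain ⟨n, hn⟩ := hm
    have h1 : (e : ℚ) ≠ 0 := Nat.cast_ne_zero.2 he0
    have h2 : (n : ℚ) * e = m := by
      simp only [zsmul_eq_mul, mul_one] at hn
      field_simp at hn
      linarith
    refine (ZMod.intCast_zmod_eq_zero_iff_dvd _ _).2 ⟨n, ?_⟩
    have h3 : ((n * e : ℤ) : ℚ) = (m : ℤ) := by push_cast; exact h2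
    have h4 : n * (e : ℤ) = m := by exact_mod_cast h3
    rw [← h4, mul_comm]
  obtain ⟨c, hc⟩ := (Module.Baer.of_divisible (AddCircle (1 : ℚ))).extension_property_addMonoidHom f hf_inj c₀
  have hcf : ∀ k, c (f k) = c₀ k := fun k => by rw [← hc]; rfl
  have hsurj : ∀ a, ∃ k : ZMod e, c a = c₀ k := fun a => by
    have h1 : e • c a = 0 := by rw [← map_nsmul, AddMonoid.exponent_nsmul_eq_zero a, map_zero]
    obtain ⟨q, hq⟩ := QuotientAddGroup.mk_surjective (c a)
    have h2 : ((e • q : ℚ) : AddCircle (1 : ℚ)) = 0 := by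
      rw [AddCircle.coe_nsmul]
      have : ((q : ℚ) : AddCircle (1 : ℚ)) = c a := hq
      rw [this, h1]
    rw [AddCircle.coe_eq_zero_iff] at h2
    obtain ⟨n, hn⟩ := h2
    refine ⟨(n : ZMod e), ?_⟩
    rw [hck, ← AddCircle.coe_zsmul]
    have h3 : (e : ℚ) ≠ 0 := Nat.cast_ne_zero.2 he0
    have h4 : n • (1 / (e : ℚ)) = q := by
      simp only [zsmul_eq_mul, mul_one, nsmul_eq_mul] at hn ⊢
      field_simp
      linarith
    rw [h4]
    exact hq.symm
  refine ⟨c.ker, ⟨AddEquiv.ofBijective (f.coprod c.ker.subtype) ⟨?_, ?_⟩⟩⟩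
  · rw [injective_iff_map_eq_zero]
    rintro ⟨k, x⟩ hkx
    rw [AddMonoidHom.coprod_apply] at hkx
    have h1 : c (f k + c.ker.subtype x) = 0 := by rw [hkx, map_zero]
    have h2 : c (c.ker.subtype x) = 0 := x.2
    rw [map_add, h2, add_zero, hcf] at h1
    have h3 : k = 0 := hc₀_inj (h1.trans (map_zero c₀).symm)
    subst h3
    rw [map_zero, zero_add] at hkx
    exact Prod.ext rfl (Subtype.ext hkx)
  · intro a
    obtain ⟨k, hk⟩ := hsurj a
    refine ⟨(k, ⟨a - f k, ?_⟩), ?_⟩
    · rw [AddMonoidHom.mem_ker, map_sub, hcf, hk, sub_self]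
    · rw [AddMonoidHom.coprod_apply]
      exact add_sub_cancel _ _

/-- a large subgroup of the form `S × S` -/
theorem exists_square (n : ℕ) : ∀ (A : Type) [AddCommGroup A] [Finite A], Nat.card A = n →
    ∃ (S : Type) (_ : AddCommGroup S) (_ : Finite S) (f : S × S →+ A), Function.Injective f ∧
      Nat.card A ≤ AddMonoid.exponent A * Nat.card S ^ 2 := by
  induction n using Nat.strong_induction_on with
  | _ n ih =>
    intro A _ _ hA
    obtain ⟨K, ⟨φ⟩⟩ := split A
    by_cases h1 : AddMonoid.exponent A = 1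
    · refine ⟨PUnit, inferInstance, inferInstance, 0, fun x y _ => Subsingleton.elim x y, ?_⟩
      have h2 : Subsingleton A := AddMonoid.exp_eq_one_iff.1 h1
      have h3 : Nat.card A ≤ 1 := Finite.card_le_one_iff_subsingleton.2 h2
      rw [h1, Nat.card_eq_fintype_card (α := PUnit), Fintype.card_punit, one_pow, mul_one]
      exact h3
    · obtain ⟨K', ⟨ψ⟩⟩ := split K
      set e := AddMonoid.exponent A with he
      set e1 := AddMonoid.exponent K with he1
      have he0 : 2 ≤ e := by
        have : e ≠ 0 := AddMonoid.exponent_ne_zero_of_finite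
        omega
      have he10 : e1 ≠ 0 := AddMonoid.exponent_ne_zero_of_finite
      have c1 : Nat.card A = e * Nat.card K := by
        rw [← Nat.card_congr φ.toEquiv, Nat.card_prod, Nat.card_zmod]
      have c2 : Nat.card K = e1 * Nat.card K' := by
        rw [← Nat.card_congr ψ.toEquiv, Nat.card_prod, Nat.card_zmod]
      have hK'pos : 0 < Nat.card K' := Nat.card_pos
      have hlt : Nat.card K' < n := by
        rw [← hA, c1, c2]
        have h3 : 1 ≤ e1 := Nat.one_le_iff_ne_zero.2 he10
        nlinarith [Nat.mul_le_mul he0 (Nat.mul_le_mul h3 (le_refl (Nat.card K')))]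
      obtain ⟨S, iS, fS, f, hf, hcard⟩ := ih _ hlt K' rfl
      have hdvd : e1 ∣ e := AddMonoid.exponent_dvd_of_addMonoidHom K.subtype K.subtype_injective
      have hdvd' : AddMonoid.exponent K' ∣ e1 :=
        AddMonoid.exponent_dvd_of_addMonoidHom K'.subtype K'.subtype_injective
      obtain ⟨d, hd⟩ := hdvd
      have _ : NeZero e := ⟨by omega⟩
      have _ : NeZero e1 := ⟨he10⟩
      have hd0 : e1 • ((d : ℕ) : ZMod e) = 0 := by
        rw [nsmul_eq_mul, ← Nat.cast_mul, ← hd, ZMod.natCast_self]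
      set F : ZMod e1 →+ ZMod e := toOne _ hd0 with hF
      have hFinj : Function.Injective F := by
        rw [hF, toOne, ZMod.lift_injective]
        intro m hm
        rw [zmultiplesHom_apply, zsmul_eq_mul] at hm
        have h4 : ((m * d : ℤ) : ZMod e) = 0 := by push_cast; exact hm
        rw [ZMod.intCast_zmod_eq_zero_iff_dvd, hd] at h4
        obtain ⟨r, hr⟩ := h4
        push_cast at hr
        have hdne : (d : ℤ) ≠ 0 := by
          rintro h5
          have : d = 0 := by exact_mod_cast h5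
          rw [this, mul_zero] at hd
          omega
        refine (ZMod.intCast_zmod_eq_zero_iff_dvd _ _).2 ⟨r, ?_⟩
        apply mul_right_cancel₀ hdne
        rw [hr]
        ring
      refine ⟨ZMod e1 × S, inferInstance, inferInstance,
        φ.toAddMonoidHom.comp (((AddMonoidHom.id (ZMod e)).prodMap ψ.toAddMonoidHom).comp
          { toFun := fun p => (F p.1.1, (p.2.1, f (p.1.2, p.2.2)))
            map_zero' := by
              refine Prod.ext (map_zero F) (Prod.ext rfl ?_)
              exact map_zero f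
            map_add' := fun p q => by
              refine Prod.ext (map_add F _ _) (Prod.ext rfl ?_)
              exact map_add f (p.1.2, p.2.2) (q.1.2, q.2.2) }), ?_, ?_⟩
      · rintro ⟨⟨x, s⟩, ⟨y, s'⟩⟩ ⟨⟨x', t⟩, ⟨y', t'⟩⟩ h
        have h' : (F x, ψ (y, f (s, s'))) = (F x', ψ (y', f (t, t'))) := φ.injective h
        obtain ⟨h5, h6'⟩ := Prod.mk.inj h'
        obtain ⟨h7, h8⟩ := Prod.mk.inj (ψ.injective h6')
        have h9 := hFinj h5
        obtain ⟨h10, h11⟩ := Prod.mk.inj (hf h8)
        rw [h9, h7, h10, h11]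
      · rw [c1, c2, Nat.card_prod, Nat.card_zmod]
        have h12 : AddMonoid.exponent K' ≤ e1 := Nat.le_of_dvd (Nat.pos_of_ne_zero he10) hdvd'
        calc e * (e1 * Nat.card K') ≤ e * (e1 * (AddMonoid.exponent K' * Nat.card S ^ 2)) := by gcongr
          _ ≤ e * (e1 * (e1 * Nat.card S ^ 2)) := by gcongr
          _ = e * (e1 * Nat.card S) ^ 2 := by ring

end Pool.Agent.NC79
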