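import Pool.Agent.NC79.Part

/-!
# Tables close to a given table have duplexes
-/

namespace Pool.Agent.NC79

open Pool.Agent.Duplex38

/-- Every table `L` which, for some naming of its rows, columns and symbols by those of `T`, agrees with `T` in all but
at most `t` cells of each row, of each column and of each set of cells where `T` has a given symbol, has a duplex
consisting of cells where it agrees with `T`. -/
def Stable (t : ℕ) {X Y Z : Type} (T : X → Y → Z) : Prop :=
  ∀ (R C S : Type) (row : R ≃ X) (col : C ≃ Y) (sym : S ≃ Z) (L : R → C → S),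
    (∀ r, {c | sym (L r c) ≠ T (row r) (col c)}.ncard ≤ t) →
    (∀ c, {r | sym (L r c) ≠ T (row r) (col c)}.ncard ≤ t) →
    (∀ s, {x : R × C | T (row x.1) (col x.2) = sym s ∧ L x.1 x.2 ≠ s}.ncard ≤ t) →
    ∃ D, IsDuplex L D ∧ ∀ x ∈ D, sym (L x.1 x.2) = T (row x.1) (col x.2)

theorem stable_of_robust {X Y Z : Type} [Finite X] [Finite Y] {t : ℕ} {T : X → Y → Z} (hT : Robust t T) :
    Stable t T := fun _ _ _ row col sym L hr hc hs => close hT row col sym L hr hc hs

end Pool.Agent.NC79
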