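import Pool.Agent.NC79.Arc

/-!
# The base duplex of `ℤ/6j` has many exchanges through every cell
-/

namespace Pool.Agent.NC79

open Finset

variable {j : ℕ}

/-- for each cell of arcs the class `c` of the exchanges of `pat30` -/
def tc : Fin 24 → ℤ := ![0, 0, 0, 0, 0, 0, 1, 1, 0, 0, 2, 2, 2, 2, 2, 2, 1, 1, 0, 0, 0, 0, 0, 0]

/-- the range of the first parameter of `pat30` -/
def ts0 : Fin 24 → ℤ := ![0, 0, 0, 2, 6, 11, 0, 1, 15, 18, 0, 0, 0, 0, 0, 2, 33, 34, 60, 61, 63, 0, 0, 0]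

/-- the range of the second parameter of `pat30` -/
def tt0 : Fin 24 → ℤ := ![0, 0, 0, 70, 69, 67, 0, 35, 18, 17, 0, 0, 0, 0, 0, 71, 37, 0, 3, 2, 0, 0, 0, 0]

/-- the range of the first parameter of `pat32` -/
def ts1 : Fin 24 → ℤ := ![0, 0, 0, 36, 20, 17, 15, 2, 38, 35, 32, 13, 8, 5, 2, 0, 20, 17, 15, 2, 3, 0, 0, 0]

/-- the range of the second parameter of `pat32` -/
def tt1 : Fin 24 → ℤ := ![0, 0, 0, 17, 17, 17, 17, 26, 35, 35, 35, 51, 53, 53, 53, 52, 53, 53, 17, 62, 71, 71, 0, 0]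

lemma check0 : ∀ i : Fin 24, ∀ r : Fin 9, pat30.typ r = true →
    arcAt (tc i) (rowLo pat30 (ts0 i) (tt0 i) (3 * (i : ℕ)) r) (rowHi pat30 (ts0 i) (tt0 i) (3 * (i : ℕ)) r)
      ((rowLo pat30 (ts0 i) (tt0 i) (3 * (i : ℕ)) r + 12) / 72) := by
  decide +kernel

lemma check1 : ∀ i : Fin 24, ∀ r : Fin 9, pat32.typ r = true → r ≠ pat32.i0 →
    arcAt (cls i) (rowLo pat32 (ts1 i) (tt1 i) (3 * (i : ℕ)) r) (rowHi pat32 (ts1 i) (tt1 i) (3 * (i : ℕ)) r)
      ((rowLo pat32 (ts1 i) (tt1 i) (3 * (i : ℕ)) r + 12) / 72) := by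
  decide +kernel

lemma tc_range : ∀ i, 0 ≤ tc i ∧ tc i ≤ 2 := by decide

lemma cls_range : ∀ i, 0 ≤ cls i ∧ cls i ≤ 2 := by decide

lemma cb30 : ∀ r, |pat30.cb r| ≤ 1 := by decide

lemma cb32 : ∀ r, |pat32.cb r| ≤ 1 := by decide

lemma cl6_eq {c : ℤ} (σ : Bool × ZMod (6 * j)) (h : σ.1 = true → ex j σ.2.val = c) :
    cl6 j σ = cell k3 (oc j c) σ := by
  obtain ⟨b, x⟩ := σ
  cases b
  · simp [cl6, cell, oc]
  · simp only [cl6, cell, oc, if_true]
    rw [h rfl]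

theorem base6 (hj : 60 ≤ j) [Fintype (ZMod (6 * j))] : Base 0 ((j / 12) * (j / 12)) k3 (cl6 j) where
  fst := fun σ => rfl
  col := fun r => eq_two_of_bij (fun c x => (cl6 j (c, x)).2) (fun c => by
    cases c
    · intro x y e
      simp only [cl6_false] at e
      exact e
    · exact inj_true (by omega)) r
  sum := fun r => sum_two (by omega) r
  coll := by
    rw [Nat.le_zero, card_eq_zero, filter_eq_empty_iff]
    exact fun x _ => no_coll (by omega) x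
  ex := by
    rintro ⟨b, v⟩
    obtain ⟨i, hi, hv⟩ := cell_of hj v
    cases b
    · obtain ⟨X₁, h1, h2⟩ := box hj (ts0 i)
      obtain ⟨X₂, h3, h4⟩ := box hj (tt0 i)
      refine ⟨pat30, oc j (tc i), X₁ ×ˢ X₂, ok30, rfl, by rw [card_product, h1, h3], fun x hx r => ?_⟩
      rw [mem_product] at hx
      refine cl6_eq _ fun hr => ?_
      exact ex_of_in hj (row_in hj pat30 cb30 (tc_range i).1 (tc_range i).2 (h2 _ hx.1) (h4 _ hx.2) hv r)
        (check0 i r hr)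
    · obtain ⟨X₁, h1, h2⟩ := box hj (ts1 i)
      obtain ⟨X₂, h3, h4⟩ := box hj (tt1 i)
      refine ⟨pat32, oc j (cls i), X₁ ×ˢ X₂, ok32, rfl, by rw [card_product, h1, h3], fun x hx r => ?_⟩
      rw [mem_product] at hx
      refine cl6_eq _ fun hr => ?_
      by_cases h5 : r = pat32.i0
      · subst h5
        change ex j (pat32.row (oc j (cls i)) v x pat32.i0).val = cls i
        rw [Pat.row_base ok32, hi]
      · exact ex_of_in hj (row_in hj pat32 cb32 (cls_range i).1 (cls_range i).2 (h2 _ hx.1) (h4 _ hx.2) hv r)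
          (check1 i r hr h5)

end Pool.Agent.NC79
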