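import Pool.Agent.NC79.Grp

/-!
# Products of a latin square and a soluble group
-/

namespace Pool.Agent.NC79

open Finset Pool.Agent.Duplex38

/-- the direct product of the table `Q` and the Cayley table of the group `G` -/
def times {P P' P'' : Type} (Q : P → P' → P'') (G : Type) [Group G] (x : P × G) (y : P' × G) : P'' × G :=
  (Q x.1 y.1, x.2 * y.2)

section times

variable {G : Type} [Group G] {P P' P'' : Type} (Q : P → P' → P'') (N : Subgroup G) [N.Normal]

/-- the projection onto the product with a factor group -/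
def timesEpi : Epi (times Q G) (times Q (G ⧸ N)) where
  row x := (x.1, (x.2 : G ⧸ N))
  col x := (x.1, (x.2 : G ⧸ N))
  sym x := (x.1, (x.2 : G ⧸ N))
  row_surj x := by
    obtain ⟨a, ha⟩ := QuotientGroup.mk_surjective x.2
    exact ⟨(x.1, a), Prod.ext rfl ha⟩
  col_surj x := by
    obtain ⟨a, ha⟩ := QuotientGroup.mk_surjective x.2
    exact ⟨(x.1, a), Prod.ext rfl ha⟩
  sym_surj x := by
    obtain ⟨a, ha⟩ := QuotientGroup.mk_surjective x.2
    exact ⟨(x.1, a), Prod.ext rfl ha⟩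
  map _ _ := rfl

omit [N.Normal] in
/-- the second coordinates of a fibre -/
def fibreSnd {P₁ : Type} (x : P₁ × (G ⧸ N)) : {r : P₁ × G // (r.1, (r.2 : G ⧸ N)) = x} ≃
    {r : G // (r : G ⧸ N) = x.2} where
  toFun r := ⟨r.1.2, (Prod.ext_iff.1 r.2).2⟩
  invFun r := ⟨(x.1, r), Prod.ext rfl r.2⟩
  left_inv r := Subtype.ext (Prod.ext (Prod.ext_iff.1 r.2).1.symm rfl)
  right_inv _ := rfl

variable {A : Type} [AddCommGroup A] (φ : N ≃ A) (hφ : ∀ a b, φ (a * b) = φ a + φ b)

include hφ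

lemma timesBlock_model (r' : P × (G ⧸ N)) (c' : P' × (G ⧸ N)) (a : {r : P × G // (timesEpi Q N).row r = r'})
    (b : {c : P' × G // (timesEpi Q N).col c = c'}) :
    ((fibreSnd N (times Q (G ⧸ N) r' c')).trans ((symChart N r'.2 c'.2).trans φ))
      ((timesEpi Q N).block (rfl : times Q (G ⧸ N) r' c' = _) a b) =
      ((fibreSnd N r').trans ((rowChart N r'.2).trans φ)) a +
        ((fibreSnd N c').trans ((colChart N c'.2).trans φ)) b :=
  block_model N φ hφ r'.2 c'.2 (fibreSnd N r' a) (fibreSnd N c' b)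

/-- two blocks with the same symbols -/
lemma timesPair_blocks [Finite A] (r₁ r₂ : P × (G ⧸ N)) (c₁ c₂ : P' × (G ⧸ N)) (s : P'' × (G ⧸ N))
    (h₁ : times Q (G ⧸ N) r₁ c₁ = s) (h₂ : times Q (G ⧸ N) r₂ c₂ = s) :
    Pair ((timesEpi Q N).block h₁) ((timesEpi Q N).block h₂) := by
  have g₁ : cayley (G ⧸ N) r₁.2 c₁.2 = s.2 := congrArg Prod.snd h₁
  have g₂ : cayley (G ⧸ N) r₂.2 c₂.2 = s.2 := congrArg Prod.snd h₂
  obtain ⟨π₁, π₂, hπ⟩ := pair_blocks N φ hφ r₁.2 c₁.2 r₂.2 c₂.2 s.2 g₁ g₂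
  refine ⟨((fibreSnd N r₁).trans π₁).trans (fibreSnd N c₁).symm,
    ((fibreSnd N r₂).trans π₂).trans (fibreSnd N c₂).symm, fun z => ?_⟩
  rw [← hπ (fibreSnd N s z)]
  have key : ∀ (r' : P × (G ⧸ N)) (c' : P' × (G ⧸ N)) (k : times Q (G ⧸ N) r' c' = s)
      (g : cayley (G ⧸ N) r'.2 c'.2 = s.2)
      (π : {r : G // (groupEpi N).row r = r'.2} ≃ {c : G // (groupEpi N).col c = c'.2}),
      {a | (timesEpi Q N).block k a ((((fibreSnd N r').trans π).trans (fibreSnd N c').symm) a) = z}.ncard =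
      {a | (groupEpi N).block g a (π a) = fibreSnd N s z}.ncard := by
    intro r' c' k g π
    refine Set.ncard_congr (fun a _ => fibreSnd N r' a) (fun a ha => ?_) (fun a b _ _ e => (fibreSnd N r').injective e)
      (fun a ha => ?_)
    · have := congrArg (fibreSnd N s) (show _ = z from ha)
      exact this
    · refine ⟨(fibreSnd N r').symm a, ?_, (fibreSnd N r').apply_symm_apply a⟩
      apply (fibreSnd N s).injective
      refine Eq.trans ?_ (show _ = _ from ha)
      refine Subtype.ext ?_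
      change ((fibreSnd N r').symm a).1.2 *
        ((fibreSnd N c').symm (π (fibreSnd N r' ((fibreSnd N r').symm a)))).1.2 = (a : G) * (π a : G)
      rw [Equiv.apply_symm_apply]
      rfl
  exact congrArg₂ (· + ·) (key r₁ c₁ h₁ g₁ π₁) (key r₂ c₂ h₂ g₂ π₂)

omit hφ in
lemma timesFibre_ncard {P₁ : Type} [Finite G] (x : P₁ × (G ⧸ N)) :
    {r : P₁ × G | (r.1, (r.2 : G ⧸ N)) = x}.ncard = Nat.card N :=
  Nat.card_congr ((fibreSnd N x).trans (rowChart N x.2))

end times

section lift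

variable {G : Type} [Group G] [Finite G] {P P' P'' : Type} [Finite P] [Finite P'] [Finite P''] (Q : P → P' → P'')

/-- a small abelian kernel -/
theorem robust_times_of_kernel (N : Subgroup G) [N.Normal] (hN : ∀ a ∈ N, ∀ b ∈ N, a * b = b * a) {t : ℕ}
    (h : Robust (Nat.card N * t) (times Q (G ⧸ N))) : Robust t (times Q G) := by
  obtain ⟨A, iA, φ, hφ⟩ := exists_model N hN
  have _ : Finite A := Finite.of_equiv _ φ
  exact robust_of_quotient (timesEpi Q N) (fun r' => (timesFibre_ncard N r').le)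
    (fun r' => (timesFibre_ncard N r').le) (fun r' => (timesFibre_ncard N r').le) h
    fun r₁ c₁ r₂ c₂ s h₁ h₂ _ => timesPair_blocks Q N φ hφ r₁ r₂ c₁ c₂ s h₁ h₂

/-- a nice abelian normal subgroup -/
theorem robust_times_of_nice (N : Subgroup G) [N.Normal] (hD : ∃ D, IsDuplex (times Q (G ⧸ N)) D)
    {A : Type} [AddCommGroup A] (φ : N ≃ A) (hφ : ∀ a b, φ (a * b) = φ a + φ b) {t : ℕ} (hA : Nice t A) :
    Robust t (times Q G) := by
  have _ : Finite A := Finite.of_equiv _ φ
  obtain ⟨D', hD'⟩ := hD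
  rcases hA with hA | ⟨hcyc, hbig, hA⟩
  · refine robust_of_pair (timesEpi Q N) (diagonals_of_duplex hD') fun r' c' => ?_
    exact robustT_of_isotopic _ _ _ (timesBlock_model Q N φ hφ r' c') hA
  · have hbig' : 80000 * (t + 1) ≤ Nat.card A := by omega
    rcases hA with hA | ⟨hA, h3⟩
    · exact robust_of_cyclic_odd (timesEpi Q N) hD' (fun r' _ => (fibreSnd N r').trans ((rowChart N r'.2).trans φ))
        (fun c' => (fibreSnd N c').trans ((colChart N c'.2).trans φ))
        (fun r' c' => (fibreSnd N (times Q (G ⧸ N) r' c')).trans ((symChart N r'.2 c'.2).trans φ))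
        (fun r' c' a b => timesBlock_model Q N φ hφ r' c' a b) t hA hbig'
    · refine robust_of_cyclic_even (timesEpi Q N) hD' (fun r' _ => (fibreSnd N r').trans ((rowChart N r'.2).trans φ))
        (fun c' => (fibreSnd N c').trans ((colChart N c'.2).trans φ))
        (fun r' c' => (fibreSnd N (times Q (G ⧸ N) r' c')).trans ((symChart N r'.2 c'.2).trans φ))
        (fun r' c' a b => timesBlock_model Q N φ hφ r' c' a b) t hA h3 ?_ hbig'
      intro r₁ c₁ r₂ c₂ s s₀ h₁ h₁' h₂ h₂' hpar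
      exact par_conj N φ hφ r₁.2 c₁.2 r₂.2 c₂.2 s.2 s₀.2 (congrArg Prod.snd h₁) (congrArg Prod.snd h₁')
        (congrArg Prod.snd h₂) (congrArg Prod.snd h₂') hpar

end lift

end Pool.Agent.NC79
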