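import Pool.Agent.NC79.Abel

/-!
# Groups with an automorphism `ζ` such that `ζ² + ζ + 1 = 0`

The transversal `y = ζ x + a` of the addition table has two-parameter families of exchanges of three cells. All cells of
a set with at most `t` cells in each line are avoided by exchanges if the group has more than `9 t` elements.
-/

namespace Pool.Agent.NC79

open Finset

variable {G : Type} [AddCommGroup G] [Fintype G] [DecidableEq G]

/-- the three-cycle `x₁ → x₂ → x₃ → x₁` -/
lemma exists_cycle (x₁ x₂ x₃ : G) (h12 : x₁ ≠ x₂) (h13 : x₁ ≠ x₃) (h23 : x₂ ≠ x₃) :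
    ∃ c : Equiv.Perm G, c x₁ = x₂ ∧ c x₂ = x₃ ∧ c x₃ = x₁ ∧ ∀ x, x ≠ x₁ → x ≠ x₂ → x ≠ x₃ → c x = x := by
  refine ⟨Equiv.swap x₁ x₂ * Equiv.swap x₂ x₃, ?_, ?_, ?_, ?_⟩
  · rw [Equiv.Perm.mul_apply, Equiv.swap_apply_of_ne_of_ne h12 h13, Equiv.swap_apply_left]
  · rw [Equiv.Perm.mul_apply, Equiv.swap_apply_left, Equiv.swap_apply_of_ne_of_ne h13.symm h23.symm]
  · rw [Equiv.Perm.mul_apply, Equiv.swap_apply_right, Equiv.swap_apply_right]
  · intro x h1 h2 h3
    rw [Equiv.Perm.mul_apply, Equiv.swap_apply_of_ne_of_ne h2 h3, Equiv.swap_apply_of_ne_of_ne h1 h2]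

section step

variable (z : G →+ G) (hz : ∀ x, z (z x) + z x + x = 0)

include hz

lemma z_inj : Function.Injective z := by
  rw [injective_iff_map_eq_zero]
  intro x hx
  have := hz x
  rw [hx, map_zero, zero_add, zero_add] at this
  exact this

lemma one_add_z_inj : Function.Injective fun x => x + z x := by
  intro x y e
  simp only [] at e
  have h1 := hz x
  have h2 := hz y
  have h3 : z (z x) = z (z y) := by
    have h4 : z (z x) = -(x + z x) := by rw [eq_neg_iff_add_eq_zero, ← h1]; abel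
    have h5 : z (z y) = -(y + z y) := by rw [eq_neg_iff_add_eq_zero, ← h2]; abel
    rw [h4, h5, e]
  exact z_inj z hz (z_inj z hz h3)

/-- all bad cells are removed one after the other -/
lemma remove (t : ℕ) (ht : 9 * t < Fintype.card G) (a : G) (B : Finset (G × G))
    (hBr : ∀ r, (B.filter fun c => c.1 = r).card ≤ t) (hBc : ∀ r, (B.filter fun c => c.2 = r).card ≤ t)
    (hBs : ∀ r, (B.filter fun c => c.1 + c.2 = r).card ≤ t) (n : ℕ) :
    ∀ (U : Finset G) (π σ : Equiv.Perm G), (∀ x, x + π x = σ x) → (∀ x, x ∉ U → π x = z x + a) →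
      (∀ x ∈ U, (x, π x) ∉ B) → ((univ \ U).filter fun x => (x, z x + a) ∈ B).card = n → U.card + 3 * n ≤ 3 * t →
      ∃ π σ : Equiv.Perm G, ∀ x, x + π x = σ x ∧ (x, π x) ∉ B := by
  induction n with
  | zero =>
    intro U π σ h1 h2 h3 h4 _
    refine ⟨π, σ, fun x => ⟨h1 x, fun h => ?_⟩⟩
    by_cases hx : x ∈ U
    · exact h3 x hx h
    · rw [h2 x hx] at h
      have h6 : x ∈ (univ \ U).filter fun x => (x, z x + a) ∈ B :=
        mem_filter.2 ⟨mem_sdiff.2 ⟨mem_univ _, hx⟩, h⟩
      rw [card_eq_zero.1 h4] at h6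
      exact absurd h6 (notMem_empty _)
  | succ n ih =>
    intro U π σ h1 h2 h3 h4 h5
    obtain ⟨x₁, hx₁⟩ : ((univ \ U).filter fun x => (x, z x + a) ∈ B).Nonempty := by
      rw [← card_pos, h4]
      omega
    set Bad := (univ \ U).filter fun x => (x, z x + a) ∈ B with hBad
    have hx₁U : x₁ ∉ U := (mem_sdiff.1 (mem_filter.1 hx₁).1).2
    set V := U ∪ Bad with hV
    have hVcard : V.card ≤ 3 * t := by
      have := card_union_le U Bad
      rw [← hV] at this
      omega
    set e3 : G → G := fun x => x + z x - z x₁ with he3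
    have he3inj : Function.Injective e3 := fun x y e => one_add_z_inj z hz (sub_left_injective e)
    -- the exclusions
    set E1 := univ.filter fun x => e3 x ∈ V with hE1
    set E2 := univ.filter fun x => (x₁, z x + a) ∈ B with hE2
    set E3 := univ.filter fun x => (x, z (e3 x) + a) ∈ B with hE3
    set E4 := univ.filter fun x => (e3 x, z x₁ + a) ∈ B with hE4
    have c1 : E1.card ≤ 3 * t := by
      refine le_trans ?_ hVcard
      exact card_le_card_of_injOn e3 (fun x hx => (mem_filter.1 hx).2) he3inj.injOn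
    have c2 : E2.card ≤ t := by
      refine le_trans ?_ (hBr x₁)
      refine card_le_card_of_injOn (fun x => (x₁, z x + a)) (fun x hx => ?_) (fun x _ y _ e => ?_)
      · exact mem_filter.2 ⟨(mem_filter.1 hx).2, rfl⟩
      · exact z_inj z hz (add_left_injective a (Prod.mk.inj e).2)
    have hs3 : ∀ x, x + (z (e3 x) + a) = x₁ + z x₁ + a := fun x => by
      have k1 := hz x
      have k2 := hz x₁
      simp only [he3, map_add, map_sub]
      have k3 : x + (z x + z (z x) - z (z x₁) + a) = (z (z x) + z x + x) - (z (z x₁) + z x₁ + x₁) + (x₁ + z x₁ + a) := by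
        abel
      rw [k3, k1, k2, sub_zero, zero_add]
    have c3 : E3.card ≤ t := by
      refine le_trans ?_ (hBs (x₁ + z x₁ + a))
      refine card_le_card_of_injOn (fun x => (x, z (e3 x) + a)) (fun x hx => ?_) (fun x _ y _ e => ?_)
      · exact mem_filter.2 ⟨(mem_filter.1 hx).2, hs3 x⟩
      · exact (Prod.mk.inj e).1
    have c4 : E4.card ≤ t := by
      refine le_trans ?_ (hBc (z x₁ + a))
      refine card_le_card_of_injOn (fun x => (e3 x, z x₁ + a)) (fun x hx => ?_) (fun x _ y _ e => ?_)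
      · exact mem_filter.2 ⟨(mem_filter.1 hx).2, rfl⟩
      · exact he3inj (Prod.mk.inj e).1
    obtain ⟨x₂, hx₂⟩ : ∃ x, x ∉ V ∪ (E1 ∪ (E2 ∪ (E3 ∪ E4))) := by
      by_contra hcon
      push Not at hcon
      have k1 : Fintype.card G ≤ (V ∪ (E1 ∪ (E2 ∪ (E3 ∪ E4)))).card := by
        rw [← card_univ]
        exact card_le_card fun x _ => hcon x
      have k2 := card_union_le V (E1 ∪ (E2 ∪ (E3 ∪ E4)))
      have k3 := card_union_le E1 (E2 ∪ (E3 ∪ E4))
      have k4 := card_union_le E2 (E3 ∪ E4)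
      have k5 := card_union_le E3 E4
      omega
    simp only [mem_union, not_or] at hx₂
    obtain ⟨v2, v3, w1, w2, w3⟩ := hx₂
    set x₃ := e3 x₂ with hx₃
    have v3' : x₃ ∉ V := fun h => v3 (mem_filter.2 ⟨mem_univ _, h⟩)
    have w1' : (x₁, z x₂ + a) ∉ B := fun h => w1 (mem_filter.2 ⟨mem_univ _, h⟩)
    have w2' : (x₂, z x₃ + a) ∉ B := fun h => w2 (mem_filter.2 ⟨mem_univ _, h⟩)
    have w3' : (x₃, z x₁ + a) ∉ B := fun h => w3 (mem_filter.2 ⟨mem_univ _, h⟩)
    have hx₁V : x₁ ∈ V := mem_union_right _ hx₁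
    have n12 : x₁ ≠ x₂ := fun h => v2 (h ▸ hx₁V)
    have n13 : x₁ ≠ x₃ := fun h => v3' (h ▸ hx₁V)
    have n23 : x₂ ≠ x₃ := fun h => by
      have k1 : z x₂ - z x₁ = 0 := by
        have k2 : x₂ + z x₂ - z x₁ = x₂ := h.symm
        have k3 : z x₂ - z x₁ = (x₂ + z x₂ - z x₁) - x₂ := by abel
        rw [k3, k2, sub_self]
      exact n12 (z_inj z hz (sub_eq_zero.1 k1)).symm
    obtain ⟨c, hc1, hc2, hc3, hc⟩ := exists_cycle x₁ x₂ x₃ n12 n13 n23
    have hx₂U : x₂ ∉ U := fun h => v2 (mem_union_left _ h)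
    have hx₃U : x₃ ∉ U := fun h => v3' (mem_union_left _ h)
    have p1 := h2 x₁ hx₁U
    have p2 := h2 x₂ hx₂U
    have p3 := h2 x₃ hx₃U
    have s1 : σ x₁ = x₁ + z x₁ + a := by rw [← h1, p1, add_assoc]
    have s2 : σ x₂ = x₂ + z x₂ + a := by rw [← h1, p2, add_assoc]
    have s3 : σ x₃ = x₃ + z x₃ + a := by rw [← h1, p3, add_assoc]
    have i1 : c⁻¹ x₁ = x₃ := by rw [Equiv.Perm.inv_eq_iff_eq, hc3]
    have i2 : c⁻¹ x₂ = x₁ := by rw [Equiv.Perm.inv_eq_iff_eq, hc1]
    have i3 : c⁻¹ x₃ = x₂ := by rw [Equiv.Perm.inv_eq_iff_eq, hc2]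
    refine ih (insert x₁ (insert x₂ (insert x₃ U))) (π * c) (σ * c⁻¹) (fun x => ?_) (fun x hx => ?_) (fun x hx => ?_)
      ?_ ?_
    · rw [Equiv.Perm.mul_apply, Equiv.Perm.mul_apply]
      by_cases k1 : x = x₁
      · rw [k1, hc1, i1, p2, s3]
        simp only [hx₃, he3, map_add, map_sub]
        have k2 := hz x₂
        have k3 := hz x₁
        have k4 : x₂ + z x₂ - z x₁ + (z x₂ + z (z x₂) - z (z x₁)) + a =
            (z (z x₂) + z x₂ + x₂) - (z (z x₁) + z x₁ + x₁) + (x₁ + (z x₂ + a)) := by abel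
        rw [k4, k2, k3, sub_zero, zero_add]
      by_cases k2 : x = x₂
      · rw [k2, hc2, i2, p3, s1]
        exact hs3 x₂
      by_cases k3 : x = x₃
      · rw [k3, hc3, i3, p1, s2]
        simp only [hx₃, he3]
        abel
      · rw [hc x k1 k2 k3]
        have k4 : c⁻¹ x = x := by rw [Equiv.Perm.inv_eq_iff_eq, hc x k1 k2 k3]
        rw [k4, h1]
    · simp only [mem_insert, not_or] at hx
      rw [Equiv.Perm.mul_apply, hc x hx.1 hx.2.1 hx.2.2.1, h2 x hx.2.2.2]
    · rw [Equiv.Perm.mul_apply]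
      by_cases k1 : x = x₁
      · rw [k1, hc1, p2]
        exact w1'
      by_cases k2 : x = x₂
      · rw [k2, hc2, p3]
        exact w2'
      by_cases k3 : x = x₃
      · rw [k3, hc3, p1]
        exact w3'
      · simp only [mem_insert] at hx
        rcases hx with hx | hx | hx | hx
        · exact absurd hx k1
        · exact absurd hx k2
        · exact absurd hx k3
        · rw [hc x k1 k2 k3]
          exact h3 x hx
    · have k1 : ((univ \ insert x₁ (insert x₂ (insert x₃ U))).filter fun x => (x, z x + a) ∈ B) = Bad.erase x₁ := by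
        ext x
        simp only [hBad, mem_filter, mem_sdiff, mem_univ, true_and, mem_insert, not_or, mem_erase]
        constructor
        · rintro ⟨⟨k1, -, -, k2⟩, k3⟩
          exact ⟨k1, k2, k3⟩
        · rintro ⟨k1, k2, k3⟩
          refine ⟨⟨k1, fun k4 => ?_, fun k4 => ?_, k2⟩, k3⟩
          · exact v2 (mem_union_right _ (mem_filter.2 ⟨mem_sdiff.2 ⟨mem_univ _, hx₂U⟩, k4 ▸ k3⟩))
          · exact v3' (mem_union_right _ (mem_filter.2 ⟨mem_sdiff.2 ⟨mem_univ _, hx₃U⟩, k4 ▸ k3⟩))
      rw [k1, card_erase_of_mem hx₁, h4]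
      omega
    · have k1 := card_insert_le x₁ (insert x₂ (insert x₃ U))
      have k2 := card_insert_le x₂ (insert x₃ U)
      have k3 := card_insert_le x₃ U
      omega

/-- a transversal which avoids the cells of `B` -/
theorem avoid_zeta (t : ℕ) (ht : 9 * t < Fintype.card G) (B : Finset (G × G))
    (hBr : ∀ r, (B.filter fun c => c.1 = r).card ≤ t) (hBc : ∀ r, (B.filter fun c => c.2 = r).card ≤ t)
    (hBs : ∀ r, (B.filter fun c => c.1 + c.2 = r).card ≤ t) :
    ∃ π σ : Equiv.Perm G, ∀ x, x + π x = σ x ∧ (x, π x) ∉ B := by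
  obtain ⟨a, ha⟩ : ∃ a, (univ.filter fun x => (x, z x + a) ∈ B).card ≤ t := by
    by_contra hcon
    push Not at hcon
    have h1 : ∑ a : G, (univ.filter fun x => (x, z x + a) ∈ B).card = B.card := by
      rw [card_eq_sum_card_fiberwise (f := fun c : G × G => c.2 - z c.1) (t := univ) (fun _ _ => mem_univ _)]
      refine sum_congr rfl fun a _ => ?_
      refine card_bij (fun x _ => (x, z x + a)) (fun x hx => ?_) (fun x _ y _ e => (Prod.mk.inj e).1) fun c hc => ?_
      · refine mem_filter.2 ⟨(mem_filter.1 hx).2, ?_⟩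
        simp only [add_sub_cancel_left]
      · obtain ⟨k1, k2⟩ := mem_filter.1 hc
        have k3 : (c.1, z c.1 + a) = c := Prod.ext rfl (by rw [← k2]; simp)
        exact ⟨c.1, mem_filter.2 ⟨mem_univ _, by rw [k3]; exact k1⟩, k3⟩
    have h2 : B.card ≤ Fintype.card G * t := by
      rw [card_eq_sum_card_fiberwise (f := fun c : G × G => c.1) (t := univ) (fun _ _ => mem_univ _)]
      refine (sum_le_card_nsmul _ _ t fun r _ => hBr r).trans ?_
      rw [smul_eq_mul, card_univ]
    have h3 : Fintype.card G * (t + 1) ≤ ∑ a : G, (univ.filter fun x => (x, z x + a) ∈ B).card := by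
      have h4 := card_nsmul_le_sum (univ : Finset G) (fun a => (univ.filter fun x => (x, z x + a) ∈ B).card) (t + 1)
        fun a _ => hcon a
      rw [smul_eq_mul, card_univ] at h4
      exact h4
    rw [h1] at h3
    have h5 : 0 < Fintype.card G := by omega
    nlinarith
  set π : Equiv.Perm G := Equiv.ofBijective (fun x => z x + a)
    (Finite.injective_iff_bijective.1 fun x y e => z_inj z hz (add_left_injective a e)) with hπ
  set σ : Equiv.Perm G := Equiv.ofBijective (fun x => x + z x + a)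
    (Finite.injective_iff_bijective.1 fun x y e => one_add_z_inj z hz (add_left_injective a e)) with hσ
  refine remove z hz t ht a B hBr hBc hBs _ ∅ π σ (fun x => ?_) (fun x _ => rfl) (fun x hx => absurd hx (notMem_empty _))
    rfl ?_
  · rw [hπ, hσ, Equiv.ofBijective_apply, Equiv.ofBijective_apply, add_assoc]
  · rw [card_empty, sdiff_empty]
    omega

end step

end Pool.Agent.NC79
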